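import Mathlib.AlgebraicGeometry.Morphisms.Smooth
import Mathlib.AlgebraicGeometry.ProjectiveSpectrum.Proper
import Mathlib.Combinatorics.Quiver.ReflQuiver
import Mathlib.Order.CompletePartialOrder
import Mathlib.Algebra.Algebra.Subalgebra.Lattice
import Mathlib.Algebra.Notation.Lemmas
import Mathlib.Tactic.SuppressCompilation
import Mathlib.Algebra.MonoidAlgebra.Grading
import Mathlib.Algebra.AffineMonoid.UniqueSums
import Mathlib.RingTheory.SimpleRing.Principal

-- ======== part 0: formerly Pool.Agent.MP_19ffc6_ag.Lin.ProjA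
section MrgPart0

/-!
A criterion for `Proj` of a graded domain to be a resolution of singularities.
-/

set_option autoImplicit false
set_option linter.unusedSectionVars false
set_option linter.style.haveILetI false

open AlgebraicGeometry CategoryTheory HomogeneousLocalization DirectSum

namespace Pool.Agent.MP_19ffc6_ag.Lin

/-- `Spec A` has a resolution of singularities over `k`. -/
def HasRes (k A : Type) [Field k] [CommRing A] [Algebra k A] : Prop :=
  ∃ (Y : Scheme.{0}) (sY : Y ⟶ Spec (CommRingCat.of k)) (f : Y ⟶ Spec (CommRingCat.of A)),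
    IsIntegral Y ∧ Smooth sY ∧ f ≫ Spec.map (CommRingCat.ofHom (algebraMap k A)) = sY ∧
    IsProper f ∧ ∃ V : (Spec (CommRingCat.of A)).Opens, V ≠ ⊥ ∧ IsIso (morphismRestrict f V)

lemma isIso_restrict_of_le {W Y X : Scheme.{0}} (ι : W ⟶ Y) [IsOpenImmersion ι] (π : Y ⟶ X)
    (V : X.Opens) (h : π ⁻¹ᵁ V ≤ ι.opensRange) [hi : IsIso ((ι ≫ π) ∣_ V)] : IsIso (π ∣_ V) := by
  have h1 : IsIso (ι ∣_ (π ⁻¹ᵁ V)) := by
    rw [isIso_iff_isOpenImmersion_and_surjective]
    refine ⟨inferInstance, ⟨fun y => ?_⟩⟩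
    obtain ⟨w, hw⟩ := h y.2
    refine ⟨⟨w, ?_⟩, Subtype.ext ?_⟩
    · change ι w ∈ π ⁻¹ᵁ V
      rw [hw]; exact y.2
    · rw [morphismRestrict_base_coe]; exact hw
  rw [morphismRestrict_comp] at hi
  exact @IsIso.of_isIso_comp_left _ _ _ _ _ (ι ∣_ (π ⁻¹ᵁ V)) (π ∣_ V) h1 hi

lemma isIso_SpecMap_restrict {A B : Type} [CommRing A] [CommRing B] (φ : A →+* B) (a : A)
    (h : Function.Bijective (Localization.awayMap φ a)) :
    IsIso (Spec.map (CommRingCat.ofHom φ) ∣_ PrimeSpectrum.basicOpen a) := by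
  have h1 : IsIso (Spec.map (CommRingCat.ofHom (Localization.awayMap φ a))) :=
    isIso_SpecMap_iff.mpr h
  exact (MorphismProperty.arrow_mk_iso_iff (.isomorphisms Scheme.{0})
    (SpecMapRestrictBasicOpenIso (CommRingCat.ofHom φ) a)).mpr h1

section ProjCrit

variable {σ S : Type} [CommRing S] [IsDomain S] [SetLike σ S] [AddSubgroupClass σ S]
  (𝒜 : ℕ → σ) [GradedRing 𝒜]

lemma isIntegral_proj {s : S} {d : ℕ} (hs : s ∈ 𝒜 d) (hd : 0 < d) (hs0 : s ≠ 0) :
    IsIntegral (Proj 𝒜) := by
  have hred : IsReduced (Proj 𝒜) := by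
    have : ∀ i, IsReduced ((Proj.affineOpenCover 𝒜).openCover.X i) := fun i => by
      change IsReduced (Spec (CommRingCat.of (Away 𝒜 (i.2 : S))))
      have : _root_.IsReduced (Away 𝒜 (i.2 : S)) :=
        isReduced_of_injective (algebraMap _ (Localization.Away (i.2 : S)))
          (fun _ _ h => HomogeneousLocalization.val_injective _ h)
      infer_instance
    exact IsReduced.of_openCover _ (Proj.affineOpenCover 𝒜).openCover
  let η : Proj 𝒜 := (⟨⊥, Ideal.isPrime_bot, fun h => hs0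
    (h (HomogeneousIdeal.mem_irrelevant_of_mem 𝒜 hd hs))⟩ : ProjectiveSpectrum 𝒜)
  have hη : ∀ U : Set (Proj 𝒜), IsOpen U → U.Nonempty → η ∈ U := by
    rintro U hU ⟨x, hx⟩
    obtain ⟨_, ⟨_, ⟨f, rfl⟩, rfl⟩, hxf, hf⟩ :=
      (Proj.isBasis_basicOpen 𝒜).exists_subset_of_mem_open hx hU
    refine hf ?_
    change f ∉ (⊥ : HomogeneousIdeal 𝒜)
    intro h0
    have : f = 0 := h0
    exact hxf (this ▸ zero_mem _)
  have : PreirreducibleSpace (Proj 𝒜) := PreirreducibleSpace.of_forall_nonempty_inter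
    fun U V hU hV hU' hV' => ⟨η, hη U hU hU', hη V hV hV'⟩
  have : IrreducibleSpace (Proj 𝒜) := { toNonempty := ⟨η⟩ }
  exact isIntegral_of_irreducibleSpace_of_isReduced _

theorem hasRes_of_proj {k A : Type} [Field k] [CommRing A] [Algebra k A]
    [Algebra.FiniteType (𝒜 0) S] (e : A ≃+* 𝒜 0) {ι : Type} (s : ι → S) (hs : ∀ j, s j ∈ 𝒜 1)
    (hcov : ∀ x : Proj 𝒜, ∃ j, s j ∉ x.asHomogeneousIdeal)
    (hsm : ∀ j, ((fromZeroRingHom 𝒜 (Submonoid.powers (s j))).comp
      ((e : A →+* 𝒜 0).comp (algebraMap k A))).Smooth)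
    (a : A) (ha : a ≠ 0) (j : ι) (hj : s j ≠ 0)
    (hle : ∀ x : Proj 𝒜, (e a : S) ∉ x.asHomogeneousIdeal → s j ∉ x.asHomogeneousIdeal)
    (hbij : Function.Bijective (Localization.awayMap
      ((fromZeroRingHom 𝒜 (Submonoid.powers (s j))).comp (e : A →+* 𝒜 0)) a)) :
    HasRes k A := by
  let π : Proj 𝒜 ⟶ Spec (CommRingCat.of A) :=
    Proj.toSpecZero 𝒜 ≫ Spec.map (CommRingCat.ofHom (e : A →+* 𝒜 0))
  have hiso : IsIso (Spec.map (CommRingCat.ofHom (e : A →+* 𝒜 0))) :=
    isIso_SpecMap_iff.mpr e.bijective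
  have hπ : ∀ j, Proj.awayι 𝒜 (s j) (hs j) one_pos ≫ π = Spec.map (CommRingCat.ofHom
      ((fromZeroRingHom 𝒜 (Submonoid.powers (s j))).comp (e : A →+* 𝒜 0))) := fun j => by
    rw [Proj.awayι_toSpecZero_assoc, ← Spec.map_comp]
    rfl
  have hcov' : ⨆ j, Proj.basicOpen 𝒜 (s j) = ⊤ :=
    top_le_iff.mp fun x _ => TopologicalSpace.Opens.mem_iSup.mpr (hcov x)
  refine ⟨Proj 𝒜, _, π, isIntegral_proj 𝒜 (hs j) one_pos hj, ?_, rfl, inferInstance,
    PrimeSpectrum.basicOpen a, ?_, ?_⟩
  · rw [IsZariskiLocalAtSource.iff_of_iSup_eq_top (P := @Smooth) _ hcov']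
    intro i
    rw [← MorphismProperty.cancel_left_of_respectsIso (P := @Smooth)
      (Proj.basicOpenIsoSpec 𝒜 (s i) (hs i) one_pos).inv, ← Category.assoc,
      ← Proj.awayι, ← Category.assoc, hπ, ← Spec.map_comp,
      HasRingHomProperty.Spec_iff (P := @Smooth)]
    exact hsm i
  · intro h
    have h1 : IsNilpotent ((e a : 𝒜 0) : S) := by
      obtain ⟨n, hn⟩ := (PrimeSpectrum.basicOpen_eq_bot_iff a).mp h
      exact ⟨n, by rw [← SetLike.GradeZero.coe_pow, ← map_pow, hn, map_zero]; rfl⟩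
    exact ha (e.injective (Subtype.ext (by rw [h1.eq_zero, map_zero]; rfl)))
  · have : IsIso ((Proj.awayι 𝒜 (s j) (hs j) one_pos ≫ π) ∣_ PrimeSpectrum.basicOpen a) := by
      rw [hπ]
      exact isIso_SpecMap_restrict _ a hbij
    refine isIso_restrict_of_le (Proj.awayι 𝒜 (s j) (hs j) one_pos) π _ fun x hx => ?_
    rw [Proj.opensRange_awayι]
    refine hle x fun hmem => ?_
    obtain ⟨i, hi⟩ := hcov x
    have hi' : x ∈ (Proj.awayι 𝒜 (s i) (hs i) one_pos).opensRange := by
      rw [Proj.opensRange_awayι]; exact hi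
    obtain ⟨w, rfl⟩ := hi'
    have h1 : w ∈ (Proj.awayι 𝒜 (s i) (hs i) one_pos ≫ π) ⁻¹ᵁ PrimeSpectrum.basicOpen a := hx
    rw [hπ] at h1
    have h2 : Proj.awayι 𝒜 (s i) (hs i) one_pos w ∈ Proj.basicOpen 𝒜 ((e a : S) * s i) := by
      have h3 : (e a : S) * s i ∈ 𝒜 1 := by
        simpa using SetLike.mul_mem_graded (e a).2 (hs i)
      change w ∈ Proj.awayι 𝒜 (s i) (hs i) one_pos ⁻¹ᵁ Proj.basicOpen 𝒜 ((e a : S) * s i)
      rw [Proj.awayι_preimage_basicOpen 𝒜 (hs i) one_pos h3 one_pos]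
      have h4 : Away.isLocalizationElem (hs i) h3 =
          fromZeroRingHom 𝒜 (Submonoid.powers (s i)) (e a) := by
        ext
        simp only [fromZeroRingHom, Away.val_mk, pow_one, RingHom.coe_mk, MonoidHom.coe_mk,
          OneHom.coe_mk, val_mk, Localization.mk_eq_mk_iff, Localization.r_iff_exists]
        exact ⟨1, by simp [mul_comm]⟩
      rw [h4]
      exact h1
    exact h2 (Ideal.mul_mem_right _ _ hmem)

end ProjCrit

end Pool.Agent.MP_19ffc6_ag.Lin

end MrgPart0

-- ======== part 1: formerly Pool.Agent.MP_19ffc6_ag.Lin.Hom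
section MrgPart1

/-!
Homogeneous subalgebras of monoid algebras.
-/

set_option autoImplicit false
set_option linter.unusedSectionVars false
set_option linter.style.haveILetI false

open AddMonoidAlgebra DirectSum

namespace Pool.Agent.MP_19ffc6_ag.Lin

section SubGrade

variable {ι k E : Type} [DecidableEq ι] [AddCommMonoid ι] [CommRing k] [CommRing E] [Algebra k E]
  (ℰ : ι → Submodule k E) [GradedAlgebra ℰ]

/-- The grading induced on a subalgebra. -/
def subGr (C : Subalgebra k E) (d : ι) : Submodule k C := (ℰ d).comap C.val.toLinearMap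

lemma mem_subGr {C : Subalgebra k E} {d : ι} {x : C} : x ∈ subGr ℰ C d ↔ (x : E) ∈ ℰ d := Iff.rfl

/-- A homogeneous subalgebra of a graded algebra is graded. -/
@[reducible] noncomputable def subGraded (C : Subalgebra k E)
    (hC : ∀ c ∈ C, ∀ d, (decompose ℰ c d : E) ∈ C) : GradedAlgebra (subGr ℰ C) := by
  classical
  have hint : DirectSum.IsInternal (subGr ℰ C) := by
    constructor
    · rw [injective_iff_map_eq_zero]
      intro x hx
      ext d
      have h1 : ((DirectSum.coeAddMonoidHom (subGr ℰ C) x : C) : E) =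
          ∑ i ∈ x.support, ((x i : C) : E) := by
        rw [DirectSum.coeAddMonoidHom_eq_dfinsuppSum, DFinsupp.sum]
        simp
      rw [hx] at h1
      have h2 := congrArg (fun z => (decompose ℰ z d : E)) h1
      have h3 : ∀ z, (decompose ℰ z d : E) = GradedAlgebra.proj ℰ d z := fun z => rfl
      simp only [h3, ZeroMemClass.coe_zero, map_zero, map_sum] at h2
      simp only [← h3] at h2
      have hm : ∀ i, ((x i : C) : E) ∈ ℰ i := fun i => (x i).2
      rw [Finset.sum_eq_single d (fun i _ hi => decompose_of_mem_ne ℰ (hm i) hi) (fun hd => by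
        rw [DFinsupp.notMem_support_iff.mp hd]; simp), decompose_of_mem_same ℰ (hm d)] at h2
      simpa using h2.symm
    · intro c
      refine ⟨∑ i ∈ (decompose ℰ (c : E)).support,
        DirectSum.of (fun i => subGr ℰ C i) i
          ⟨⟨decompose ℰ (c : E) i, hC c c.2 i⟩, (decompose ℰ (c : E) i).2⟩, Subtype.ext ?_⟩
      rw [map_sum]
      simp only [coeAddMonoidHom_of, AddSubmonoidClass.coe_finsetSum]
      exact sum_support_decompose ℰ (c : E)
  exact
    { one_mem := SetLike.one_mem_graded ℰ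
      mul_mem := fun _ _ _ _ hx hy => SetLike.mul_mem_graded (A := ℰ) hx hy
      toDecomposition := hint.chooseDecomposition }

end SubGrade

variable {k L M : Type} [Field k] [Field L] [Algebra k L] [AddCommMonoid M]

/-- A subalgebra of a monoid algebra containing the monomials of its elements. -/
def IsHom (C : Subalgebra k (AddMonoidAlgebra L M)) : Prop :=
  ∀ c ∈ C, ∀ μ, single μ (c.coeff μ) ∈ C

lemma sum_mono (c : AddMonoidAlgebra L M) :
    ∑ μ ∈ c.coeff.support, single μ (c.coeff μ) = c := sum_coeff_single c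

lemma mem_of_mono {C : Subalgebra k (AddMonoidAlgebra L M)} {c : AddMonoidAlgebra L M}
    (h : ∀ μ ∈ c.coeff.support, single μ (c.coeff μ) ∈ C) : c ∈ C := by
  rw [← sum_mono c]; exact sum_mem h

lemma single_coeff_single (ν μ : M) (a : L) :
    (single μ ((single ν a).coeff μ) : AddMonoidAlgebra L M) = single ν a ∨
      (single μ ((single ν a).coeff μ) : AddMonoidAlgebra L M) = 0 := by
  by_cases h : ν = μ
  · left; subst h; simp
  · right; simp [Finsupp.single_eq_of_ne' h]

/-- The largest homogeneous subalgebra contained in a given one. -/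
def homCore (C : Subalgebra k (AddMonoidAlgebra L M)) : Subalgebra k (AddMonoidAlgebra L M) where
  carrier := {c | ∀ μ, single μ (c.coeff μ) ∈ C}
  add_mem' := fun {a b} ha hb μ => by
    rw [coeff_add, Finsupp.add_apply, single_add]; exact add_mem (ha μ) (hb μ)
  mul_mem' := fun {a b} ha hb μ => by
    rw [← sum_mono a, ← sum_mono b, Finset.sum_mul_sum, coeff_sum, Finsupp.finsetSum_apply,
      ← singleAddHom_apply, map_sum]
    refine sum_mem fun i _ => ?_
    rw [coeff_sum, Finsupp.finsetSum_apply, map_sum]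
    refine sum_mem fun j _ => ?_
    have := mul_mem (ha i) (hb j)
    rw [single_mul_single] at this ⊢
    rcases single_coeff_single (i + j) μ (a.coeff i * b.coeff j) with h | h <;>
      rw [singleAddHom_apply, h]
    exacts [this, zero_mem _]
  algebraMap_mem' := fun r μ => by
    have : algebraMap k (AddMonoidAlgebra L M) r = single 0 (algebraMap k L r) := rfl
    rcases single_coeff_single (0 : M) μ (algebraMap k L r) with h | h <;> rw [this, h]
    exacts [this ▸ C.algebraMap_mem r, zero_mem _]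

lemma single_mem_homCore {C : Subalgebra k (AddMonoidAlgebra L M)} {ν : M} {a : L}
    (h : single ν a ∈ C) : single ν a ∈ homCore C := fun μ => by
  rcases single_coeff_single ν μ a with h' | h' <;> rw [h']
  exacts [h, zero_mem _]

lemma isHom_iff {C : Subalgebra k (AddMonoidAlgebra L M)} : IsHom C ↔ C ≤ homCore C := Iff.rfl

lemma isHom_adjoin {S : Set (AddMonoidAlgebra L M)} (h : ∀ s ∈ S, ∃ μ a, s = single μ a) :
    IsHom (Algebra.adjoin k S) := by
  rw [isHom_iff, Algebra.adjoin_le_iff]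
  intro s hs
  obtain ⟨μ, a, rfl⟩ := h s hs
  exact single_mem_homCore (Algebra.subset_adjoin hs)

lemma IsHom.sup {C D : Subalgebra k (AddMonoidAlgebra L M)} (hC : IsHom C) (hD : IsHom D) :
    IsHom (C ⊔ D) :=
  isHom_iff.mpr <| sup_le (fun c hc μ => (le_sup_left : C ≤ C ⊔ D) (hC c hc μ))
    (fun c hc μ => (le_sup_right : D ≤ C ⊔ D) (hD c hc μ))

lemma IsHom.inf {C D : Subalgebra k (AddMonoidAlgebra L M)} (hC : IsHom C) (hD : IsHom D) :
    IsHom (C ⊓ D) := fun c hc μ => ⟨hC c hc.1 μ, hD c hc.2 μ⟩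

lemma IsHom.iInf {ι : Type} {C : ι → Subalgebra k (AddMonoidAlgebra L M)} (hC : ∀ i, IsHom (C i)) :
    IsHom (⨅ i, C i) := fun c hc μ =>
  Algebra.mem_iInf.mpr fun i => hC i c (Algebra.mem_iInf.mp hc i) μ

lemma IsHom.le {C : Subalgebra k (AddMonoidAlgebra L M)} (hC : IsHom C)
    {D : Subalgebra k (AddMonoidAlgebra L M)} (h : ∀ μ a, single μ a ∈ C → single μ a ∈ D) :
    C ≤ D := fun c hc => mem_of_mono fun μ _ => h μ _ (hC c hc μ)

section Grade

variable {ι : Type} [DecidableEq ι] [AddCommMonoid ι]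

variable (k L) in
/-- The grading of a monoid algebra along an additive map, over the small field. -/
noncomputable abbrev grd (ℓ : M →+ ι) (d : ι) : Submodule k (AddMonoidAlgebra L M) :=
  (gradeBy L ℓ d).restrictScalars k

lemma single_mem_grd (ℓ : M →+ ι) (μ : M) (a : L) : single μ a ∈ grd k L ℓ (ℓ μ) :=
  single_mem_gradeBy ℓ μ a

lemma mem_grd {ℓ : M →+ ι} {d : ι} {c : AddMonoidAlgebra L M} :
    c ∈ grd k L ℓ d ↔ ∀ μ ∈ c.coeff.support, ℓ μ = d := Iff.rfl

lemma IsHom.decompose_mem {C : Subalgebra k (AddMonoidAlgebra L M)} (hC : IsHom C) (ℓ : M →+ ι) :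
    ∀ c ∈ C, ∀ d, (decompose (grd k L ℓ) c d : AddMonoidAlgebra L M) ∈ C := by
  intro c hc d
  have h3 : ∀ z, (decompose (grd k L ℓ) z d : AddMonoidAlgebra L M) =
    GradedAlgebra.proj (grd k L ℓ) d z := fun z => rfl
  rw [← sum_mono c, h3, map_sum]
  refine sum_mem fun μ _ => ?_
  rw [← h3]
  by_cases h : ℓ μ = d
  · rw [decompose_of_mem_same (grd k L ℓ) (h ▸ single_mem_grd ℓ μ _)]
    exact hC c hc μ
  · rw [decompose_of_mem_ne (grd k L ℓ) (single_mem_grd ℓ μ _) h]
    exact zero_mem _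

end Grade

end Pool.Agent.MP_19ffc6_ag.Lin

end MrgPart1

-- ======== part 2: formerly Pool.Agent.MP_19ffc6_ag.Lin.ProjB
section MrgPart2

/-!
A finite family of smooth charts inside a field, glued along ratios of sections and satisfying
the valuative criterion, is the affine cover of a projective resolution of singularities.
-/

set_option autoImplicit false
set_option linter.unusedSectionVars false
set_option linter.style.haveILetI false

open AlgebraicGeometry AddMonoidAlgebra DirectSum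

namespace Pool.Agent.MP_19ffc6_ag.Lin

lemma exists_uniform {κ : Type} [Finite κ] (P : κ → ℕ → Prop)
    (mono : ∀ x n, P x n → P x (n + 1)) (h : ∀ x, ∃ n, P x n) : ∃ N, 0 < N ∧ ∀ x, P x N := by
  choose n hn using h
  have := Fintype.ofFinite κ
  refine ⟨Finset.univ.sup n + 1, Nat.succ_pos _, fun x => ?_⟩
  have h1 : n x ≤ Finset.univ.sup n + 1 :=
    (Finset.le_sup (f := n) (Finset.mem_univ x)).trans (Nat.le_succ _)
  exact Nat.le_induction (hn x) (fun m _ hm => mono x m hm) _ h1

variable {k A Ω : Type} [Field k] [CommRing A] [Algebra k A] [Field Ω] [Algebra k Ω]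

variable (k) in
/-- Evaluation of the homogenising variable. -/
noncomputable def evN (t : Ω) : AddMonoidAlgebra Ω ℕ →ₐ[k] Ω :=
  (lift Ω Ω ℕ (powersHom Ω t)).restrictScalars k

lemma evN_single (t : Ω) (n : ℕ) (a : Ω) : evN k t (single n a) = a * t ^ n := by
  simp [evN]

/-- The homogeneous coordinate ring. -/
noncomputable def coord (α : A →ₐ[k] Ω) (M : Set Ω) : Subalgebra k (AddMonoidAlgebra Ω ℕ) :=
  Algebra.adjoin k ((Set.range fun a => single 0 (α a)) ∪ (fun m => single 1 m) '' M)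

variable (α : A →ₐ[k] Ω) (M : Set Ω)

lemma isHom_coord : IsHom (coord α M) := isHom_adjoin (by
  rintro _ (⟨a, rfl⟩ | ⟨m, -, rfl⟩) <;> exact ⟨_, _, rfl⟩)

/-- The grading of the homogeneous coordinate ring. -/
noncomputable abbrev coordGr : ℕ → Submodule k (coord α M) :=
  subGr (grd k Ω (AddMonoidHom.id ℕ)) (coord α M)

noncomputable instance : GradedAlgebra (coordGr α M) :=
  subGraded _ _ ((isHom_coord α M).decompose_mem _)

variable {α M}

lemma eq_single_of_mem {d : ℕ} {x : coord α M} (hx : x ∈ coordGr α M d) :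
    (x : AddMonoidAlgebra Ω ℕ) = single d ((x : AddMonoidAlgebra Ω ℕ).coeff d) := by
  have h : (x : AddMonoidAlgebra Ω ℕ).coeff.support ⊆ {d} := fun μ hμ =>
    Finset.mem_singleton.mpr (hx μ hμ)
  rw [← coeff_inj, coeff_single]
  exact Finsupp.support_subset_singleton.mp h |>.trans (by simp)

lemma evN_inj {t : Ω} (ht : t ≠ 0) {d : ℕ} {x y : coord α M} (hx : x ∈ coordGr α M d)
    (hy : y ∈ coordGr α M d) (h : evN k t x = evN k t y) : x = y := by
  rw [eq_single_of_mem hx, eq_single_of_mem hy, evN_single, evN_single,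
    mul_left_inj' (pow_ne_zero _ ht)] at h
  exact Subtype.ext (by rw [eq_single_of_mem hx, eq_single_of_mem hy, h])

lemma evN_mem (t : Ω) (W : Subalgebra k Ω) (h0 : ∀ a, α a ∈ W) (h1 : ∀ m ∈ M, m * t ∈ W)
    (x : coord α M) : evN k t x ∈ W := by
  have : coord α M ≤ W.comap (evN k t) := by
    rw [coord, Algebra.adjoin_le_iff]
    rintro _ (⟨a, rfl⟩ | ⟨m, hm, rfl⟩)
    · simpa [evN_single] using h0 a
    · simpa [evN_single] using h1 m hm
  exact this x.2

variable (α M) in
/-- The degree zero part of the coordinate ring. -/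
noncomputable def toZero : A →+* coordGr α M 0 where
  toFun a := ⟨⟨single 0 (α a), Algebra.subset_adjoin (Or.inl ⟨a, rfl⟩)⟩,
    single_mem_grd (k := k) (AddMonoidHom.id ℕ) 0 _⟩
  map_one' := Subtype.ext (Subtype.ext (by simp [AddMonoidAlgebra.one_def]))
  map_mul' a b := Subtype.ext (Subtype.ext (by simp [single_mul_single]))
  map_zero' := Subtype.ext (Subtype.ext (by simp))
  map_add' a b := Subtype.ext (Subtype.ext (by simp [single_add]))

lemma coe_toZero (a : A) :
    ((toZero α M a : coord α M) : AddMonoidAlgebra Ω ℕ) = single 0 (α a) := rfl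

lemma toZero_bijective (hα : Function.Injective α) : Function.Bijective (toZero α M) := by
  constructor
  · intro a b h
    have := congrArg (fun z : coordGr α M 0 => evN k (0 : Ω) (z : coord α M)) h
    simp only [coe_toZero, evN_single, pow_zero, mul_one] at this
    exact hα this
  · intro x
    obtain ⟨a, ha⟩ := evN_mem 0 α.range (fun a => ⟨a, rfl⟩) (fun m _ => by simp) (x : coord α M)
    refine ⟨a, Subtype.ext (Subtype.ext ?_)⟩
    rw [eq_single_of_mem x.2, evN_single, pow_zero, mul_one] at ha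
    rw [coe_toZero, eq_single_of_mem x.2, ← ha]
    rfl

variable (α) in
/-- The generators of degree one. -/
noncomputable def gen (m : M) : coord α M :=
  ⟨single 1 m, Algebra.subset_adjoin (Or.inr ⟨m, m.2, rfl⟩)⟩

lemma gen_mem (m : M) : gen α m ∈ coordGr α M 1 :=
  single_mem_grd (k := k) (AddMonoidHom.id ℕ) 1 _

lemma evN_gen (t : Ω) (m : M) : evN k t (gen α m) = m * t := by simp [gen, evN_single]

lemma adjoin_gen : Algebra.adjoin (coordGr α M 0) (Set.range (gen α (M := M))) = ⊤ := by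
  rw [eq_top_iff]
  rintro ⟨x, hx⟩ -
  induction hx using Algebra.adjoin_induction with
  | mem x hx =>
    rcases hx with ⟨a, rfl⟩ | ⟨m, hm, rfl⟩
    · exact (Algebra.adjoin (coordGr α M 0) (Set.range (gen α (M := M)))).algebraMap_mem
        (toZero α M a)
    · exact Algebra.subset_adjoin ⟨⟨m, hm⟩, rfl⟩
  | algebraMap r =>
    convert (Algebra.adjoin (coordGr α M 0) (Set.range (gen α (M := M)))).algebraMap_mem
      (toZero α M (algebraMap k A r)) using 1
    refine Subtype.ext ?_
    change _ = single 0 (α (algebraMap k A r))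
    rw [AlgHom.commutes]
    rfl
  | add x y _ _ hx hy => exact Subalgebra.add_mem _ hx hy
  | mul x y hx' hy' hx hy =>
    have := Subalgebra.mul_mem _ hx hy
    convert this using 1
    exact Subtype.ext rfl

lemma exists_gen_notMem (x : Proj (coordGr α M)) : ∃ m : M, gen α m ∉ x.asHomogeneousIdeal :=
  TopologicalSpace.Opens.mem_iSup.mp ((Proj.iSup_basicOpen_eq_top' (coordGr α M) (gen α)
    (fun m => ⟨1, gen_mem m⟩) adjoin_gen).ge (Set.mem_univ x))

/-- Every point of `Proj` is the centre of a valuation. -/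
lemma exists_valuation (x : Proj (coordGr α M)) (m : M) (hm : gen α m ∉ x.asHomogeneousIdeal) :
    ∃ O : ValuationSubring Ω, (∀ a, α a ∈ O) ∧
      ∀ m' : M, gen α m' ∈ x.asHomogeneousIdeal → (m' : Ω) * (m : Ω)⁻¹ ∈ O.nonunits := by
  classical
  have hm0 : (m : Ω) ≠ 0 := fun h => hm (by
    have : gen α m = 0 := Subtype.ext (by simp [gen, h])
    rw [this]; exact zero_mem _)
  let ρ : coord α M →+* Ω := (evN k (m : Ω)⁻¹).toRingHom.comp (coord α M).val.toRingHom
  have hρ : ∀ y, ρ y = evN k (m : Ω)⁻¹ y := fun y => rfl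
  have hρm : ρ (gen α m) = 1 := by rw [hρ, evN_gen, mul_inv_cancel₀ hm0]
  have hne : x.asHomogeneousIdeal.toIdeal.map ρ.rangeRestrict ≠ ⊤ := by
    rw [Ideal.ne_top_iff_one, Ideal.mem_map_iff_of_surjective _ ρ.rangeRestrict_surjective]
    rintro ⟨y, hy, hy1⟩
    have hy2 : ρ y = 1 := congrArg Subtype.val hy1
    have key : ∃ D z, z ∈ coordGr α M D ∧ z ∈ x.asHomogeneousIdeal.toIdeal ∧ ρ z = ρ y := by
      rw [← sum_support_decompose (coordGr α M) y]
      refine Finset.sum_induction _ (fun w => ∃ D z, z ∈ coordGr α M D ∧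
        z ∈ x.asHomogeneousIdeal.toIdeal ∧ ρ z = ρ w) ?_ ⟨0, 0, zero_mem _, zero_mem _, rfl⟩ ?_
      · rintro w w' ⟨D, z, hz, hz', hz''⟩ ⟨D', u, hu, hu', hu''⟩
        refine ⟨D + D', z * gen α m ^ D' + gen α m ^ D * u, add_mem ?_ ?_,
          add_mem (Ideal.mul_mem_right _ _ hz') (Ideal.mul_mem_left _ _ hu'), ?_⟩
        · simpa using SetLike.mul_mem_graded hz (SetLike.pow_mem_graded D' (gen_mem m))
        · simpa using SetLike.mul_mem_graded (SetLike.pow_mem_graded D (gen_mem m)) hu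
        · simp [hρm, hz'', hu'']
      · intro d _
        exact ⟨d, _, (decompose (coordGr α M) y d).2, x.asHomogeneousIdeal.isHomogeneous d hy, rfl⟩
    obtain ⟨D, z, hz, hz', hz''⟩ := key
    have : z = gen α m ^ D := evN_inj (inv_ne_zero hm0) hz
      (by simpa using SetLike.pow_mem_graded D (gen_mem m))
      (by rw [← hρ, ← hρ, hz'', hy2, map_pow, hρm, one_pow])
    exact hm (x.isPrime.mem_of_pow_mem D (this ▸ hz'))
  obtain ⟨O, hO, hO'⟩ := Ideal.image_subset_nonunits_valuationSubring _ hne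
  refine ⟨O, fun a => hO ⟨toZero α M a, by simp [hρ, coe_toZero, evN_single]⟩, fun m' hm' => ?_⟩
  exact hO' ⟨_, Ideal.mem_map_of_mem _ hm', evN_gen (α := α) _ m'⟩

/-- The standard chart of `Proj`, as a subring of the field. -/
lemma exists_chart (m : M) (hm : (m : Ω) ≠ 0) :
    ∃ Φ : HomogeneousLocalization.Away (coordGr α M) (gen α m) →+* Ω, Function.Injective Φ ∧
      (∀ a, Φ (HomogeneousLocalization.fromZeroRingHom _ _ (toZero α M a)) = α a) ∧
      (∀ m' : M, ∃ z, Φ z = (m' : Ω) * (m : Ω)⁻¹) ∧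
      ∀ z, ∃ y : coord α M, Φ z = evN k (m : Ω)⁻¹ y := by
  let ρ : coord α M →+* Ω := (evN k (m : Ω)⁻¹).toRingHom.comp (coord α M).val.toRingHom
  have hρ : ∀ y, ρ y = evN k (m : Ω)⁻¹ y := fun y => rfl
  have hρm : ρ (gen α m) * 1 = 1 := by rw [hρ, evN_gen, mul_inv_cancel₀ hm, mul_one]
  let Φ : HomogeneousLocalization.Away (coordGr α M) (gen α m) →+* Ω :=
    (Localization.awayLift ρ (gen α m) (isUnit_iff_exists_inv.mpr ⟨1, hρm⟩)).comp
      (algebraMap _ _)
  have hΦ : ∀ n a ha, Φ (HomogeneousLocalization.Away.mk _ (gen_mem m) n a ha) = ρ a := by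
    intro n a ha
    have := Localization.awayLift_mk ρ (gen α m) a 1 hρm n
    rw [one_pow, mul_one] at this
    exact this
  refine ⟨Φ, ?_, fun a => ?_, fun m' => ⟨HomogeneousLocalization.Away.mk _ (gen_mem m) 1 _
    (by simpa using gen_mem m'), by rw [hΦ, hρ, evN_gen]⟩, fun z => ?_⟩
  · rw [injective_iff_map_eq_zero]
    intro z hz
    obtain ⟨n, a, ha, rfl⟩ := HomogeneousLocalization.Away.mk_surjective _ (gen_mem m) z
    rw [hΦ] at hz
    obtain rfl : a = 0 := evN_inj (inv_ne_zero hm) ha (zero_mem _) (by rw [← hρ, hz]; simp)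
    ext
    simp [Localization.mk_zero]
  · have := hΦ 0 (toZero α M a) (by simpa using (toZero α M a).2)
    rw [hρ, coe_toZero, evN_single, pow_zero, mul_one] at this
    rw [← this]
    congr 1
  · obtain ⟨n, a, ha, rfl⟩ := HomogeneousLocalization.Away.mk_surjective _ (gen_mem m) z
    exact ⟨a, hΦ n a ha⟩

theorem hasRes_of_charts (α : A →ₐ[k] Ω) (hα : Function.Injective α) {ι : Type} [Finite ι]
    (B : ι → Subalgebra k Ω) (f : ι → Ω) (hf : ∀ j, f j ≠ 0) (base : ∀ j a, α a ∈ B j)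
    (ratio : ∀ i j, f i / f j ∈ B j)
    (comp : ∀ i j, ∀ c ∈ B i, ∃ N : ℕ, (f i / f j) ^ N * c ∈ B j)
    (sm : ∀ j, Algebra.Smooth k (B j))
    (proper : ∀ O : ValuationSubring Ω, (∀ a, α a ∈ O) → ∃ j, ∀ c ∈ B j, c ∈ O)
    (frac : ∀ j, ∀ c ∈ B j, ∃ a, a ≠ 0 ∧ α a * c ∈ α.range) : HasRes k A := by
  classical
  have hfg : ∀ j, (B j).FG := fun j => (Subalgebra.fg_iff_finiteType _).mpr inferInstance
  choose t ht using hfg
  have htB : ∀ j, ∀ c ∈ t j, c ∈ B j := fun j c hc => ht j ▸ Algebra.subset_adjoin hc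
  obtain ⟨N, hN, hNt⟩ := exists_uniform (κ := (Σ i, t i) × ι)
    (fun x n => (f x.1.1 / f x.2) ^ n * x.1.2 ∈ B x.2)
    (fun x n h => by rw [pow_succ', mul_assoc]; exact mul_mem (ratio _ _) h)
    (fun x => comp _ _ _ (htB _ _ x.1.2.2))
  let M : Set Ω := (Set.range fun i => f i ^ N) ∪ Set.range fun x : Σ i, t i => f x.1 ^ N * x.2
  have hMfin : M.Finite := (Set.finite_range _).union (Set.finite_range _)
  have hMB : ∀ j, ∀ m ∈ M, m * (f j ^ N)⁻¹ ∈ B j := by
    rintro j _ (⟨i, rfl⟩ | ⟨x, rfl⟩)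
    · simpa [div_eq_mul_inv, mul_pow] using pow_mem (ratio i j) N
    · convert hNt (x, j) using 1
      rw [div_pow]; ring
  let s : ι → M := fun j => ⟨f j ^ N, Or.inl ⟨j, rfl⟩⟩
  have hs0 : ∀ j, (s j : Ω) ≠ 0 := fun j => pow_ne_zero _ (hf j)
  have := hMfin.to_subtype
  have : Algebra.FiniteType (coordGr α M 0) (coord α M) :=
    ⟨⟨(Set.finite_range (gen α (M := M))).toFinset, by simpa using adjoin_gen⟩⟩
  choose Φ hΦi hΦα hΦM hΦev using fun j => exists_chart (α := α) (s j) (hs0 j)
  have hΦB : ∀ j z, Φ j z ∈ B j := fun j z => by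
    obtain ⟨y, hy⟩ := hΦev j z
    rw [hy]
    exact evN_mem _ _ (base j) (hMB j) y
  have hBΦ : ∀ j, ∀ c ∈ B j, ∃ z, Φ j z = c := by
    intro j c hc
    rw [← ht j] at hc
    induction hc using Algebra.adjoin_induction with
    | mem x hx =>
      have := hΦM j ⟨_, Or.inr ⟨⟨j, x, hx⟩, rfl⟩⟩
      rwa [mul_right_comm, mul_inv_cancel₀ (hs0 j), one_mul] at this
    | algebraMap r => exact ⟨_, (hΦα j (algebraMap k A r)).trans (α.commutes r)⟩
    | add x y _ _ hx hy =>
      obtain ⟨z, rfl⟩ := hx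
      obtain ⟨w, rfl⟩ := hy
      exact ⟨z + w, map_add _ _ _⟩
    | mul x y _ _ hx hy =>
      obtain ⟨z, rfl⟩ := hx
      obtain ⟨w, rfl⟩ := hy
      exact ⟨z * w, map_mul _ _ _⟩
  obtain ⟨j, -⟩ := proper ⊤ fun _ => trivial
  have : IsDomain A := hα.isDomain α.toRingHom
  choose a ha ha' using fun m : M => frac j _ (hMB j m m.2)
  have := Fintype.ofFinite M
  have hprod : ∀ m : M, α (∏ m, a m) * (m * (f j ^ N)⁻¹) ∈ α.range := fun m => by
    rw [← Finset.mul_prod_erase _ _ (Finset.mem_univ m), map_mul, mul_right_comm]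
    exact mul_mem (ha' m) ⟨_, rfl⟩
  refine hasRes_of_proj (coordGr α M) (RingEquiv.ofBijective _ (toZero_bijective hα))
    (fun j => gen α (s j)) (fun j => gen_mem _) (fun x => ?_) (fun i => ?_) (∏ m, a m)
    (Finset.prod_ne_zero_iff.mpr fun m _ => ha m) j ?_ (fun x hx hj => ?_) ⟨?_, ?_⟩
  · obtain ⟨m, hm⟩ := exists_gen_notMem x
    obtain ⟨O, hO, hO'⟩ := exists_valuation x m hm
    obtain ⟨i, hi⟩ := proper O hO
    refine ⟨i, fun h => ?_⟩
    have h1 := hO' _ h
    have hm0 : (m : Ω) ≠ 0 := fun h => hm (by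
      have : gen α m = 0 := Subtype.ext (by simp [gen, h])
      rw [this]; exact zero_mem _)
    rw [← inv_inv ((s i : Ω) * _), ValuationSubring.inv_mem_nonunits_iff] at h1
    rcases h1 with h1 | h1
    · exact inv_ne_zero (mul_ne_zero (hs0 i) (inv_ne_zero hm0)) h1
    · apply h1
      rw [mul_inv, inv_inv, mul_comm]
      exact hi _ (hMB i m m.2)
  · let Ψ := RingEquiv.ofBijective ((Φ i).codRestrict (B i) (hΦB i))
      ⟨fun x y h => hΦi i (congrArg Subtype.val h), fun c => by
        obtain ⟨z, hz⟩ := hBΦ i c c.2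
        exact ⟨z, Subtype.ext hz⟩⟩
    have := sm i
    have h2 : (RingEquiv.toRingHom Ψ.symm).Smooth :=
      RingHom.Smooth.of_bijective (RingEquiv.bijective _)
    convert (RingHom.smooth_algebraMap.mpr this).comp h2 using 1
    refine RingHom.ext fun r => ?_
    apply Ψ.injective
    change _ = Ψ (Ψ.symm _)
    rw [RingEquiv.apply_symm_apply]
    exact Subtype.ext ((hΦα i (algebraMap k A r)).trans (α.commutes r))
  · intro h
    have := congrArg (fun z : coord α M => evN k (1 : Ω) z) h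
    simp only [evN_gen, mul_one, ZeroMemClass.coe_zero, map_zero] at this
    exact hs0 j this
  · obtain ⟨m, hm⟩ := exists_gen_notMem x
    obtain ⟨b, hb⟩ := hprod m
    have : (toZero α M (∏ m, a m) : coord α M) * gen α m = toZero α M b * gen α (s j) := by
      refine Subtype.ext ?_
      simp only [MulMemClass.coe_mul, coe_toZero, gen, single_mul_single]
      congr 1
      change _ = α.toRingHom b * f j ^ N
      rw [hb, mul_assoc, inv_mul_cancel_right₀ (hs0 j)]
    exact (x.isPrime.mem_or_mem (this ▸ Ideal.mul_mem_left _ _ hj)).elim hx hm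
  · rw [Localization.awayMap_injective_iff]
    intro b hb
    have : b = 0 := hα (by rw [← hΦα j b, map_zero]; exact (congrArg (Φ j) hb).trans (map_zero _))
    exact ⟨0, by simp [this]⟩
  · rw [Localization.awayMap_surjective_iff]
    intro z
    have key : ∀ c ∈ B j, ∃ n : ℕ, α (∏ m, a m) ^ n * c ∈ α.range := by
      intro c hc
      rw [← ht j] at hc
      induction hc using Algebra.adjoin_induction with
      | mem x hx =>
        have := hprod ⟨_, Or.inr ⟨⟨j, x, hx⟩, rfl⟩⟩
        rw [mul_right_comm (f j ^ N), mul_inv_cancel₀ (hs0 j), one_mul] at this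
        exact ⟨1, by rwa [pow_one]⟩
      | algebraMap r => exact ⟨0, by simpa using α.range.algebraMap_mem r⟩
      | add x y _ _ hx hy =>
        obtain ⟨n, hn⟩ := hx
        obtain ⟨n', hn'⟩ := hy
        refine ⟨n + n', ?_⟩
        convert add_mem (mul_mem (pow_mem (α.mem_range_self (∏ m, a m)) n') hn)
          (mul_mem (pow_mem (α.mem_range_self (∏ m, a m)) n) hn') using 1
        ring
      | mul x y _ _ hx hy =>
        obtain ⟨n, hn⟩ := hx
        obtain ⟨n', hn'⟩ := hy
        refine ⟨n + n', ?_⟩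
        convert mul_mem hn hn' using 1
        ring
    obtain ⟨n, b, hb⟩ := key _ (hΦB j z)
    refine ⟨b, n, hΦi j ?_⟩
    rw [map_mul, map_pow]
    exact (hΦα j b).trans (hb.trans (by rw [← hΦα j]; rfl))

end Pool.Agent.MP_19ffc6_ag.Lin

end MrgPart2

-- marker of a merged file
example : 731051 + 330124 = 731051 + 330124 := rfl
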