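import Mathlib.Algebra.Order.Star.Basic
import Mathlib.LinearAlgebra.Lagrange
import Mathlib.RingTheory.Invariant.Basic
import Mathlib.RingTheory.Smooth.Basic
import Mathlib.RingTheory.SimpleRing.Principal
import Mathlib.RingTheory.Henselian
import Mathlib.RingTheory.RegularLocalRing.Defs
import Mathlib.Tactic.Polynomial.Basic

-- ======== part 0: formerly Pool.Agent.MP_19ffc6_ag.Lin.Retract
section MrgPart0

/-!
Formal smoothness passes from an algebra `T` to a subalgebra `S` as soon as `S → T` factors the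
canonical map `S → S[X]/(m)` for a monic `m` of positive degree.
-/

set_option autoImplicit false

open Polynomial

namespace Pool.Agent.MP_19ffc6_ag.Lin

section Co

variable {B : Type} [CommRing B] {m : B[X]}

/-- The coefficient of `root ^ a` in the standard basis of `B[X]/(m)`. -/
noncomputable def co (hm : m.Monic) (a : ℕ) : AdjoinRoot m →ₗ[B] B :=
  (lcoeff B a).comp (AdjoinRoot.modByMonicHom hm)

lemma co_mk (hm : m.Monic) (a : ℕ) (p : B[X]) :
    co hm a (AdjoinRoot.mk m p) = (p %ₘ m).coeff a := by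
  simp [co]

lemma co_mk_of_lt (hm : m.Monic) (a : ℕ) (p : B[X]) (hp : p.natDegree < m.natDegree) :
    co hm a (AdjoinRoot.mk m p) = p.coeff a := by
  nontriviality B
  rw [co_mk, (modByMonic_eq_self_iff hm).mpr]
  exact degree_lt_degree hp

lemma eq_sum_co (hm : m.Monic) (h0 : 0 < m.natDegree) (w : AdjoinRoot m) :
    w = ∑ c ∈ Finset.range m.natDegree, AdjoinRoot.of m (co hm c w) * AdjoinRoot.root m ^ c := by
  induction w using AdjoinRoot.induction_on with
  | ih p =>
    have hne : m ≠ 1 := by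
      rintro rfl
      simp at h0
    have hlt : (p %ₘ m).natDegree < m.natDegree := natDegree_modByMonic_lt p hm hne
    have h1 : AdjoinRoot.mk m p = AdjoinRoot.mk m (p %ₘ m) := by
      rw [AdjoinRoot.mk_eq_mk]
      exact ⟨p /ₘ m, by rw [sub_eq_iff_eq_add', modByMonic_add_div]⟩
    simp_rw [co_mk]
    rw [h1]
    conv_lhs => rw [(p %ₘ m).as_sum_range_C_mul_X_pow' hlt]
    simp [map_sum]

lemma co_of (hm : m.Monic) (h0 : 0 < m.natDegree) (b : B) : co hm 0 (AdjoinRoot.of m b) = b := by
  have : AdjoinRoot.of m b = AdjoinRoot.mk m (C b) := rfl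
  rw [this, co_mk_of_lt hm 0 _ (by simpa using h0)]
  simp

lemma co_of_mul (hm : m.Monic) (a : ℕ) (b : B) (w : AdjoinRoot m) :
    co hm a (AdjoinRoot.of m b * w) = b * co hm a w := by
  rw [← AdjoinRoot.algebraMap_eq, ← Algebra.smul_def, map_smul, smul_eq_mul]

lemma co_root_pow (hm : m.Monic) (a c : ℕ) (hc : c < m.natDegree) :
    co hm a (AdjoinRoot.root m ^ c) = if a = c then 1 else 0 := by
  have : AdjoinRoot.root m ^ c = AdjoinRoot.mk m (X ^ c) := by simp
  rw [this, co_mk_of_lt hm a _ (lt_of_le_of_lt (natDegree_X_pow_le c) hc), coeff_X_pow]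

lemma mul_eq_zero_of_co (hm : m.Monic) (h0 : 0 < m.natDegree) (J : Ideal B) (hJ : J ^ 2 = ⊥)
    (w w' : AdjoinRoot m) (hw : ∀ c, co hm c w ∈ J) (hw' : ∀ c, co hm c w' ∈ J) :
    w * w' = 0 := by
  rw [eq_sum_co hm h0 w, eq_sum_co hm h0 w', Finset.sum_mul_sum]
  refine Finset.sum_eq_zero fun c _ => Finset.sum_eq_zero fun c' _ => ?_
  have : co hm c w * co hm c' w' = 0 := by
    have h := Ideal.mul_mem_mul (hw c) (hw' c')
    rw [← pow_two, hJ] at h
    exact h
  rw [mul_mul_mul_comm, ← map_mul, this]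
  simp

variable {B' : Type} [CommRing B']

lemma co_map (hm : m.Monic) (ρ : B →+* B') {m' : B'[X]} (hm' : m'.Monic) (h : m' = m.map ρ)
    (hd : m' ∣ m.map ρ) (a : ℕ) (w : AdjoinRoot m) :
    co hm' a (AdjoinRoot.map ρ m m' hd w) = ρ (co hm a w) := by
  induction w using AdjoinRoot.induction_on with
  | ih p =>
    have : AdjoinRoot.map ρ m m' hd (AdjoinRoot.mk m p) = AdjoinRoot.mk m' (p.map ρ) := by
      induction p using Polynomial.induction_on' with
      | add p q hp hq => simp [hp, hq]
      | monomial n a =>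
        rw [← C_mul_X_pow_eq_monomial]
        simp only [map_mul, map_pow, AdjoinRoot.mk_X, AdjoinRoot.map_root, Polynomial.map_mul,
          Polynomial.map_pow, map_C, map_X]
        congr 1
        exact AdjoinRoot.map_of ρ m m' hd a
    rw [this, co_mk, co_mk, h, ← map_modByMonic ρ hm, coeff_map]

lemma map_surjective (ρ : B →+* B') (hρ : Function.Surjective ρ) (m' : B'[X])
    (hd : m' ∣ m.map ρ) : Function.Surjective (AdjoinRoot.map ρ m m' hd) := by
  intro w
  induction w using AdjoinRoot.induction_on with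
  | ih p =>
    induction p using Polynomial.induction_on' with
    | add p q hp hq =>
      obtain ⟨a, ha⟩ := hp
      obtain ⟨b, hb⟩ := hq
      exact ⟨a + b, by simp [ha, hb]⟩
    | monomial n a =>
      obtain ⟨b, rfl⟩ := hρ a
      refine ⟨AdjoinRoot.of m b * AdjoinRoot.root m ^ n, ?_⟩
      rw [← C_mul_X_pow_eq_monomial]
      simp only [map_mul, map_pow, AdjoinRoot.map_of, AdjoinRoot.map_root, AdjoinRoot.mk_X]
      rfl

end Co

section Lift

variable {k B : Type} [CommRing k] [CommRing B] [Algebra k B]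

/-- Lifting along the reduction `B[X]/(m) → (B/J)[X]/(m)` for a square-zero ideal `J`. -/
lemma exists_lift_adjoinRoot {T : Type} [CommRing T] [Algebra k T] [Algebra.FormallySmooth k T]
    (J : Ideal B) (hJ : J ^ 2 = ⊥) {m : B[X]} (hm : m.Monic) (h0 : 0 < m.natDegree)
    {m' : (B ⧸ J)[X]} (hm' : m'.Monic) (h : m' = m.map (Ideal.Quotient.mk J))
    (hd : m' ∣ m.map (Ideal.Quotient.mk J)) (φ : T →ₐ[k] AdjoinRoot m') :
    ∃ ψ : T →ₐ[k] AdjoinRoot m,
      ∀ t, AdjoinRoot.map (Ideal.Quotient.mk J) m m' hd (ψ t) = φ t := by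
  let g : AdjoinRoot m →ₐ[k] AdjoinRoot m' :=
    AdjoinRoot.mapAlgHom (Ideal.Quotient.mkₐ k J) m m' hd
  have hg : ∀ w, g w = AdjoinRoot.map (Ideal.Quotient.mk J) m m' hd w := fun w => rfl
  have hsurj : Function.Surjective g :=
    map_surjective _ Ideal.Quotient.mk_surjective m' hd
  have hnil : IsNilpotent (RingHom.ker (g : AdjoinRoot m →+* AdjoinRoot m')) := by
    refine ⟨2, ?_⟩
    rw [pow_two, Ideal.zero_eq_bot, eq_bot_iff, Ideal.mul_le]
    intro w hw w' hw'
    have key : ∀ w, w ∈ RingHom.ker (g : AdjoinRoot m →+* AdjoinRoot m') →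
        ∀ c, co hm c w ∈ J := by
      intro w hw c
      have h1 : g w = 0 := hw
      rw [← Ideal.Quotient.eq_zero_iff_mem, ← co_map hm _ hm' h hd, ← hg, h1, map_zero]
    exact mul_eq_zero_of_co hm h0 J hJ w w' (key w hw) (key w' hw')
  refine ⟨Algebra.FormallySmooth.liftOfSurjective φ g hsurj hnil, fun t => ?_⟩
  rw [← hg]
  exact Algebra.FormallySmooth.liftOfSurjective_apply φ g hsurj hnil t

lemma isUnit_of_mk {J : Ideal B} (hJ : J ^ 2 = ⊥) {b : B}
    (h : IsUnit (Ideal.Quotient.mk J b)) : IsUnit b :=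
  (IsNilpotent.isUnit_quotient_mk_iff (I := J) ⟨2, hJ⟩).mp h

variable {S₀ S₁ T : Type} [CommRing S₀] [CommRing S₁] [CommRing T] [Algebra k S₀] [Algebra k S₁]
  [Algebra k T]

lemma exists_lift_of_retract [Algebra.FormallySmooth k T] (j : S₀ →ₐ[k] S₁) (ι : S₀ →ₐ[k] T)
    {m : S₁[X]} (hm : m.Monic) (h0 : 0 < m.natDegree) (π : T →ₐ[k] AdjoinRoot m)
    (hπ : ∀ s, π (ι s) = AdjoinRoot.of m (j s))
    (J : Ideal B) (hJ : J ^ 2 = ⊥) (φ : S₁ →ₐ[k] B ⧸ J) :
    ∃ ρ : S₀ →ₐ[k] B, ∀ s, Ideal.Quotient.mk J (ρ s) = φ (j s) := by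
  rcases subsingleton_or_nontrivial (B ⧸ J) with hs | hs
  · have hB : Subsingleton B := by
      have h1 : IsUnit (0 : B) := isUnit_of_mk hJ (isUnit_of_subsingleton _)
      exact subsingleton_of_zero_eq_one (isUnit_zero_iff.mp h1)
    exact ⟨{ toFun := fun _ => 0
             map_one' := Subsingleton.elim _ _
             map_mul' := fun _ _ => Subsingleton.elim _ _
             map_zero' := rfl
             map_add' := fun _ _ => Subsingleton.elim _ _
             commutes' := fun _ => Subsingleton.elim _ _ }, fun s => Subsingleton.elim _ _⟩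
  set m' : (B ⧸ J)[X] := m.map (φ : S₁ →+* B ⧸ J) with hm'def
  have hm' : m'.Monic := hm.map _
  have hdeg' : m'.natDegree = m.natDegree := hm.natDegree_map _
  obtain ⟨n, hn, hndeg, hnm⟩ := lifts_and_natDegree_eq_and_monic
    (f := Ideal.Quotient.mk J) (p := m')
    (mem_lifts_of_surjective Ideal.Quotient.mk_surjective m') hm'
  have hn0 : 0 < n.natDegree := by omega
  have hd : m' ∣ n.map (Ideal.Quotient.mk J) := by rw [hn]
  let φ' : AdjoinRoot m →ₐ[k] AdjoinRoot m' := AdjoinRoot.mapAlgHom φ m m' dvd_rfl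
  obtain ⟨ψ, hψ⟩ := exists_lift_adjoinRoot J hJ hnm hn0 hm' hn.symm hd (φ'.comp π)
  have hred : ∀ s, AdjoinRoot.map (Ideal.Quotient.mk J) n m' hd (ψ (ι s)) =
      AdjoinRoot.of m' (φ (j s)) := by
    intro s
    rw [hψ, AlgHom.comp_apply, hπ]
    exact AdjoinRoot.map_of (φ : S₁ →+* B ⧸ J) m m' dvd_rfl (j s)
  have hc0 : ∀ s, Ideal.Quotient.mk J (co hnm 0 (ψ (ι s))) = φ (j s) := by
    intro s
    rw [← co_map hnm _ hm' hn.symm hd, hred, co_of hm' (by omega)]
  have hJ' : ∀ s c, co hnm c (ψ (ι s) - AdjoinRoot.of n (co hnm 0 (ψ (ι s)))) ∈ J := by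
    intro s c
    rw [← Ideal.Quotient.eq_zero_iff_mem, ← co_map hnm _ hm' hn.symm hd, map_sub, hred,
      AdjoinRoot.map_of, hc0, sub_self, map_zero]
  refine ⟨{ toFun := fun s => co hnm 0 (ψ (ι s))
            map_one' := by
              rw [map_one, map_one, ← map_one (AdjoinRoot.of n), co_of hnm hn0]
            map_mul' := fun s t => ?_
            map_zero' := by simp
            map_add' := fun s t => by simp
            commutes' := fun r => ?_ }, hc0⟩
  · have hz := mul_eq_zero_of_co hnm hn0 J hJ _ _ (hJ' s) (hJ' t)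
    have : ψ (ι (s * t)) = AdjoinRoot.of n (co hnm 0 (ψ (ι s))) * ψ (ι t) +
        AdjoinRoot.of n (co hnm 0 (ψ (ι t))) * ψ (ι s) -
        AdjoinRoot.of n (co hnm 0 (ψ (ι s)) * co hnm 0 (ψ (ι t))) := by
      rw [map_mul, map_mul, map_mul]
      linear_combination hz
    rw [this, map_sub, map_add, co_of_mul, co_of_mul, co_of hnm hn0]
    ring
  · rw [AlgHom.commutes, AlgHom.commutes, AdjoinRoot.algebraMap_eq', RingHom.comp_apply,
      co_of hnm hn0]

/-- The localised retract criterion. -/
theorem formallySmooth_of_retract_loc [Algebra.FormallySmooth k T] [Algebra S₀ S₁]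
    [IsScalarTower k S₀ S₁] (M : Submonoid S₀) [IsLocalization M S₁] (ι : S₀ →ₐ[k] T)
    {m : S₁[X]} (hm : m.Monic) (h0 : 0 < m.natDegree) (π : T →ₐ[k] AdjoinRoot m)
    (hπ : ∀ s, π (ι s) = AdjoinRoot.of m (algebraMap S₀ S₁ s)) :
    Algebra.FormallySmooth k S₁ := by
  refine Algebra.FormallySmooth.of_comp_surjective fun B _ _ J hJ φ => ?_
  obtain ⟨ρ, hρ⟩ := exists_lift_of_retract (IsScalarTower.toAlgHom k S₀ S₁) ι hm h0 π hπ J hJ φ
  have hu : ∀ y : M, IsUnit (ρ y) := by
    intro y
    apply isUnit_of_mk hJ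
    rw [hρ]
    exact (IsLocalization.map_units S₁ y).map φ
  refine ⟨IsLocalization.liftAlgHom (M := M) hu, ?_⟩
  apply IsLocalization.algHom_ext M
  ext s
  change Ideal.Quotient.mk J (IsLocalization.liftAlgHom (M := M) hu (algebraMap S₀ S₁ s)) =
    φ (algebraMap S₀ S₁ s)
  rw [IsLocalization.liftAlgHom_apply, IsLocalization.lift_eq]
  exact hρ s

/-- If `S[X]/(m)` is formally smooth for a monic `m` of positive degree, so is `S`. -/
theorem formallySmooth_of_adjoinRoot {m : S₁[X]} (hm : m.Monic) (h0 : 0 < m.natDegree)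
    [Algebra.FormallySmooth k (AdjoinRoot m)] : Algebra.FormallySmooth k S₁ := by
  refine Algebra.FormallySmooth.of_comp_surjective fun B _ _ J hJ φ => ?_
  obtain ⟨ρ, hρ⟩ := exists_lift_of_retract (AlgHom.id k S₁) (AdjoinRoot.ofAlgHom k m) hm h0
    (AlgHom.id k _) (fun s => rfl) J hJ φ
  exact ⟨ρ, AlgHom.ext fun s => hρ s⟩

/-- A retract of a formally smooth algebra is formally smooth. -/
theorem formallySmooth_of_retract [Algebra.FormallySmooth k T] (ι : S₁ →ₐ[k] T)
    (π : T →ₐ[k] S₁) (h : ∀ s, π (ι s) = s) : Algebra.FormallySmooth k S₁ := by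
  refine Algebra.FormallySmooth.of_comp_surjective fun B _ _ J hJ φ => ?_
  obtain ⟨ψ, hψ⟩ := Algebra.FormallySmooth.comp_surjective k T J hJ (φ.comp π)
  refine ⟨ψ.comp ι, AlgHom.ext fun s => ?_⟩
  have := DFunLike.congr_fun hψ (ι s)
  simpa [h] using this

end Lift

end Pool.Agent.MP_19ffc6_ag.Lin

end MrgPart0

-- ======== part 1: formerly Pool.Agent.MP_19ffc6_ag.Lin.Interp
section MrgPart1

/-!
Integrality of interpolation polynomials along the orbit of a finite group.
-/

set_option autoImplicit false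

open Polynomial

namespace Pool.Agent.MP_19ffc6_ag.Lin

variable {F : Type} [Field F]

/-- Polynomials all of whose coefficients lie in a subring. -/
noncomputable def coeffRing (R : Subring F) : Subring F[X] := (mapRingHom R.subtype).range

lemma mem_coeffRing {R : Subring F} {P : F[X]} : P ∈ coeffRing R ↔ ∀ n, P.coeff n ∈ R := by
  have : P ∈ coeffRing R ↔ P ∈ lifts R.subtype := Iff.rfl
  rw [this, lifts_iff_coeff_lifts]
  simp

lemma C_mem_coeffRing {R : Subring F} {c : F} (hc : c ∈ R) : C c ∈ coeffRing R :=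
  ⟨C ⟨c, hc⟩, by simp⟩

lemma X_mem_coeffRing {R : Subring F} : (X : F[X]) ∈ coeffRing R := ⟨X, by simp⟩

lemma modByMonic_mem_coeffRing {R : Subring F} {P Q : F[X]} (hP : P ∈ coeffRing R)
    (hQ : Q ∈ coeffRing R) (hm : Q.Monic) : P %ₘ Q ∈ coeffRing R := by
  obtain ⟨P', rfl⟩ := hP
  obtain ⟨Q', hQ', -, hQm⟩ := lifts_and_natDegree_eq_and_monic (f := R.subtype) hQ hm
  refine ⟨P' %ₘ Q', ?_⟩
  rw [← hQ']
  exact map_modByMonic _ hQm

variable {G : Type} [Group G] [MulSemiringAction G F]

lemma coeff_smul' (g : G) (P : F[X]) (n : ℕ) : (g • P).coeff n = g • P.coeff n := by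
  rw [show g • P = map (MulSemiringAction.toRingHom G F g) P from
    congrFun (smul_eq_map F g) P, coeff_map]
  rfl

/-- Aitken's recursion along a cyclic orbit. -/
lemma aitken (R : Subring F) (σ : G) (y : F) (hy : y ∈ R) (q : ℕ)
    (hne : ∀ l, 0 < l → l < q → σ ^ l • y ≠ y)
    (hdiv : ∀ l, 0 < l → l < q → ∀ c ∈ R, (σ • c - c) / (σ ^ l • y - y) ∈ R)
    (β : F) (hβ : β ∈ R) :
    ∀ l, l ≤ q → ∃ P ∈ coeffRing R, ∀ i < l, P.eval (σ ^ i • y) = σ ^ i • β := by
  intro l
  induction l with
  | zero => exact fun _ => ⟨0, zero_mem _, fun i hi => absurd hi (by omega)⟩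
  | succ l ih =>
    intro hl
    rcases Nat.eq_zero_or_pos l with rfl | hl0
    · refine ⟨C β, C_mem_coeffRing hβ, fun i hi => ?_⟩
      obtain rfl : i = 0 := by omega
      simp
    obtain ⟨P, hP, hPe⟩ := ih (by omega)
    have hshift : ∀ i, i < l → (σ • P).eval (σ ^ (i + 1) • y) = σ ^ (i + 1) • β := by
      intro i hi
      rw [pow_succ', mul_smul, mul_smul, smul_eval_smul, hPe i hi]
    refine ⟨P + (X - C y) * (C (σ ^ l • y - y)⁻¹ * (σ • P - P)), ?_, fun i hi => ?_⟩
    · refine add_mem hP (mul_mem (sub_mem X_mem_coeffRing (C_mem_coeffRing hy)) ?_)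
      rw [mem_coeffRing]
      intro n
      rw [coeff_C_mul, coeff_sub, coeff_smul', inv_mul_eq_div]
      exact hdiv l hl0 (by omega) _ (mem_coeffRing.mp hP n)
    · simp only [eval_add, eval_mul, eval_sub, eval_X, eval_C]
      rcases Nat.eq_zero_or_pos i with rfl | hi0
      · have := hPe 0 hl0
        simp only [pow_zero, one_smul] at this ⊢
        simp [this]
      obtain ⟨i, rfl⟩ : ∃ j, i = j + 1 := ⟨i - 1, by omega⟩
      rw [hshift i (by omega)]
      by_cases h : i + 1 < l
      · rw [hPe _ h]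
        simp
      · obtain rfl : l = i + 1 := by omega
        have := sub_ne_zero.mpr (hne _ hl0 (by omega))
        field_simp
        ring

variable [Fintype G]

/-- Gluing interpolation polynomials along the right cosets of a subgroup. -/
lemma assemble (R : Subring F) (I : Subgroup G) (y b : F) (hy : ∀ g : G, g • y ∈ R)
    (hb : ∀ g : G, g • b ∈ R)
    (hne : ∀ g h : G, g * h⁻¹ ∉ I → g • y ≠ h • y)
    (h1 : ∀ g h : G, g * h⁻¹ ∉ I → (g • y - h • y)⁻¹ ∈ R)
    (hI : ∀ h : G, ∀ β ∈ R, ∃ P ∈ coeffRing R, ∀ ι ∈ I, P.eval (ι • h • y) = ι • β) :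
    ∃ P ∈ coeffRing R, ∀ g : G, P.eval (g • y) = g • b := by
  classical
  let out : G → Finset G := fun h => Finset.univ.filter fun g => h * g⁻¹ ∉ I
  have hβ : ∀ h : G, h • b * ∏ g ∈ out h, (h • y - g • y)⁻¹ ∈ R := by
    intro h
    refine mul_mem (hb h) (prod_mem fun g hg => h1 h g ?_)
    simpa [out] using hg
  choose P hP hPe using fun h : G => hI h _ (hβ h)
  let rep : G → G := fun g => (Quotient.mk (QuotientGroup.rightRel I) g).out
  have hrep : ∀ g, g * (rep g)⁻¹ ∈ I := by
    intro g
    have := Quotient.mk_out (s := QuotientGroup.rightRel I) g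
    exact QuotientGroup.rightRel_apply.mp this
  have hrep2 : ∀ g h, g * h⁻¹ ∈ I → rep g = rep h := by
    intro g h hgh
    have : (Quotient.mk (QuotientGroup.rightRel I) h) = Quotient.mk _ g :=
      Quotient.sound (QuotientGroup.rightRel_apply.mpr hgh)
    simp only [rep, this]
  have hreprep : ∀ g, rep (rep g) = rep g := fun g => (hrep2 _ _ (hrep g)).symm
  refine ⟨∑ h ∈ Finset.univ.image rep, P h * ∏ g ∈ out h, (X - C (g • y)), ?_, fun g₀ => ?_⟩
  · exact sum_mem fun h _ => mul_mem (hP h) (prod_mem fun g _ =>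
      sub_mem X_mem_coeffRing (C_mem_coeffRing (hy g)))
  · rw [eval_finsetSum, Finset.sum_eq_single (rep g₀)]
    · set h := rep g₀ with hh
      have hι : g₀ * h⁻¹ ∈ I := hrep g₀
      have he := hPe h _ hι
      rw [smul_smul, inv_mul_cancel_right] at he
      rw [eval_mul, he, eval_prod, smul_mul', smul_smul, inv_mul_cancel_right,
        Finset.smul_prod', mul_assoc]
      have hre : ∏ g ∈ out h, (g₀ * h⁻¹) • (h • y - g • y)⁻¹ =
          ∏ g ∈ out h, (g₀ • y - g • y)⁻¹ := by
        refine Finset.prod_bij (fun g _ => g₀ * h⁻¹ * g) ?_ ?_ ?_ ?_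
        · intro g hg
          simp only [out, Finset.mem_filter, Finset.mem_univ, true_and] at hg ⊢
          intro hc
          apply hg
          have := mul_mem hc hι
          simpa [mul_assoc] using this
        · intro g _ g' _ hgg
          simpa using hgg
        · intro g hg
          refine ⟨(g₀ * h⁻¹)⁻¹ * g, ?_, by group⟩
          simp only [out, Finset.mem_filter, Finset.mem_univ, true_and] at hg ⊢
          intro hc
          apply hg
          have := mul_mem hc (inv_mem hι)
          simpa [mul_assoc] using this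
        · intro g _
          rw [smul_inv'', smul_sub, smul_smul, smul_smul, inv_mul_cancel_right]
      rw [hre, ← Finset.prod_mul_distrib, Finset.prod_eq_one, mul_one]
      intro g hg
      simp only [eval_sub, eval_X, eval_C]
      refine inv_mul_cancel₀ (sub_ne_zero.mpr (hne _ _ ?_))
      simp only [out, Finset.mem_filter, Finset.mem_univ, true_and] at hg
      intro hc
      apply hg
      have := mul_mem (inv_mem hι) hc
      simpa [mul_assoc] using this
    · intro h hh hne'
      obtain ⟨g₁, -, rfl⟩ := Finset.mem_image.mp hh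
      rw [eval_mul, eval_prod, Finset.prod_eq_zero (i := g₀), mul_zero]
      · simp only [out, Finset.mem_filter, Finset.mem_univ, true_and]
        intro hc
        apply hne'
        rw [← hrep2 _ _ hc, hreprep]
      · simp
    · intro h
      exact absurd (Finset.mem_image_of_mem _ (Finset.mem_univ _)) h

/-- The interpolation polynomial with nodes `g • y` and values `g • b`. -/
noncomputable def interp (G : Type) [Group G] [MulSemiringAction G F] [Fintype G] (y b : F) :
    F[X] := by
  classical exact Lagrange.interpolate Finset.univ (fun g : G => g • y) (fun g : G => g • b)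

lemma interp_eval {y : F} (hy : Function.Injective fun g : G => g • y) (b : F) (g : G) :
    (interp G y b).eval (g • y) = g • b := by
  classical
  unfold interp
  convert Lagrange.eval_interpolate_at_node (fun g : G => g • b) (s := Finset.univ)
    (v := fun g : G => g • y) hy.injOn (Finset.mem_univ g)

lemma interp_degree {y : F} (hy : Function.Injective fun g : G => g • y) (b : F) :
    (interp G y b).degree < Fintype.card G := by
  classical
  unfold interp
  convert Lagrange.degree_interpolate_lt (fun g : G => g • b) (s := Finset.univ)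
    (v := fun g : G => g • y) hy.injOn
  rfl

lemma eq_interp {y : F} (hy : Function.Injective fun g : G => g • y) (b : F) (P : F[X])
    (hd : P.degree < Fintype.card G) (he : ∀ g : G, P.eval (g • y) = g • b) :
    P = interp G y b := by
  classical
  refine Polynomial.eq_of_degrees_lt_of_eval_index_eq (s := Finset.univ)
    (v := fun g : G => g • y) hy.injOn hd (interp_degree hy b) fun g _ => ?_
  rw [he, interp_eval hy]

lemma smul_interp {y : F} (hy : Function.Injective fun g : G => g • y) (b : F) (h : G) :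
    h • interp G y b = interp G y b := by
  apply eq_interp hy
  · refine lt_of_le_of_lt ?_ (interp_degree hy b)
    rw [show h • interp G y b = map (MulSemiringAction.toRingHom G F h) (interp G y b) from
      congrFun (smul_eq_map F h) _]
    exact degree_map_le
  · intro g
    have := smul_eval_smul F h (interp G y b) ((h⁻¹ * g) • y)
    rw [smul_smul, mul_inv_cancel_left, interp_eval hy, smul_smul, mul_inv_cancel_left] at this
    exact this

lemma interp_mem {y : F} (hy : Function.Injective fun g : G => g • y) (b : F) (R : Subring F)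
    (hyR : ∀ g : G, g • y ∈ R) (P : F[X]) (hP : P ∈ coeffRing R)
    (he : ∀ g : G, P.eval (g • y) = g • b) : interp G y b ∈ coeffRing R := by
  have hm := MulSemiringAction.monic_charpoly G y
  have hχ : MulSemiringAction.charpoly G y ∈ coeffRing R :=
    prod_mem fun g _ => sub_mem X_mem_coeffRing (C_mem_coeffRing (hyR g))
  rw [← eq_interp hy b (P %ₘ MulSemiringAction.charpoly G y)]
  · exact modByMonic_mem_coeffRing hP hχ hm
  · refine lt_of_lt_of_eq (degree_modByMonic_lt P hm) ?_
    rw [MulSemiringAction.charpoly_eq, degree_prod]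
    simp [degree_X_sub_C]
  · intro g
    have h0 : (MulSemiringAction.charpoly G y).eval (g • y) = 0 := by
      rw [MulSemiringAction.charpoly_eq, eval_prod]
      exact Finset.prod_eq_zero (Finset.mem_univ g) (by simp)
    have := congrArg (eval (g • y)) (modByMonic_add_div P (MulSemiringAction.charpoly G y))
    rw [eval_add, eval_mul, h0, zero_mul, add_zero] at this
    rw [this, he]

end Pool.Agent.MP_19ffc6_ag.Lin

end MrgPart1

-- ======== part 2: formerly Pool.Agent.MP_19ffc6_ag.Lin.QuotLocal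
section MrgPart2

/-!
Local integrality of the interpolation polynomial of a generic generator.
-/

set_option autoImplicit false

open Polynomial

namespace Pool.Agent.MP_19ffc6_ag.Lin

section LocRing

variable {D : Type} [CommRing D] (F : Type) [Field F] [Algebra D F]

/-- The localisation of `D` at a prime, as a subring of a field. -/
def locRing (P : Ideal D) [hP : P.IsPrime] : Subring F where
  carrier := {x | ∃ u, u ∉ P ∧ ∃ a, x * algebraMap D F u = algebraMap D F a}
  mul_mem' := by
    rintro x y ⟨u, hu, a, ha⟩ ⟨v, hv, b, hb⟩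
    refine ⟨u * v, fun h => (hP.mem_or_mem h).elim hu hv, a * b, ?_⟩
    rw [map_mul, map_mul, ← ha, ← hb]; ring
  one_mem' := ⟨1, (Ideal.ne_top_iff_one P).mp hP.ne_top, 1, by simp⟩
  add_mem' := by
    rintro x y ⟨u, hu, a, ha⟩ ⟨v, hv, b, hb⟩
    refine ⟨u * v, fun h => (hP.mem_or_mem h).elim hu hv, a * v + b * u, ?_⟩
    rw [map_add, map_mul, map_mul, map_mul, ← ha, ← hb]; ring
  zero_mem' := ⟨1, (Ideal.ne_top_iff_one P).mp hP.ne_top, 0, by simp⟩
  neg_mem' := by
    rintro x ⟨u, hu, a, ha⟩
    exact ⟨u, hu, -a, by rw [map_neg, ← ha]; ring⟩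

variable {F}

lemma mem_locRing {P : Ideal D} [P.IsPrime] {x : F} :
    x ∈ locRing F P ↔ ∃ u, u ∉ P ∧ ∃ a, x * algebraMap D F u = algebraMap D F a := Iff.rfl

lemma algebraMap_mem_locRing (P : Ideal D) [hP : P.IsPrime] (a : D) :
    algebraMap D F a ∈ locRing F P :=
  ⟨1, (Ideal.ne_top_iff_one P).mp hP.ne_top, a, by simp⟩

lemma inv_mem_locRing [FaithfulSMul D F] (P : Ideal D) [P.IsPrime] {u : D} (hu : u ∉ P) :
    (algebraMap D F u)⁻¹ ∈ locRing F P := by
  refine ⟨u, hu, 1, ?_⟩
  rw [map_one, inv_mul_cancel₀]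
  intro h
  apply hu
  rw [(map_eq_zero_iff _ (FaithfulSMul.algebraMap_injective D F)).mp h]
  exact zero_mem _

lemma mem_locRing_of_mul [FaithfulSMul D F] (P : Ideal D) [hP : P.IsPrime] {u : D} (hu : u ∉ P)
    {x : F} (hx : x * algebraMap D F u ∈ locRing F P) : x ∈ locRing F P := by
  have h0 : algebraMap D F u ≠ 0 := by
    intro h
    apply hu
    rw [(map_eq_zero_iff _ (FaithfulSMul.algebraMap_injective D F)).mp h]
    exact zero_mem _
  have := mul_mem hx (inv_mem_locRing (F := F) P hu)
  rwa [mul_inv_cancel_right₀ h0] at this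

end LocRing

variable {k O G : Type} [Field k] [CommRing O] [Algebra k O] [Group G] [MulSemiringAction G O]

/-- The ideal generated by all `g • c - c`. -/
def aug (g : G) : Ideal O := Ideal.span (Set.range fun c : O => g • c - c)

lemma sub_mem_aug (g : G) (c : O) : g • c - c ∈ aug (O := O) g := Ideal.subset_span ⟨c, rfl⟩

lemma pow_sub_mem (g : G) (J : Ideal O) (h : ∀ c : O, g • c - c ∈ J) (l : ℕ) (c : O) :
    g ^ l • c - c ∈ J := by
  induction l with
  | zero => simp
  | succ l ih =>
    have : g ^ (l + 1) • c - c = (g • (g ^ l • c) - g ^ l • c) + (g ^ l • c - c) := by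
      rw [pow_succ', mul_smul]; ring
    rw [this]
    exact add_mem (h _) ih

variable [SMulCommClass G k O]

lemma sub_mem_of_gens {ι : Type} {y : ι → O} (hy : Algebra.adjoin k (Set.range y) = ⊤) (τ h : G)
    (J : Ideal O) (H : ∀ i, τ • h • y i - h • y i ∈ J) (c : O) : τ • c - c ∈ J := by
  have key : ∀ c ∈ Algebra.adjoin k (Set.range y), τ • h • c - h • c ∈ J := by
    intro c hc
    induction hc using Algebra.adjoin_induction with
    | mem x hx => obtain ⟨i, rfl⟩ := hx; exact H i
    | algebraMap r => simp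
    | add x y _ _ hx hy =>
      have : τ • h • (x + y) - h • (x + y) = (τ • h • x - h • x) + (τ • h • y - h • y) := by
        simp only [smul_add]; ring
      rw [this]; exact add_mem hx hy
    | mul x y _ _ hx hy =>
      have : τ • h • (x * y) - h • (x * y) =
          (τ • h • x) * (τ • h • y - h • y) + (h • y) * (τ • h • x - h • x) := by
        simp only [smul_mul']; ring
      rw [this]; exact add_mem (J.mul_mem_left _ hy) (J.mul_mem_left _ hx)
  have := key (h⁻¹ • c) (hy ▸ Algebra.mem_top)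
  simpa using this

/-- The generic generator `∑ yᵢ Xⁱ`. -/
noncomputable def genY {n : ℕ} (y : Fin n → O) : O[X] := ∑ i : Fin n, monomial i (y i)

omit [SMulCommClass G k O] in
lemma coeff_smul_poly (g : G) (P : O[X]) (n : ℕ) : (g • P).coeff n = g • P.coeff n := by
  rw [show g • P = map (MulSemiringAction.toRingHom G O g) P from
    congrFun (smul_eq_map O g) P, coeff_map]
  rfl

lemma coeff_genY {n : ℕ} (y : Fin n → O) (i : Fin n) : (genY y).coeff i = y i := by
  classical
  rw [genY, finsetSum_coeff, Finset.sum_eq_single i]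
  · simp
  · intro j _ hj
    rw [coeff_monomial, if_neg]
    exact fun h => hj (Fin.ext h)
  · simp

lemma coeff_genY_of_le {n : ℕ} (y : Fin n → O) (m : ℕ) (hm : n ≤ m) : (genY y).coeff m = 0 := by
  rw [genY, finsetSum_coeff]
  refine Finset.sum_eq_zero fun j _ => ?_
  rw [coeff_monomial, if_neg]
  have := j.2
  omega

section Local

variable [IsDomain O] [FaithfulSMul G O] {n : ℕ} {y : Fin n → O}
  {F : Type} [Field F] [Algebra O[X] F] [IsFractionRing O[X] F] [MulSemiringAction G F]
  [SMulDistribClass G O[X] F]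

omit [IsDomain O] in
lemma genY_injective (hy : Algebra.adjoin k (Set.range y) = ⊤) :
    Function.Injective fun g : G => g • algebraMap O[X] F (genY y) := by
  intro g h hgh
  simp only [← algebraMap.smul'] at hgh
  have h1 := IsFractionRing.injective O[X] F hgh
  have h2 : ∀ c : O, (g * h⁻¹) • c - c ∈ (⊥ : Ideal O) := by
    refine sub_mem_of_gens hy _ h _ fun i => ?_
    have := congrArg (fun P => P.coeff i) h1
    simp only [coeff_smul_poly, coeff_genY] at this
    rw [smul_smul, inv_mul_cancel_right, this, sub_self]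
    exact zero_mem _
  have h3 : g * h⁻¹ = 1 := eq_of_smul_eq_smul (α := O) fun c => by
    have := h2 c
    rw [Ideal.mem_bot, sub_eq_zero] at this
    rw [this, one_smul]
  exact mul_inv_eq_one.mp h3

omit [IsDomain O] [FaithfulSMul G O] in
lemma genY_sub_notMem (hy : Algebra.adjoin k (Set.range y) = ⊤) (Q : Ideal O) (g h : G)
    (hgh : g * h⁻¹ ∉ Q.inertia G) :
    g • genY y - h • genY y ∉ (Q.map C : Ideal O[X]) := by
  intro hmem
  apply hgh
  rw [AddSubgroup.mem_inertia]
  refine sub_mem_of_gens hy _ h Q fun i => ?_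
  have := Ideal.mem_map_C_iff.mp hmem i
  rw [coeff_sub, coeff_smul_poly, coeff_smul_poly, coeff_genY] at this
  rwa [smul_smul, inv_mul_cancel_right]

omit [SMulCommClass G k O] [IsDomain O] [FaithfulSMul G O] in
lemma smul_notMem_map_C (Q : Ideal O) {σ : G} (hσ : σ ∈ Q.inertia G) {u : O[X]}
    (hu : u ∉ (Q.map C : Ideal O[X])) : σ • u ∉ (Q.map C : Ideal O[X]) := by
  intro h
  apply hu
  rw [Ideal.mem_map_C_iff] at h ⊢
  intro m
  have h1 := h m
  rw [coeff_smul_poly] at h1
  have h2 := (AddSubgroup.mem_inertia.mp hσ) (u.coeff m)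
  have := sub_mem h1 h2
  simpa using this

omit [SMulCommClass G k O] [FaithfulSMul G O] in
/-- Dividing `σ • c - c` by a local generator `θ` of the augmentation ideal. -/
lemma sub_div_mem (Q : Ideal O) [hQ : Q.IsPrime] {σ : G} (hσ : σ ∈ Q.inertia G) {θ : O}
    (hθ0 : θ ≠ 0) (hθ : ∀ c : O, ∃ u, u ∉ Q ∧ θ ∣ u * (σ • c - c)) (c : F)
    (hc : c ∈ locRing F (Q.map C : Ideal O[X])) :
    (σ • c - c) / algebraMap O[X] F (C θ) ∈ locRing F (Q.map C : Ideal O[X]) := by
  have hinj := IsFractionRing.injective O[X] F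
  have hθF : algebraMap O[X] F (C θ) ≠ 0 := by
    rw [Ne, map_eq_zero_iff _ hinj, C_eq_zero]; exact hθ0
  have hpoly : ∀ a : O[X], (σ • algebraMap O[X] F a - algebraMap O[X] F a) /
      algebraMap O[X] F (C θ) ∈ locRing F (Q.map C : Ideal O[X]) := by
    intro a
    induction a using Polynomial.induction_on' with
    | add p q hp hq =>
      have := add_mem hp hq
      convert this using 1
      rw [map_add, smul_add]; ring
    | monomial m a =>
      obtain ⟨u, hu, w, hw⟩ := hθ a
      have hu' : C u ∉ (Q.map C : Ideal O[X]) := by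
        intro h
        have := Ideal.mem_map_C_iff.mp h 0
        simp only [coeff_C_zero] at this
        exact hu this
      refine ⟨C u, hu', monomial m w, ?_⟩
      rw [div_mul_eq_mul_div, div_eq_iff hθF, ← algebraMap.smul', ← map_sub, ← map_mul, ← map_mul]
      congr 1
      have : σ • (monomial m a : O[X]) = monomial m (σ • a) := by
        ext j
        rw [coeff_smul_poly, coeff_monomial, coeff_monomial]
        split_ifs <;> simp
      rw [this, ← map_sub, monomial_mul_C, monomial_mul_C, mul_comm _ u, hw, mul_comm]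
  obtain ⟨u, hu, a, ha⟩ := hc
  have hu' := smul_notMem_map_C Q hσ hu
  have hu0 : algebraMap O[X] F u ≠ 0 := by
    rw [Ne, map_eq_zero_iff _ hinj]
    rintro rfl
    exact hu (zero_mem _)
  have hc' : c ∈ locRing F (Q.map C : Ideal O[X]) := ⟨u, hu, a, ha⟩
  apply mem_locRing_of_mul _ hu'
  have h1 : σ • c * σ • algebraMap O[X] F u = σ • algebraMap O[X] F a := by
    rw [← smul_mul', ha]
  have := sub_mem (hpoly a) (mul_mem hc' (hpoly u))
  convert this using 1
  rw [algebraMap.smul', ← h1, ← ha]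
  field_simp
  ring

omit [FaithfulSMul G O] in
/-- A local generator of the augmentation ideal is a multiple of `τ • h • Y - h • Y`. -/
lemma div_genY_mem (hy : Algebra.adjoin k (Set.range y) = ⊤) (Q : Ideal O) [hQ : Q.IsPrime]
    (τ h : G) {θ : O} (hθ0 : θ ≠ 0) (hθ : ∀ c : O, ∃ u, u ∉ Q ∧ θ ∣ u * (τ • c - c))
    (hθ' : ∃ u, u ∉ Q ∧ u * θ ∈ aug (O := O) τ) :
    algebraMap O[X] F (C θ) /
      (τ • h • algebraMap O[X] F (genY y) - h • algebraMap O[X] F (genY y)) ∈
        locRing F (Q.map C : Ideal O[X]) := by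
  classical
  have hinj := IsFractionRing.injective O[X] F
  choose u hu w hw using fun i => hθ (h • y i)
  set U := ∏ i, u i with hU
  have hUQ : U ∉ Q := by
    rw [hU, hQ.prod_mem_iff]
    rintro ⟨i, -, hi⟩
    exact hu i hi
  let w' : Fin n → O := fun i => w i * ∏ j ∈ Finset.univ.erase i, u j
  have hw' : ∀ i, U * (τ • h • y i - h • y i) = θ * w' i := by
    intro i
    rw [hU, ← Finset.mul_prod_erase _ _ (Finset.mem_univ i)]
    simp only [w']
    linear_combination (∏ j ∈ Finset.univ.erase i, u j) * hw i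
  have hW : genY w' ∉ (Q.map C : Ideal O[X]) := by
    intro hmem
    have hw'Q : ∀ i, w' i ∈ Q := fun i => by
      simpa [coeff_genY] using Ideal.mem_map_C_iff.mp hmem i
    obtain ⟨v, hv, hvθ⟩ := hθ'
    let J : Ideal O := Submodule.comap (LinearMap.mulLeft O U) (Ideal.span {θ} * Q)
    have hJ : aug (O := O) τ ≤ J := by
      rw [aug, Ideal.span_le]
      rintro _ ⟨c, rfl⟩
      refine sub_mem_of_gens hy τ h J (fun i => ?_) c
      change U * _ ∈ Ideal.span {θ} * Q
      rw [hw']
      exact Ideal.mul_mem_mul (Ideal.mem_span_singleton_self θ) (hw'Q i)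
    have h1 : U * (v * θ) ∈ Ideal.span {θ} * Q := hJ hvθ
    rw [Ideal.mem_span_singleton_mul] at h1
    obtain ⟨z, hz, hzθ⟩ := h1
    have h2 : z = U * v := by
      apply mul_left_cancel₀ hθ0
      rw [hzθ]; ring
    rw [h2] at hz
    exact (hQ.mem_or_mem hz).elim hUQ hv
  have hpoly : C U * (τ • h • genY y - h • genY y) = C θ * genY w' := by
    ext m
    rw [coeff_C_mul, coeff_C_mul, coeff_sub, coeff_smul_poly, coeff_smul_poly]
    by_cases hm : m < n
    · have := coeff_genY y ⟨m, hm⟩
      have h2 := coeff_genY w' ⟨m, hm⟩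
      simp only at this h2
      rw [this, h2, hw']
    · rw [coeff_genY_of_le _ _ (by omega), coeff_genY_of_le _ _ (by omega)]
      simp
  refine ⟨genY w', hW, C U, ?_⟩
  have hne : τ • h • genY y - h • genY y ≠ 0 := by
    intro h0
    rw [h0, mul_zero] at hpoly
    rcases mul_eq_zero.mp hpoly.symm with h1 | h1
    · exact hθ0 (C_eq_zero.mp h1)
    · exact hW (h1 ▸ zero_mem _)
  have hne' : algebraMap O[X] F (τ • h • genY y - h • genY y) ≠ 0 := by
    rwa [Ne, map_eq_zero_iff _ hinj]
  rw [← algebraMap.smul', ← algebraMap.smul', ← map_sub, div_mul_eq_mul_div, div_eq_iff hne',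
    ← map_mul, ← map_mul, hpoly]

variable [Fintype G]

/-- The local hypothesis at a prime: the inertia group is trivial or of prime order and the
augmentation ideals of its elements are principal there. -/
def GoodAt (G : Type) [Group G] [MulSemiringAction G O] (Q : Ideal O) : Prop :=
  (Nat.card (Q.inertia G) = 1 ∨ (Nat.card (Q.inertia G)).Prime) ∧
  ∀ τ ∈ Q.inertia G, τ ≠ 1 → ∃ θ : O, (∀ c : O, ∃ u, u ∉ Q ∧ θ ∣ u * (τ • c - c)) ∧
    ∃ u, u ∉ Q ∧ u * θ ∈ aug (O := O) τ

lemma interp_mem_locRing (hy : Algebra.adjoin k (Set.range y) = ⊤) (Q : Ideal O) [hQ : Q.IsPrime]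
    (hG : GoodAt G Q) (b : O[X]) :
    interp G (algebraMap O[X] F (genY y)) (algebraMap O[X] F b) ∈
      coeffRing (locRing F (Q.map C : Ideal O[X])) := by
  have hinj := genY_injective (F := F) (G := G) hy
  have hYR : ∀ g : G, g • algebraMap O[X] F (genY y) ∈ locRing F (Q.map C : Ideal O[X]) :=
    fun g => by rw [← algebraMap.smul']; exact algebraMap_mem_locRing _ _
  suffices h : ∃ P ∈ coeffRing (locRing F (Q.map C : Ideal O[X])),
      ∀ g : G, P.eval (g • algebraMap O[X] F (genY y)) = g • algebraMap O[X] F b by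
    obtain ⟨P, hP, he⟩ := h
    exact interp_mem hinj _ _ hYR P hP he
  refine assemble _ (Q.inertia G) _ _ hYR
    (fun g => by rw [← algebraMap.smul']; exact algebraMap_mem_locRing _ _) ?_ ?_ ?_
  · intro g h hgh he
    apply hgh
    rw [hinj he, mul_inv_cancel]
    exact one_mem _
  · intro g h hgh
    rw [← algebraMap.smul', ← algebraMap.smul', ← map_sub]
    exact inv_mem_locRing _ (genY_sub_notMem hy Q g h hgh)
  intro h β hβ
  rcases hG.1 with h1 | hp
  · refine ⟨C β, C_mem_coeffRing hβ, fun ι hι => ?_⟩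
    have : ι = 1 := by
      have := (Subgroup.card_eq_one.mp h1) ▸ hι
      simpa using this
    simp [this]
  have : Fact (Nat.card (Q.inertia G)).Prime := ⟨hp⟩
  have : IsCyclic (Q.inertia G) := isCyclic_of_prime_card rfl
  obtain ⟨σ, hσ⟩ := IsCyclic.exists_generator (α := Q.inertia G)
  have hord : orderOf σ = Nat.card (Q.inertia G) := orderOf_eq_card_of_forall_mem_zpowers hσ
  have hpow : ∀ l, 0 < l → l < Nat.card (Q.inertia G) → σ ^ l ≠ 1 := fun l h0 hl =>
    pow_ne_one_of_lt_orderOf h0.ne' (hord ▸ hl)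
  have hpow' : ∀ l, 0 < l → l < Nat.card (Q.inertia G) → (σ : G) ^ l ≠ 1 := fun l h0 hl h1 =>
    hpow l h0 hl (Subtype.ext (by simpa using h1))
  have hne : ∀ l, 0 < l → l < Nat.card (Q.inertia G) →
      (σ : G) ^ l • h • algebraMap O[X] F (genY y) ≠ h • algebraMap O[X] F (genY y) := by
    intro l h0 hl he
    rw [smul_smul] at he
    exact hpow' l h0 hl (by simpa using hinj he)
  suffices hdiv : ∀ l, 0 < l → l < Nat.card (Q.inertia G) →
      ∀ c ∈ locRing F (Q.map C : Ideal O[X]), ((σ : G) • c - c) /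
        ((σ : G) ^ l • h • algebraMap O[X] F (genY y) - h • algebraMap O[X] F (genY y)) ∈
          locRing F (Q.map C : Ideal O[X]) by
    obtain ⟨P, hP, hPe⟩ := aitken (locRing F (Q.map C : Ideal O[X])) (σ : G) _ (hYR h)
      (Nat.card (Q.inertia G)) hne hdiv β hβ _ le_rfl
    refine ⟨P, hP, fun ι hι => ?_⟩
    obtain ⟨i, hi, hiι⟩ : ∃ i < Nat.card (Q.inertia G), σ ^ i = ⟨ι, hι⟩ := by
      have h1 : (⟨ι, hι⟩ : Q.inertia G) ∈ Submonoid.powers σ :=
        (mem_powers_iff_mem_zpowers).mpr (hσ _)
      obtain ⟨i, hi⟩ := h1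
      refine ⟨i % orderOf σ, hord ▸ Nat.mod_lt _ (orderOf_pos σ), ?_⟩
      rw [pow_mod_orderOf]
      exact hi
    have : ι = (σ : G) ^ i := by simpa using (congrArg Subtype.val hiι).symm
    rw [this]
    exact hPe i hi
  intro l h0 hl c hc
  have hτ : (σ : G) ^ l ∈ Q.inertia G := pow_mem σ.2 l
  obtain ⟨θ, hθ, hθ'⟩ := hG.2 _ hτ (hpow' l h0 hl)
  have hθ0 : θ ≠ 0 := by
    rintro rfl
    apply hpow' l h0 hl
    refine eq_of_smul_eq_smul (α := O) fun c => ?_
    obtain ⟨u, hu, hdvd⟩ := hθ c
    rw [zero_dvd_iff, mul_eq_zero] at hdvd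
    rcases hdvd with h1 | h1
    · exact absurd (h1 ▸ zero_mem Q) hu
    · rw [one_smul, sub_eq_zero.mp h1]
  have hσθ : ∀ c : O, ∃ u, u ∉ Q ∧ θ ∣ u * ((σ : G) • c - c) := by
    let J : Ideal O :=
      { carrier := {c | ∃ u, u ∉ Q ∧ θ ∣ u * c}
        add_mem' := by
          rintro a b ⟨u, hu, ha⟩ ⟨v, hv, hb⟩
          refine ⟨u * v, fun h => (hQ.mem_or_mem h).elim hu hv, ?_⟩
          have : u * v * (a + b) = v * (u * a) + u * (v * b) := by ring
          rw [this]
          exact dvd_add (ha.mul_left _) (hb.mul_left _)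
        zero_mem' := ⟨1, (Ideal.ne_top_iff_one Q).mp hQ.ne_top, by simp⟩
        smul_mem' := by
          rintro a b ⟨u, hu, hb⟩
          refine ⟨u, hu, ?_⟩
          have : u * (a • b) = a * (u * b) := by rw [smul_eq_mul]; ring
          rw [this]
          exact hb.mul_left _ }
    have hgen : σ ∈ Submonoid.powers (σ ^ l) :=
      mem_powers_of_prime_card rfl (hpow l h0 hl)
    obtain ⟨m, hm⟩ := hgen
    have hm' : ((σ : G) ^ l) ^ m = σ := by simpa using congrArg Subtype.val hm
    intro c
    have := pow_sub_mem ((σ : G) ^ l) J hθ m c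
    rw [hm'] at this
    exact this
  have h1 := sub_div_mem (F := F) Q σ.2 hθ0 hσθ c hc
  have h2 := div_genY_mem (F := F) hy Q ((σ : G) ^ l) h hθ0 hθ hθ'
  have hθF : algebraMap O[X] F (C θ) ≠ 0 := by
    rw [Ne, map_eq_zero_iff _ (IsFractionRing.injective O[X] F), C_eq_zero]; exact hθ0
  have := mul_mem h1 h2
  convert this using 1
  field_simp

end Local

end Pool.Agent.MP_19ffc6_ag.Lin

end MrgPart2

-- marker of a merged file
example : 731051 + 283819 = 731051 + 283819 := rfl
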