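import Mathlib.Tactic.Monotonicity.Lemmas
import Mathlib.RingTheory.Flat.TorsionFree
import Mathlib.Data.Int.ConditionallyCompleteOrder
import Mathlib.Data.Int.Star
import Mathlib.Algebra.Order.Ring.Star
import Mathlib.RingTheory.Valuation.ValuationSubring
import Mathlib.Data.Finsupp.Pointwise
import Mathlib.Data.Nat.Prime.Factorial
import Mathlib.LinearAlgebra.SymmetricAlgebra.Basis
import Mathlib.RingTheory.MvPolynomial.IrreducibleQuadratic
import Pool.Agent.MP_19ffc6_ag.Lin.QuotLocal
import Pool.Agent.MP_19ffc6_ag.Lin.ProjB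
import Pool.Agent.MP_19ffc6_ag.WildKL

-- ======== part 0: formerly Pool.Agent.MP_19ffc6_ag.Lin.TruncA
section MrgPart0

/-!
Graded preliminaries for the truncation step.
-/

set_option autoImplicit false
set_option linter.unusedSectionVars false

open DirectSum

namespace Pool.Agent.MP_19ffc6_ag.Lin

section Arith

/-- The residue of `d` modulo `r`, as a natural number. -/
def res (r : ℕ) (d : ℤ) : ℕ := (d % r).toNat

/-- The carry when adding two residues modulo `r`. -/
def carry (r : ℕ) (a b : ℤ) : ℕ := (res r a + res r b) / r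

variable {r : ℕ}

lemma res_cast (hr : 0 < r) (d : ℤ) : (res r d : ℤ) = d % r :=
  Int.toNat_of_nonneg (Int.emod_nonneg _ (by omega))

lemma res_lt (hr : 0 < r) (d : ℤ) : res r d < r := by
  have := res_cast hr d
  have h2 := Int.emod_lt_of_pos d (show (0 : ℤ) < r by omega)
  omega

lemma res_add_div (hr : 0 < r) (d : ℤ) : (res r d : ℤ) + r * (d / r) = d := by
  rw [res_cast hr]; exact Int.emod_add_mul_ediv d r

lemma res_add (hr : 0 < r) (a b : ℤ) : res r (a + b) = (res r a + res r b) % r := by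
  have h : (res r (a + b) : ℤ) = ((res r a + res r b) % r : ℕ) := by
    rw [res_cast hr]
    push_cast
    rw [res_cast hr, res_cast hr, Int.add_emod]
  exact_mod_cast h

lemma res_add_carry (hr : 0 < r) (a b : ℤ) :
    res r (a + b) + r * carry r a b = res r a + res r b := by
  rw [res_add hr, carry]; exact Nat.mod_add_div _ _

lemma div_add (hr : 0 < r) (a b : ℤ) : (a + b) / r = a / r + b / r + carry r a b := by
  have h1 := res_add_div hr a
  have h2 := res_add_div hr b
  have h3 := res_add_div hr (a + b)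
  have h4 : (res r (a + b) : ℤ) + r * carry r a b = res r a + res r b := by
    exact_mod_cast res_add_carry hr a b
  have : (r : ℤ) * ((a + b) / r) = r * (a / r + b / r + carry r a b) := by linarith
  exact mul_left_cancel₀ (by omega) this

lemma res_eq_zero_iff (hr : 0 < r) (d : ℤ) : res r d = 0 ↔ (r : ℤ) ∣ d := by
  rw [Int.dvd_iff_emod_eq_zero, ← res_cast hr]; simp

lemma res_zero : res r 0 = 0 := by simp [res]

lemma res_self : res r r = 0 := by simp [res]

lemma res_neg_self : res r (-r) = 0 := by simp [res]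

lemma carry_of_res_eq_zero (hr : 0 < r) (a b : ℤ) (hb : res r b = 0) : carry r a b = 0 := by
  rw [carry, hb, add_zero]; exact Nat.div_eq_of_lt (res_lt hr a)

end Arith

variable {k C : Type} [CommRing k] [CommRing C] [Algebra k C] (𝒜 : ℤ → Submodule k C)
  [GradedAlgebra 𝒜]

/-- A linear map defined degree by degree. -/
noncomputable def gl {B : Type} [AddCommGroup B] [Module k B] (φ : ∀ d, 𝒜 d →ₗ[k] B) :
    C →ₗ[k] B :=
  (DirectSum.toModule k ℤ B φ).comp (decomposeLinearEquiv 𝒜).toLinearMap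

variable {𝒜}

lemma gl_of_mem {B : Type} [AddCommGroup B] [Module k B] (φ : ∀ d, 𝒜 d →ₗ[k] B) {d : ℤ} {x : C}
    (hx : x ∈ 𝒜 d) : gl 𝒜 φ x = φ d ⟨x, hx⟩ := by
  simp only [gl, LinearMap.comp_apply, LinearEquiv.coe_coe, decomposeLinearEquiv_apply]
  rw [decompose_of_mem 𝒜 hx]
  exact DirectSum.toModule_lof k d _

variable (𝒜) in
lemma graded_ind {P : C → Prop} (h0 : P 0) (hh : ∀ d, ∀ x ∈ 𝒜 d, P x)
    (ha : ∀ x y, P x → P y → P (x + y)) (c : C) : P c :=
  Decomposition.inductionOn 𝒜 h0 (fun {d} x => hh d x x.2) ha c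

variable (𝒜) in
lemma graded_ind₂ {P : C → C → Prop} (h0 : ∀ y, P 0 y) (h0' : ∀ x, P x 0)
    (hh : ∀ i j, ∀ x ∈ 𝒜 i, ∀ y ∈ 𝒜 j, P x y)
    (ha : ∀ x x' y, P x y → P x' y → P (x + x') y)
    (ha' : ∀ x y y', P x y → P x y' → P x (y + y')) (a b : C) : P a b := by
  induction a using graded_ind 𝒜 with
  | h0 => exact h0 b
  | ha x x' hx hx' => exact ha _ _ _ hx hx'
  | hh i x hx =>
    induction b using graded_ind 𝒜 with
    | h0 => exact h0' x
    | ha y y' hy hy' => exact ha' _ _ _ hy hy'
    | hh j y hy => exact hh i j x hx y hy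

/-- An algebra map defined degree by degree. -/
noncomputable def ga {B : Type} [CommRing B] [Algebra k B] (φ : ∀ d, 𝒜 d →ₗ[k] B)
    (h1 : φ 0 ⟨1, SetLike.one_mem_graded 𝒜⟩ = 1)
    (hm : ∀ i j (x : 𝒜 i) (y : 𝒜 j),
      φ (i + j) ⟨x * y, SetLike.mul_mem_graded x.2 y.2⟩ = φ i x * φ j y) : C →ₐ[k] B :=
  AlgHom.ofLinearMap (gl 𝒜 φ) (by rw [gl_of_mem φ (SetLike.one_mem_graded 𝒜), h1]) (by
    intro a b
    induction a, b using graded_ind₂ 𝒜 with
    | h0 => simp
    | h0' => simp
    | ha x x' y h h' => simp [add_mul, h, h']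
    | ha' x y y' h h' => simp [mul_add, h, h']
    | hh i j x hx y hy =>
      rw [gl_of_mem φ (SetLike.mul_mem_graded hx hy), gl_of_mem φ hx, gl_of_mem φ hy]
      exact hm i j ⟨x, hx⟩ ⟨y, hy⟩)

lemma ga_of_mem {B : Type} [CommRing B] [Algebra k B] (φ : ∀ d, 𝒜 d →ₗ[k] B) (h1) (hm)
    {d : ℤ} {x : C} (hx : x ∈ 𝒜 d) : ga φ h1 hm x = φ d ⟨x, hx⟩ := gl_of_mem φ hx

lemma zpow_mem {r : ℤ} {y : Cˣ} (hy : (y : C) ∈ 𝒜 r) (hy' : ((y⁻¹ : Cˣ) : C) ∈ 𝒜 (-r)) (n : ℤ) :
    ((y ^ n : Cˣ) : C) ∈ 𝒜 (r * n) := by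
  induction n using Int.induction_on with
  | zero => simpa using SetLike.one_mem_graded 𝒜
  | succ n ih =>
    rw [zpow_add_one, Units.val_mul, mul_add, mul_one]
    exact SetLike.mul_mem_graded ih hy
  | pred n ih =>
    rw [zpow_sub_one, Units.val_mul, mul_sub, mul_one, sub_eq_add_neg]
    exact SetLike.mul_mem_graded ih hy'

lemma nrm_mem {r : ℕ} (hr : 0 < r) {y : Cˣ} (hy : (y : C) ∈ 𝒜 r)
    (hy' : ((y⁻¹ : Cˣ) : C) ∈ 𝒜 (-r)) {d : ℤ} {x : C} (hx : x ∈ 𝒜 d) :
    x * ((y ^ (-(d / r)) : Cˣ) : C) ∈ 𝒜 (res r d) := by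
  have := SetLike.mul_mem_graded hx (zpow_mem hy hy' (-(d / r)))
  convert this using 2
  have := res_add_div hr d
  linarith

variable (𝒜) in
/-- The subalgebra generated by the homogeneous elements of degree less than `r`. -/
def trunc (r : ℕ) : Subalgebra k C := Algebra.adjoin k {c | ∃ d : ℤ, d < r ∧ c ∈ 𝒜 d}

lemma mem_trunc {r : ℕ} {d : ℤ} (hd : d < r) {c : C} (hc : c ∈ 𝒜 d) : c ∈ trunc 𝒜 r :=
  Algebra.subset_adjoin ⟨d, hd, hc⟩

/-- The homogeneous component of degree `j` of a derivation. -/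
lemma exists_component (D : C →ₗ[k] C) (hD : ∀ a b, D (a * b) = a * D b + b * D a) (j : ℤ) :
    ∃ E : C →ₗ[k] C, (∀ a b, E (a * b) = a * E b + b * E a) ∧
      ∀ d, ∀ x ∈ 𝒜 d, E x = decompose 𝒜 (D x) (d + j) := by
  let φ : ∀ d, 𝒜 d →ₗ[k] C := fun d => (GradedAlgebra.proj 𝒜 (d + j)).comp (D.comp (𝒜 d).subtype)
  have hφ : ∀ d, ∀ x ∈ 𝒜 d, gl 𝒜 φ x = decompose 𝒜 (D x) (d + j) := fun d x hx => by
    rw [gl_of_mem φ hx]; rfl
  refine ⟨gl 𝒜 φ, fun a b => ?_, hφ⟩
  induction a, b using graded_ind₂ 𝒜 with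
  | h0 => simp
  | h0' => simp
  | ha x x' y h h' => simp only [add_mul, map_add, h, h']; ring
  | ha' x y y' h h' => simp only [mul_add, map_add, h, h']; ring
  | hh i i' x hx y hy =>
    rw [hφ _ _ (SetLike.mul_mem_graded hx hy), hφ _ _ hx, hφ _ _ hy, hD, decompose_add,
      DirectSum.add_apply, Submodule.coe_add, add_assoc, coe_decompose_mul_add_of_left_mem 𝒜 hx,
      show i + (i' + j) = i' + (i + j) by ring, coe_decompose_mul_add_of_left_mem 𝒜 hy]

/-- At a point whose stabiliser is as large as possible there is a derivation moving `y`. -/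
lemma exists_derivation [Algebra.FormallySmooth k C] {r : ℕ} (hr : 0 < r) {y : Cˣ}
    (hy : (y : C) ∈ 𝒜 r) (hy' : ((y⁻¹ : Cˣ) : C) ∈ 𝒜 (-r)) (p : Ideal (trunc 𝒜 r))
    (hp : p ≠ ⊤) (hfix : ∀ d : ℤ, 0 < d → d < r → ∀ x ∈ 𝒜 d, ∀ x' ∈ 𝒜 (-d),
      ∀ h : x * x' ∈ trunc 𝒜 r, (⟨x * x', h⟩ : trunc 𝒜 r) ∈ p) :
    ∃ (E : C →ₗ[k] C) (h : trunc 𝒜 r), (∀ a b, E (a * b) = a * E b + b * E a) ∧
      E y = h ∧ (h : C) ∈ 𝒜 0 ∧ h ∉ p := by
  classical
  have hnt : ∀ {d : ℤ} {x : C}, x ∈ 𝒜 d → x * ((y ^ (-(d / r)) : Cˣ) : C) ∈ trunc 𝒜 r :=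
    fun hx => mem_trunc (by exact_mod_cast res_lt hr _) (nrm_mem hr hy hy' hx)
  let ν : ∀ d, 𝒜 d →ₗ[k] trunc 𝒜 r := fun d =>
    { toFun := fun x => ⟨x * ((y ^ (-(d / r)) : Cˣ) : C), hnt x.2⟩
      map_add' := fun x x' => Subtype.ext (by simp [add_mul])
      map_smul' := fun c x => Subtype.ext (by simp) }
  let φ : ∀ d, 𝒜 d →ₗ[k] (trunc 𝒜 r ⧸ p) := fun d =>
    if res r d = 0 then (Ideal.Quotient.mkₐ k p).toLinearMap.comp (ν d) else 0
  have hφ0 : ∀ d x, res r d = 0 → φ d x = Ideal.Quotient.mk p (ν d x) := fun d x h => by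
    simp [φ, h]
  have hφ1 : ∀ d x, res r d ≠ 0 → φ d x = 0 := fun d x h => by simp [φ, h]
  have hνmul : ∀ i j (x : 𝒜 i) (x' : 𝒜 j), (ν (i + j) ⟨x * x', SetLike.mul_mem_graded x.2 x'.2⟩ : C)
      = (ν i x : C) * ((ν j x' : C) * ((y ^ (-(carry r i j : ℤ)) : Cˣ) : C)) := by
    intro i j x x'
    simp only [ν, LinearMap.coe_mk, AddHom.coe_mk]
    rw [div_add hr, neg_add, neg_add, zpow_add, zpow_add, Units.val_mul, Units.val_mul]
    ring
  let ev : C →ₐ[k] (trunc 𝒜 r ⧸ p) := ga φ (by
      rw [hφ0 _ _ res_zero, ← map_one (Ideal.Quotient.mk p)]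
      congr 1
      exact Subtype.ext (by simp [ν])) (by
    intro i j x x'
    have hc := res_add_carry hr i j
    have hi := res_lt hr i
    have hj := res_lt hr j
    by_cases h1 : res r j = 0
    · have hc0 := carry_of_res_eq_zero hr i j h1
      by_cases h2 : res r i = 0
      · rw [hφ0 _ _ (by rw [hc0] at hc; omega), hφ0 _ _ h1, hφ0 _ _ h2, ← map_mul]
        congr 1
        exact Subtype.ext (by rw [hνmul, hc0]; simp)
      · rw [hφ1 _ _ (by rw [hc0] at hc; omega), hφ1 _ _ h2, zero_mul]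
    · rw [hφ1 _ _ h1, mul_zero]
      by_cases h3 : res r (i + j) = 0
      · rw [hφ0 _ _ h3, Ideal.Quotient.eq_zero_iff_mem]
        have hc1 : carry r i j = 1 := by
          rw [h3, zero_add] at hc
          have h4 : carry r i j < 2 := by
            by_contra h5
            have : r * 2 ≤ r * carry r i j := Nat.mul_le_mul_left _ (by omega)
            omega
          have h5 : carry r i j ≠ 0 := by
            intro h5
            rw [h5] at hc
            omega
          omega
        rw [h3, hc1] at hc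
        have hmem : (ν j x' : C) * ((y ^ (-(carry r i j : ℤ)) : Cˣ) : C) ∈ 𝒜 (-(res r i : ℤ)) := by
          have := SetLike.mul_mem_graded (nrm_mem hr hy hy' x'.2)
            (zpow_mem hy hy' (-(carry r i j : ℤ)))
          have e : -(res r i : ℤ) = res r j + r * -(carry r i j : ℤ) := by
            rw [hc1]
            push_cast
            omega
          rw [e]
          exact this
        have := hfix (res r i) (by omega) (by omega) (ν i x) (nrm_mem hr hy hy' x.2) _ hmem
          (by rw [← hνmul]; exact Subtype.property _)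
        convert this using 1
        exact Subtype.ext (hνmul i j x x')
      · exact hφ1 _ _ h3)
  have hev : ∀ {d : ℤ} {x : C} (hx : x ∈ 𝒜 d), ev x = φ d ⟨x, hx⟩ := fun hx => ga_of_mem φ _ _ hx
  set N : Ideal C := RingHom.ker ev with hN
  have hN1 : ∀ {d : ℤ} {x : C}, x ∈ 𝒜 d → res r d ≠ 0 → x ∈ N := fun hx h => by
    change ev _ = 0
    rw [hev hx, hφ1 _ _ h]
  have hyN : ev y = 1 := by
    rw [hev hy, hφ0 _ _ res_self, ← map_one (Ideal.Quotient.mk p)]
    congr 1
    refine Subtype.ext ?_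
    simp [ν, Int.ediv_self (show (r : ℤ) ≠ 0 by omega)]
  have hone : (1 : C) ∉ N := by
    intro h
    have h1 : ev 1 = 0 := h
    rw [map_one] at h1
    exact hp ((Ideal.Quotient.zero_eq_one_iff).mp h1.symm)
  let δ : ∀ d, 𝒜 d →ₗ[k] (C ⧸ N) := fun d =>
    (d / r) • ((Ideal.Quotient.mkₐ k N).toLinearMap.comp (𝒜 d).subtype)
  have hδ : ∀ {d : ℤ} {x : C}, x ∈ 𝒜 d → gl 𝒜 δ x = (d / r) • Ideal.Quotient.mk N x :=
    fun hx => by rw [gl_of_mem δ hx]; rfl
  have hsm : ∀ (a : C) (w : C ⧸ N), a • w = Ideal.Quotient.mk N a * w := fun a w =>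
    Algebra.smul_def a w
  let D0 : Derivation k C (C ⧸ N) := Derivation.mk' (gl 𝒜 δ) (by
    intro a b
    induction a, b using graded_ind₂ 𝒜 with
    | h0 => simp
    | h0' => simp
    | ha x x' y h h' => simp only [add_mul, map_add, h, h', add_smul, smul_add]; abel
    | ha' x y y' h h' => simp only [mul_add, map_add, h, h', add_smul, smul_add]; abel
    | hh i j x hx x' hx' =>
      rw [hδ (SetLike.mul_mem_graded hx hx'), hδ hx, hδ hx', hsm, hsm, map_mul]
      by_cases h1 : res r j = 0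
      · rw [div_add hr, carry_of_res_eq_zero hr i j h1]
        simp only [zsmul_eq_mul]
        push_cast
        ring
      · rw [Ideal.Quotient.eq_zero_iff_mem.mpr (hN1 hx' h1)]
        simp)
  obtain ⟨g, hg⟩ := Module.projective_lifting_property N.mkQ D0.liftKaehlerDifferential
    N.mkQ_surjective
  let D1 : Derivation k C C := g.compDer (KaehlerDifferential.D k C)
  have hD1 : Ideal.Quotient.mk N (D1 y) = 1 := by
    have h1 : N.mkQ (g (KaehlerDifferential.D k C y)) = D0 y := by
      rw [← LinearMap.comp_apply, hg, Derivation.liftKaehlerDifferential_comp_D]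
    have h2 : D0 y = 1 := by
      change gl 𝒜 δ y = 1
      rw [hδ hy, Int.ediv_self (show (r : ℤ) ≠ 0 by omega), one_smul, ← map_one
        (Ideal.Quotient.mk N), Ideal.Quotient.eq]
      change ev _ = 0
      rw [map_sub, hyN, map_one, sub_self]
    rw [← h2, ← h1]
    rfl
  obtain ⟨m, hm⟩ : ∃ m, (decompose 𝒜 (D1 y) m : C) ∉ N := by
    by_contra hcon
    push Not at hcon
    have : D1 y ∈ N := by
      rw [← sum_support_decompose 𝒜 (D1 y)]
      exact sum_mem fun m _ => hcon m
    rw [Ideal.Quotient.eq_zero_iff_mem.mpr this, eq_comm, ← map_one (Ideal.Quotient.mk N),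
      Ideal.Quotient.eq_zero_iff_mem] at hD1
    exact hone hD1
  have hm0 : res r m = 0 := by
    by_contra h
    exact hm (hN1 (decompose 𝒜 (D1 y) m).2 h)
  obtain ⟨E, hE, hE'⟩ := exists_component (𝒜 := 𝒜) D1.toLinearMap
    (fun a b => by simp [Derivation.leibniz]) (m - r)
  refine ⟨((y ^ (-(m / r)) : Cˣ) : C) • E, ν m (decompose 𝒜 (D1 y) m), fun a b => ?_, ?_, ?_, ?_⟩
  · simp only [LinearMap.smul_apply, hE, smul_eq_mul]; ring
  · rw [LinearMap.smul_apply, hE' r y hy, add_sub_cancel, smul_eq_mul, mul_comm]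
    rfl
  · have := nrm_mem hr hy hy' (decompose 𝒜 (D1 y) m).2
    rw [hm0] at this
    exact this
  · intro hmem
    apply hm
    change ev _ = 0
    rw [hev (decompose 𝒜 (D1 y) m).2, hφ0 _ _ hm0, Ideal.Quotient.eq_zero_iff_mem]
    exact hmem

omit [GradedAlgebra 𝒜] in
/-- Correcting a lift so that it sends `y` to `1`. -/
lemma exists_lift_fixing {B B' : Type} [CommRing B] [CommRing B'] [Algebra k B]
    (g : B →+* B') (hg : Function.Surjective g) (hsq : ∀ w w', g w = 0 → g w' = 0 → w * w' = 0)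
    (E : C →ₗ[k] C) (hE : ∀ a b, E (a * b) = a * E b + b * E a) (y : C) (ψ : C →ₐ[k] B)
    (hy : g (ψ y) = 1) (hu : IsUnit (g (ψ (E y)))) :
    ∃ ψ' : C →ₐ[k] B, ψ' y = 1 ∧ ∀ c, g (ψ' c) = g (ψ c) := by
  obtain ⟨v', hv'⟩ := hu.exists_right_inv
  obtain ⟨v, rfl⟩ := hg v'
  set a := ψ y - 1 with ha
  have ha0 : g a = 0 := by rw [ha, map_sub, hy, map_one, sub_self]
  have hav : a * (ψ (E y) * v - 1) = 0 := hsq _ _ ha0 (by rw [map_sub, map_mul, hv', map_one, sub_self])
  have haa : a * a = 0 := hsq _ _ ha0 ha0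
  have hE1 : E 1 = 0 := by
    have := hE 1 1
    simp only [mul_one, one_mul] at this
    linear_combination -this
  refine ⟨AlgHom.ofLinearMap (ψ.toLinearMap - (a * v) • (ψ.toLinearMap.comp E)) ?_ ?_, ?_, ?_⟩
  · simp [hE1]
  · intro x x'
    simp only [LinearMap.sub_apply, AlgHom.toLinearMap_apply, LinearMap.smul_apply,
      LinearMap.comp_apply, hE, map_add, map_mul, smul_eq_mul]
    linear_combination (-(v * v * ψ (E x) * ψ (E x'))) * haa
  · simp only [AlgHom.ofLinearMap_apply, LinearMap.sub_apply, AlgHom.toLinearMap_apply,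
      LinearMap.smul_apply, LinearMap.comp_apply, smul_eq_mul]
    linear_combination -hav - ha
  · intro c
    simp [ha0]

end Pool.Agent.MP_19ffc6_ag.Lin

end MrgPart0

-- ======== part 1: formerly Pool.Agent.MP_19ffc6_ag.Lin.TruncB
section MrgPart1

/-!
Smoothness of the truncation of a smooth graded algebra containing a homogeneous unit.
-/

set_option autoImplicit false
set_option linter.unusedSectionVars false
set_option linter.style.haveILetI false

open DirectSum Polynomial

namespace Pool.Agent.MP_19ffc6_ag.Lin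

section General

variable {k : Type} [Field k]

/-- Lifting relative to a parameter `e` gives smoothness and regularity of `e`. -/
lemma smooth_regular_of_lift {U : Type} [CommRing U] [Algebra k U] [Algebra.FiniteType k U]
    (e h : U)
    (H : ∀ (R : Type) [CommRing R] [Algebra k R] (J : Ideal R), J ^ 2 = ⊥ → ∀ (ε : R)
      (φ : U →ₐ[k] R ⧸ J), φ e = Ideal.Quotient.mk J ε → IsUnit (φ h) →
        ∃ ρ : U →ₐ[k] R, ρ e = ε ∧ ∀ u, Ideal.Quotient.mk J (ρ u) = φ u) :
    Algebra.FormallySmooth k (Localization.Away h) ∧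
      ∀ (u : U) (n : ℕ), e ^ n * u = 0 → ∃ m : ℕ, h ^ m * u = 0 := by
  letI : Algebra k[X] U := (aeval e).toRingHom.toAlgebra
  have hU : ∀ p : k[X], algebraMap k[X] U p = aeval e p := fun p => rfl
  haveI : IsScalarTower k k[X] U := .of_algebraMap_eq fun a => by simp [hU]
  haveI : Algebra.FiniteType k[X] U := Algebra.FiniteType.of_restrictScalars_finiteType k k[X] U
  haveI : Algebra.FinitePresentation k[X] U := Algebra.FinitePresentation.of_finiteType.mp ‹_›
  haveI : Algebra.FinitePresentation U (Localization.Away h) :=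
    IsLocalization.Away.finitePresentation h
  haveI : Algebra.FinitePresentation k[X] (Localization.Away h) := .trans _ U _
  haveI hfs : Algebra.FormallySmooth k[X] (Localization.Away h) := by
    refine Algebra.FormallySmooth.of_comp_surjective fun R _ _ J hJ φ => ?_
    letI : Algebra k R := ((algebraMap k[X] R).comp (algebraMap k k[X])).toAlgebra
    haveI : IsScalarTower k k[X] R := .of_algebraMap_eq' rfl
    let φ' : U →ₐ[k[X]] R ⧸ J := φ.comp (IsScalarTower.toAlgHom k[X] U _)
    obtain ⟨ρ, hρ, hρ'⟩ := H R J hJ (algebraMap k[X] R X) (φ'.restrictScalars k) (by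
        have := φ'.commutes X
        rw [hU, aeval_X] at this
        exact this)
      ((IsLocalization.Away.algebraMap_isUnit (S := Localization.Away h) h).map φ)
    let ρ' : U →ₐ[k[X]] R :=
      { ρ.toRingHom with
        commutes' := fun p => by
          change ρ (aeval e p) = _
          rw [← aeval_algHom_apply, hρ, aeval_algebraMap_apply, aeval_X_left_apply] }
    have hu : ∀ y : Submonoid.powers h, IsUnit (ρ' y) := by
      rintro ⟨_, n, rfl⟩
      apply isUnit_of_mk hJ
      change IsUnit (Ideal.Quotient.mk J (ρ (h ^ n)))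
      rw [hρ']
      exact (IsLocalization.map_units (Localization.Away h) (⟨h ^ n, n, rfl⟩ :
        Submonoid.powers h)).map φ
    refine ⟨IsLocalization.liftAlgHom (M := Submonoid.powers h) hu, ?_⟩
    apply IsLocalization.algHom_ext (Submonoid.powers h)
    refine AlgHom.ext fun s => ?_
    change Ideal.Quotient.mk J (IsLocalization.liftAlgHom (M := Submonoid.powers h) hu
      (algebraMap U _ s)) = φ (algebraMap U _ s)
    rw [IsLocalization.liftAlgHom_apply, IsLocalization.lift_eq]
    exact hρ' s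
  haveI : Algebra.Smooth k[X] (Localization.Away h) := ⟨hfs, ‹_›⟩
  refine ⟨Algebra.FormallySmooth.comp k k[X] _, fun u n hu => ?_⟩
  have hreg : IsSMulRegular (Localization.Away h) (X ^ n : k[X]) :=
    Module.Flat.isSMulRegular_of_nonZeroDivisors
      (mem_nonZeroDivisors_of_ne_zero (pow_ne_zero n X_ne_zero))
  have h0 : algebraMap U (Localization.Away h) u = 0 := by
    apply hreg
    simp only [smul_zero]
    rw [Algebra.smul_def, IsScalarTower.algebraMap_apply k[X] U, ← map_mul, hU, map_pow, aeval_X,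
      hu, map_zero]
  obtain ⟨⟨_, m, rfl⟩, hm⟩ := (IsLocalization.map_eq_zero_iff (Submonoid.powers h) _ _).mp h0
  exact ⟨m, hm⟩

lemma formallySmooth_away_iff {k T C : Type} [CommRing k] [CommRing T] [CommRing C] [Algebra k T]
    [Algebra k C] (f : T →ₐ[k] C) (h : T) (hi : ∀ a, f a = 0 → ∃ n, h ^ n * a = 0)
    (hs : ∀ c, ∃ b m, f b = f h ^ m * c) :
    Algebra.FormallySmooth k (Localization.Away h) ↔
      Algebra.FormallySmooth k (Localization.Away (f h)) :=
  Algebra.FormallySmooth.iff_of_equiv (AlgEquiv.ofBijective (Localization.awayMapₐ f h)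
    ⟨(Localization.awayMap_injective_iff (f := (f : T →+* C))).mpr hi,
      (Localization.awayMap_surjective_iff (f := (f : T →+* C))).mpr hs⟩)

/-- Smoothness is local. -/
lemma smooth_of_forall_prime {T : Type} [CommRing T] [Algebra k T] [Algebra.FiniteType k T]
    (H : ∀ p : Ideal T, p.IsPrime → ∃ h ∉ p, Algebra.FormallySmooth k (Localization.Away h)) :
    Algebra.Smooth k T := by
  have : Algebra.FinitePresentation k T := Algebra.FinitePresentation.of_finiteType.mp ‹_›
  refine ⟨Algebra.smoothLocus_eq_univ_iff.mp (Set.eq_univ_of_forall fun q => ?_), this⟩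
  obtain ⟨h, hh, hs⟩ := H q.asIdeal q.2
  exact Algebra.basicOpen_subset_smoothLocus_iff.mpr hs hh

end General

section Adj

variable {B : Type} [CommRing B] {r : ℕ}

lemma monic_rt (hr : 0 < r) (ε : B) : (X ^ r - C ε : B[X]).Monic :=
  monic_X_pow_sub_C ε (by omega)

lemma natDegree_rt [Nontrivial B] (ε : B) : (X ^ r - C ε : B[X]).natDegree = r :=
  natDegree_X_pow_sub_C

lemma root_pow_rt (ε : B) :
    AdjoinRoot.root (X ^ r - C ε : B[X]) ^ r = AdjoinRoot.of _ ε := by
  have h := AdjoinRoot.eval₂_root (X ^ r - C ε : B[X])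
  rw [eval₂_sub, eval₂_X_pow, eval₂_C, sub_eq_zero] at h
  exact h

lemma root_pow_res (hr : 0 < r) (ε : B) (a b : ℤ) :
    AdjoinRoot.root (X ^ r - C ε : B[X]) ^ res r a * AdjoinRoot.root (X ^ r - C ε : B[X]) ^ res r b
      = AdjoinRoot.of _ (ε ^ carry r a b) *
        AdjoinRoot.root (X ^ r - C ε : B[X]) ^ res r (a + b) := by
  rw [← pow_add, ← res_add_carry hr, pow_add, pow_mul, root_pow_rt, map_pow, mul_comm]

lemma res_natCast {c : ℕ} (hc : c < r) : res r c = c := by
  have := res_cast (r := r) (by omega) c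
  rw [Int.emod_eq_of_lt (by omega) (by omega)] at this
  exact_mod_cast this

lemma res_add_res (hr : 0 < r) (a b : ℤ) : res r (a + res r b) = res r (a + b) := by
  rw [res_add hr, res_add hr, res_natCast (res_lt hr b)]

lemma res_add_left_cancel (hr : 0 < r) (a : ℤ) {b c : ℤ} (h : res r (a + b) = res r (a + c)) :
    res r b = res r c := by
  have h1 : (a + b) % r = (a + c) % r := by
    rw [← res_cast hr, ← res_cast hr, h]
  have h2 : b % r = c % r := Int.ModEq.add_left_cancel' a h1
  simp [res, h2]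

lemma co_root_mul (hr : 0 < r) (ε : B) (a b : ℤ) (w : AdjoinRoot (X ^ r - C ε : B[X])) :
    co (monic_rt hr ε) (res r (a + b)) (AdjoinRoot.root (X ^ r - C ε : B[X]) ^ res r a * w) =
      ε ^ carry r a b * co (monic_rt hr ε) (res r b) w := by
  nontriviality B
  have hd := natDegree_rt (r := r) ε
  conv_lhs => rw [eq_sum_co (monic_rt hr ε) (by omega) w, hd, Finset.mul_sum, map_sum]
  rw [Finset.sum_eq_single (res r b)]
  · rw [mul_left_comm, co_of_mul, root_pow_res hr, co_of_mul,
      co_root_pow _ _ _ (by rw [hd]; exact res_lt hr _), if_pos rfl]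
    ring
  · intro c hc hne
    have hc' : c < r := Finset.mem_range.mp hc
    have : AdjoinRoot.root (X ^ r - C ε : B[X]) ^ c =
        AdjoinRoot.root (X ^ r - C ε : B[X]) ^ res r c := by rw [res_natCast hc']
    rw [mul_left_comm, co_of_mul, this, root_pow_res hr, co_of_mul,
      co_root_pow _ _ _ (by rw [hd]; exact res_lt hr _), if_neg, mul_zero, mul_zero]
    intro h
    apply hne
    rw [res_add_left_cancel hr a h, res_natCast hc']
  · intro h
    exact absurd (Finset.mem_range.mpr (res_lt hr b)) h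

end Adj

end Pool.Agent.MP_19ffc6_ag.Lin

end MrgPart1

-- ======== part 2: formerly Pool.Agent.MP_19ffc6_ag.Lin.Lifts
section MrgPart2

/-!
Smoothness of a subalgebra relative to finitely many of its elements, in lifting form.
-/

set_option autoImplicit false
set_option linter.unusedSectionVars false
set_option linter.style.haveILetI false

namespace Pool.Agent.MP_19ffc6_ag.Lin

variable {k : Type} [Field k]

section Abstract

variable {U V : Type} [CommRing U] [Algebra k U] [CommRing V] [Algebra k V]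

variable (k) in
/-- Formal smoothness of `U` over the polynomial ring in `y 0, …, y (m - 1)`. -/
def ALifts (m : ℕ) (y : ℕ → U) : Prop :=
  ∀ (R : Type) [CommRing R] [Algebra k R] (J : Ideal R), J ^ 2 = ⊥ → ∀ (ε : ℕ → R)
    (φ : U →ₐ[k] R ⧸ J), (∀ i < m, φ (y i) = Ideal.Quotient.mk J (ε i)) →
      ∃ ρ : U →ₐ[k] R, (∀ i < m, ρ (y i) = ε i) ∧ ∀ u, Ideal.Quotient.mk J (ρ u) = φ u

lemma ALifts.congr {m : ℕ} {y y' : ℕ → U} (h : ALifts k m y) (hy : ∀ i < m, y i = y' i) :
    ALifts k m y' := fun R _ _ J hJ ε φ hφ => by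
  obtain ⟨ρ, hρ, hρ'⟩ := h R J hJ ε φ fun i hi => by rw [hy i hi, hφ i hi]
  exact ⟨ρ, fun i hi => by rw [← hy i hi, hρ i hi], hρ'⟩

lemma ALifts.of_equiv {m : ℕ} {y : ℕ → U} (h : ALifts k m y) (e : U ≃ₐ[k] V) :
    ALifts k m fun i => e (y i) := fun R _ _ J hJ ε φ hφ => by
  obtain ⟨ρ, hρ, hρ'⟩ := h R J hJ ε (φ.comp e) hφ
  exact ⟨ρ.comp e.symm, fun i hi => by simp [hρ i hi], fun v => by simp [hρ']⟩

lemma ALifts.formallySmooth {m : ℕ} {y : ℕ → U} (h : ALifts k m y) :
    Algebra.FormallySmooth k U := by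
  refine Algebra.FormallySmooth.of_comp_surjective fun R _ _ J hJ φ => ?_
  choose ε hε using fun i => Ideal.Quotient.mk_surjective (φ (y i))
  obtain ⟨ρ, -, hρ⟩ := h R J hJ ε φ fun i _ => (hε i).symm
  exact ⟨ρ, AlgHom.ext hρ⟩

lemma ALifts.localization {m : ℕ} {y : ℕ → U} (h : ALifts k m y) [Algebra U V]
    [IsScalarTower k U V] (M : Submonoid U) [IsLocalization M V] :
    ALifts k m fun i => algebraMap U V (y i) := fun R _ _ J hJ ε φ hφ => by
  obtain ⟨ρ, hρ, hρ'⟩ := h R J hJ ε (φ.comp (IsScalarTower.toAlgHom k U V)) hφ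
  have hu : ∀ y : M, IsUnit (ρ y) := fun y => isUnit_of_mk hJ (by
    rw [hρ']; exact (IsLocalization.map_units V y).map φ)
  refine ⟨IsLocalization.liftAlgHom (M := M) hu, fun i hi => ?_, fun v => ?_⟩
  · rw [IsLocalization.liftAlgHom_apply, IsLocalization.lift_eq]
    exact hρ i hi
  · have : (Ideal.Quotient.mkₐ k J).comp (IsLocalization.liftAlgHom (M := M) hu) = φ := by
      apply IsLocalization.algHom_ext M
      refine AlgHom.ext fun s => ?_
      change Ideal.Quotient.mk J (IsLocalization.liftAlgHom (M := M) hu (algebraMap U V s)) =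
        φ (algebraMap U V s)
      rw [IsLocalization.liftAlgHom_apply, IsLocalization.lift_eq]
      exact hρ' s
    exact DFunLike.congr_fun this v

lemma aLifts_iff (m : ℕ) (y : ℕ → U) [Algebra (MvPolynomial (Fin m) k) U]
    [IsScalarTower k (MvPolynomial (Fin m) k) U]
    (hy : ∀ i : Fin m, algebraMap (MvPolynomial (Fin m) k) U (MvPolynomial.X i) = y i) :
    ALifts k m y ↔ Algebra.FormallySmooth (MvPolynomial (Fin m) k) U := by
  have hU : ∀ p, algebraMap (MvPolynomial (Fin m) k) U p =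
      MvPolynomial.aeval (fun i : Fin m => y i) p := fun p =>
    DFunLike.congr_fun (MvPolynomial.algHom_ext (f := IsScalarTower.toAlgHom k _ U)
      (g := MvPolynomial.aeval (fun i : Fin m => y i)) fun i => by simp [hy]) p
  constructor
  · intro h
    refine Algebra.FormallySmooth.of_comp_surjective fun R _ _ J hJ φ => ?_
    letI : Algebra k R := ((algebraMap (MvPolynomial (Fin m) k) R).comp (algebraMap k _)).toAlgebra
    haveI : IsScalarTower k (MvPolynomial (Fin m) k) R := .of_algebraMap_eq' rfl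
    obtain ⟨ρ, hρ, hρ'⟩ := h R J hJ
      (fun i => if hi : i < m then algebraMap (MvPolynomial (Fin m) k) R (.X ⟨i, hi⟩) else 0)
      (φ.restrictScalars k) fun i hi => by
        rw [dif_pos hi, ← hy ⟨i, hi⟩]
        exact φ.commutes _
    have : ρ.comp (IsScalarTower.toAlgHom k (MvPolynomial (Fin m) k) U) =
        IsScalarTower.toAlgHom k (MvPolynomial (Fin m) k) R :=
      MvPolynomial.algHom_ext fun i => by simp [hy, hρ i i.2]
    exact ⟨{ ρ.toRingHom with commutes' := fun p => DFunLike.congr_fun this p }, AlgHom.ext hρ'⟩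
  · intro h R _ _ J hJ ε φ hφ
    letI : Algebra (MvPolynomial (Fin m) k) R :=
      (MvPolynomial.aeval fun i : Fin m => ε i).toRingHom.toAlgebra
    have hR : ∀ p, algebraMap (MvPolynomial (Fin m) k) R p =
      MvPolynomial.aeval (fun i : Fin m => ε i) p := fun p => rfl
    haveI : IsScalarTower k (MvPolynomial (Fin m) k) R := .of_algebraMap_eq fun a => by simp [hR]
    have h1 : φ.comp (IsScalarTower.toAlgHom k (MvPolynomial (Fin m) k) U) =
        IsScalarTower.toAlgHom k (MvPolynomial (Fin m) k) (R ⧸ J) :=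
      MvPolynomial.algHom_ext fun i => by
        change φ (algebraMap _ U _) = Ideal.Quotient.mk J (algebraMap _ R _)
        rw [hy, hφ i i.2, hR, MvPolynomial.aeval_X]
    obtain ⟨ρ, hρ⟩ := Algebra.FormallySmooth.comp_surjective (MvPolynomial (Fin m) k) U J hJ
      { φ.toRingHom with commutes' := fun p => DFunLike.congr_fun h1 p }
    refine ⟨ρ.restrictScalars k, fun i hi => ?_, fun u => DFunLike.congr_fun hρ u⟩
    rw [← hy ⟨i, hi⟩]
    exact (ρ.commutes _).trans (by rw [hR, MvPolynomial.aeval_X])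

/-- Relative smoothness is local. -/
lemma aLifts_of_cover {m : ℕ} {y : ℕ → U} [Algebra.FiniteType k U]
    (H : ∀ p : Ideal U, p.IsPrime → ∃ h ∉ p,
      ALifts k m fun i => algebraMap U (Localization.Away h) (y i)) : ALifts k m y := by
  letI : Algebra (MvPolynomial (Fin m) k) U :=
    (MvPolynomial.aeval fun i : Fin m => y i).toRingHom.toAlgebra
  have hU : ∀ p, algebraMap (MvPolynomial (Fin m) k) U p =
    MvPolynomial.aeval (fun i : Fin m => y i) p := fun p => rfl
  haveI : IsScalarTower k (MvPolynomial (Fin m) k) U := .of_algebraMap_eq fun a => by simp [hU]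
  haveI : Algebra.FiniteType (MvPolynomial (Fin m) k) U :=
    Algebra.FiniteType.of_restrictScalars_finiteType k _ U
  haveI : Algebra.FinitePresentation (MvPolynomial (Fin m) k) U :=
    Algebra.FinitePresentation.of_finiteType.mp ‹_›
  rw [aLifts_iff m y fun i => by simp [hU]]
  refine Algebra.smoothLocus_eq_univ_iff.mp (Set.eq_univ_of_forall fun q => ?_)
  obtain ⟨h, hh, hs⟩ := H q.asIdeal q.2
  refine Algebra.basicOpen_subset_smoothLocus_iff.mpr ((aLifts_iff m _ fun i => ?_).mp hs) hh
  rw [IsScalarTower.algebraMap_apply _ U, hU, MvPolynomial.aeval_X]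

lemma finiteType_of_cover
    (H : ∀ p : Ideal U, p.IsPrime → ∃ h ∉ p, Algebra.FiniteType k (Localization.Away h)) :
    Algebra.FiniteType k U := by
  refine Algebra.FiniteType.of_span_eq_top_target
    {h | Algebra.FiniteType k (Localization.Away h)} ?_ fun h hh => hh
  by_contra hne
  obtain ⟨p, hp, hle⟩ := Ideal.exists_le_maximal _ hne
  obtain ⟨h, hh, hs⟩ := H p hp.isPrime
  exact hh (hle (Ideal.subset_span hs))

end Abstract

section Sub

variable {E : Type} [CommRing E] [Algebra k E]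

/-- The subalgebra `C` is of finite type and smooth over the polynomial ring in its elements
`y 0, …, y (m - 1)`. -/
def Lifts (C : Subalgebra k E) (m : ℕ) (y : ℕ → E) : Prop :=
  Algebra.FiniteType k C ∧ ∃ y' : ℕ → C, (∀ i < m, (y' i : E) = y i) ∧ ALifts k m y'

lemma Lifts.mem {C : Subalgebra k E} {m : ℕ} {y : ℕ → E} (h : Lifts C m y) {i : ℕ} (hi : i < m) :
    y i ∈ C := by
  obtain ⟨-, y', hy, -⟩ := h
  exact hy i hi ▸ (y' i).2

lemma Lifts.smooth {C : Subalgebra k E} {m : ℕ} {y : ℕ → E} (h : Lifts C m y) :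
    Algebra.Smooth k C := by
  obtain ⟨h1, y', -, h2⟩ := h
  exact ⟨h2.formallySmooth, Algebra.FinitePresentation.of_finiteType.mp h1⟩

/-- `C'` is obtained from `C` by inverting `h`. -/
structure IsAway (C C' : Subalgebra k E) (h : E) : Prop where
  le : C ≤ C'
  mem : h ∈ C
  inv : ∃ h' ∈ C', h * h' = 1
  pow : ∀ c ∈ C', ∃ n : ℕ, h ^ n * c ∈ C

lemma IsAway.exists_equiv {C C' : Subalgebra k E} {h : E} (H : IsAway C C' h) :
    ∃ e : Localization.Away (⟨h, H.mem⟩ : C) ≃ₐ[k] C',
      ∀ c : C, (e (algebraMap _ _ c) : E) = c := by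
  obtain ⟨h', hh', hinv⟩ := H.inv
  letI : Algebra C C' := (Subalgebra.inclusion H.le).toRingHom.toAlgebra
  have hC : ∀ c : C, (algebraMap C C' c : E) = c := fun c => rfl
  haveI : IsScalarTower k C C' := .of_algebraMap_eq fun a => Subtype.ext rfl
  haveI : IsLocalization.Away (⟨h, H.mem⟩ : C) C' := by
    refine IsLocalization.Away.mk _ (IsUnit.of_mul_eq_one ⟨h', hh'⟩ (Subtype.ext hinv))
      (fun c => ?_) fun a b hab => ⟨0, ?_⟩
    · obtain ⟨n, hn⟩ := H.pow c c.2
      exact ⟨n, ⟨_, hn⟩, Subtype.ext (by simp [hC, mul_comm])⟩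
    · have h1 : (a : E) = b := by rw [← hC, ← hC, hab]
      rw [Subtype.ext h1]
  refine ⟨(IsLocalization.algEquiv (Submonoid.powers (⟨h, H.mem⟩ : C)) _ C').restrictScalars k,
    fun c => ?_⟩
  simp [hC]

lemma IsAway.finiteType {C C' : Subalgebra k E} {h : E} (H : IsAway C C' h)
    [Algebra.FiniteType k C] : Algebra.FiniteType k C' := by
  obtain ⟨e, -⟩ := H.exists_equiv
  exact Algebra.FiniteType.equiv inferInstance e

lemma IsAway.smooth {C C' : Subalgebra k E} {h : E} (H : IsAway C C' h)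
    [Algebra.Smooth k C] : Algebra.Smooth k C' := by
  obtain ⟨e, -⟩ := H.exists_equiv
  have : Algebra.Smooth C (Localization.Away (⟨h, H.mem⟩ : C)) :=
    Algebra.Smooth.of_isLocalization_Away (⟨h, H.mem⟩ : C)
  have : Algebra.Smooth k (Localization.Away (⟨h, H.mem⟩ : C)) := .comp k C _
  exact Algebra.Smooth.of_equiv e

lemma IsAway.lifts {C C' : Subalgebra k E} {h : E} (H : IsAway C C' h) {m : ℕ} {y : ℕ → E}
    (hC : Lifts C m y) : Lifts C' m y := by
  obtain ⟨h1, y', hy, h2⟩ := hC
  obtain ⟨e, he⟩ := H.exists_equiv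
  exact ⟨H.finiteType, _, fun i hi => (he (y' i)).trans (hy i hi),
    (h2.localization (Submonoid.powers (⟨h, H.mem⟩ : C))).of_equiv e⟩

/-- Relative smoothness of a subalgebra is local. -/
lemma lifts_of_cover {C : Subalgebra k E} {m : ℕ} {y : ℕ → E} (hy : ∀ i < m, y i ∈ C)
    (H : ∀ p : Ideal C, p.IsPrime → ∃ h : C, h ∉ p ∧ ∃ C', IsAway C C' h ∧ Lifts C' m y) :
    Lifts C m y := by
  classical
  have h1 : Algebra.FiniteType k C := finiteType_of_cover fun p hp => by
    obtain ⟨h, hh, C', hC', h2, -⟩ := H p hp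
    obtain ⟨e, -⟩ := hC'.exists_equiv
    exact ⟨h, hh, Algebra.FiniteType.equiv h2 e.symm⟩
  refine ⟨h1, fun i => if hi : i < m then ⟨y i, hy i hi⟩ else 0, fun i hi => by simp [hi],
    aLifts_of_cover fun p hp => ?_⟩
  obtain ⟨h, hh, C', hC', -, y', hy', h2⟩ := H p hp
  obtain ⟨e, he⟩ := hC'.exists_equiv
  refine ⟨h, hh, (h2.of_equiv e.symm).congr fun i hi => ?_⟩
  rw [AlgEquiv.symm_apply_eq]
  exact Subtype.ext (by rw [he, hy' i hi, dif_pos hi])

/-- A polynomial ring is smooth over the polynomial ring in some of its variables. -/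
lemma lifts_adjoin {σ : Type} [Finite σ] (z : σ → E) (hz : AlgebraicIndependent k z) (m : ℕ)
    (s : ℕ → σ) (hs : Set.InjOn s {i | i < m}) :
    Lifts (Algebra.adjoin k (Set.range z)) m fun i => z (s i) := by
  classical
  have key : ALifts k m fun i => (MvPolynomial.X (s i) : MvPolynomial σ k) := by
    intro R _ _ J _ ε φ hφ
    choose η hη using fun a => Ideal.Quotient.mk_surjective (φ (MvPolynomial.X a))
    let ε' : σ → R := fun a => if h : ∃ i, i < m ∧ s i = a then ε h.choose else η a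
    have h1 : ∀ i < m, ε' (s i) = ε i := fun i hi => by
      have h : ∃ j, j < m ∧ s j = s i := ⟨i, hi, rfl⟩
      simp only [ε', dif_pos h]
      rw [hs h.choose_spec.1 hi h.choose_spec.2]
    refine ⟨MvPolynomial.aeval ε', fun i hi => by simp [h1 i hi], fun u => ?_⟩
    refine DFunLike.congr_fun (MvPolynomial.algHom_ext
      (f := (Ideal.Quotient.mkₐ k J).comp (MvPolynomial.aeval ε')) (g := φ) fun a => ?_) u
    by_cases h : ∃ i, i < m ∧ s i = a
    · obtain ⟨i, hi, rfl⟩ := h
      simp [h1 i hi, hφ i hi]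
    · simp [ε', dif_neg h, hη]
  exact ⟨Algebra.FiniteType.equiv inferInstance hz.aevalEquiv, _,
    fun i _ => by simp [AlgebraicIndependent.aevalEquiv], key.of_equiv hz.aevalEquiv⟩

end Sub

end Pool.Agent.MP_19ffc6_ag.Lin

end MrgPart2

-- ======== part 3: formerly Pool.Agent.MP_19ffc6_ag.Lin.Mono
section MrgPart3

/-!
Monomials in the group algebra of a lattice over a field, and atlases of homogeneous charts.
-/

set_option autoImplicit false
set_option linter.unusedSectionVars false
set_option linter.style.haveILetI false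

open AddMonoidAlgebra

namespace Pool.Agent.MP_19ffc6_ag.Lin

/-- The character lattice. -/
abbrev Lat : Type := ℕ →₀ ℤ

/-- The ambient ring of all charts. -/
abbrev Amb (L : Type) [Field L] : Type := AddMonoidAlgebra L Lat

/-- The standard basis of the lattice. -/
noncomputable abbrev ee (i : ℕ) : Lat := Finsupp.single i 1

/-- The sublattice spanned by the first `m` basis vectors. -/
def InL (m : ℕ) (μ : Lat) : Prop := ∀ i, m ≤ i → μ i = 0

namespace InL

variable {m : ℕ} {μ ν : Lat}

lemma zero : InL m 0 := fun _ _ => rfl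

lemma add (h : InL m μ) (h' : InL m ν) : InL m (μ + ν) := fun i hi => by simp [h i hi, h' i hi]

lemma neg (h : InL m μ) : InL m (-μ) := fun i hi => by simp [h i hi]

lemma sub (h : InL m μ) (h' : InL m ν) : InL m (μ - ν) := fun i hi => by simp [h i hi, h' i hi]

lemma zsmul (h : InL m μ) (n : ℤ) : InL m (n • μ) := fun i hi => by simp [h i hi]

lemma nsmul (h : InL m μ) (n : ℕ) : InL m (n • μ) := fun i hi => by simp [h i hi]

lemma mono (h : InL m μ) {m' : ℕ} (hm : m ≤ m') : InL m' μ := fun i hi => h i (hm.trans hi)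

lemma of_succ (h : InL (m + 1) μ) (h0 : μ m = 0) : InL m μ := fun i hi => by
  rcases hi.eq_or_lt with rfl | hi
  exacts [h0, h i hi]

lemma basis {i : ℕ} (hi : i < m) : InL m (ee i) := fun j hj =>
  Finsupp.single_eq_of_ne (by omega)

lemma eq_sum (h : InL m μ) : μ = ∑ i ∈ Finset.range m, μ i • ee i := by
  ext j
  simp only [Finsupp.coe_finsetSum, Finset.sum_apply, Finsupp.smul_single, smul_eq_mul, mul_one,
    Finsupp.single_apply, Finset.sum_ite_eq', Finset.mem_range]
  split_ifs with hj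
  exacts [rfl, h j (by omega)]

end InL

variable {k L : Type} [Field k] [Field L] [Algebra k L]

section Mon

variable {C D : Subalgebra k (Amb L)} {μ ν : Lat} {a b : L}

lemma mon_mul (h : single μ a ∈ C) (h' : single ν b ∈ C) : single (μ + ν) (a * b) ∈ C := by
  rw [← single_mul_single]; exact mul_mem h h'

lemma mon_pow (h : single μ a ∈ C) (n : ℕ) : single (n • μ) (a ^ n) ∈ C := by
  rw [← single_pow]; exact pow_mem h n

lemma mon_one : single 0 1 ∈ C := one_mem C

lemma mon_zero : single μ 0 ∈ C := by rw [single_zero]; exact zero_mem C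

lemma mon_add (h : single μ a ∈ C) (h' : single μ b ∈ C) : single μ (a + b) ∈ C := by
  rw [single_add]; exact add_mem h h'

lemma mon_algebraMap (r : k) : single 0 (algebraMap k L r) ∈ C := C.algebraMap_mem r

lemma mon_congr (h : single μ a ∈ C) (h1 : μ = ν) (h2 : a = b) : single ν b ∈ C := h1 ▸ h2 ▸ h

lemma mon_mul_zero (h : single 0 a ∈ C) (h' : single ν b ∈ C) : single ν (a * b) ∈ C :=
  mon_congr (mon_mul h h') (zero_add _) rfl

lemma mon_pow_zero (h : single 0 a ∈ C) (n : ℕ) : single 0 (a ^ n) ∈ C :=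
  mon_congr (mon_pow h n) (smul_zero _) rfl

lemma mon_prod {ι : Type} (s : Finset ι) {μ : ι → Lat} {a : ι → L}
    (h : ∀ i ∈ s, single (μ i) (a i) ∈ C) : single (∑ i ∈ s, μ i) (∏ i ∈ s, a i) ∈ C := by
  classical
  induction s using Finset.induction_on with
  | empty => simpa using mon_one
  | insert i s hi ih =>
    rw [Finset.sum_insert hi, Finset.prod_insert hi]
    exact mon_mul (h i (by simp)) (ih fun j hj => h j (by simp [hj]))

lemma mon_sum {ι : Type} (s : Finset ι) {a : ι → L}
    (h : ∀ i ∈ s, single μ (a i) ∈ C) : single μ (∑ i ∈ s, a i) ∈ C := by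
  rw [← singleAddHom_apply, map_sum]; exact sum_mem h

/-- The coefficients occurring in `C` in degree zero. -/
noncomputable def deg0 (C : Subalgebra k (Amb L)) : Subalgebra k L := C.comap singleZeroAlgHom

lemma mem_deg0 : a ∈ deg0 C ↔ single 0 a ∈ C := Iff.rfl

variable (C μ a) in
/-- The monomial `a T ^ μ` is a unit of `C`. -/
structure IsU : Prop where
  ne : a ≠ 0
  mem : single μ a ∈ C
  inv : single (-μ) a⁻¹ ∈ C

namespace IsU

lemma one : IsU C 0 1 := ⟨one_ne_zero, mon_one, by simpa using mon_one⟩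

lemma congr (h : IsU C μ a) (h1 : μ = ν) (h2 : a = b) : IsU C ν b := h1 ▸ h2 ▸ h

lemma mono (h : IsU C μ a) (hle : C ≤ D) : IsU D μ a := ⟨h.ne, hle h.mem, hle h.inv⟩

lemma mul (h : IsU C μ a) (h' : IsU C ν b) : IsU C (μ + ν) (a * b) :=
  ⟨mul_ne_zero h.ne h'.ne, mon_mul h.mem h'.mem,
    mon_congr (mon_mul h.inv h'.inv) (neg_add μ ν).symm (mul_inv a b).symm⟩

lemma symm (h : IsU C μ a) : IsU C (-μ) a⁻¹ :=
  ⟨inv_ne_zero h.ne, h.inv, by simpa using h.mem⟩

lemma pow (h : IsU C μ a) (n : ℕ) : IsU C (n • μ) (a ^ n) :=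
  ⟨pow_ne_zero n h.ne, mon_pow h.mem n,
    mon_congr (mon_pow h.inv n) (smul_neg n μ) (inv_pow a n)⟩

lemma zpow (h : IsU C μ a) (n : ℤ) : IsU C (n • μ) (a ^ n) := by
  obtain ⟨n, rfl | rfl⟩ := n.eq_nat_or_neg
  · simpa using h.pow n
  · simpa using (h.pow n).symm

lemma prod {ι : Type} (s : Finset ι) {μ : ι → Lat} {a : ι → L}
    (h : ∀ i ∈ s, IsU C (μ i) (a i)) : IsU C (∑ i ∈ s, μ i) (∏ i ∈ s, a i) := by
  classical
  induction s using Finset.induction_on with
  | empty => simpa using one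
  | insert i s hi ih =>
    rw [Finset.sum_insert hi, Finset.prod_insert hi]
    exact (h i (by simp)).mul (ih fun j hj => h j (by simp [hj]))

/-- A divisor of a unit is a unit. -/
lemma of_mul (h : IsU C (μ + ν) (a * b)) (h1 : single μ a ∈ C) (h2 : single ν b ∈ C) :
    IsU C μ a := by
  have ha := left_ne_zero_of_mul h.ne
  have hb := right_ne_zero_of_mul h.ne
  exact ⟨ha, h1, mon_congr (mon_mul h.inv h2) (by abel) (by field_simp)⟩

lemma of_prod {ι : Type} {s : Finset ι} {μ : ι → Lat} {a : ι → L}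
    (h : IsU C (∑ i ∈ s, μ i) (∏ i ∈ s, a i)) (h1 : ∀ i ∈ s, single (μ i) (a i) ∈ C) {i : ι}
    (hi : i ∈ s) : IsU C (μ i) (a i) := by
  classical
  rw [← Finset.add_sum_erase _ _ hi, ← Finset.mul_prod_erase _ _ hi] at h
  exact h.of_mul (h1 i hi) (mon_prod _ fun j hj => h1 j (Finset.mem_of_mem_erase hj))

/-- The unit of the subalgebra given by a monomial unit. -/
noncomputable def unit (h : IsU C μ a) : Cˣ where
  val := ⟨_, h.mem⟩
  inv := ⟨_, h.inv⟩
  val_inv := Subtype.ext (by simp [single_mul_single, h.ne, one_def])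
  inv_val := Subtype.ext (by simp [single_mul_single, h.ne, one_def])

end IsU

variable (C μ a) in
/-- The localisation of `C` at the monomial `a T ^ μ`. -/
noncomputable def loc : Subalgebra k (Amb L) := C ⊔ Algebra.adjoin k {single (-μ) a⁻¹}

lemma le_loc : C ≤ loc C μ a := le_sup_left

lemma inv_mem_loc : single (-μ) a⁻¹ ∈ loc C μ a :=
  (le_sup_right : _ ≤ loc C μ a) (Algebra.subset_adjoin rfl)

lemma isU_loc (h : single μ a ∈ C) (ha : a ≠ 0) : IsU (loc C μ a) μ a :=
  ⟨ha, le_loc h, inv_mem_loc⟩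

lemma loc_le (h : C ≤ D) (h' : single (-μ) a⁻¹ ∈ D) : loc C μ a ≤ D :=
  sup_le h (Algebra.adjoin_le (by simpa using h'))

lemma IsHom.loc (hC : IsHom C) : IsHom (loc C μ a) :=
  hC.sup (isHom_adjoin (by rintro _ rfl; exact ⟨_, _, rfl⟩))

/-- The elements carried into `C` by a power of `h`. -/
def satur {E : Type} [CommRing E] [Algebra k E] (C : Subalgebra k E) (h : E) (hh : h ∈ C) :
    Subalgebra k E where
  carrier := {c | ∃ n : ℕ, h ^ n * c ∈ C}
  add_mem' := by
    rintro x y ⟨n, hn⟩ ⟨n', hn'⟩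
    refine ⟨n + n', ?_⟩
    convert add_mem (mul_mem (pow_mem hh n') hn) (mul_mem (pow_mem hh n) hn') using 1
    ring
  mul_mem' := by
    rintro x y ⟨n, hn⟩ ⟨n', hn'⟩
    refine ⟨n + n', ?_⟩
    convert mul_mem hn hn' using 1
    ring
  algebraMap_mem' r := ⟨0, by simp⟩

lemma le_satur {E : Type} [CommRing E] [Algebra k E] (C : Subalgebra k E) (h : E) (hh : h ∈ C) :
    C ≤ satur C h hh := fun c hc => ⟨0, by simpa using hc⟩

lemma isAway_loc (h : single μ a ∈ C) (ha : a ≠ 0) : IsAway C (loc C μ a) (single μ a) where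
  le := le_loc
  mem := h
  inv := ⟨_, inv_mem_loc, by simp [single_mul_single, ha, one_def]⟩
  pow := loc_le (le_satur C _ h) ⟨1, by
    simpa [single_mul_single, ha] using mon_one⟩

lemma mon_mem_loc (h : single μ a ∈ C) (ha : a ≠ 0) :
    single ν b ∈ loc C μ a ↔ ∃ n : ℕ, single (n • μ + ν) (a ^ n * b) ∈ C := by
  constructor
  · intro hb
    obtain ⟨n, hn⟩ := (isAway_loc h ha).pow _ hb
    exact ⟨n, by rwa [single_pow, single_mul_single] at hn⟩
  · rintro ⟨n, hn⟩
    exact mon_congr (mon_mul (mon_pow inv_mem_loc n) (le_loc hn)) (by simp)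
      (by rw [inv_pow, inv_mul_cancel_left₀ (pow_ne_zero n ha)])

/-- All monomials of `C` have degree in the first `m` coordinates. -/
def Supp (m : ℕ) (C : Subalgebra k (Amb L)) : Prop := ∀ μ a, a ≠ 0 → single μ a ∈ C → InL m μ

variable (k L) in
/-- The elements supported in the first `m` coordinates. -/
def suppAlg (m : ℕ) : Subalgebra k (Amb L) where
  carrier := {c | ∀ μ ∈ c.coeff.support, InL m μ}
  add_mem' := fun {a b} ha hb μ hμ => by
    classical exact (Finset.mem_union.mp (Finsupp.support_add hμ)).elim (ha μ) (hb μ)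
  mul_mem' := fun {a b} ha hb μ hμ => by
    classical
    obtain ⟨x, hx, y, hy, rfl⟩ := Finset.mem_add.1 (support_coeff_mul_subset a b hμ)
    exact (ha x hx).add (hb y hy)
  algebraMap_mem' := fun r μ hμ => by
    obtain rfl := Finset.mem_singleton.mp (Finsupp.support_single_subset hμ)
    exact InL.zero

lemma mon_mem_suppAlg {m : ℕ} (h : InL m μ) : single μ a ∈ suppAlg k L m := fun ν hν => by
  obtain rfl := Finset.mem_singleton.mp (Finsupp.support_single_subset hν)
  exact h

lemma supp_of_le {m : ℕ} (h : C ≤ suppAlg k L m) : Supp m C := fun μ a ha hμ =>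
  h hμ μ (by simp [ha])

lemma Supp.le {m : ℕ} (h : Supp m C) (hC : IsHom C) : C ≤ suppAlg k L m := fun c hc μ hμ =>
  h μ _ (Finsupp.mem_support_iff.mp hμ) (hC c hc μ)

lemma Supp.mono {m m' : ℕ} (h : Supp m C) (hm : m ≤ m') : Supp m' C := fun μ a ha hμ =>
  (h μ a ha hμ).mono hm

lemma Supp.loc {m : ℕ} (h : Supp m C) (hC : IsHom C) (hμ : InL m μ) : Supp m (loc C μ a) :=
  supp_of_le (loc_le (h.le hC) (mon_mem_suppAlg hμ.neg))

end Mon

section Val

variable {Ω : Type} [Field Ω] [Algebra L Ω]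

variable (k) in
/-- The elements whose value at the character `θ` lies in the valuation ring `O`. -/
noncomputable def valAlg (O : ValuationSubring Ω) (θ : AddChar Lat Ω)
    (hk : ∀ r : k, algebraMap L Ω (algebraMap k L r) ∈ O) : Subalgebra k (Amb L) where
  carrier := {c | lift L Ω Lat θ.toMonoidHom c ∈ O}
  add_mem' := fun ha hb => by simpa using add_mem ha hb
  mul_mem' := fun ha hb => by simpa using mul_mem ha hb
  algebraMap_mem' := fun r => by
    change lift L Ω Lat θ.toMonoidHom (algebraMap L _ (algebraMap k L r)) ∈ O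
    rw [AlgHom.commutes]
    exact hk r

lemma mon_mem_valAlg {O : ValuationSubring Ω} {θ : AddChar Lat Ω} {hk} {μ : Lat} {a : L} :
    single μ a ∈ valAlg k O θ hk ↔ algebraMap L Ω a * θ μ ∈ O := by
  change lift L Ω Lat θ.toMonoidHom _ ∈ O ↔ _
  simp [Algebra.smul_def]

/-- The chart `C` contains the centre of the valuation ring `O` in the coordinates `θ`. -/
def Ctr (C : Subalgebra k (Amb L)) (O : ValuationSubring Ω) (θ : AddChar Lat Ω) : Prop :=
  ∀ μ a, single μ a ∈ C → algebraMap L Ω a * θ μ ∈ O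

lemma Ctr.hk {C : Subalgebra k (Amb L)} {O : ValuationSubring Ω} {θ : AddChar Lat Ω}
    (h : Ctr C O θ) (r : k) : algebraMap L Ω (algebraMap k L r) ∈ O := by
  simpa using h 0 _ (mon_algebraMap r)

lemma Ctr.le {C : Subalgebra k (Amb L)} {O : ValuationSubring Ω} {θ : AddChar Lat Ω}
    (h : Ctr C O θ) (hC : IsHom C) (hk) : C ≤ valAlg k O θ hk :=
  hC.le fun μ a hμ => mon_mem_valAlg.mpr (h μ a hμ)

lemma ctr_of_le {C : Subalgebra k (Amb L)} {O : ValuationSubring Ω} {θ : AddChar Lat Ω} {hk}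
    (h : C ≤ valAlg k O θ hk) : Ctr C O θ := fun _ _ hμ => mon_mem_valAlg.mp (h hμ)

lemma Ctr.loc {C : Subalgebra k (Amb L)} {O : ValuationSubring Ω} {θ : AddChar Lat Ω}
    (h : Ctr C O θ) (hC : IsHom C) {μ : Lat} {a : L} (h' : (algebraMap L Ω a * θ μ)⁻¹ ∈ O) :
    Ctr (loc C μ a) O θ :=
  ctr_of_le (loc_le (h.le hC h.hk) (mon_mem_valAlg.mpr (by
    rwa [map_inv₀, AddChar.map_neg_eq_inv, ← mul_inv])))

lemma char_ne_zero (θ : AddChar Lat Ω) (μ : Lat) : θ μ ≠ 0 := (θ.val_isUnit μ).ne_zero

/-- Twisting a character along one coordinate. -/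
noncomputable def twist (θ : AddChar Lat Ω) (m : ℕ) (η : Ω) (hη : η ≠ 0) : AddChar Lat Ω where
  toFun μ := θ μ * η ^ μ m
  map_zero_eq_one' := by simp
  map_add_eq_mul' μ ν := by
    rw [AddChar.map_add_eq_mul, Finsupp.add_apply, zpow_add₀ hη]; ring

lemma twist_apply (θ : AddChar Lat Ω) (m : ℕ) (η : Ω) (hη : η ≠ 0) (μ : Lat) :
    twist θ m η hη μ = θ μ * η ^ μ m := rfl

/-- The character with prescribed values on the basis. -/
noncomputable def charOf (t : ℕ → Ω) (ht : ∀ i, t i ≠ 0) : AddChar Lat Ω where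
  toFun μ := μ.prod fun i n => t i ^ n
  map_zero_eq_one' := by simp
  map_add_eq_mul' μ ν := Finsupp.prod_add_index' (by simp) fun i _ _ => zpow_add₀ (ht i) _ _

lemma charOf_ee (t : ℕ → Ω) (ht : ∀ i, t i ≠ 0) (i : ℕ) : charOf t ht (ee i) = t i := by
  change (ee i).prod _ = _
  simp

variable (Ω) in
/-- A finite family of homogeneous charts `C j`, glued along ratios of the sections `f j`,
presenting a projective birational model of `A` as a quotient by a torus of rank `m`
acting with finite stabilisers. -/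
structure IsAtlas (K : Subfield L) (A : Subalgebra k L) (m : ℕ) {ι : Type}
    (C : ι → Subalgebra k (Amb L)) (f : ι → L) : Prop where
  hom : ∀ j, IsHom (C j)
  supp : ∀ j, Supp m (C j)
  f_mem : ∀ j, f j ∈ K
  f_ne : ∀ j, f j ≠ 0
  ratio : ∀ i j, single 0 (f i / f j) ∈ C j
  comp : ∀ i j μ a, single μ a ∈ C i → ∃ N : ℕ, single μ ((f i / f j) ^ N * a) ∈ C j
  base : ∀ j, ∀ a ∈ A, single 0 a ∈ C j
  fin : ∀ j, ∀ i < m, ∃ n : ℕ, 0 < n ∧ ∃ a ∈ K, IsU (C j) (n • ee i) a
  full : ∀ j, ∀ i < m, single (ee i) 1 ∈ C j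
  proper : ∀ O : ValuationSubring Ω, (∀ a ∈ A, algebraMap L Ω a ∈ O) → ∃ j θ, Ctr (C j) O θ

lemma fin_of_basis {K : Subfield L} {m : ℕ} {C : Subalgebra k (Amb L)}
    (h : ∀ i < m, ∃ n : ℕ, 0 < n ∧ ∃ a ∈ K, IsU C (n • ee i) a) {μ : Lat} (hμ : InL m μ) :
    ∃ n : ℕ, 0 < n ∧ ∃ a ∈ K, IsU C (n • μ) a := by
  rw [hμ.eq_sum]
  refine Finset.sum_induction _ (fun μ => ∃ n : ℕ, 0 < n ∧ ∃ a ∈ K, IsU C (n • μ) a) ?_
    ⟨1, one_pos, 1, one_mem _, by simpa using IsU.one⟩ fun i hi => ?_
  · rintro μ ν ⟨n, hn, a, ha, h1⟩ ⟨n', hn', b, hb, h2⟩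
    exact ⟨n' * n, Nat.mul_pos hn' hn, _, mul_mem (pow_mem ha n') (pow_mem hb n),
      ((h1.pow n').mul (h2.pow n)).congr (by rw [smul_add, smul_smul, smul_smul, mul_comm n]) rfl⟩
  · obtain ⟨n, hn, a, ha, h1⟩ := h i (Finset.mem_range.mp hi)
    exact ⟨n, hn, _, K.zpow_mem ha (μ i), (h1.zpow (μ i)).congr (smul_comm _ _ _) rfl⟩

end Val

section Action

variable {G : Type} [Group G] [MulSemiringAction G L]

/-- The action on coefficients. -/
noncomputable instance ambAction : MulSemiringAction G (Amb L) where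
  toDistribMulAction := inferInstance
  smul_one g := by rw [one_def, smul_single, smul_one]
  smul_mul g x y := by
    induction x using AddMonoidAlgebra.induction_linear with
    | zero => simp
    | add x x' h h' => simp [add_mul, h, h']
    | single μ a =>
      induction y using AddMonoidAlgebra.induction_linear with
      | zero => simp
      | add y y' h h' => simp only [mul_add, smul_add, h, h']
      | single ν b => simp [single_mul_single]

variable (G) in
/-- The group permutes the charts and the sections. -/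
def Sym {ι : Type} (C : ι → Subalgebra k (Amb L)) (f : ι → L) : Prop :=
  ∀ (g : G) j, ∃ j', f j' = g • f j ∧ ∀ μ a, single μ a ∈ C j ↔ single μ (g • a) ∈ C j'

end Action

/-- The degrees `lam 0, …, lam (m - 1)` span the lattice of rank `m`. -/
def Span (m : ℕ) (lam : ℕ → Lat) : Prop :=
  ∀ μ, InL m μ → ∃ c : ℕ → ℤ, μ = ∑ i ∈ Finset.range m, c i • lam i

end Pool.Agent.MP_19ffc6_ag.Lin

end MrgPart3

-- ======== part 4: formerly Pool.Agent.MP_19ffc6_ag.Lin.WondDefs
section MrgPart4

/-!
The local structure of a linear action on the charts of an atlas.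
-/

set_option autoImplicit false

open AddMonoidAlgebra

namespace Pool.Agent.MP_19ffc6_ag.Lin

/-- Every `p`-subgroup of `G` lies in a polynomial family of unipotent maps in one nilpotent
endomorphism. -/
def OneParam (k : Type) [Field k] (p : ℕ) (G V : Type) [Group G] [AddCommGroup V] [Module k V]
    [SMul G V] : Prop :=
  ∀ I : Subgroup G, IsPGroup p I → ∃ (N : Module.End k V) (b : ℕ → Polynomial k) (t : G → k),
    N ^ p = 0 ∧ (∀ r, (b r).natDegree ≤ r) ∧ b 0 = 1 ∧ b 1 = Polynomial.X ∧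
      ∀ g ∈ I, ∀ x : V, g • x = ∑ r ∈ Finset.range p, (b r).eval (t g) • (N ^ r) x

/-- Over any point of a chart at which the monomials of degrees in `Δ` are comparable with `1`,
an inertia group acts through polynomials in the nodes `t g • T ^ θ`. -/
def LocProp {k L : Type} [Field k] [Field L] [Algebra k L] (G : Type) [Group G]
    [MulSemiringAction G L] {J : Type} (C : J → Subalgebra k (Amb L)) (Δ : Finset Lat) : Prop :=
  ∀ (j : J) (O : Subalgebra k (Amb L)) (P : Ideal O), P.IsPrime → ∀ I : Subgroup G, C j ≤ O →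
    (∀ g ∈ I, ∀ c ∈ O, g • c ∈ O) →
    (∀ g ∈ I, ∀ c ∈ O, ∃ d ∈ P, (d : Amb L) = g • c - c) →
    (∀ δ ∈ Δ, single δ 1 ∈ O ∨ single (-δ) 1 ∈ O) →
    I = ⊥ ∨ ∃ (θ : Lat) (t : G → k), (∀ i, single θ 1 ∈ C i) ∧
      (∃ d ∈ P, (d : Amb L) = single θ 1) ∧ Set.InjOn t I ∧
      (∀ c ∈ C j, ∃ β : Polynomial O, ∀ g ∈ I,
        g • c = β.eval₂ O.val.toRingHom (t g • single θ 1)) ∧
      ∃ y ∈ C j, ∃ β : Polynomial O, β.coeff 1 ∉ P ∧ ∀ g ∈ I,
        g • y = β.eval₂ O.val.toRingHom (t g • single θ 1)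

end Pool.Agent.MP_19ffc6_ag.Lin

end MrgPart4

-- ======== part 5: formerly Pool.Agent.MP_19ffc6_ag.Lin.Family
section MrgPart5

/-!
Finite matrix groups whose Sylow `p`-subgroups lie in a one-parameter unipotent family.
-/

set_option autoImplicit false

open Matrix

namespace Pool.Agent.MP_19ffc6_ag.Lin

section Subst

open MvPolynomial

lemma algInd_span {k L κ κ' : Type} [Field k] [Field L] [Algebra k L] {x : κ → L} {y : κ' → L}
    (hx : AlgebraicIndependent k x) (hy : LinearIndependent k y)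
    (h : Submodule.span k (Set.range y) = Submodule.span k (Set.range x)) :
    AlgebraicIndependent k y := by
  let V := Submodule.span k (Set.range x)
  have key : ∀ {σ : Type} (b : Module.Basis σ k V), (aeval fun i => (b i : L)) =
      (SymmetricAlgebra.lift V.subtype).comp (SymmetricAlgebra.equivMvPolynomial b).symm := by
    intro σ b
    ext i
    simp
  let b := Module.Basis.span hx.linearIndependent
  let b' := (Module.Basis.span hy).map (LinearEquiv.ofEq _ _ h)
  have h1 : (fun i => (b i : L)) = x := _root_.funext fun i => by simp [b]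
  have h2 : (fun i => (b' i : L)) = y := _root_.funext fun i => by simp [b']
  rw [algebraicIndependent_iff_injective_aeval, ← h1, key b] at hx
  rw [algebraicIndependent_iff_injective_aeval, ← h2, key b']
  exact ((SymmetricAlgebra.equivMvPolynomial b).symm.injective_comp _).1 hx |>.comp
    (SymmetricAlgebra.equivMvPolynomial b').symm.injective

variable {k : Type} [Field k] {n : ℕ}

/-- Linear substitution. -/
noncomputable def sb (M : Matrix (Fin n) (Fin n) k) :
    MvPolynomial (Fin n) k →ₐ[k] MvPolynomial (Fin n) k := aeval fun i => ∑ j, M i j • X j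

lemma sb_lin (M : Matrix (Fin n) (Fin n) k) (v : Fin n → k) :
    sb M (∑ i, v i • X i) = ∑ j, (v ᵥ* M) j • X j := by
  simp only [sb, map_sum, map_smul, aeval_X, Finset.smul_sum, smul_smul, vecMul, dotProduct,
    Finset.sum_smul]
  exact Finset.sum_comm

lemma sb_one (f : MvPolynomial (Fin n) k) : sb 1 f = f := by
  have : sb (1 : Matrix (Fin n) (Fin n) k) = AlgHom.id _ _ := by
    ext1 i; simp [sb, one_apply]
  rw [this]; rfl

lemma sb_mul (M M' : Matrix (Fin n) (Fin n) k) (f : MvPolynomial (Fin n) k) :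
    sb (M' * M) f = sb M (sb M' f) := by
  have : sb (M' * M) = (sb M).comp (sb M') := by
    ext1 i
    have h : ∀ M : Matrix (Fin n) (Fin n) k, sb M (X i) = ∑ j, M i j • X j := fun M => aeval_X _ _
    rw [AlgHom.comp_apply, h, h, sb_lin]
    rfl
  rw [this]; rfl

/-- An action given by algebra maps. -/
abbrev actOf {G P : Type} [Group G] [CommRing P] [Algebra k P] (σ : G → P →ₐ[k] P)
    (h1 : ∀ f, σ 1 f = f) (hm : ∀ g h f, σ (g * h) f = σ g (σ h f)) : MulSemiringAction G P where
  smul g f := σ g f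
  one_smul := h1
  mul_smul := hm
  smul_zero g := map_zero (σ g)
  smul_add g := map_add (σ g)
  smul_one g := map_one (σ g)
  smul_mul g := map_mul (σ g)

/-- The action of a group of matrices on polynomials. -/
noncomputable abbrev glAct (G : Subgroup (GL (Fin n) k)) :
    MulSemiringAction G (MvPolynomial (Fin n) k) :=
  actOf (fun g => sb (g⁻¹.1 : GL (Fin n) k)) (fun f => by rw [inv_one]; exact sb_one f)
    fun g h f => by rw [← sb_mul, _root_.mul_inv_rev]; rfl

end Subst

variable {k : Type} [Field k] {n : ℕ}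

/-- Some subgroup of index prime to `p` lies in a family `∑ b_r(t) N ^ r`. -/
def InFamily (p : ℕ) (G : Subgroup (GL (Fin n) k)) : Prop :=
  ∃ (P : Subgroup G) (N : Matrix (Fin n) (Fin n) k) (b : ℕ → Polynomial k),
    ¬ p ∣ P.index ∧ N ^ p = 0 ∧ (∀ r, (b r).natDegree ≤ r) ∧ b 0 = 1 ∧ b 1 = Polynomial.X ∧
    ∀ g ∈ P, ∃ t : k, g.1.1 = ∑ r ∈ Finset.range p, (b r).eval t • N ^ r

lemma inFamily_of_card (p : ℕ) [hp : Fact p.Prime] [CharP k p] (G : Subgroup (GL (Fin n) k))
    [Finite G] (h : ¬ p ^ 2 ∣ Nat.card G) : InFamily p G := by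
  classical
  obtain ⟨P⟩ : Nonempty (Sylow p G) := inferInstance
  obtain ⟨e, he⟩ := P.isPGroup'.exists_card_eq
  have he1 : e ≤ 1 := by
    by_contra h1
    exact h (((pow_dvd_pow p (by omega)).trans he.symm.dvd).trans
      (Subgroup.card_subgroup_dvd_card _))
  have hd : Nat.card P ∣ p := by
    rw [he]
    exact (pow_dvd_pow p he1).trans (pow_one p).dvd
  have : IsCyclic P := isCyclic_of_card_dvd_prime hd
  obtain ⟨g, hg⟩ := IsCyclic.exists_monoid_generator (α := P)
  have hgp : g ^ p = 1 := orderOf_dvd_iff_pow_eq_one.1 ((orderOf_dvd_natCard g).trans hd)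
  let M : Matrix (Fin n) (Fin n) k := g.1.1.1
  have hM : ∀ a : ℕ, (g ^ a).1.1.1 = M ^ a := fun a => by simp [M]
  have hN : (M - 1) ^ p = 0 := by
    have : Polynomial.aeval M ((Polynomial.X - 1 : Polynomial k) ^ p) = 0 := by
      rw [sub_pow_char, map_sub, map_pow, Polynomial.aeval_X, ← hM, hgp]
      simp
    simpa using this
  refine ⟨P, M - 1, fun r => Polynomial.C (r.factorial : k)⁻¹ * descPochhammer k r,
    P.not_dvd_index, hN, fun r => (Polynomial.natDegree_C_mul_le _ _).trans
      (descPochhammer_natDegree k r).le, by simp, by simp, fun x hx => ?_⟩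
  obtain ⟨a, ha⟩ := hg ⟨x, hx⟩
  have ha' : g ^ (a % p) = ⟨x, hx⟩ := by
    rw [← ha]
    exact (pow_eq_pow_mod a hgp).symm
  have hlt : a % p < p := Nat.mod_lt _ hp.out.pos
  refine ⟨(a % p : ℕ), ?_⟩
  have h1 : x.1.1 = ((M - 1) + 1) ^ (a % p) := by
    rw [sub_add_cancel, ← hM, ha']
  rw [h1, (Commute.one_right _).add_pow, Finset.sum_subset (Finset.range_subset_range.2 hlt)
    fun r _ hr => by
      rw [Nat.choose_eq_zero_of_lt (by simpa using hr)]; simp]
  refine Finset.sum_congr rfl fun r hr => ?_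
  have h2 : (r.factorial : k) ≠ 0 := by
    rw [Ne, CharP.cast_eq_zero_iff k p, hp.out.dvd_factorial]
    simpa using hr
  rw [Polynomial.eval_mul, Polynomial.eval_C, descPochhammer_eval_eq_descFactorial,
    Nat.descFactorial_eq_factorial_mul_choose, Nat.cast_mul, inv_mul_cancel_left₀ h2, one_pow,
    mul_one, Nat.cast_smul_eq_nsmul, nsmul_eq_mul']

/-- The action of a group of matrices on linear forms. -/
noncomputable abbrev vAct (G : Subgroup (GL (Fin n) k)) : DistribMulAction G (Fin n → k) where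
  smul g v := v ᵥ* (g⁻¹.1 : GL (Fin n) k).1
  one_smul v := by
    change v ᵥ* _ = v
    simp
  mul_smul g h v := by
    change v ᵥ* _ = (v ᵥ* _) ᵥ* _
    simp
  smul_zero _ := zero_vecMul _
  smul_add _ _ _ := add_vecMul _ _ _

lemma oneParam_of_inFamily (p : ℕ) [hp : Fact p.Prime] [CharP k p] (G : Subgroup (GL (Fin n) k))
    [Finite G] (h : InFamily p G) :
    letI := vAct G
    OneParam k p G (Fin n → k) := by
  classical
  obtain ⟨P, N, b, hi, hN, hb, hb0, hb1, hP⟩ := h
  have hPp : IsPGroup p P := fun g => ⟨1, Subtype.ext (Subtype.ext (Units.ext (by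
    obtain ⟨t, ht⟩ := hP g.1 g.2
    have : g.1.1.1 = Polynomial.aeval N (∑ r ∈ Finset.range p,
        Polynomial.C ((b r).eval t) * Polynomial.X ^ r) := by
      rw [ht]
      simp [Algebra.smul_def]
    have hp0 := hp.out.pos
    rw [pow_one, Subgroup.coe_pow, Subgroup.coe_pow, Units.val_pow_eq_pow_val, this, ← map_pow,
      sum_pow_char, map_sum, Finset.sum_eq_single 0 (fun r _ hr => ?_) (by simp; omega), hb0]
    · simp
    · rw [mul_pow, ← pow_mul, mul_comm r, pow_mul, map_mul, map_pow, map_pow, map_pow,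
        Polynomial.aeval_X, hN, zero_pow hr, mul_zero])))⟩
  intro I hI
  obtain ⟨Q, hQ⟩ := hI.exists_le_sylow
  obtain ⟨u, hu⟩ := MulAction.exists_smul_eq G Q (hPp.toSylow hi)
  have hmem : ∀ g ∈ I, u * g⁻¹ * u⁻¹ ∈ P := fun g hg => by
    have : u * g⁻¹ * u⁻¹ ∈ u • Q := by
      exact Subgroup.smul_mem_pointwise_smul _ (MulAut.conj u) _ (hQ (I.inv_mem hg))
    rw [hu] at this
    exact this
  choose t ht using hP
  let N' := u⁻¹.1.1 * N * u.1.1
  have hN' : ∀ r, N' ^ r = u⁻¹.1.1 * N ^ r * u.1.1 := fun r => by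
    simpa [N'] using Units.conj_pow' u.1 N r
  have hpow : ∀ (r : ℕ) x, (N'.vecMulLinear ^ r) x = x ᵥ* N' ^ r := fun r x => by
    induction r with
    | zero => simp
    | succ r ih => rw [pow_succ', Module.End.mul_apply, ih, pow_succ, ← vecMul_vecMul]; rfl
  refine ⟨N'.vecMulLinear, b, fun g => if hg : g ∈ I then t _ (hmem g hg) else 0, ?_, hb, hb0,
    hb1, fun g hg x => ?_⟩
  · refine LinearMap.ext fun x => ?_
    rw [hpow, hN', hN]
    simp
  · change x ᵥ* _ = _
    have : g⁻¹.1.1 = u⁻¹.1.1 * (u * g⁻¹ * u⁻¹).1.1 * u.1.1 := by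
      rw [← Units.val_mul, ← Units.val_mul, ← Subgroup.coe_mul, ← Subgroup.coe_mul]
      congr 2
      group
    simp only [dif_pos hg, hpow, hN']
    rw [this, ht _ (hmem g hg), Finset.mul_sum, Finset.sum_mul, vecMul_sum]
    simp only [mul_smul_comm, smul_mul_assoc, vecMul_smul]

end Pool.Agent.MP_19ffc6_ag.Lin

end MrgPart5

-- ======== part 6: formerly Pool.Agent.MP_19ffc6_ag.Lin.Quotient
section MrgPart6

/-!
Smoothness of the ring of invariants when all inertia groups are trivial or of prime order with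
locally principal augmentation ideals (a global form of the theorem of Kiraly and Luetkebohmert).
-/

set_option autoImplicit false
set_option linter.unusedSectionVars false

open Polynomial

namespace Pool.Agent.MP_19ffc6_ag.Lin

section Away

variable {k D E : Type} [CommRing k] [CommRing D] [CommRing E] [Algebra k D] [Algebra k E]

/-- Extension of an algebra map to the localisation away from an element. -/
noncomputable def awayLift (h : D) (f : D →ₐ[k] E) (hu : IsUnit (f h)) :
    Localization.Away h →ₐ[k] E :=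
  IsLocalization.liftAlgHom (M := Submonoid.powers h) (f := f) (by
    rintro ⟨_, n, rfl⟩
    simpa using hu.pow n)

lemma awayLift_algebraMap (h : D) (f : D →ₐ[k] E) (hu : IsUnit (f h)) (a : D) :
    awayLift h f hu (algebraMap D _ a) = f a := by
  simp [awayLift]

lemma awayLift_injective (h : D) (f : D →ₐ[k] E) (hu : IsUnit (f h))
    (hf : Function.Injective f) : Function.Injective (awayLift h f hu) := by
  rw [injective_iff_map_eq_zero]
  intro x hx
  obtain ⟨⟨a, s⟩, hs⟩ := IsLocalization.surj (Submonoid.powers h) x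
  have h1 := congrArg (awayLift h f hu) hs
  simp only [map_mul, hx, zero_mul, awayLift_algebraMap] at h1
  have ha : a = 0 := hf (by rw [← h1, map_zero])
  rw [ha, map_zero] at hs
  exact (IsLocalization.map_units (Localization.Away h) s).mul_left_eq_zero.mp hs

lemma awayLift_mem (h : D) (f : D →ₐ[k] E) (hu : IsUnit (f h)) (W : Subalgebra k E)
    (hW : ∀ a, f a ∈ W) (v : E) (hv : v ∈ W) (hv' : f h * v = 1) (x : Localization.Away h) :
    awayLift h f hu x ∈ W := by
  obtain ⟨⟨a, _, n, rfl⟩, hs⟩ := IsLocalization.surj (Submonoid.powers h) x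
  have h1 := congrArg (awayLift h f hu) hs
  simp only [map_mul, awayLift_algebraMap, map_pow] at h1
  have : awayLift h f hu x = f a * v ^ n := by
    rw [← h1, mul_assoc, ← mul_pow, hv', one_pow, mul_one]
  rw [this]
  exact mul_mem (hW a) (pow_mem hv n)

end Away

section Generic

variable {k S : Type} [CommRing k] [CommRing S] [Algebra k S]

lemma exists_monic_isUnit {S₁ : Type} [CommRing S₁] [IsLocalRing S₁] (h : S₁[X])
    (hh : h ∉ ((IsLocalRing.maximalIdeal S₁).map C : Ideal S₁[X])) :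
    ∃ m : S₁[X], m.Monic ∧ 0 < m.natDegree ∧ IsUnit (AdjoinRoot.mk m h) := by
  set hb := h.map (IsLocalRing.residue S₁) with hhb
  have hb0 : hb ≠ 0 := by
    intro h0
    apply hh
    rw [Ideal.mem_map_C_iff]
    intro n
    have := congrArg (fun P => P.coeff n) h0
    simp only [hhb, coeff_map, coeff_zero] at this
    exact (IsLocalRing.residue_eq_zero_iff _).mp this
  set D := hb.natDegree with hD
  have hc : IsUnit (h.coeff D) := by
    rw [← IsLocalRing.notMem_maximalIdeal, ← IsLocalRing.residue_eq_zero_iff, ← coeff_map]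
    exact mt leadingCoeff_eq_zero.mp hb0
  obtain ⟨c, hc⟩ := hc
  let low : S₁[X] := ∑ i ∈ Finset.range (D + 1), monomial i (h.coeff i)
  have hlow : ∀ i, low.coeff i = if i ≤ D then h.coeff i else 0 := by
    intro i
    simp only [low, finsetSum_coeff, coeff_monomial, Finset.sum_ite_eq', Finset.mem_range]
    simp
  have hmon : (C (↑c⁻¹ : S₁) * low).Monic := by
    refine monic_of_natDegree_le_of_coeff_eq_one D ?_ ?_
    · rw [natDegree_le_iff_coeff_eq_zero]
      intro N hN
      rw [coeff_C_mul, hlow, if_neg (by omega), mul_zero]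
    · rw [coeff_C_mul, hlow, if_pos le_rfl, ← hc, Units.inv_mul]
  have hXm : (X * (C (↑c⁻¹ : S₁) * low)).Monic := monic_X.mul hmon
  have hdeg : 0 < (X * (C (↑c⁻¹ : S₁) * low)).natDegree := by
    rw [monic_X.natDegree_mul hmon, natDegree_X]; omega
  have hdeg' : (1 : S₁[X]).degree < (X * (C (↑c⁻¹ : S₁) * low)).degree := by
    rw [degree_one]
    exact natDegree_pos_iff_degree_pos.mp hdeg
  set m := X * (C (↑c⁻¹ : S₁) * low) + 1 with hm
  have hmm : m.Monic := hXm.add_of_left hdeg'
  refine ⟨m, hmm, ?_, ?_⟩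
  · rw [hm, natDegree_add_eq_left_of_degree_lt hdeg']; exact hdeg
  have hlu : IsUnit (AdjoinRoot.mk m low) := by
    refine IsUnit.of_mul_eq_one (-(AdjoinRoot.mk m (X * C (↑c⁻¹ : S₁)))) ?_
    have := AdjoinRoot.mk_self (f := m)
    rw [hm, map_add, map_one] at this
    rw [← hm] at this
    simp only [map_mul] at this ⊢
    linear_combination -this
  by_contra hnu
  obtain ⟨M, hM, hmem⟩ := exists_max_ideal_of_mem_nonunits (mem_nonunits_iff.mpr hnu)
  have : Module.Finite S₁ (AdjoinRoot m) := hmm.finite_adjoinRoot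
  have hcomap : M.comap (algebraMap S₁ (AdjoinRoot m)) = IsLocalRing.maximalIdeal S₁ :=
    IsLocalRing.eq_maximalIdeal (Ideal.isMaximal_comap_of_isIntegral_of_isMaximal M)
  have hdiff : h - low ∈ ((IsLocalRing.maximalIdeal S₁).map C : Ideal S₁[X]) := by
    rw [Ideal.mem_map_C_iff]
    intro n
    rw [coeff_sub, hlow]
    split_ifs with hn
    · simp
    · rw [sub_zero, ← IsLocalRing.residue_eq_zero_iff, ← coeff_map]
      exact coeff_eq_zero_of_natDegree_lt (not_le.mp hn)
  have hle : ((IsLocalRing.maximalIdeal S₁).map C : Ideal S₁[X]) ≤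
      M.comap (AdjoinRoot.mk m) := by
    rw [Ideal.map_le_iff_le_comap, Ideal.comap_comap, ← hcomap]
    rfl
  have h2 : AdjoinRoot.mk m (h - low) ∈ M := hle hdiff
  have h3 : AdjoinRoot.mk m low ∈ M := by
    have := sub_mem hmem h2
    rwa [map_sub, sub_sub_cancel] at this
  exact hM.ne_top (Ideal.eq_top_of_isUnit_mem _ h3 hlu)

/-- From a generic open piece of the affine line over `S` back to `S`. -/
lemma isSmoothAt_of_polynomial_away (q : Ideal S) [q.IsPrime] (h : S[X])
    (hh : h ∉ (q.map C : Ideal S[X])) [Algebra.FormallySmooth k (Localization.Away h)] :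
    Algebra.IsSmoothAt k q := by
  set S₁ := Localization.AtPrime q
  obtain ⟨m, hm, h0, hu⟩ := exists_monic_isUnit (h.map (algebraMap S S₁)) (by
    intro hmem
    apply hh
    rw [Ideal.mem_map_C_iff] at hmem ⊢
    intro n
    have := hmem n
    rw [coeff_map] at this
    exact (IsLocalization.AtPrime.to_map_mem_maximal_iff S₁ q _).mp this)
  let f : S[X] →ₐ[k] AdjoinRoot m :=
    ((AdjoinRoot.mkₐ m).restrictScalars k).comp (mapAlgHom (IsScalarTower.toAlgHom k S S₁))
  have hu' : IsUnit (f h) := hu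
  refine formallySmooth_of_retract_loc (T := Localization.Away h) q.primeCompl
    ((IsScalarTower.toAlgHom k S[X] _).comp CAlgHom) hm h0
    (awayLift h f hu') fun s => ?_
  change awayLift h f hu' (algebraMap S[X] _ (C s)) = _
  rw [awayLift_algebraMap]
  simp [f]
  rfl

end Generic

variable {k O G S : Type} [Field k] [CommRing O] [Algebra k O] [Group G] [MulSemiringAction G O]
  [SMulCommClass G k O] [IsDomain O] [FaithfulSMul G O] [Fintype G]
  [CommRing S] [Algebra k S] [Algebra S O] [IsScalarTower k S O] [SMulCommClass G S O]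
  [Algebra.IsInvariant S O G]

omit [SMulCommClass G k O] [IsDomain O] [FaithfulSMul G O] [Fintype G] [SMulCommClass G S O] in
lemma exists_map_eq_of_invariant (p : O[X]) (hp : ∀ g : G, g • p = p) :
    ∃ q : S[X], q.map (algebraMap S O) = p := by
  have : p ∈ lifts (algebraMap S O) := by
    rw [lifts_iff_coeff_lifts]
    intro n
    exact Algebra.IsInvariant.isInvariant (G := G) _ fun g => by rw [← coeff_smul_poly, hp]
  exact this

omit [IsDomain O] [FaithfulSMul G O] [Fintype G] [Algebra.IsInvariant S O G] in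
lemma smul_map_algebraMap (g : G) (q : S[X]) :
    g • q.map (algebraMap S O) = q.map (algebraMap S O) := by
  ext n
  rw [coeff_smul_poly, coeff_map, smul_algebraMap]

omit [SMulCommClass G S O] in
lemma exists_denominator {n : ℕ} {y : Fin n → O} (hy : Algebra.adjoin k (Set.range y) = ⊤)
    (hG : ∀ (Q : Ideal O) [Q.IsPrime], GoodAt G Q)
    {F : Type} [Field F] [Algebra O[X] F] [IsFractionRing O[X] F] [MulSemiringAction G F]
    [SMulDistribClass G O[X] F] (Q : Ideal O) [hQ : Q.IsPrime] :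
    ∃ h : S[X], h.map (algebraMap S O) ∉ (Q.map C : Ideal O[X]) ∧ ∀ i m, ∃ s : S[X],
      algebraMap O[X] F (s.map (algebraMap S O)) = algebraMap O[X] F (h.map (algebraMap S O)) *
        (interp G (algebraMap O[X] F (genY y)) (algebraMap O[X] F (C (y i)))).coeff m := by
  classical
  have hinj := genY_injective (F := F) (G := G) hy
  set P : Fin n → F[X] := fun i =>
    interp G (algebraMap O[X] F (genY y)) (algebraMap O[X] F (C (y i))) with hP
  let d : Ideal O[X] :=
    { carrier := {a | ∀ i m, ∃ a', algebraMap O[X] F a' = algebraMap O[X] F a * (P i).coeff m}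
      add_mem' := by
        intro a b ha hb i m
        obtain ⟨a', ha'⟩ := ha i m
        obtain ⟨b', hb'⟩ := hb i m
        exact ⟨a' + b', by rw [map_add, map_add, ha', hb', add_mul]⟩
      zero_mem' := fun i m => ⟨0, by simp⟩
      smul_mem' := by
        intro c a ha i m
        obtain ⟨a', ha'⟩ := ha i m
        exact ⟨c * a', by rw [smul_eq_mul, map_mul, map_mul, ha', mul_assoc]⟩ }
  let Qg : G → Ideal O := fun g => Q.comap (MulSemiringAction.toRingHom G O g)
  have hQg : ∀ g, (Qg g).IsPrime := fun g => Ideal.comap_isPrime _ _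
  have hnot : ∀ g, ¬ d ≤ ((Qg g).map C : Ideal O[X]) := by
    intro g hle
    have := hQg g
    have hmem := fun i m => mem_coeffRing.mp
      (interp_mem_locRing (F := F) hy (Qg g) (hG _) (C (y i))) m
    choose u hu a ha using hmem
    have hU : ∏ x ∈ Finset.univ ×ˢ Finset.range (Fintype.card G), u x.1 x.2 ∈ d := by
      intro i m
      by_cases hm : m < Fintype.card G
      · have hx : (i, m) ∈ Finset.univ ×ˢ Finset.range (Fintype.card G) := by simp [hm]
        rw [← Finset.mul_prod_erase _ _ hx]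
        refine ⟨a i m * ∏ x ∈ (Finset.univ ×ˢ Finset.range (Fintype.card G)).erase (i, m),
          u x.1 x.2, ?_⟩
        rw [map_mul, map_mul, ← ha]
        ring
      · refine ⟨0, ?_⟩
        rw [coeff_eq_zero_of_degree_lt (lt_of_lt_of_le (interp_degree hinj _)
          (by exact_mod_cast not_lt.mp hm)), map_zero, mul_zero]
    have h2 := hle hU
    rw [Ideal.IsPrime.prod_mem_iff] at h2
    obtain ⟨x, -, hx⟩ := h2
    exact hu _ _ hx
  have havoid : ¬ ((d : Set O[X]) ⊆ ⋃ g ∈ (↑(Finset.univ : Finset G) : Set G),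
      ((Qg g).map C : Ideal O[X])) := by
    rw [Ideal.subset_union_prime 1 1 fun g _ _ _ => by have := hQg g; infer_instance]
    rintro ⟨g, -, hg⟩
    exact hnot g hg
  obtain ⟨a, had, ha⟩ := Set.not_subset.mp havoid
  have ha' : ∀ g : G, g • a ∉ (Q.map C : Ideal O[X]) := by
    intro g hmem
    apply ha
    simp only [Finset.coe_univ, Set.mem_univ, Set.iUnion_true, Set.mem_iUnion, SetLike.mem_coe]
    refine ⟨g, ?_⟩
    rw [Ideal.mem_map_C_iff] at hmem ⊢
    intro m
    have := hmem m
    rw [coeff_smul_poly] at this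
    exact this
  have hinv : ∀ g' : G, g' • ∏ g : G, g • a = ∏ g : G, g • a := fun g' =>
    Finset.smul_prod_perm a g'
  obtain ⟨h, hh⟩ := exists_map_eq_of_invariant (S := S) _ hinv
  refine ⟨h, ?_, fun i m => ?_⟩
  · rw [hh, Ideal.IsPrime.prod_mem_iff]
    rintro ⟨g, -, hg⟩
    exact ha' g hg
  · have hd : ∏ g : G, g • a ∈ d := by
      rw [← Finset.mul_prod_erase _ _ (Finset.mem_univ (1 : G)), one_smul]
      exact d.mul_mem_right _ had
    obtain ⟨a', ha'⟩ := hd i m
    obtain ⟨s, hs⟩ := exists_map_eq_of_invariant (S := S) (G := G) a' fun g => by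
      apply IsFractionRing.injective O[X] F
      rw [algebraMap.smul', ha', smul_mul', ← algebraMap.smul', hinv, ← coeff_smul',
        smul_interp hinj]
    exact ⟨s, by rw [hs, hh, ha']⟩

lemma formallySmooth_away [Algebra.FormallySmooth k O]
    (hSO : Function.Injective (algebraMap S O))
    {n : ℕ} {y : Fin n → O} (hy : Algebra.adjoin k (Set.range y) = ⊤)
    {F : Type} [Field F] [Algebra O[X] F] [IsFractionRing O[X] F] [MulSemiringAction G F]
    [SMulDistribClass G O[X] F] [Algebra k F] [IsScalarTower k O[X] F]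
    (h : S[X]) (hh0 : h.map (algebraMap S O) ≠ 0) (hh : ∀ i m, ∃ s : S[X],
      algebraMap O[X] F (s.map (algebraMap S O)) = algebraMap O[X] F (h.map (algebraMap S O)) *
        (interp G (algebraMap O[X] F (genY y)) (algebraMap O[X] F (C (y i)))).coeff m) :
    Algebra.FormallySmooth k (Localization.Away h) := by
  classical
  have hinj := genY_injective (F := F) (G := G) hy
  have hA := IsFractionRing.injective O[X] F
  set Y := algebraMap O[X] F (genY y) with hY
  set S' := Localization.Away h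
  let A : O[X] →ₐ[k] F := IsScalarTower.toAlgHom k O[X] F
  let f : S[X] →ₐ[k] F := A.comp (mapAlgHom (IsScalarTower.toAlgHom k S O))
  have hf : ∀ s, f s = algebraMap O[X] F (s.map (algebraMap S O)) := fun s => rfl
  have hfinj : Function.Injective f := hA.comp (map_injective _ hSO)
  have hh1 : algebraMap O[X] F (h.map (algebraMap S O)) ≠ 0 := by
    rwa [Ne, map_eq_zero_iff _ hA]
  have hu : IsUnit (f h) := IsUnit.mk0 _ hh1
  let Φ₀ : S' →ₐ[k] F := awayLift h f hu
  have hΦ₀ : Function.Injective Φ₀ := awayLift_injective h f hu hfinj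
  have hΦ₀inv : ∀ (g : G) x, g • Φ₀ x = Φ₀ x := by
    intro g x
    have hk : ∀ r : k, g • algebraMap k F r = algebraMap k F r := by
      intro r
      rw [IsScalarTower.algebraMap_apply k O[X] F, ← algebraMap.smul']
      congr 1
      ext j
      rw [coeff_smul_poly, Polynomial.algebraMap_apply, coeff_C]
      split_ifs <;> simp
    let W : Subalgebra k F :=
      { carrier := {x | g • x = x}
        mul_mem' := fun {a b} ha hb => by
          simp only [Set.mem_ofPred_eq] at ha hb ⊢; rw [smul_mul', ha, hb]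
        add_mem' := fun {a b} ha hb => by
          simp only [Set.mem_ofPred_eq] at ha hb ⊢; rw [smul_add, ha, hb]
        algebraMap_mem' := hk }
    have hW : ∀ a, f a ∈ W := fun a => by
      change g • f a = f a
      rw [hf, ← algebraMap.smul', smul_map_algebraMap]
    refine awayLift_mem h f hu W hW (f h)⁻¹ ?_ (mul_inv_cancel₀ hh1) x
    change g • (f h)⁻¹ = (f h)⁻¹
    rw [smul_inv'', show g • f h = f h from hW h]
  obtain ⟨χ, hχ, hχd, hχm⟩ := lifts_and_natDegree_eq_and_monic
    (f := mapRingHom (algebraMap S O)) (p := MulSemiringAction.charpoly G (genY y)) (by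
      rw [lifts_iff_coeff_lifts]
      intro j
      exact exists_map_eq_of_invariant _ fun g => MulSemiringAction.smul_coeff_charpoly _ j g)
    (MulSemiringAction.monic_charpoly G _)
  have hcard : (MulSemiringAction.charpoly G (genY y)).natDegree = Fintype.card G := by
    rw [MulSemiringAction.charpoly_eq, natDegree_prod_of_monic _ _ fun g _ => monic_X_sub_C _]
    simp
  have : Nontrivial S' := Φ₀.toRingHom.domain_nontrivial
  set m : S'[X] := χ.map (algebraMap S[X] S') with hm
  have hmm : m.Monic := hχm.map _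
  have hmd : m.natDegree = Fintype.card G := by rw [hm, hχm.natDegree_map, hχd, hcard]
  have hroot : m.eval₂ (Φ₀ : S' →+* F) Y = 0 := by
    rw [hm, eval₂_map]
    have : (Φ₀ : S' →+* F).comp (algebraMap S[X] S') =
        (algebraMap O[X] F).comp (mapRingHom (algebraMap S O)) := by
      refine RingHom.ext fun s => ?_
      exact awayLift_algebraMap h f hu s
    rw [this, ← eval₂_map, hχ, hY, eval₂_hom, MulSemiringAction.eval_charpoly, map_zero]
  let Φ : AdjoinRoot m →ₐ[k] F := AdjoinRoot.liftAlgHom m Φ₀ Y hroot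
  have hΦ : Function.Injective Φ := by
    rw [injective_iff_map_eq_zero]
    intro w hw
    set p := AdjoinRoot.modByMonicHom hmm w with hp
    have hw' : AdjoinRoot.mk m p = w := AdjoinRoot.mk_leftInverse hmm w
    have hpd : p.degree < Fintype.card G := by
      induction w using AdjoinRoot.induction_on with
      | ih q =>
        rw [hp, AdjoinRoot.modByMonicHom_mk]
        refine lt_of_lt_of_eq (degree_modByMonic_lt q hmm) ?_
        rw [degree_eq_natDegree hmm.ne_zero, hmd]
    have h1 : (p.map (Φ₀ : S' →+* F)).eval Y = 0 := by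
      rw [eval_map, ← hw, ← hw']
      exact (AdjoinRoot.liftAlgHom_mk m Φ₀ Y hroot p).symm
    have h2 : ∀ g : G, g • p.map (Φ₀ : S' →+* F) = p.map (Φ₀ : S' →+* F) := by
      intro g
      ext j
      rw [coeff_smul', coeff_map]
      exact hΦ₀inv g _
    have h3 : p.map (Φ₀ : S' →+* F) = 0 := by
      refine eq_zero_of_degree_lt_of_eval_index_eq_zero (s := Finset.univ)
        (v := fun g : G => g • Y) hinj.injOn (lt_of_le_of_lt degree_map_le hpd) fun g _ => ?_
      rw [← h2 g, smul_eval_smul, h1, smul_zero]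
    rw [← hw', (Polynomial.map_eq_zero_iff hΦ₀).mp h3, map_zero]
  have hu' : IsUnit (A (h.map (algebraMap S O))) := hu
  let Ψ := awayLift (h.map (algebraMap S O)) A hu'
  have hΨ : Function.Injective Ψ := awayLift_injective _ A hu' hA
  have hAΨ : ∀ a, A a ∈ Ψ.range := fun a => ⟨algebraMap _ _ a, awayLift_algebraMap _ A hu' a⟩
  have hΦ₀Φ : ∀ x, Φ₀ x ∈ Φ.range := fun x =>
    ⟨AdjoinRoot.of m x, AdjoinRoot.liftAlgHom_of m Φ₀ Y hroot x⟩
  have hinvΦ : (f h)⁻¹ ∈ Φ.range := by
    have := hΦ₀Φ (IsLocalization.Away.invSelf h)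
    convert this using 1
    apply inv_eq_of_mul_eq_one_right
    rw [← awayLift_algebraMap h f hu, ← map_mul, IsLocalization.Away.mul_invSelf, map_one]
  have hinvΨ : (f h)⁻¹ ∈ Ψ.range := by
    refine ⟨IsLocalization.Away.invSelf (h.map (algebraMap S O)), ?_⟩
    symm
    apply inv_eq_of_mul_eq_one_right
    change A (h.map (algebraMap S O)) * Ψ _ = 1
    rw [← awayLift_algebraMap _ A hu', ← map_mul, IsLocalization.Away.mul_invSelf, map_one]
  have hYΦ : Y ∈ Φ.range := ⟨AdjoinRoot.root m, AdjoinRoot.liftAlgHom_root m Φ₀ Y hroot⟩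
  have hfΦ : ∀ s, f s ∈ Φ.range := fun s => by
    rw [← awayLift_algebraMap h f hu]; exact hΦ₀Φ _
  have hrange : Ψ.range = Φ.range := by
    apply le_antisymm
    · rintro _ ⟨x, rfl⟩
      refine awayLift_mem _ A hu' Φ.range (fun a => ?_) _ hinvΦ (mul_inv_cancel₀ hh1) x
      have hC : ∀ c : O, A (C c) ∈ Φ.range := by
        intro c
        have hc : c ∈ Algebra.adjoin k (Set.range y) := hy ▸ Algebra.mem_top
        have hle : Algebra.adjoin k (Set.range y) ≤
            Φ.range.comap (A.comp CAlgHom) := by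
          rw [Algebra.adjoin_le_iff]
          rintro _ ⟨i, rfl⟩
          change A (C (y i)) ∈ Φ.range
          have he := interp_eval hinj (algebraMap O[X] F (C (y i))) 1
          rw [one_smul, one_smul, eval_eq_sum_range] at he
          change algebraMap O[X] F (C (y i)) ∈ Φ.range
          rw [← he]
          refine sum_mem fun j _ => mul_mem ?_ (pow_mem hYΦ j)
          obtain ⟨s, hs⟩ := hh i j
          have := mul_mem hinvΦ (hfΦ s)
          rwa [hf s, hs, hf, inv_mul_cancel_left₀ hh1] at this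
        exact hle hc
      induction a using Polynomial.induction_on' with
      | add p q hp hq => rw [map_add]; exact add_mem hp hq
      | monomial j c =>
        rw [← C_mul_X_pow_eq_monomial, map_mul, map_pow]
        refine mul_mem (hC c) (pow_mem ?_ j)
        have := hfΦ X
        rwa [hf, Polynomial.map_X] at this
    · rintro _ ⟨w, rfl⟩
      induction w using AdjoinRoot.induction_on with
      | ih q =>
        change AdjoinRoot.liftAlgHom m Φ₀ Y hroot (AdjoinRoot.mk m q) ∈ _
        rw [AdjoinRoot.liftAlgHom_mk, eval₂_eq_sum_range]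
        refine sum_mem fun j _ => mul_mem ?_ (pow_mem (hAΨ _) j)
        exact awayLift_mem h f hu Ψ.range (fun a => hAΨ _) _ hinvΨ (mul_inv_cancel₀ hh1) _
  have : Algebra.FormallySmooth k O[X] := Algebra.FormallySmooth.comp k O O[X]
  have : Algebra.FormallySmooth k (AdjoinRoot m) :=
    Algebra.FormallySmooth.of_equiv ((AlgEquiv.ofInjective Ψ hΨ).trans
      ((Subalgebra.equivOfEq _ _ hrange).trans (AlgEquiv.ofInjective Φ hΦ).symm))
  exact formallySmooth_of_adjoinRoot hmm (by rw [hmd]; exact Fintype.card_pos)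

variable (G) in
omit [SMulCommClass G k O] [IsDomain O] [FaithfulSMul G O] [SMulCommClass G S O] in
include G in
lemma finiteType_of_invariant [Algebra.FiniteType k O]
    (hSO : Function.Injective (algebraMap S O)) : Algebra.FiniteType k S := by
  have : Algebra.IsIntegral S O := Algebra.IsInvariant.isIntegral S O G
  have : Algebra.FiniteType S O := Algebra.FiniteType.of_restrictScalars_finiteType k S O
  have : Module.Finite S O := Algebra.IsIntegral.finite
  exact ⟨fg_of_fg_of_fg k S O Algebra.FiniteType.out Module.Finite.fg_top hSO⟩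

/-- The ring of invariants is smooth. -/
theorem smooth_of_invariant [Algebra.Smooth k O] (hSO : Function.Injective (algebraMap S O))
    (hG : ∀ (Q : Ideal O) [Q.IsPrime], GoodAt G Q) : Algebra.Smooth k S := by
  have : Algebra.FiniteType k S := finiteType_of_invariant G hSO
  have : Algebra.FinitePresentation k S := Algebra.FinitePresentation.of_finiteType.mp this
  refine ⟨Algebra.smoothLocus_eq_univ_iff.mp (Set.eq_univ_of_forall fun q => ?_), this⟩
  have : Algebra.IsIntegral S O := Algebra.IsInvariant.isIntegral S O G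
  obtain ⟨Q, -, hQ, hQq⟩ := Ideal.exists_ideal_over_prime_of_isIntegral q.asIdeal (⊥ : Ideal O)
    (by rw [← RingHom.ker_eq_comap_bot, (RingHom.injective_iff_ker_eq_bot _).mp hSO]; exact bot_le)
  obtain ⟨n, y, hy⟩ : ∃ (n : ℕ) (y : Fin n → O), Algebra.adjoin k (Set.range y) = ⊤ := by
    obtain ⟨t, ht⟩ := Algebra.FiniteType.out (R := k) (A := O)
    refine ⟨t.card, fun i => t.equivFin.symm i, ?_⟩
    rw [← ht]
    congr 1
    ext x
    constructor
    · rintro ⟨i, rfl⟩; exact (t.equivFin.symm i).2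
    · intro hx; exact ⟨t.equivFin ⟨x, hx⟩, by simp⟩
  let := IsFractionRing.mulSemiringAction G O[X] (FractionRing O[X])
  obtain ⟨h, hh, hh'⟩ := exists_denominator (S := S) (F := FractionRing O[X]) hy hG Q
  have := formallySmooth_away (F := FractionRing O[X]) hSO hy h
    (fun h0 => hh (h0 ▸ zero_mem _)) hh'
  refine isSmoothAt_of_polynomial_away q.asIdeal h fun hmem => hh ?_
  rw [Ideal.mem_map_C_iff] at hmem ⊢
  intro j
  rw [coeff_map, ← Ideal.mem_comap, hQq]
  exact hmem j

end Pool.Agent.MP_19ffc6_ag.Lin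

end MrgPart6

-- ======== part 7: formerly Pool.Agent.MP_19ffc6_ag.Lin.Nodes
section MrgPart7

/-!
Smoothness of the ring of invariants when every inertia group acts through polynomials in nodes.
-/

set_option autoImplicit false
set_option linter.unusedSectionVars false

open Polynomial

namespace Pool.Agent.MP_19ffc6_ag.Lin

lemma exists_poly_inv {B γ : Type} [CommRing B] (t : γ → B) (e : B[X]) (s : Finset γ) :
    ∃ ι : B[X], ∀ g ∈ s, e.eval (t g) * ι.eval (t g) = ∏ g ∈ s, e.eval (t g) := by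
  classical
  induction s using Finset.induction_on with
  | empty => exact ⟨0, by simp⟩
  | insert g0 s hg0 ih =>
    obtain ⟨ι, hι⟩ := ih
    refine ⟨C (e.eval (t g0)) * ι + C (∏ g ∈ s, e.eval (t g)) - e * ι, fun g hg => ?_⟩
    simp only [eval_sub, eval_add, eval_mul, eval_C, Finset.prod_insert hg0]
    rcases Finset.mem_insert.1 hg with rfl | hg
    · ring
    · linear_combination (eval (t g0) e - eval (t g) e) * hι g hg

lemma exists_eval_sub {B : Type} [CommRing B] (Q : Ideal B) (β : B[X]) {a b : B} (ha : a ∈ Q)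
    (hb : b ∈ Q) : ∃ w, β.eval b - β.eval a = (b - a) * w ∧ w - β.coeff 1 ∈ Q := by
  obtain ⟨w, hw⟩ := sub_dvd_eval_sub b a β.divX.divX
  refine ⟨β.coeff 1 + ((a + b) * β.divX.divX.eval b + a * (a * w)), ?_, ?_⟩
  · have h1 : ∀ x, β.eval x = (β.divX.divX.eval x * x + β.coeff 1) * x + β.coeff 0 := by
      intro x
      conv_lhs => rw [← divX_mul_X_add β, ← divX_mul_X_add β.divX]
      simp [coeff_divX]
    rw [h1 a, h1 b]
    linear_combination a ^ 2 * hw
  · rw [add_sub_cancel_left]
    exact add_mem (Q.mul_mem_right _ (add_mem ha hb)) (Q.mul_mem_right _ ha)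

section Node

variable {k O G : Type} [Field k] [CommRing O] [Algebra k O] [Group G] [MulSemiringAction G O]

/-- The inertia orbit of `c` is given, up to a local unit, by a polynomial in the nodes. -/
def Node (τ : G → O) (Q : Ideal O) (c : O) : Prop :=
  ∃ u, u ∉ Q ∧ ∃ β : O[X], ∀ g ∈ Q.inertia G, u * (g • c) = β.eval (τ g)

/-- The local hypothesis at a prime. -/
def NodeAt (G : Type) [Group G] [MulSemiringAction G O] (Q : Ideal O) : Prop :=
  ∃ τ : G → O, (∀ g ∈ Q.inertia G, τ g ∈ Q) ∧ Set.InjOn τ (Q.inertia G) ∧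
    (∀ c : O, ∃ u, u ∉ Q ∧ ∃ β : O[X], ∀ g ∈ Q.inertia G, u * (g • c) = β.eval (τ g)) ∧
    (Q.inertia G = ⊥ ∨ ∃ y : O, ∃ u, u ∉ Q ∧ ∃ β : O[X], β.coeff 1 ∉ Q ∧
      ∀ g ∈ Q.inertia G, u * (g • y) = β.eval (τ g))

variable {τ : G → O} {Q : Ideal O} [hQ : Q.IsPrime]

lemma Node.of_eval {c : O} (β : O[X]) (h : ∀ g ∈ Q.inertia G, g • c = β.eval (τ g)) :
    Node τ Q c :=
  ⟨1, (Ideal.ne_top_iff_one Q).mp hQ.ne_top, β, fun g hg => by rw [one_mul, h g hg]⟩

lemma Node.of_fixed {c : O} (h : ∀ g ∈ Q.inertia G, g • c = c) : Node τ Q c :=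
  .of_eval (C c) fun g hg => by rw [eval_C, h g hg]

lemma Node.add {c d : O} (hc : Node τ Q c) (hd : Node τ Q d) : Node τ Q (c + d) := by
  obtain ⟨u, hu, β, h⟩ := hc
  obtain ⟨v, hv, γ, h'⟩ := hd
  refine ⟨u * v, fun e => (hQ.mem_or_mem e).elim hu hv, C v * β + C u * γ, fun g hg => ?_⟩
  simp only [eval_add, eval_mul, eval_C, ← h g hg, ← h' g hg, smul_add]
  ring

lemma Node.mul {c d : O} (hc : Node τ Q c) (hd : Node τ Q d) : Node τ Q (c * d) := by
  obtain ⟨u, hu, β, h⟩ := hc
  obtain ⟨v, hv, γ, h'⟩ := hd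
  refine ⟨u * v, fun e => (hQ.mem_or_mem e).elim hu hv, β * γ, fun g hg => ?_⟩
  simp only [eval_mul, ← h g hg, ← h' g hg, smul_mul']
  ring

lemma smul_notMem_of_inertia {g : G} (hg : g ∈ Q.inertia G) {h : O} (hh : h ∉ Q) : g • h ∉ Q :=
  fun e => hh (by simpa using sub_mem e (AddSubgroup.mem_inertia.mp hg h))

/-- Division by an element outside `Q`. -/
lemma Node.of_mul [Finite G] {c h : O} (ha : Node τ Q (c * h)) (hh : Node τ Q h) (hQh : h ∉ Q) :
    Node τ Q c := by
  classical
  let := Fintype.ofFinite G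
  obtain ⟨u, hu, β, h1⟩ := ha
  obtain ⟨v, hv, γ, h2⟩ := hh
  obtain ⟨ι, hι⟩ := exists_poly_inv τ γ (Finset.univ.filter (· ∈ Q.inertia G))
  refine ⟨u * ∏ g ∈ Finset.univ.filter (· ∈ Q.inertia G), γ.eval (τ g), fun e => ?_,
    C v * β * ι, fun g hg => ?_⟩
  · refine (hQ.mem_or_mem e).elim hu fun e => ?_
    obtain ⟨g, hg, e⟩ := hQ.prod_mem_iff.mp e
    have hg' := (Finset.mem_filter.mp hg).2
    rw [← h2 g hg'] at e
    exact (hQ.mem_or_mem e).elim hv (smul_notMem_of_inertia hg' hQh)
  · rw [← hι g (by simpa using hg), eval_mul, eval_mul, eval_C, ← h1 g hg, ← h2 g hg, smul_mul']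
    ring

variable (k) in
/-- The elements with polynomial inertia orbits form a subalgebra. -/
def nodeAlg [SMulCommClass G k O] (τ : G → O) (Q : Ideal O) [Q.IsPrime] : Subalgebra k O where
  carrier := {c | Node τ Q c}
  mul_mem' := Node.mul
  add_mem' := Node.add
  algebraMap_mem' r := .of_fixed fun g _ => smul_algebraMap g r

lemma mem_nodeAlg [SMulCommClass G k O] {c : O} : c ∈ nodeAlg k τ Q ↔ Node τ Q c := Iff.rfl

lemma node_of_gens [SMulCommClass G k O] {s : Set O} (hs : Algebra.adjoin k s = ⊤)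
    (h : ∀ c ∈ s, Node τ Q c) (c : O) : Node τ Q c :=
  (Algebra.adjoin_le h : _ ≤ nodeAlg k τ Q) (hs ▸ Algebra.mem_top)

variable [SMulCommClass G k O] [IsDomain O] [FaithfulSMul G O] {n : ℕ} {y : Fin n → O}
  {F : Type} [Field F] [Algebra O[X] F] [IsFractionRing O[X] F] [MulSemiringAction G F]
  [SMulDistribClass G O[X] F] [Fintype G]

omit hQ in
lemma interp_mem_locRing_nodes (hy : Algebra.adjoin k (Set.range y) = ⊤) (Q : Ideal O)
    [hQ : Q.IsPrime] (hG : NodeAt G Q) (b : O[X]) :
    interp G (algebraMap O[X] F (genY y)) (algebraMap O[X] F b) ∈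
      coeffRing (locRing F (Q.map C : Ideal O[X])) := by
  classical
  have hinj := genY_injective (F := F) (G := G) hy
  have hA := IsFractionRing.injective O[X] F
  set R := locRing F (Q.map C : Ideal O[X]) with hR
  have hYR : ∀ g : G, g • algebraMap O[X] F (genY y) ∈ R :=
    fun g => by rw [← algebraMap.smul']; exact algebraMap_mem_locRing _ _
  suffices h : ∃ P ∈ coeffRing R,
      ∀ g : G, P.eval (g • algebraMap O[X] F (genY y)) = g • algebraMap O[X] F b by
    obtain ⟨P, hP, he⟩ := h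
    exact interp_mem hinj _ _ hYR P hP he
  refine assemble _ (Q.inertia G) _ _ hYR
    (fun g => by rw [← algebraMap.smul']; exact algebraMap_mem_locRing _ _) ?_ ?_ ?_
  · intro g h hgh he
    apply hgh
    rw [hinj he, mul_inv_cancel]
    exact one_mem _
  · intro g h hgh
    rw [← algebraMap.smul', ← algebraMap.smul', ← map_sub]
    exact inv_mem_locRing _ (genY_sub_notMem hy Q g h hgh)
  intro h β hβ
  obtain ⟨τ, h1, h2, h3, h4⟩ := hG
  let φ : O[X] →+* R := (algebraMap O[X] F).codRestrict R fun a => algebraMap_mem_locRing _ a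
  have hφ : ∀ a, (φ a : F) = algebraMap O[X] F a := fun _ => rfl
  have hunit : ∀ u ∉ (Q.map C : Ideal O[X]), IsUnit (φ u) := fun u hu =>
    IsUnit.of_mul_eq_one ⟨_, inv_mem_locRing _ hu⟩ (Subtype.ext (mul_inv_cancel₀ fun e => hu (by
      rw [(map_eq_zero_iff _ hA).mp e]; exact zero_mem _)))
  have hCQ : ∀ u ∉ Q, C u ∉ (Q.map C : Ideal O[X]) := fun u hu e => hu (by
    simpa using Ideal.mem_map_C_iff.mp e 0)
  let t : Q.inertia G → R := fun g => φ (C (τ g))
  have hpoly : ∀ a : O[X], ∃ β : R[X], ∀ g : Q.inertia G, β.eval (t g) = φ (g.1 • a) := by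
    intro a
    induction a using Polynomial.induction_on' with
    | add p q hp hq =>
      obtain ⟨β, hβ⟩ := hp
      obtain ⟨γ, hγ⟩ := hq
      exact ⟨β + γ, fun g => by rw [eval_add, hβ, hγ, smul_add, map_add]⟩
    | monomial m c =>
      obtain ⟨u, hu, β, hβ⟩ := h3 c
      obtain ⟨v, hv⟩ := (hunit _ (hCQ u hu)).exists_left_inv
      refine ⟨C (v * φ X ^ m) * β.map (φ.comp C), fun g => ?_⟩
      have e : β.eval₂ (φ.comp C) (t g) = φ (C (β.eval (τ g))) := eval₂_at_apply (φ.comp C) _
      rw [eval_mul, eval_C, eval_map, e, ← hβ g g.2, ← C_mul_X_pow_eq_monomial, smul_mul',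
        smul_pow', smul_X, smul_C, map_mul, map_mul, map_mul, map_pow]
      linear_combination φ (C (g.1 • c)) * φ X ^ m * hv
  have hall : ∀ c ∈ R, ∃ β : R[X], ∀ g : Q.inertia G, ((β.eval (t g) : R) : F) = g.1 • c := by
    rintro c ⟨u, hu, a, ha⟩
    obtain ⟨β, hβ⟩ := hpoly a
    obtain ⟨γ, hγ⟩ := hpoly u
    obtain ⟨ι, hι⟩ := exists_poly_inv t γ Finset.univ
    obtain ⟨v, hv⟩ : IsUnit (∏ g, γ.eval (t g)) := IsUnit.prod_univ_iff.mpr fun g => by
      rw [hγ]; exact hunit _ (smul_notMem_map_C Q g.2 hu)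
    refine ⟨C ((v⁻¹ : Rˣ) : R) * β * ι, fun g => ?_⟩
    have e1 := hι g (Finset.mem_univ _)
    rw [← hv, hγ] at e1
    have e2 : ((φ (g.1 • a) : R) : F) = g.1 • c * φ (g.1 • u) := by
      rw [hφ, hφ, algebraMap.smul', algebraMap.smul', ← ha, smul_mul']
    have e3 := congrArg Subtype.val (v.inv_mul)
    have e4 := congrArg Subtype.val e1
    simp only [eval_mul, eval_C, hβ, Subring.coe_mul, e2, Subring.coe_one] at e3 e4 ⊢
    linear_combination (((v⁻¹ : Rˣ) : R) : F) * (g.1 • c) * e4 + (g.1 • c) * e3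
  let Y : Q.inertia G → R := fun g => ⟨(g.1 * h) • algebraMap O[X] F (genY y), hYR _⟩
  obtain ⟨βY, hβY⟩ := hall _ (hYR h)
  obtain ⟨β', hβ'⟩ := hall _ hβ
  obtain ⟨P, -, hP⟩ := Wild.newton t Y (fun g' => by
    have he : ∀ g, (βY /ₘ (X - C (t g'))).eval (t g) * (t g - t g') = Y g - Y g' := by
      intro g
      have e := congrArg (eval (t g)) (modByMonic_add_div βY (X - C (t g')))
      rw [modByMonic_X_sub_C_eq_C_eval] at e
      simp only [eval_sub, eval_add, eval_mul, eval_C, eval_X] at e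
      have e1 : ∀ g, βY.eval (t g) = Y g := fun g => Subtype.ext (by rw [hβY, smul_smul])
      rw [← e1, ← e1, ← e]; ring
    refine ⟨_, he, fun g hg => ?_⟩
    have hθ0 : τ g - τ g' ≠ 0 := sub_ne_zero.mpr fun e => hg (Subtype.ext (h2 g.2 g'.2 e))
    have hsm : ∀ c : O, (g.1 * g'.1⁻¹) • g'.1 • c = g.1 • c := fun c => by
      rw [smul_smul, inv_mul_cancel_right]
    have hdiv := div_genY_mem (F := F) hy Q (g.1 * g'.1⁻¹) (g'.1 * h) hθ0 (fun c => by
      obtain ⟨u, hu, β, hβ⟩ := h3 (g'.1⁻¹ • c)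
      refine ⟨u, hu, ?_⟩
      have := sub_dvd_eval_sub (τ g) (τ g') β
      rwa [← hβ g g.2, ← hβ g' g'.2, smul_inv_smul, smul_smul, ← mul_sub] at this) (by
      rcases h4 with h4 | ⟨y, u, hu, β, hβ, h4⟩
      · exact absurd (Subtype.ext ((Subgroup.mem_bot.mp (h4 ▸ g.2)).trans
          (Subgroup.mem_bot.mp (h4 ▸ g'.2)).symm)) hg
      obtain ⟨w, hw, hw'⟩ := exists_eval_sub Q β (h1 g' g'.2) (h1 g g.2)
      refine ⟨w, fun e => hβ (by simpa using sub_mem e hw'), ?_⟩
      rw [mul_comm, ← hw, ← h4 g g.2, ← h4 g' g'.2, ← mul_sub, ← hsm]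
      exact Ideal.mul_mem_left _ _ (sub_mem_aug _ _))
    rw [smul_smul, mul_assoc, inv_mul_cancel_left] at hdiv
    refine IsUnit.of_mul_eq_one ⟨_, hdiv⟩ (Subtype.ext ?_)
    have e := congrArg Subtype.val (he g)
    simp only [Subring.coe_mul, AddSubgroupClass.coe_sub, t, Y, hφ, ← map_sub] at e
    have hne : (g.1 * h) • algebraMap O[X] F (genY y) - (g'.1 * h) • algebraMap O[X] F (genY y)
        ≠ 0 := sub_ne_zero.mpr fun e => hg (Subtype.ext (mul_right_cancel (hinj e)))
    rw [Subring.coe_mul, ← mul_div_assoc, e, div_self hne, Subring.coe_one]) Finset.univ β'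
  refine ⟨P.map R.subtype, ⟨P, rfl⟩, fun ι hι => ?_⟩
  rw [← hβ' ⟨ι, hι⟩, ← hP _ (Finset.mem_univ _), eval_map, smul_smul]
  exact eval₂_at_apply R.subtype (Y ⟨ι, hι⟩)

end Node

variable {k O G S : Type} [Field k] [CommRing O] [Algebra k O] [Group G] [MulSemiringAction G O]
  [SMulCommClass G k O] [IsDomain O] [FaithfulSMul G O] [Fintype G]
  [CommRing S] [Algebra k S] [Algebra S O] [IsScalarTower k S O] [SMulCommClass G S O]
  [Algebra.IsInvariant S O G]

omit [SMulCommClass G S O] in
lemma exists_denominator_nodes {n : ℕ} {y : Fin n → O} (hy : Algebra.adjoin k (Set.range y) = ⊤)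
    (hG : ∀ (Q : Ideal O) [Q.IsPrime], NodeAt G Q)
    {F : Type} [Field F] [Algebra O[X] F] [IsFractionRing O[X] F] [MulSemiringAction G F]
    [SMulDistribClass G O[X] F] (Q : Ideal O) [hQ : Q.IsPrime] :
    ∃ h : S[X], h.map (algebraMap S O) ∉ (Q.map C : Ideal O[X]) ∧ ∀ i m, ∃ s : S[X],
      algebraMap O[X] F (s.map (algebraMap S O)) = algebraMap O[X] F (h.map (algebraMap S O)) *
        (interp G (algebraMap O[X] F (genY y)) (algebraMap O[X] F (C (y i)))).coeff m := by
  classical
  have hinj := genY_injective (F := F) (G := G) hy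
  set P : Fin n → F[X] := fun i =>
    interp G (algebraMap O[X] F (genY y)) (algebraMap O[X] F (C (y i))) with hP
  let d : Ideal O[X] :=
    { carrier := {a | ∀ i m, ∃ a', algebraMap O[X] F a' = algebraMap O[X] F a * (P i).coeff m}
      add_mem' := by
        intro a b ha hb i m
        obtain ⟨a', ha'⟩ := ha i m
        obtain ⟨b', hb'⟩ := hb i m
        exact ⟨a' + b', by rw [map_add, map_add, ha', hb', add_mul]⟩
      zero_mem' := fun i m => ⟨0, by simp⟩
      smul_mem' := by
        intro c a ha i m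
        obtain ⟨a', ha'⟩ := ha i m
        exact ⟨c * a', by rw [smul_eq_mul, map_mul, map_mul, ha', mul_assoc]⟩ }
  let Qg : G → Ideal O := fun g => Q.comap (MulSemiringAction.toRingHom G O g)
  have hQg : ∀ g, (Qg g).IsPrime := fun g => Ideal.comap_isPrime _ _
  have hnot : ∀ g, ¬ d ≤ ((Qg g).map C : Ideal O[X]) := by
    intro g hle
    have := hQg g
    have hmem := fun i m => mem_coeffRing.mp
      (interp_mem_locRing_nodes (F := F) hy (Qg g) (hG _) (C (y i))) m
    choose u hu a ha using hmem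
    have hU : ∏ x ∈ Finset.univ ×ˢ Finset.range (Fintype.card G), u x.1 x.2 ∈ d := by
      intro i m
      by_cases hm : m < Fintype.card G
      · have hx : (i, m) ∈ Finset.univ ×ˢ Finset.range (Fintype.card G) := by simp [hm]
        rw [← Finset.mul_prod_erase _ _ hx]
        refine ⟨a i m * ∏ x ∈ (Finset.univ ×ˢ Finset.range (Fintype.card G)).erase (i, m),
          u x.1 x.2, ?_⟩
        rw [map_mul, map_mul, ← ha]
        ring
      · refine ⟨0, ?_⟩
        rw [coeff_eq_zero_of_degree_lt (lt_of_lt_of_le (interp_degree hinj _)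
          (by exact_mod_cast not_lt.mp hm)), map_zero, mul_zero]
    have h2 := hle hU
    rw [Ideal.IsPrime.prod_mem_iff] at h2
    obtain ⟨x, -, hx⟩ := h2
    exact hu _ _ hx
  have havoid : ¬ ((d : Set O[X]) ⊆ ⋃ g ∈ (↑(Finset.univ : Finset G) : Set G),
      ((Qg g).map C : Ideal O[X])) := by
    rw [Ideal.subset_union_prime 1 1 fun g _ _ _ => by have := hQg g; infer_instance]
    rintro ⟨g, -, hg⟩
    exact hnot g hg
  obtain ⟨a, had, ha⟩ := Set.not_subset.mp havoid
  have ha' : ∀ g : G, g • a ∉ (Q.map C : Ideal O[X]) := by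
    intro g hmem
    apply ha
    simp only [Finset.coe_univ, Set.mem_univ, Set.iUnion_true, Set.mem_iUnion, SetLike.mem_coe]
    refine ⟨g, ?_⟩
    rw [Ideal.mem_map_C_iff] at hmem ⊢
    intro m
    have := hmem m
    rw [coeff_smul_poly] at this
    exact this
  have hinv : ∀ g' : G, g' • ∏ g : G, g • a = ∏ g : G, g • a := fun g' =>
    Finset.smul_prod_perm a g'
  obtain ⟨h, hh⟩ := exists_map_eq_of_invariant (S := S) _ hinv
  refine ⟨h, ?_, fun i m => ?_⟩
  · rw [hh, Ideal.IsPrime.prod_mem_iff]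
    rintro ⟨g, -, hg⟩
    exact ha' g hg
  · have hd : ∏ g : G, g • a ∈ d := by
      rw [← Finset.mul_prod_erase _ _ (Finset.mem_univ (1 : G)), one_smul]
      exact d.mul_mem_right _ had
    obtain ⟨a', ha'⟩ := hd i m
    obtain ⟨s, hs⟩ := exists_map_eq_of_invariant (S := S) (G := G) a' fun g => by
      apply IsFractionRing.injective O[X] F
      rw [algebraMap.smul', ha', smul_mul', ← algebraMap.smul', hinv, ← coeff_smul',
        smul_interp hinj]
    exact ⟨s, by rw [hs, hh, ha']⟩

/-- The ring of invariants is smooth. -/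
theorem smooth_of_invariant_nodes [Algebra.Smooth k O] (hSO : Function.Injective (algebraMap S O))
    (hG : ∀ (Q : Ideal O) [Q.IsPrime], NodeAt G Q) : Algebra.Smooth k S := by
  have : Algebra.FiniteType k S := finiteType_of_invariant G hSO
  have : Algebra.FinitePresentation k S := Algebra.FinitePresentation.of_finiteType.mp this
  refine ⟨Algebra.smoothLocus_eq_univ_iff.mp (Set.eq_univ_of_forall fun q => ?_), this⟩
  have : Algebra.IsIntegral S O := Algebra.IsInvariant.isIntegral S O G
  obtain ⟨Q, -, hQ, hQq⟩ := Ideal.exists_ideal_over_prime_of_isIntegral q.asIdeal (⊥ : Ideal O)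
    (by rw [← RingHom.ker_eq_comap_bot, (RingHom.injective_iff_ker_eq_bot _).mp hSO]; exact bot_le)
  obtain ⟨n, y, hy⟩ : ∃ (n : ℕ) (y : Fin n → O), Algebra.adjoin k (Set.range y) = ⊤ := by
    obtain ⟨t, ht⟩ := Algebra.FiniteType.out (R := k) (A := O)
    refine ⟨t.card, fun i => t.equivFin.symm i, ?_⟩
    rw [← ht]
    congr 1
    ext x
    constructor
    · rintro ⟨i, rfl⟩; exact (t.equivFin.symm i).2
    · intro hx; exact ⟨t.equivFin ⟨x, hx⟩, by simp⟩
  let := IsFractionRing.mulSemiringAction G O[X] (FractionRing O[X])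
  obtain ⟨h, hh, hh'⟩ := exists_denominator_nodes (S := S) (F := FractionRing O[X]) hy hG Q
  have := formallySmooth_away (F := FractionRing O[X]) hSO hy h
    (fun h0 => hh (h0 ▸ zero_mem _)) hh'
  refine isSmoothAt_of_polynomial_away q.asIdeal h fun hmem => hh ?_
  rw [Ideal.mem_map_C_iff] at hmem ⊢
  intro j
  rw [coeff_map, ← Ideal.mem_comap, hQq]
  exact hmem j

end Pool.Agent.MP_19ffc6_ag.Lin

end MrgPart7

-- marker of a merged file
example : 731051 + 159420 = 731051 + 159420 := rfl
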