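import Pool.Agent.MP_19ffc6_ag.Lin.Nodes

/-!
Refining an atlas by a weighted blow-up whose centre is generated by monomials.
-/

set_option autoImplicit false
set_option linter.unusedSectionVars false
set_option linter.style.haveILetI false

open AddMonoidAlgebra

namespace Pool.Agent.MP_19ffc6_ag.Lin

lemma exists_unif {κ : Type} [Finite κ] (P : κ → ℕ → Prop)
    (mono : ∀ x n, P x n → P x (n + 1)) (h : ∀ x, ∃ n, P x n) : ∃ N, ∀ x, ∀ n, N ≤ n → P x n := by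
  choose n hn using h
  have := Fintype.ofFinite κ
  refine ⟨Finset.univ.sup n, fun x N hN => ?_⟩
  exact Nat.le_induction (hn x) (fun m _ hm => mono x m hm) _
    ((Finset.le_sup (f := n) (Finset.mem_univ x)).trans hN)

lemma exists_common {κ : Type} [Finite κ] (n : κ → ℕ) (hn : ∀ x, 0 < n x) :
    ∃ Q, 0 < Q ∧ ∀ x, ∃ q, 0 < q ∧ Q = q * n x := by
  classical
  have := Fintype.ofFinite κ
  refine ⟨∏ x, n x, Finset.prod_pos fun x _ => hn x, fun x =>
    ⟨∏ y ∈ Finset.univ.erase x, n y, Finset.prod_pos fun y _ => hn y, ?_⟩⟩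
  rw [Finset.prod_erase_mul _ _ (Finset.mem_univ x)]

/-- Comparison of roots in a valuation ring of an algebraically closed field. -/
lemma exists_root {Ω : Type} [Field Ω] [IsAlgClosed Ω] (O : ValuationSubring Ω) {κ : Type}
    [Finite κ] [Nonempty κ] (z : κ → Ω) (hz : ∀ a, z a ∈ O) (hz0 : ∀ a, z a ≠ 0) (d : κ → ℕ)
    (hd : ∀ a, 0 < d a) :
    ∃ ε ∈ O, ε ≠ 0 ∧ (∀ a, z a / ε ^ d a ∈ O) ∧ ∃ a, ε ^ d a = z a := by
  choose e he using fun a => IsAlgClosed.exists_pow_nat_eq (z a) (hd a)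
  obtain ⟨a, ha⟩ := Finite.exists_max fun a => O.valuation (e a)
  have h0 : e a ≠ 0 := fun h => hz0 a (by rw [← he, h, zero_pow (hd a).ne'])
  refine ⟨e a, ?_, h0, fun b => ?_, a, he a⟩
  · rw [← O.valuation_le_one_iff, ← pow_le_one_iff (hd a).ne', ← map_pow, he,
      O.valuation_le_one_iff]
    exact hz a
  · rw [← he b, ← div_pow]
    refine pow_mem ?_ _
    rw [← O.valuation_le_one_iff, map_div₀]
    exact div_le_one_of_le₀ (ha b) zero_le

variable {k L Ω : Type} [Field k] [Field L] [Algebra k L] [Field Ω] [Algebra L Ω]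
  {K : Subfield L} {A : Subalgebra k L}

lemma exists_unif_unit {κ : Type} [Finite κ] (D : κ → Subalgebra k (Amb L)) (μ : κ → Lat)
    (h : ∀ x, ∃ n : ℕ, 0 < n ∧ ∃ u ∈ K, IsU (D x) (n • μ x) u) :
    ∃ n : ℕ, 0 < n ∧ ∀ x, ∃ u ∈ K, IsU (D x) (n • μ x) u := by
  choose n hn u hu hU using h
  obtain ⟨Q, hQ, hQ'⟩ := exists_common n hn
  refine ⟨Q, hQ, fun x => ?_⟩
  obtain ⟨q, -, rfl⟩ := hQ' x
  exact ⟨_, pow_mem (hu x) q, ((hU x).pow q).congr (smul_smul _ _ _) rfl⟩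

theorem refine {ι : Type} [Finite ι] {f : ι → L} (f_mem : ∀ j, f j ∈ K) (f_ne : ∀ j, f j ≠ 0)
    {m : ℕ} (D : ι → Subalgebra k (Amb L)) (hom : ∀ j, IsHom (D j)) (supp : ∀ j, Supp m (D j))
    (ratio : ∀ i j, single 0 (f i / f j) ∈ D j)
    (comp : ∀ i j μ a, single μ a ∈ D i → ∃ N : ℕ, single μ ((f i / f j) ^ N * a) ∈ D j)
    (base : ∀ j, ∀ a ∈ A, single 0 a ∈ D j) (full : ∀ j, ∀ i < m, single (ee i) 1 ∈ D j)
    {κ : ι → Type} [∀ j, Finite (κ j)] (ν : ∀ j, κ j → Lat) (b : ∀ j, κ j → L)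
    (hγ : ∀ j a, single (ν j a) (b j a) ∈ D j) (hb : ∀ j a, b j a ∈ K) (hb0 : ∀ j a, b j a ≠ 0)
    {c : ℕ} (hc : c < m) {σ : ℤ} (hσ : σ * σ = 1) (hν : ∀ j a, 0 < σ * ν j a c)
    (fin0 : ∀ j μ, InL m μ → μ c = 0 → ∃ n : ℕ, 0 < n ∧ ∃ u ∈ K, IsU (D j) (n • μ) u)
    (proper : ∀ O : ValuationSubring Ω, (∀ a ∈ A, algebraMap L Ω a ∈ O) →
      ∃ j a θ, Ctr (loc (D j) (ν j a) (b j a)) O θ) :
    ∃ f' : (Σ j, κ j) → L, IsAtlas Ω K A m (fun x => loc (D x.1) (ν x.1 x.2) (b x.1 x.2)) f' := by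
  have hνL : ∀ j a, InL m (ν j a) := fun j a => supp j _ _ (hb0 j a) (hγ j a)
  let d : (Σ j, κ j) → ℕ := fun x => (σ * ν x.1 x.2 c).toNat
  have hd : ∀ x, (d x : ℤ) = σ * ν x.1 x.2 c := fun x => Int.toNat_of_nonneg (hν _ _).le
  have hd0 : ∀ x, 0 < d x := fun x => by have := hν x.1 x.2; have := hd x; omega
  have hνd : ∀ x : Σ j, κ j, ν x.1 x.2 c = σ * d x := fun x => by
    rw [hd, ← mul_assoc, hσ, one_mul]
  obtain ⟨P, -, hP⟩ := exists_common d hd0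
  choose q hq hqP using hP
  obtain ⟨Q, hQ, hQU⟩ := exists_unif_unit (K := K) (fun x : Σ j, κ j => D x.1)
    (fun x => (σ * P) • ee c - q x • ν x.1 x.2) fun x => fin0 _ _
      (((InL.basis hc).zsmul _).sub ((hνL _ _).nsmul _)) (by
        rw [Finsupp.sub_apply, Finsupp.smul_apply, Finsupp.smul_apply, Finsupp.single_eq_same,
          hνd, hqP x, smul_eq_mul, nsmul_eq_mul]
        push_cast; ring)
  choose u hu hU using hQU
  set χ : Lat := Q • (σ * P) • ee c with hχ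
  let g : (Σ j, κ j) → L := fun x => b x.1 x.2 ^ (Q * q x) * u x
  have hg0 : ∀ x, g x ≠ 0 := fun x => mul_ne_zero (pow_ne_zero _ (hb0 _ _)) (hU x).ne
  have hdeg : ∀ x : Σ j, κ j, (Q * q x) • ν x.1 x.2 + Q • ((σ * P) • ee c - q x • ν x.1 x.2) = χ :=
    fun x => by rw [smul_sub, smul_smul Q (q x)]; abel
  have hgD : ∀ x, single χ (g x) ∈ D x.1 := fun x =>
    mon_congr (mon_mul (mon_pow (hγ _ _) _) (hU x).mem) (hdeg x) rfl
  have hgU : ∀ x, IsU (loc (D x.1) (ν x.1 x.2) (b x.1 x.2)) χ (g x) := fun x =>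
    (((isU_loc (hγ _ _) (hb0 _ _)).pow _).mul ((hU x).mono le_loc)).congr (hdeg x) rfl
  have hstep : ∀ i j μ a n, single μ ((f i / f j) ^ n * a) ∈ D j →
      single μ ((f i / f j) ^ (n + 1) * a) ∈ D j := fun i j μ a n h =>
    mon_congr (mon_mul_zero (ratio i j) h) rfl (by ring)
  have hstep' : ∀ i j μ a n n', n ≤ n' → single μ ((f i / f j) ^ n * a) ∈ D j →
      single μ ((f i / f j) ^ n' * a) ∈ D j := fun i j μ a n n' h h' =>
    Nat.le_induction h' (fun n _ => hstep i j μ a n) _ h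
  obtain ⟨M, hM⟩ := exists_unif (fun (x : (Σ j, κ j) × ι) n =>
      single χ ((f x.1.1 / f x.2) ^ n * g x.1) ∈ D x.2)
    (fun x n => hstep _ _ _ _ n) fun x => comp _ _ _ _ (hgD x.1)
  refine ⟨fun x => f x.1 ^ (M + 1) * g x, fun x => (hom _).loc,
    fun x => (supp _).loc (hom _) (hνL _ _), fun x => ?_,
    fun x => mul_ne_zero (pow_ne_zero _ (f_ne _)) (hg0 x), fun x y => ?_, fun x y μ a ha => ?_,
    fun x a ha => le_loc (base _ a ha), fun x i hi => ?_, fun x i hi => le_loc (full _ i hi),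
    fun O hO => ?_⟩
  · exact mul_mem (pow_mem (f_mem _) _) (mul_mem (pow_mem (hb _ _) _) (hu x))
  · refine mon_congr (mon_mul (le_loc (hM (x, y.1) (M + 1) (by omega))) (hgU y).inv) (by simp) ?_
    rw [div_pow, mul_div_mul_comm, mul_assoc, ← div_eq_mul_inv]
  · obtain ⟨l, hl⟩ := (mon_mem_loc (hγ _ _) (hb0 _ _)).mp ha
    have h1 : single (l • χ + μ) (g x ^ l * a) ∈ D x.1 := by
      obtain ⟨e, he⟩ : ∃ e, Q * q x = e + 1 := ⟨Q * q x - 1, by
        have := Nat.mul_pos hQ (hq x); omega⟩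
      refine mon_congr (mon_mul (mon_pow (mon_mul (mon_pow (hγ _ x.2) e) (hU x).mem) l) hl) ?_ ?_
      · rw [← hdeg x, he]; module
      · simp only [g, he]; ring
    obtain ⟨N, hN⟩ := comp _ y.1 _ _ h1
    refine ⟨l + N, ?_⟩
    have h2 := mon_mul (mon_pow (hM (x, y.1) M le_rfl) N)
      (hstep' _ _ _ _ _ (N + (M + 1) * l) (by omega) hN)
    refine mon_congr (mon_mul (le_loc h2) ((hgU y).pow (l + N)).inv) (by module) ?_
    rw [mul_div_mul_comm, ← div_pow, div_eq_mul_inv (g x), ← inv_pow]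
    ring
  · obtain ⟨n, hn, v, hv, hV⟩ := fin0 x.1 (d x • ee i - (σ * ee i c) • ν x.1 x.2)
      (((InL.basis hi).nsmul _).sub ((hνL _ _).zsmul _)) (by
        rw [Finsupp.sub_apply, Finsupp.smul_apply, Finsupp.smul_apply, hνd, smul_eq_mul,
          nsmul_eq_mul]
        linear_combination (-(ee i c * d x)) * hσ)
    refine ⟨n * d x, Nat.mul_pos hn (hd0 x), _,
      mul_mem hv (K.zpow_mem (hb _ _) (n * (σ * ee i c))),
      ((hV.mono le_loc).mul ((isU_loc (hγ _ _) (hb0 _ _)).zpow _)).congr ?_ rfl⟩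
    module
  · obtain ⟨j, a, θ, h⟩ := proper O hO
    exact ⟨⟨j, a⟩, θ, h⟩

end Pool.Agent.MP_19ffc6_ag.Lin
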