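import Mathlib.Data.Int.Range
import Pool.Agent.MP_19ffc6_ag.Lin.Nodes
import Pool.Agent.MP_19ffc6_ag.Lin.Refine
import Pool.Agent.MP_19ffc6_ag.Lin.ProjB

-- ======== part 0: formerly Pool.Agent.MP_19ffc6_ag.Lin.TruncC
section MrgPart0

/-!
Smoothness of the truncation of a smooth graded algebra containing a homogeneous unit.
-/

set_option autoImplicit false
set_option linter.unusedSectionVars false
set_option linter.style.haveILetI false

open DirectSum Polynomial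

namespace Pool.Agent.MP_19ffc6_ag.Lin

variable {k C : Type} [Field k] [CommRing C] [Algebra k C] (𝒜 : ℤ → Submodule k C)
  [GradedAlgebra 𝒜] (r : ℕ) (y : C)

/-- Twisted multiplicative data with parameter `ε`. -/
structure IsDat {R : Type} [CommRing R] [Algebra k R] (ε : R) (z : ℤ → C →ₗ[k] R) : Prop where
  one : z 0 1 = 1
  unit : z r y = 1
  mul : ∀ a b, ∀ x ∈ 𝒜 a, ∀ x' ∈ 𝒜 b, z (a + b) (x * x') = ε ^ carry r a b * (z a x * z b x')

/-- The variable attached to the degree `d` component of `c`. -/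
noncomputable def var (d : ℤ) (c : C) : MvPolynomial (Option (Σ d, 𝒜 d)) k :=
  MvPolynomial.X (some ⟨d, decompose 𝒜 c d⟩)

/-- The relations of the universal twisted multiplicative data. -/
def rel : Set (MvPolynomial (Option (Σ d, 𝒜 d)) k) :=
  {q | (∃ d c c', q = var 𝒜 d (c + c') - (var 𝒜 d c + var 𝒜 d c')) ∨
    (∃ (d : ℤ) (a : k) (c : C), q = var 𝒜 d (a • c) - a • var 𝒜 d c) ∨
    q = var 𝒜 0 1 - 1 ∨ q = var 𝒜 r y - 1 ∨
    ∃ a b, ∃ x ∈ 𝒜 a, ∃ x' ∈ 𝒜 b, q = var 𝒜 (a + b) (x * x') -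
      MvPolynomial.X none ^ carry r a b * (var 𝒜 a x * var 𝒜 b x')}

/-- The algebra carrying the universal twisted multiplicative data. -/
abbrev Univ : Type := MvPolynomial (Option (Σ d, 𝒜 d)) k ⧸ Ideal.span (rel 𝒜 r y)

/-- The universal parameter. -/
noncomputable def ue : Univ 𝒜 r y := Ideal.Quotient.mk _ (MvPolynomial.X none)

/-- The universal data. -/
noncomputable def uz (d : ℤ) : C →ₗ[k] Univ 𝒜 r y where
  toFun c := Ideal.Quotient.mk _ (var 𝒜 d c)
  map_add' c c' := by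
    rw [← map_add, Ideal.Quotient.eq]
    exact Ideal.subset_span (Or.inl ⟨d, c, c', rfl⟩)
  map_smul' a c := by
    change Ideal.Quotient.mkₐ k _ _ = a • Ideal.Quotient.mkₐ k _ _
    rw [← map_smul, Ideal.Quotient.mkₐ_eq_mk, Ideal.Quotient.eq]
    exact Ideal.subset_span (Or.inr (Or.inl ⟨d, a, c, rfl⟩))

lemma isDat_uz : IsDat 𝒜 r y (ue 𝒜 r y) (uz 𝒜 r y) where
  one := by
    rw [← map_one (Ideal.Quotient.mk _)]
    exact Ideal.Quotient.eq.mpr (Ideal.subset_span (Or.inr (Or.inr (Or.inl rfl))))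
  unit := by
    rw [← map_one (Ideal.Quotient.mk _)]
    exact Ideal.Quotient.eq.mpr (Ideal.subset_span (Or.inr (Or.inr (Or.inr (Or.inl rfl)))))
  mul a b x hx x' hx' := by
    change Ideal.Quotient.mk _ _ = Ideal.Quotient.mk _ _ ^ _ *
      (Ideal.Quotient.mk _ _ * Ideal.Quotient.mk _ _)
    rw [← map_pow, ← map_mul, ← map_mul, Ideal.Quotient.eq]
    exact Ideal.subset_span (Or.inr (Or.inr (Or.inr (Or.inr ⟨a, b, x, hx, x', hx', rfl⟩))))

lemma uz_decompose (d : ℤ) (c : C) : uz 𝒜 r y d (decompose 𝒜 c d) = uz 𝒜 r y d c := by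
  change Ideal.Quotient.mk _ (var 𝒜 d _) = Ideal.Quotient.mk _ (var 𝒜 d _)
  rw [var, var, decompose_coe, of_eq_same]

variable {𝒜} in
lemma uz_of_ne {d e : ℤ} {x : C} (hx : x ∈ 𝒜 e) (h : e ≠ d) : uz 𝒜 r y d x = 0 := by
  rw [← uz_decompose, decompose_of_mem_ne 𝒜 hx h, map_zero]

variable {𝒜 r y}

lemma exists_ulift {R : Type} [CommRing R] [Algebra k R] {ε : R} {z : ℤ → C →ₗ[k] R}
    (h : IsDat 𝒜 r y ε z) (hy : y ∈ 𝒜 r) : ∃ ρ : Univ 𝒜 r y →ₐ[k] R, ρ (ue 𝒜 r y) = ε ∧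
      ∀ d, ∀ x ∈ 𝒜 d, ρ (uz 𝒜 r y d x) = z d x := by
  let f : MvPolynomial (Option (Σ d, 𝒜 d)) k →ₐ[k] R :=
    MvPolynomial.aeval fun o => o.elim ε fun t => z t.1 t.2
  have hf : ∀ d c, f (var 𝒜 d c) = z d (decompose 𝒜 c d) := fun d c => by simp [f, var]
  have hf' : ∀ d, ∀ x ∈ 𝒜 d, f (var 𝒜 d x) = z d x := fun d x hx => by
    rw [hf, decompose_of_mem_same 𝒜 hx]
  have he : f (MvPolynomial.X none) = ε := by simp [f]
  refine ⟨Ideal.Quotient.liftₐ _ f fun q hq => ?_, he, hf'⟩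
  have : Ideal.span (rel 𝒜 r y) ≤ RingHom.ker f := by
    rw [Ideal.span_le]
    rintro _ (⟨d, c, c', rfl⟩ | ⟨d, a, c, rfl⟩ | rfl | rfl | ⟨a, b, x, hx, x', hx', rfl⟩) <;>
      rw [SetLike.mem_coe, RingHom.mem_ker, map_sub, sub_eq_zero]
    · simp [hf]
    · rw [map_smul, hf, hf, decompose_smul, DirectSum.smul_apply, Submodule.coe_smul, map_smul]
    · rw [hf' _ _ (SetLike.one_mem_graded 𝒜), h.one, map_one]
    · rw [hf' _ _ hy, h.unit, map_one]
    · rw [map_mul, map_mul, map_pow, he, hf' _ _ hx, hf' _ _ hx',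
        hf' _ _ (SetLike.mul_mem_graded hx hx'), h.mul _ _ _ hx _ hx']
  exact this hq

lemma univ_ext {R : Type} [CommRing R] [Algebra k R] {f g : Univ 𝒜 r y →ₐ[k] R}
    (he : f (ue 𝒜 r y) = g (ue 𝒜 r y))
    (hz : ∀ d, ∀ x ∈ 𝒜 d, f (uz 𝒜 r y d x) = g (uz 𝒜 r y d x)) : f = g := by
  refine Ideal.Quotient.algHom_ext k (MvPolynomial.algHom_ext ?_)
  rintro (_ | ⟨d, x⟩)
  · exact he
  · have := hz d x x.2
    change f (Ideal.Quotient.mk _ (var 𝒜 d x)) = g (Ideal.Quotient.mk _ (var 𝒜 d x)) at this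
    rw [var, decompose_coe, of_eq_same] at this
    exact this

lemma univ_mem (D : Subalgebra k (Univ 𝒜 r y)) (he : ue 𝒜 r y ∈ D)
    (hz : ∀ d, ∀ x ∈ 𝒜 d, uz 𝒜 r y d x ∈ D) (u : Univ 𝒜 r y) : u ∈ D := by
  obtain ⟨q, rfl⟩ := Ideal.Quotient.mkₐ_surjective k _ u
  induction q using MvPolynomial.induction_on with
  | C a =>
    rw [← MvPolynomial.algebraMap_eq, AlgHom.commutes]
    exact D.algebraMap_mem a
  | add p q hp hq => rw [map_add]; exact add_mem hp hq
  | mul_X p i hp =>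
    rw [map_mul]
    refine mul_mem hp ?_
    rcases i with _ | ⟨d, x⟩
    · exact he
    · have := hz d x x.2
      change Ideal.Quotient.mk _ (var 𝒜 d x) ∈ D at this
      rw [var, decompose_coe, of_eq_same] at this
      exact this

lemma IsDat.map {R R' : Type} [CommRing R] [Algebra k R] [CommRing R'] [Algebra k R'] {ε : R}
    {z : ℤ → C →ₗ[k] R} (h : IsDat 𝒜 r y ε z) (f : R →ₐ[k] R') :
    IsDat 𝒜 r y (f ε) fun d => f.toLinearMap.comp (z d) where
  one := by simp [h.one]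
  unit := by simp [h.unit]
  mul a b x hx x' hx' := by simp [h.mul a b x hx x' hx']

variable (𝒜) in
/-- A finitely generated graded algebra has finitely many homogeneous generators. -/
lemma exists_homogeneous_gens [Algebra.FiniteType k C] :
    ∃ s : Finset (ℤ × C), (∀ t ∈ s, t.2 ∈ 𝒜 t.1) ∧
      Algebra.adjoin k (Prod.snd '' (s : Set (ℤ × C))) = ⊤ := by
  classical
  obtain ⟨t, ht⟩ := Algebra.FiniteType.out (R := k) (A := C)
  refine ⟨t.biUnion fun c => (decompose 𝒜 c).support.image fun d => (d, decompose 𝒜 c d),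
    ?_, ?_⟩
  · intro u hu
    simp only [Finset.mem_biUnion, Finset.mem_image] at hu
    obtain ⟨c, -, d, -, rfl⟩ := hu
    exact (decompose 𝒜 c d).2
  · rw [eq_top_iff, ← ht, Algebra.adjoin_le_iff]
    intro c hc
    rw [← sum_support_decompose 𝒜 c]
    refine sum_mem fun d hd => Algebra.subset_adjoin ⟨(d, decompose 𝒜 c d), ?_, rfl⟩
    simp only [Finset.coe_biUnion, Finset.coe_image, Set.mem_iUnion, Set.mem_image]
    exact ⟨c, hc, d, hd, rfl⟩

lemma finiteType_univ [Algebra.FiniteType k C] : Algebra.FiniteType k (Univ 𝒜 r y) := by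
  classical
  obtain ⟨s, hs, hs'⟩ := exists_homogeneous_gens 𝒜
  let D := Algebra.adjoin k
    ((insert (ue 𝒜 r y) (s.image fun t => uz 𝒜 r y t.1 t.2) : Finset _) : Set (Univ 𝒜 r y))
  have he : ue 𝒜 r y ∈ D := Algebra.subset_adjoin (by simp)
  have hom : ∀ {e : ℤ} {x : C}, x ∈ 𝒜 e → uz 𝒜 r y e x ∈ D → ∀ d, uz 𝒜 r y d x ∈ D := by
    intro e x hx h d
    by_cases hd : e = d
    · exact hd ▸ h
    · rw [uz_of_ne r y hx hd]; exact zero_mem _
  let W : Subalgebra k C :=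
    { carrier := {c | ∀ d, uz 𝒜 r y d c ∈ D}
      add_mem' := fun ha hb d => by rw [map_add]; exact add_mem (ha d) (hb d)
      mul_mem' := fun {a b} ha hb d => by
        rw [← sum_support_decompose 𝒜 a, ← sum_support_decompose 𝒜 b, Finset.sum_mul_sum,
          map_sum]
        refine sum_mem fun i _ => ?_
        rw [map_sum]
        refine sum_mem fun j _ => hom (SetLike.mul_mem_graded (decompose 𝒜 a i).2
          (decompose 𝒜 b j).2) ?_ d
        rw [(isDat_uz 𝒜 r y).mul i j _ (decompose 𝒜 a i).2 _ (decompose 𝒜 b j).2, uz_decompose,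
          uz_decompose]
        exact mul_mem (pow_mem he _) (mul_mem (ha i) (hb j))
      algebraMap_mem' := fun a => hom (e := 0) (SetLike.algebraMap_mem_graded 𝒜 a) (by
        rw [Algebra.algebraMap_eq_smul_one, map_smul, (isDat_uz 𝒜 r y).one]
        exact D.smul_mem (one_mem _) a) }
  have hW : ∀ c, c ∈ W := by
    intro c
    have : Algebra.adjoin k (Prod.snd '' (s : Set (ℤ × C))) ≤ W := by
      rw [Algebra.adjoin_le_iff]
      rintro _ ⟨t, ht, rfl⟩
      exact hom (hs t ht) (Algebra.subset_adjoin (by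
        simp only [Finset.coe_insert, Finset.coe_image]
        exact Or.inr ⟨t, ht, rfl⟩))
    exact this (hs' ▸ Algebra.mem_top)
  exact ⟨⟨_, eq_top_iff.mpr fun u _ => univ_mem D he (fun d x _ => hW x d) u⟩⟩

lemma IsDat.exists_hom {R : Type} [CommRing R] [Algebra k R] {ε : R} {z : ℤ → C →ₗ[k] R}
    (h : IsDat 𝒜 r y ε z) (hr : 0 < r) :
    ∃ ψ : C →ₐ[k] AdjoinRoot (X ^ r - Polynomial.C ε : R[X]), ∀ d, ∀ x ∈ 𝒜 d,
      ψ x = AdjoinRoot.root _ ^ res r d * AdjoinRoot.of _ (z d x) := by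
  let φ : ∀ d, 𝒜 d →ₗ[k] AdjoinRoot (X ^ r - Polynomial.C ε : R[X]) := fun d =>
    (AdjoinRoot.root (X ^ r - Polynomial.C ε : R[X]) ^ res r d) •
      ((AdjoinRoot.ofAlgHom k _).toLinearMap.comp ((z d).comp (𝒜 d).subtype))
  have hφ : ∀ d x, φ d x = AdjoinRoot.root _ ^ res r d * AdjoinRoot.of _ (z d x) := fun d x => rfl
  refine ⟨ga φ ?_ ?_, fun d x hx => ga_of_mem φ _ _ hx⟩
  · rw [hφ, res_zero, h.one]; simp
  · intro i j x x'
    rw [hφ, hφ, hφ, mul_mul_mul_comm, root_pow_res hr, h.mul i j x x.2 x' x'.2, map_mul, map_mul]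
    ring

/-- The lifting property of the universal algebra. -/
lemma exists_ulift_lift [Algebra.FormallySmooth k C] (hr : 0 < r) (hy : y ∈ 𝒜 r)
    (E : C →ₗ[k] C) (hE : ∀ a b, E (a * b) = a * E b + b * E a) (hEy : E y ∈ 𝒜 0)
    (R : Type) [CommRing R] [Algebra k R] (J : Ideal R) (hJ : J ^ 2 = ⊥) (ε : R)
    (φ : Univ 𝒜 r y →ₐ[k] R ⧸ J) (hφ : φ (ue 𝒜 r y) = Ideal.Quotient.mk J ε)
    (hu : IsUnit (φ (uz 𝒜 r y 0 (E y)))) :
    ∃ ρ : Univ 𝒜 r y →ₐ[k] R, ρ (ue 𝒜 r y) = ε ∧ ∀ u, Ideal.Quotient.mk J (ρ u) = φ u := by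
  rcases subsingleton_or_nontrivial (R ⧸ J) with hs | hs
  · have hB : Subsingleton R := by
      have h1 : IsUnit (0 : R) := isUnit_of_mk hJ (isUnit_of_subsingleton _)
      exact subsingleton_of_zero_eq_one (isUnit_zero_iff.mp h1)
    obtain ⟨ρ, hρ, -⟩ := exists_ulift (𝒜 := 𝒜) (r := r) (y := y) (ε := ε) (z := fun _ => 0)
      ⟨Subsingleton.elim _ _, Subsingleton.elim _ _, fun _ _ _ _ _ _ => Subsingleton.elim _ _⟩ hy
    exact ⟨ρ, hρ, fun u => Subsingleton.elim _ _⟩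
  have : Nontrivial R := (Ideal.Quotient.mk J).domain_nontrivial
  have hdat := (isDat_uz 𝒜 r y).map φ
  rw [hφ] at hdat
  obtain ⟨ψ0, hψ0⟩ := hdat.exists_hom hr
  have hm := monic_rt hr ε
  have hm' := monic_rt hr (Ideal.Quotient.mk J ε)
  have hdeg := natDegree_rt (r := r) ε
  have hdeg' := natDegree_rt (r := r) (Ideal.Quotient.mk J ε)
  have hmm : (X ^ r - Polynomial.C (Ideal.Quotient.mk J ε) : (R ⧸ J)[X]) =
      (X ^ r - Polynomial.C ε : R[X]).map (Ideal.Quotient.mk J) := by simp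
  have hd : (X ^ r - Polynomial.C (Ideal.Quotient.mk J ε) : (R ⧸ J)[X]) ∣
      (X ^ r - Polynomial.C ε : R[X]).map (Ideal.Quotient.mk J) := by rw [hmm]
  obtain ⟨ψ1, hψ1⟩ := exists_lift_adjoinRoot J hJ hm (by omega) hm' hmm hd ψ0
  set g := AdjoinRoot.map (Ideal.Quotient.mk J) _ _ hd with hg
  have hco : ∀ a w, co hm' a (g w) = Ideal.Quotient.mk J (co hm a w) := co_map hm _ hm' hmm hd
  have hsq : ∀ w w', g w = 0 → g w' = 0 → w * w' = 0 := fun w w' hw hw' =>
    mul_eq_zero_of_co hm (by omega) J hJ w w'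
      (fun c => by rw [← Ideal.Quotient.eq_zero_iff_mem, ← hco, hw, map_zero])
      (fun c => by rw [← Ideal.Quotient.eq_zero_iff_mem, ← hco, hw', map_zero])
  obtain ⟨ψ, hψy, hψ⟩ := exists_lift_fixing g (map_surjective _ Ideal.Quotient.mk_surjective _ hd)
    hsq E hE y ψ1 (by rw [hψ1, hψ0 _ _ hy, hdat.unit, res_self]; simp) (by
      rw [hψ1, hψ0 _ _ hEy, res_zero, pow_zero, one_mul]
      exact hu.map _)
  let z : ℤ → C →ₗ[k] R := fun d => ((co hm (res r d)).restrictScalars k).comp ψ.toLinearMap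
  have hz : ∀ d x, z d x = co hm (res r d) (ψ x) := fun d x => rfl
  have hroot : ∀ (d : ℤ) (b : R), co hm (res r d) (AdjoinRoot.root _ ^ res r d *
      AdjoinRoot.of _ b) = b := fun d b => by
    rw [mul_comm, co_of_mul, co_root_pow _ _ _ (by rw [hdeg]; exact res_lt hr d), if_pos rfl,
      mul_one]
  have hred : ∀ d, ∀ x ∈ 𝒜 d, Ideal.Quotient.mk J (z d x) = φ (uz 𝒜 r y d x) := by
    intro d x hx
    rw [hz, ← hco, hψ, hψ1, hψ0 d x hx, mul_comm, co_of_mul,
      co_root_pow _ _ _ (by rw [hdeg']; exact res_lt hr d), if_pos rfl, mul_one]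
    rfl
  have hone : co hm 0 1 = 1 := by rw [← map_one (AdjoinRoot.of _), co_of hm (by omega)]
  have hzd : IsDat 𝒜 r y ε z := by
    refine ⟨by rw [hz, res_zero, map_one, hone], by rw [hz, res_self, hψy, hone], ?_⟩
    intro a b x hx x' hx'
    have key : ∀ d, ∀ x ∈ 𝒜 d,
        g (ψ x - AdjoinRoot.root _ ^ res r d * AdjoinRoot.of _ (z d x)) = 0 := by
      intro d x hx
      rw [map_sub, hψ, hψ1, hψ0 d x hx, map_mul, map_pow, hg, AdjoinRoot.map_root,
        AdjoinRoot.map_of, hred d x hx]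
      exact sub_self _
    have h0 := hsq _ _ (key a x hx) (key b x' hx')
    have h1 : ψ (x * x') = AdjoinRoot.of _ (z a x) * (AdjoinRoot.root _ ^ res r a * ψ x') +
        AdjoinRoot.of _ (z b x') * (AdjoinRoot.root _ ^ res r b * ψ x) -
        AdjoinRoot.of _ (z a x) * (AdjoinRoot.root _ ^ res r a *
          (AdjoinRoot.root _ ^ res r b * AdjoinRoot.of _ (z b x'))) := by
      rw [map_mul]
      linear_combination h0
    have hcar : carry r b a = carry r a b := by rw [carry, carry, add_comm]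
    have h2 := co_root_mul hr ε b a (ψ x)
    rw [add_comm b a, hcar] at h2
    rw [hz, h1, map_sub, map_add, co_of_mul, co_of_mul, co_of_mul, co_root_mul hr, co_root_mul hr,
      h2, hroot, ← hz, ← hz]
    ring
  obtain ⟨ρ, hρ, hρ'⟩ := exists_ulift hzd hy
  refine ⟨ρ, hρ, fun u => ?_⟩
  have : (Ideal.Quotient.mkₐ k J).comp ρ = φ := univ_ext
    (by rw [AlgHom.comp_apply, hρ, hφ]; rfl)
    (fun d x hx => by rw [AlgHom.comp_apply, hρ' d x hx, ← hred d x hx]; rfl)
  exact DFunLike.congr_fun this u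

lemma IsDat.zpow {R : Type} [CommRing R] [Algebra k R] {ε : R} {z : ℤ → C →ₗ[k] R} {y : Cˣ}
    (h : IsDat 𝒜 r (y : C) ε z) (hr : 0 < r) (hy : (y : C) ∈ 𝒜 r)
    (hy' : ((y⁻¹ : Cˣ) : C) ∈ 𝒜 (-r)) : z (-r) (y⁻¹ : Cˣ) = 1 := by
  have := h.mul r (-r) _ hy _ hy'
  rw [carry_of_res_eq_zero hr _ _ res_neg_self, add_neg_cancel, Units.mul_inv, h.one, h.unit]
    at this
  simpa using this.symm

lemma isDat_nrm (hr : 0 < r) {y : Cˣ} : IsDat 𝒜 r (y : C) ((y⁻¹ : Cˣ) : C)
    fun d => ((y ^ (-(d / r)) : Cˣ) : C) • LinearMap.id where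
  one := by simp
  unit := by simp [Int.ediv_self (show (r : ℤ) ≠ 0 by omega)]
  mul a b x _ x' _ := by
    simp only [LinearMap.smul_apply, LinearMap.id_apply, smul_eq_mul]
    rw [div_add hr, neg_add, neg_add, zpow_add, zpow_add, Units.val_mul, Units.val_mul,
      zpow_neg y (carry r a b : ℤ), zpow_natCast, ← inv_pow, Units.val_pow_eq_pow_val]
    ring

/-- The universal algebra maps onto the truncation, with kernel the torsion. -/
lemma exists_proj (hr : 0 < r) {y : Cˣ} (hy : (y : C) ∈ 𝒜 r) (hy' : ((y⁻¹ : Cˣ) : C) ∈ 𝒜 (-r)) :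
    ∃ π : Univ 𝒜 r (y : C) →ₐ[k] trunc 𝒜 r, Function.Surjective π ∧
      (∀ x ∈ 𝒜 0, (π (uz 𝒜 r y 0 x) : C) = x) ∧
      ∀ u, π u = 0 → ∃ n : ℕ, ue 𝒜 r y ^ n * u = 0 := by
  obtain ⟨π, hπe, hπ⟩ := exists_ulift (isDat_nrm (𝒜 := 𝒜) hr (y := y)) hy
  simp only [LinearMap.smul_apply, LinearMap.id_apply, smul_eq_mul] at hπ
  have hinv : ((y⁻¹ : Cˣ) : C) ∈ trunc 𝒜 r := mem_trunc (by omega) hy'
  have hmem : ∀ u, π u ∈ trunc 𝒜 r := univ_mem ((trunc 𝒜 r).comap π) (by
      rw [Subalgebra.mem_comap, hπe]; exact hinv) (fun d x hx => by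
      rw [Subalgebra.mem_comap, hπ d x hx, mul_comm]
      exact mem_trunc (by exact_mod_cast res_lt hr _) (nrm_mem hr hy hy' hx))
  refine ⟨π.codRestrict _ hmem, ?_, ?_, ?_⟩
  · rintro ⟨c, hc⟩
    have : trunc 𝒜 r ≤ π.range := by
      rw [trunc, Algebra.adjoin_le_iff]
      rintro x ⟨d, hd, hx⟩
      have h1 : d / r ≤ 0 := by
        have := Int.ediv_lt_of_lt_mul (show (0 : ℤ) < r by omega) (show d < 1 * r by omega)
        omega
      refine ⟨ue 𝒜 r y ^ (-(d / r)).toNat * uz 𝒜 r y d x, ?_⟩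
      change π _ = x
      rw [map_mul, map_pow, hπe, hπ d x hx, ← Units.val_pow_eq_pow_val, ← mul_assoc,
        ← Units.val_mul, inv_pow, ← zpow_natCast, Int.toNat_of_nonneg (by omega), inv_mul_cancel]
      simp
    obtain ⟨u, hu⟩ := this hc
    exact ⟨u, Subtype.ext hu⟩
  · intro x hx
    change π _ = x
    rw [hπ 0 x hx]
    simp
  · intro u hu
    have hu' : π u = 0 := congrArg Subtype.val hu
    let A := IsScalarTower.toAlgHom k (Univ 𝒜 r (y : C)) (Localization.Away (ue 𝒜 r (y : C)))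
    obtain ⟨v, hv⟩ : IsUnit (A (ue 𝒜 r y)) := IsLocalization.Away.algebraMap_isUnit _
    have hdat := (isDat_uz 𝒜 r (y : C)).map A
    let φ : ∀ d, 𝒜 d →ₗ[k] Localization.Away (ue 𝒜 r (y : C)) := fun d =>
      ((v ^ (-(d / r)) : (Localization.Away (ue 𝒜 r (y : C)))ˣ) :
        Localization.Away (ue 𝒜 r (y : C))) •
        (A.toLinearMap.comp ((uz 𝒜 r y d).comp (𝒜 d).subtype))
    have hφ : ∀ d x, φ d x = ((v ^ (-(d / r)) : (Localization.Away (ue 𝒜 r (y : C)))ˣ) :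
        Localization.Away (ue 𝒜 r (y : C))) * A (uz 𝒜 r y d x) := fun d x => rfl
    let σ := ga φ (by rw [hφ, (isDat_uz 𝒜 r (y : C)).one]; simp) (by
      intro i j x x'
      rw [hφ, hφ, hφ, (isDat_uz 𝒜 r (y : C)).mul i j x x.2 x' x'.2, map_mul, map_mul, map_pow,
        ← hv, div_add hr, neg_add, neg_add, zpow_add, zpow_add, Units.val_mul, Units.val_mul,
        ← Units.val_pow_eq_pow_val, ← zpow_natCast]
      have : ((v ^ (-(carry r i j : ℤ)) : (Localization.Away (ue 𝒜 r (y : C)))ˣ) :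
          Localization.Away (ue 𝒜 r (y : C))) * (v ^ (carry r i j : ℤ) : _ˣ) = 1 := by
        rw [← Units.val_mul, ← zpow_add, neg_add_cancel, zpow_zero, Units.val_one]
      linear_combination (((v ^ (-(i / r)) : _ˣ) : Localization.Away (ue 𝒜 r (y : C))) *
        (v ^ (-(j / r)) : _ˣ) * A (uz 𝒜 r y i x) * A (uz 𝒜 r y j x')) * this)
    have hσ : ∀ d, ∀ x ∈ 𝒜 d, σ x = ((v ^ (-(d / r)) : (Localization.Away (ue 𝒜 r (y : C)))ˣ) :
        Localization.Away (ue 𝒜 r (y : C))) * A (uz 𝒜 r y d x) := fun d x hx =>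
      ga_of_mem φ _ _ hx
    have hσy : Units.map (σ : C →* _) y = v⁻¹ := by
      refine Units.ext ?_
      change σ y = _
      rw [hσ _ _ hy, (isDat_uz 𝒜 r (y : C)).unit, Int.ediv_self (show (r : ℤ) ≠ 0 by omega)]
      simp
    have hσz : ∀ n : ℤ, σ (y ^ n : Cˣ) = (v ^ (-n) : _ˣ) := fun n => by
      rw [zpow_neg, ← inv_zpow, ← hσy, ← map_zpow]
      rfl
    have hcomp : σ.comp π = A := univ_ext (by
        rw [AlgHom.comp_apply, hπe, ← hv, ← zpow_neg_one, hσz]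
        simp) (fun d x hx => by
        rw [AlgHom.comp_apply, hπ d x hx, map_mul, hσz, hσ d x hx, ← mul_assoc, ← Units.val_mul,
          ← zpow_add, neg_add_cancel, zpow_zero, Units.val_one, one_mul])
    have h0 : algebraMap _ (Localization.Away (ue 𝒜 r (y : C))) u = 0 := by
      change A u = 0
      rw [← hcomp, AlgHom.comp_apply, hu', map_zero]
    obtain ⟨⟨_, m, rfl⟩, hm⟩ :=
      (IsLocalization.map_eq_zero_iff (Submonoid.powers (ue 𝒜 r (y : C))) _ _).mp h0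
    exact ⟨m, hm⟩

/-- The truncation of a smooth graded algebra at the degree of a homogeneous unit is smooth. -/
theorem smooth_trunc [Algebra.Smooth k C] (hr : 0 < r) {y : Cˣ} (hy : (y : C) ∈ 𝒜 r)
    (hy' : ((y⁻¹ : Cˣ) : C) ∈ 𝒜 (-r)) : Algebra.Smooth k (trunc 𝒜 r) := by
  obtain ⟨π, hπ, hπ0, hker⟩ := exists_proj hr hy hy'
  have := finiteType_univ (𝒜 := 𝒜) (r := r) (y := (y : C))
  have : Algebra.FiniteType k (trunc 𝒜 r) := Algebra.FiniteType.of_surjective π hπ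
  refine smooth_of_forall_prime fun p hp => ?_
  by_cases hfix : ∀ d : ℤ, 0 < d → d < r → ∀ x ∈ 𝒜 d, ∀ x' ∈ 𝒜 (-d),
      ∀ h : x * x' ∈ trunc 𝒜 r, (⟨x * x', h⟩ : trunc 𝒜 r) ∈ p
  · obtain ⟨E, h, hE, hEy, hh0, hhp⟩ := exists_derivation hr hy hy' p hp.ne_top hfix
    obtain ⟨h1, h2⟩ := smooth_regular_of_lift (ue 𝒜 r (y : C)) (uz 𝒜 r (y : C) 0 (E y))
      (exists_ulift_lift hr hy E hE (hEy ▸ hh0))
    have hπh : π (uz 𝒜 r (y : C) 0 (E y)) = h := Subtype.ext (by rw [hπ0 _ (hEy ▸ hh0), hEy])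
    refine ⟨h, hhp, ?_⟩
    rw [← hπh]
    refine (formallySmooth_away_iff π _ (fun a ha => ?_) fun c => ?_).mp h1
    · obtain ⟨n, hn⟩ := hker a ha
      exact h2 a n hn
    · obtain ⟨b, hb⟩ := hπ c
      exact ⟨b, 0, by simp [hb]⟩
  · push Not at hfix
    obtain ⟨d, hd, hdr, x, hx, x', hx', h, hp'⟩ := hfix
    refine ⟨_, hp', (formallySmooth_away_iff (trunc 𝒜 r).val _ (fun a ha => ⟨0, ?_⟩)
      fun c => ?_).mpr inferInstance⟩
    · have : a = 0 := Subtype.ext ha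
      simp [this]
    · induction c using graded_ind 𝒜 with
      | h0 => exact ⟨0, 0, by simp⟩
      | ha c c' hc hc' =>
        obtain ⟨b, m, hb⟩ := hc
        obtain ⟨b', m', hb'⟩ := hc'
        refine ⟨⟨x * x', h⟩ ^ m' * b + ⟨x * x', h⟩ ^ m * b', m + m', ?_⟩
        rw [map_add, map_mul, map_mul, hb, hb', map_pow, map_pow]
        ring
      | hh e c hc =>
        have h1 : c * x' ^ e.toNat ∈ trunc 𝒜 r := by
          refine mem_trunc ?_ (SetLike.mul_mem_graded hc (SetLike.pow_mem_graded e.toNat hx'))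
          have : (e.toNat : ℤ) * 1 ≤ e.toNat * d := by gcongr; omega
          rw [nsmul_eq_mul]
          have := Int.self_le_toNat e
          linarith
        refine ⟨⟨c * x' ^ e.toNat, h1⟩ * ⟨x, mem_trunc hdr hx⟩ ^ e.toNat, e.toNat, ?_⟩
        simp only [Subalgebra.coe_val, MulMemClass.coe_mul, SubmonoidClass.coe_pow]
        ring

end Pool.Agent.MP_19ffc6_ag.Lin

end MrgPart0

-- ======== part 1: formerly Pool.Agent.MP_19ffc6_ag.Lin.Chain
section MrgPart1

/-!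
Removing the torus: an atlas of smooth charts gives a resolution of singularities.
-/

set_option autoImplicit false
set_option linter.unusedSectionVars false
set_option linter.style.haveILetI false

open AddMonoidAlgebra

namespace Pool.Agent.MP_19ffc6_ag.Lin

lemma smooth_zero {k C T : Type} [Field k] [CommRing C] [Algebra k C] [CommRing T] [Algebra k T]
    (𝒜 : ℤ → Submodule k C) [GradedAlgebra 𝒜] [Algebra.Smooth k C] {y : Cˣ} (hy : (y : C) ∈ 𝒜 1)
    (hy' : ((y⁻¹ : Cˣ) : C) ∈ 𝒜 (-1)) (ι : T →ₐ[k] C) (hι : Function.Injective ι)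
    (h0 : ∀ t, ι t ∈ 𝒜 0) (h1 : ∀ c ∈ 𝒜 0, ∃ t, ι t = c) : Algebra.Smooth k T := by
  let φ : ∀ d, 𝒜 d →ₗ[k] C := fun d => ((y ^ (-d) : Cˣ) : C) • (𝒜 d).subtype
  have hφ : ∀ d x, φ d x = (y ^ (-d) : Cˣ) * x := fun d x => rfl
  let ρ : C →ₐ[k] C := ga φ (by simp [hφ]) fun i j x x' => by
    rw [hφ, hφ, hφ, neg_add, zpow_add, Units.val_mul]; ring
  have hρ : ∀ d, ∀ x ∈ 𝒜 d, ρ x = (y ^ (-d) : Cˣ) * x := fun d x hx => ga_of_mem φ _ _ hx
  have hmem : ∀ c, ρ c ∈ ι.range := by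
    intro c
    induction c using graded_ind 𝒜 with
    | h0 => simp
    | ha x x' h h' => rw [map_add]; exact add_mem h h'
    | hh d x hx =>
      refine h1 _ ?_
      rw [hρ d x hx]
      simpa using SetLike.mul_mem_graded (zpow_mem hy hy' (-d)) hx
  let π : C →ₐ[k] T := (AlgEquiv.ofInjective ι hι).symm.toAlgHom.comp (ρ.codRestrict _ hmem)
  have hπ : ∀ t, π (ι t) = t := fun t => by
    change (AlgEquiv.ofInjective ι hι).symm _ = t
    rw [AlgEquiv.symm_apply_eq]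
    refine Subtype.ext ?_
    change ρ (ι t) = ι t
    rw [hρ 0 _ (h0 t)]
    simp
  have : Algebra.FiniteType k T := Algebra.FiniteType.of_surjective π fun t => ⟨_, hπ t⟩
  exact ⟨formallySmooth_of_retract ι π hπ, Algebra.FinitePresentation.of_finiteType.mp this⟩

lemma exists_finite_adjoin {k E α : Type} [CommRing k] [CommRing E] [Algebra k E] (g : α → E)
    (S : Set α) (h : (Algebra.adjoin k (g '' S)).FG) :
    ∃ T ⊆ S, T.Finite ∧ Algebra.adjoin k (g '' T) = Algebra.adjoin k (g '' S) := by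
  have key : ∀ x ∈ Algebra.adjoin k (g '' S), ∃ T ⊆ S, T.Finite ∧
      x ∈ Algebra.adjoin k (g '' T) := by
    intro x hx
    induction hx using Algebra.adjoin_induction with
    | mem x hx =>
      obtain ⟨a, ha, rfl⟩ := hx
      exact ⟨{a}, by simpa using ha, Set.finite_singleton a, Algebra.subset_adjoin (by simp)⟩
    | algebraMap r => exact ⟨∅, by simp, Set.finite_empty, Subalgebra.algebraMap_mem _ r⟩
    | add x y _ _ hx hy =>
      obtain ⟨T, h1, h2, h3⟩ := hx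
      obtain ⟨T', h1', h2', h3'⟩ := hy
      exact ⟨T ∪ T', Set.union_subset h1 h1', h2.union h2', add_mem
        (Algebra.adjoin_mono (Set.image_mono Set.subset_union_left) h3)
        (Algebra.adjoin_mono (Set.image_mono Set.subset_union_right) h3')⟩
    | mul x y _ _ hx hy =>
      obtain ⟨T, h1, h2, h3⟩ := hx
      obtain ⟨T', h1', h2', h3'⟩ := hy
      exact ⟨T ∪ T', Set.union_subset h1 h1', h2.union h2', mul_mem
        (Algebra.adjoin_mono (Set.image_mono Set.subset_union_left) h3)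
        (Algebra.adjoin_mono (Set.image_mono Set.subset_union_right) h3')⟩
  obtain ⟨t, ht⟩ := h
  choose T hT hT' hT'' using fun x : t => key x (ht ▸ Algebra.subset_adjoin x.2)
  refine ⟨⋃ x, T x, Set.iUnion_subset hT, Set.finite_iUnion hT', le_antisymm
    (Algebra.adjoin_mono (Set.image_mono (Set.iUnion_subset hT))) ?_⟩
  rw [← ht, Algebra.adjoin_le_iff]
  exact fun x hx => Algebra.adjoin_mono (Set.image_mono (Set.subset_iUnion T ⟨x, hx⟩))
    (hT'' ⟨x, hx⟩)

variable {k L Ω : Type} [Field k] [Field L] [Algebra k L] [Field Ω] [Algebra L Ω]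
  {K : Subfield L} {A : Subalgebra k L}

/-- All coefficients of elements of `C` lie in `K`. -/
def Coef (K : Subfield L) (C : Subalgebra k (Amb L)) : Prop := ∀ μ a, single μ a ∈ C → a ∈ K

lemma Coef.loc {C : Subalgebra k (Amb L)} (h : Coef K C) {ν : Lat} {b : L} (hb : single ν b ∈ C)
    (hb0 : b ≠ 0) : Coef K (loc C ν b) := fun μ a ha => by
  obtain ⟨n, hn⟩ := (mon_mem_loc hb hb0).mp ha
  have := mul_mem (inv_mem (pow_mem (h _ _ hb) n)) (h _ _ hn)
  rwa [inv_mul_cancel_left₀ (pow_ne_zero n hb0)] at this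

/-- The truncation of a chart along the coordinate `m`. -/
noncomputable def tr (C : Subalgebra k (Amb L)) (m r : ℕ) : Subalgebra k (Amb L) :=
  Algebra.adjoin k ((fun x : Lat × L => single x.1 x.2) ''
    {x | single x.1 x.2 ∈ C ∧ x.1 m < r})

section Tr

variable {C : Subalgebra k (Amb L)} {m r : ℕ}

lemma mon_mem_tr {μ : Lat} {a : L} (h : single μ a ∈ C) (h' : μ m < r) : single μ a ∈ tr C m r :=
  Algebra.subset_adjoin ⟨(μ, a), ⟨h, h'⟩, rfl⟩

lemma tr_le {D : Subalgebra k (Amb L)}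
    (h : ∀ μ a, single μ a ∈ C → μ m < r → single μ a ∈ D) : tr C m r ≤ D :=
  Algebra.adjoin_le (by rintro _ ⟨x, hx, rfl⟩; exact h _ _ hx.1 hx.2)

lemma tr_le_self : tr C m r ≤ C := tr_le fun _ _ h _ => h

lemma isHom_tr : IsHom (tr C m r) := isHom_adjoin (by rintro _ ⟨x, -, rfl⟩; exact ⟨_, _, rfl⟩)

lemma smooth_tr (hC : IsHom C) [Algebra.Smooth k C] {μ : Lat} {a : L} (hu : IsU C μ a)
    (h0 : 0 < μ m) (h1 : μ m ≤ r) : Algebra.Smooth k (tr C m r) := by
  rcases h1.eq_or_lt with h1 | h1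
  · let ℓ : Lat →+ ℤ := Finsupp.applyAddHom m
    letI := subGraded (grd k L ℓ) C (hC.decompose_mem ℓ)
    have hs : Algebra.Smooth k (trunc (subGr (grd k L ℓ) C) r) :=
      smooth_trunc (y := hu.unit) (by omega) (h1 ▸ single_mem_grd (k := k) ℓ μ a)
        (by rw [← h1]; exact (map_neg ℓ μ) ▸ single_mem_grd (k := k) ℓ (-μ) a⁻¹)
    have he : (trunc (subGr (grd k L ℓ) C) r).map C.val = tr C m r := by
      apply le_antisymm
      · rw [trunc, AlgHom.map_adjoin, Algebra.adjoin_le_iff]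
        rintro _ ⟨c, ⟨d, hd, hc⟩, rfl⟩
        exact mem_of_mono fun ν hν => mon_mem_tr (hC _ c.2 ν) ((hc ν hν).trans_lt hd)
      · exact tr_le fun ν b hb hν => ⟨⟨_, hb⟩, mem_trunc hν (single_mem_grd (k := k) ℓ ν b), rfl⟩
    rw [← he]
    exact Algebra.Smooth.of_equiv (A := trunc (subGr (grd k L ℓ) C) r)
      ((trunc (subGr (grd k L ℓ) C) r).equivMapOfInjective C.val Subtype.val_injective)
  · have he : tr C m r = C := by
      refine le_antisymm tr_le_self (hC.le fun ν b hb => ?_)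
      have h2 : (ν + (ν m).toNat • -μ) m < r := by
        rw [Finsupp.add_apply, Finsupp.smul_apply, Finsupp.neg_apply, nsmul_eq_mul]
        have := Int.self_le_toNat (ν m)
        have : ((ν m).toNat : ℤ) * 1 ≤ (ν m).toNat * μ m := by gcongr; omega
        linarith
      exact mon_congr (mon_mul (mon_mem_tr (mon_mul hb (mon_pow hu.inv (ν m).toNat)) h2)
        (mon_pow (mon_mem_tr hu.mem h1) (ν m).toNat)) (by simp)
        (by rw [inv_pow, inv_mul_cancel_right₀ (pow_ne_zero _ hu.ne)])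
    rw [he]
    infer_instance

end Tr

variable (Ω K A) in
/-- A finite atlas of smooth charts defined over `K` with an extra property of the charts. -/
def SmAtlas (m : ℕ) (P : Subalgebra k (Amb L) → Prop) : Prop :=
  ∃ (ι : Type) (_ : Finite ι) (C : ι → Subalgebra k (Amb L)) (f : ι → L),
    IsAtlas Ω K A m C f ∧ ∀ j, Algebra.Smooth k (C j) ∧ Coef K (C j) ∧ P (C j)

/-- The order of the stabilisers in the last factor of the torus is bounded by `r`. -/
def Bd (m r : ℕ) (C : Subalgebra k (Amb L)) : Prop := ∃ μ a, IsU C μ a ∧ 0 < μ m ∧ μ m ≤ r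

lemma comp_of_le {C D : Subalgebra k (Amb L)} {x : L} (hx : single 0 x ∈ D)
    (h : C ≤ satur D _ hx) {μ : Lat} {a : L} (ha : single μ a ∈ C) :
    ∃ N : ℕ, single μ (x ^ N * a) ∈ D := by
  obtain ⟨n, hn⟩ := h ha
  rw [single_pow, single_mul_single, smul_zero, zero_add] at hn
  exact ⟨n, hn⟩

lemma mon_mem_satur {D : Subalgebra k (Amb L)} {x : L} (hx : single 0 x ∈ D) {μ : Lat} {a : L}
    (h : ∃ N : ℕ, single μ (x ^ N * a) ∈ D) : single μ a ∈ satur D _ hx := by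
  obtain ⟨n, hn⟩ := h
  exact ⟨n, by rwa [single_pow, single_mul_single, smul_zero, zero_add]⟩

lemma chain_step [IsAlgClosed Ω] {m r : ℕ} (hr : 0 < r)
    (H : SmAtlas Ω K A (m + 1) (Bd m (r + 1))) : SmAtlas Ω K A (m + 1) (Bd m r) := by
  obtain ⟨ι, _, C, f, H, hC⟩ := H
  have hsm : ∀ j, Algebra.Smooth k (tr (C j) m (r + 1)) := fun j => by
    obtain ⟨h1, -, μ, a, hu, h2, h3⟩ := hC j
    exact smooth_tr (H.hom j) hu h2 h3
  choose T hT hTf hTa using fun j => exists_finite_adjoin (k := k)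
    (fun x : Lat × L => (single x.1 x.2 : Amb L))
    {x | single x.1 x.2 ∈ C j ∧ x.1 m < (r + 1 : ℕ)}
    ((Subalgebra.fg_iff_finiteType (tr (C j) m (r + 1))).mpr inferInstance)
  let κ : ι → Type := fun j => Option {x : T j // 0 < x.1.1 m ∧ x.1.2 ≠ 0}
  have : ∀ j, Finite (T j) := fun j => (hTf j).to_subtype
  let ν : ∀ j, κ j → Lat := fun j o => o.elim (ee m) fun x => x.1.1.1
  let b : ∀ j, κ j → L := fun j o => o.elim 1 fun x => x.1.1.2
  have hee : ∀ i, (ee i : Lat) m < (r + 1 : ℕ) := fun i => by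
    rw [Finsupp.single_apply]; split_ifs <;> omega
  have h00 : (0 : Lat) m < (r + 1 : ℕ) := by simp
  have hγC : ∀ j a, single (ν j a) (b j a) ∈ C j := by
    rintro j (_ | x)
    exacts [H.full j m (by omega), (hT j x.1.2).1]
  have hν : ∀ j a, 0 < ν j a m ∧ ν j a m < (r + 1 : ℕ) := by
    rintro j (_ | x)
    exacts [⟨by simp [ν], hee m⟩, ⟨x.2.1, (hT j x.1.2).2⟩]
  have hb0 : ∀ j a, b j a ≠ 0 := by
    rintro j (_ | x)
    exacts [one_ne_zero, x.2.2]
  have hγ : ∀ j a, single (ν j a) (b j a) ∈ tr (C j) m (r + 1) := fun j a =>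
    mon_mem_tr (hγC j a) (hν j a).2
  have hratio : ∀ i j, single 0 (f i / f j) ∈ tr (C j) m (r + 1) := fun i j =>
    mon_mem_tr (H.ratio i j) h00
  obtain ⟨f', hf'⟩ := refine (Ω := Ω) (A := A) H.f_mem H.f_ne (m := m + 1)
    (fun j => tr (C j) m (r + 1)) (fun j => isHom_tr)
    (fun j μ a ha h => H.supp j μ a ha (tr_le_self h)) hratio
    (fun i j μ a h => comp_of_le (hratio i j) (tr_le fun μ a h h' => mon_mem_satur _ (by
      obtain ⟨N, hN⟩ := H.comp i j μ a h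
      exact ⟨N, mon_mem_tr hN h'⟩)) h)
    (fun j a ha => mon_mem_tr (H.base j a ha) h00)
    (fun j i hi => mon_mem_tr (H.full j i hi) (hee i)) ν b hγ
    (fun j a => (hC j).2.1 _ _ (hγC j a)) hb0 (c := m) (by omega) (σ := 1) rfl
    (fun j a => by simpa using (hν j a).1)
    (fun j μ hμ h0 => by
      obtain ⟨n, hn, u, hu, hU⟩ := fin_of_basis (H.fin j) hμ
      exact ⟨n, hn, u, hu, hU.ne, mon_mem_tr hU.mem (by simp [h0]),
        mon_mem_tr hU.inv (by simp [h0])⟩)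
    (fun O hO => by
      obtain ⟨j, θ, hθ⟩ := H.proper O hO
      obtain ⟨ε, hε, hε0, h1, a, ha⟩ := exists_root O
        (fun a : κ j => algebraMap L Ω (b j a) * θ (ν j a)) (fun a => hθ _ _ (hγC j a))
        (fun a => mul_ne_zero ((map_ne_zero _).mpr (hb0 j a)) (char_ne_zero θ _))
        (fun a => (ν j a m).toNat) fun a => by have := (hν j a).1; omega
      have hval : ∀ a, algebraMap L Ω (b j a) * twist θ m ε⁻¹ (inv_ne_zero hε0) (ν j a) =
          algebraMap L Ω (b j a) * θ (ν j a) / ε ^ (ν j a m).toNat := fun a => by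
        rw [twist_apply, ← zpow_natCast, Int.toNat_of_nonneg (hν j a).1.le, inv_zpow,
          div_eq_mul_inv, mul_assoc]
      refine ⟨j, a, twist θ m ε⁻¹ (inv_ne_zero hε0), Ctr.loc (ctr_of_le (hk := hθ.hk) ?_)
        isHom_tr ?_⟩
      · rw [tr, ← hTa j, Algebra.adjoin_le_iff]
        rintro _ ⟨x, hx, rfl⟩
        rw [SetLike.mem_coe, mon_mem_valAlg]
        by_cases h2 : x.2 = 0
        · simp [h2]
        by_cases h3 : 0 < x.1 m
        · exact hval (some ⟨⟨x, hx⟩, h3, h2⟩) ▸ h1 (some ⟨⟨x, hx⟩, h3, h2⟩)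
        · rw [twist_apply, ← mul_assoc, inv_zpow', ← Int.toNat_of_nonneg
            (show 0 ≤ -x.1 m by omega), zpow_natCast]
          exact mul_mem (hθ _ _ (hT j hx).1) (pow_mem hε _)
      · rw [hval, ha, div_self (ha ▸ pow_ne_zero _ hε0), inv_one]
        exact one_mem _)
  refine ⟨_, inferInstance, _, f', hf', fun x => ⟨(isAway_loc (hγ _ _) (hb0 _ _)).smooth,
    Coef.loc (fun μ a h => (hC _).2.1 μ a (tr_le_self h)) (hγ _ _) (hb0 _ _),
    _, _, isU_loc (hγ _ _) (hb0 _ _), (hν _ _).1, ?_⟩⟩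
  have := (hν x.1 x.2).2
  omega

lemma isHom_suppAlg {m : ℕ} : IsHom (suppAlg k L m) := fun c hc μ => by
  by_cases h : c.coeff μ = 0
  · rw [h]; exact mon_zero
  · exact mon_mem_suppAlg (hc μ (Finsupp.mem_support_iff.mpr h))

lemma chain_drop {m : ℕ} (H : SmAtlas Ω K A (m + 1) (Bd m 1)) :
    SmAtlas Ω K A m fun _ => True := by
  obtain ⟨ι, _, C, f, H, hC⟩ := H
  refine ⟨ι, inferInstance, fun j => C j ⊓ suppAlg k L m, f,
    ⟨fun j => (H.hom j).inf isHom_suppAlg, fun j => supp_of_le inf_le_right, H.f_mem, H.f_ne,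
      fun i j => ⟨H.ratio i j, mon_mem_suppAlg InL.zero⟩, fun i j μ a h => ?_,
      fun j a ha => ⟨H.base j a ha, mon_mem_suppAlg InL.zero⟩, fun j i hi => ?_,
      fun j i hi => ⟨H.full j i (by omega), mon_mem_suppAlg (InL.basis hi)⟩, fun O hO => ?_⟩,
    fun j => ⟨?_, fun μ a h => (hC j).2.1 μ a h.1, trivial⟩⟩
  · by_cases ha : a = 0
    · exact ⟨0, by rw [ha, mul_zero]; exact mon_zero⟩
    obtain ⟨N, hN⟩ := H.comp i j μ a h.1
    exact ⟨N, hN, mon_mem_suppAlg (supp_of_le le_rfl μ a ha h.2)⟩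
  · obtain ⟨n, hn, u, hu, hU⟩ := H.fin j i (by omega)
    exact ⟨n, hn, u, hu, hU.ne, ⟨hU.mem, mon_mem_suppAlg ((InL.basis hi).nsmul n)⟩,
      ⟨hU.inv, mon_mem_suppAlg ((InL.basis hi).nsmul n).neg⟩⟩
  · obtain ⟨j, θ, hθ⟩ := H.proper O hO
    exact ⟨j, θ, fun μ a h => hθ μ a h.1⟩
  · obtain ⟨h1, -, μ, a, hu, h2, h3⟩ := hC j
    have h4 : μ m = 1 := by omega
    let ℓ : Lat →+ ℤ := Finsupp.applyAddHom m
    letI := subGraded (grd k L ℓ) (C j) ((H.hom j).decompose_mem ℓ)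
    refine smooth_zero (subGr (grd k L ℓ) (C j)) (y := hu.unit)
      (h4 ▸ single_mem_grd (k := k) ℓ μ a)
      (by rw [← h4]; exact (map_neg ℓ μ) ▸ single_mem_grd (k := k) ℓ (-μ) a⁻¹)
      (Subalgebra.inclusion inf_le_left) (Subalgebra.inclusion_injective _)
      (fun t ν hν => t.2.2 ν hν m le_rfl) fun c hc => ⟨⟨c, c.2, fun ν hν => ?_⟩, rfl⟩
    exact (((H.supp j).le (H.hom j)) c.2 ν hν).of_succ (hc ν hν)

lemma chain_zero [IsAlgClosed Ω] {m : ℕ} (H : SmAtlas Ω K A m fun _ => True) :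
    SmAtlas Ω K A 0 fun _ => True := by
  induction m with
  | zero => exact H
  | succ m ih =>
    refine ih (chain_drop ?_)
    have h1 : ∃ r, SmAtlas Ω K A (m + 1) (Bd m (r + 1)) := by
      obtain ⟨ι, _, C, f, H, hC⟩ := H
      obtain ⟨n, hn, h⟩ := exists_unif_unit C (fun _ => ee m) fun j => H.fin j m (by omega)
      refine ⟨n, ι, inferInstance, C, f, H, fun j => ⟨(hC j).1, (hC j).2.1, ?_⟩⟩
      obtain ⟨u, -, hU⟩ := h j
      exact ⟨_, u, hU, by simpa using hn, by simp⟩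
    obtain ⟨r, hr⟩ := h1
    induction r with
    | zero => exact hr
    | succ r ihr => exact ihr (chain_step (by omega) hr)

/-- An atlas of smooth charts over the fraction field of the base gives a resolution. -/
theorem hasRes_of_atlas [IsAlgClosed Ω] [Algebra k Ω] [IsScalarTower k L Ω] {A₀ : Type}
    [CommRing A₀] [Algebra k A₀] (α : A₀ →ₐ[k] L) (hα : Function.Injective α)
    (frac : ∀ x ∈ K, ∃ a, a ≠ 0 ∧ α a * x ∈ α.range) {m : ℕ}
    (H : SmAtlas Ω K α.range m fun _ => True) : HasRes k A₀ := by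
  obtain ⟨ι, _, C, f, H, hC⟩ := chain_zero H
  let ω := IsScalarTower.toAlgHom k L Ω
  have hω : Function.Injective ω := (algebraMap L Ω).injective
  refine hasRes_of_charts (ω.comp α) (hω.comp hα) (fun j => (deg0 (C j)).map ω)
    (fun j => ω (f j)) (fun j => (map_ne_zero _).mpr (H.f_ne j))
    (fun j a => ⟨α a, H.base j _ ⟨a, rfl⟩, rfl⟩)
    (fun i j => ⟨f i / f j, H.ratio i j, map_div₀ _ _ _⟩) ?_ (fun j => ?_) (fun O hO => ?_) ?_
  · rintro i j _ ⟨c, hc, rfl⟩
    obtain ⟨N, hN⟩ := H.comp i j 0 c hc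
    exact ⟨N, _, hN, by simp⟩
  · have := (hC j).1
    let φ : deg0 (C j) →ₐ[k] C j :=
      (singleZeroAlgHom.comp (deg0 (C j)).val).codRestrict _ fun x => x.2
    have hφ : Function.Bijective φ := by
      constructor
      · intro x y h
        exact Subtype.ext (single_right_injective (congrArg Subtype.val h))
      · intro c
        have h1 : (c : Amb L) = single 0 ((c : Amb L).coeff 0) := by
          rw [← coeff_inj, coeff_single]
          refine (Finsupp.support_subset_singleton.mp fun μ hμ => ?_)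
          refine Finset.mem_singleton.mpr (Finsupp.ext fun i => ?_)
          exact ((H.supp j).le (H.hom j)) c.2 μ hμ i (Nat.zero_le i)
        exact ⟨⟨(c : Amb L).coeff 0, H.hom j _ c.2 0⟩, Subtype.ext h1.symm⟩
    exact Algebra.Smooth.of_equiv ((AlgEquiv.ofBijective φ hφ).symm.trans
      (Subalgebra.equivMapOfInjective _ ω hω))
  · obtain ⟨j, θ, hθ⟩ := H.proper O (by rintro _ ⟨a, rfl⟩; exact hO a)
    refine ⟨j, ?_⟩
    rintro _ ⟨c, hc, rfl⟩
    simpa [ω] using hθ 0 c hc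
  · rintro j _ ⟨c, hc, rfl⟩
    obtain ⟨a, ha, a', ha'⟩ := frac c ((hC j).2.1 0 c hc)
    exact ⟨a, ha, a', by
      change ω (α.toRingHom a') = ω (α a) * ω c
      rw [ha', map_mul]⟩

end Pool.Agent.MP_19ffc6_ag.Lin

end MrgPart1

-- marker of a merged file
example : 731051 + 472358 = 731051 + 472358 := rfl
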