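import Pool.Agent.MP_19ffc6_ag.Lin.Refine

/-!
Principalisation of monomial ideals by weighted blow-ups of the coordinate divisors.
-/

set_option autoImplicit false
set_option linter.unusedSectionVars false
set_option linter.style.haveILetI false

open AddMonoidAlgebra

namespace Pool.Agent.MP_19ffc6_ag.Lin

variable {k L Ω : Type} [Field k] [Field L] [Algebra k L] [Field Ω] [Algebra L Ω]
  {K : Subfield L} {A : Subalgebra k L}

variable (k L) in
/-- The subalgebra generated by a set of pure monomials. -/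
noncomputable def pure (M : Set Lat) : Subalgebra k (Amb L) :=
  Algebra.adjoin k ((fun μ => single μ 1) '' M)

lemma mem_pure {M : Set Lat} {μ : Lat} (h : μ ∈ M) : single μ 1 ∈ pure k L M :=
  Algebra.subset_adjoin ⟨μ, h, rfl⟩

lemma pure_le {M : Set Lat} {D : Subalgebra k (Amb L)} (h : ∀ μ ∈ M, single μ 1 ∈ D) :
    pure k L M ≤ D := Algebra.adjoin_le (by rintro _ ⟨μ, hμ, rfl⟩; exact h μ hμ)

lemma isHom_pure {M : Set Lat} : IsHom (pure k L M) :=
  isHom_adjoin (by rintro _ ⟨μ, -, rfl⟩; exact ⟨_, _, rfl⟩)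

/-- `O'` is generated by `O` and pure monomials. -/
def Ext (O O' : Subalgebra k (Amb L)) : Prop := ∃ M : Set Lat, O' = O ⊔ pure k L M

lemma Ext.refl (O : Subalgebra k (Amb L)) : Ext O O :=
  ⟨∅, (sup_eq_left.mpr (pure_le (by simp))).symm⟩

lemma Ext.le {O O' : Subalgebra k (Amb L)} (h : Ext O O') : O ≤ O' := by
  obtain ⟨M, rfl⟩ := h
  exact le_sup_left

lemma Ext.trans {O O' O'' : Subalgebra k (Amb L)} (h : Ext O O') (h' : Ext O' O'') :
    Ext O O'' := by
  obtain ⟨M, rfl⟩ := h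
  obtain ⟨M', rfl⟩ := h'
  exact ⟨M ∪ M', by rw [pure, pure, pure, Set.image_union, Algebra.adjoin_union, sup_assoc]⟩

lemma ext_loc (O : Subalgebra k (Amb L)) (μ : Lat) : Ext O (loc O μ 1) :=
  ⟨{-μ}, by simp [loc, pure]⟩

/-- The degrees of the coordinates after a weighted blow-up. -/
noncomputable def newLam (m : ℕ) (lam : ℕ → Lat) (w : ℕ → ℕ) (i : ℕ) : Lat :=
  if i < m then lam i - w i • ee m else ee m

lemma newLam_lt {m : ℕ} (lam : ℕ → Lat) (w : ℕ → ℕ) {i : ℕ} (hi : i < m) :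
    newLam m lam w i = lam i - w i • ee m := if_pos hi

lemma newLam_self (m : ℕ) (lam : ℕ → Lat) (w : ℕ → ℕ) : newLam m lam w m = ee m :=
  if_neg (lt_irrefl m)

lemma eq_zero_of_eval {C : Subalgebra k (Amb L)} {m : ℕ} (hC : C ≤ suppAlg k L m)
    (P : Polynomial C) (h : P.eval₂ C.val.toRingHom (single (ee m) 1) = 0) : P = 0 := by
  ext l μ
  by_contra hne
  have hμ : μ m = 0 := hC (P.coeff l).2 μ (Finsupp.mem_support_iff.mpr hne) m le_rfl
  have h1 := congrArg (fun z : Amb L => z.coeff (μ + l • ee m)) h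
  simp only [Polynomial.eval₂_eq_sum, Polynomial.sum, coeff_sum, Finsupp.finsetSum_apply,
    single_pow, coeff_mul_single_apply, one_pow, mul_one, coeff_zero, Finsupp.zero_apply] at h1
  rw [Finset.sum_eq_single l] at h1
  · exact hne (by simpa using h1)
  · intro l' _ hl
    by_contra h2
    have := hC (P.coeff l').2 _ (Finsupp.mem_support_iff.mpr h2) m le_rfl
    simp only [Finsupp.add_apply, Finsupp.neg_apply, Finsupp.smul_apply, Finsupp.single_eq_same,
      hμ, nsmul_eq_mul] at this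
    omega
  · intro hl
    rw [Polynomial.notMem_support_iff.mp hl]
    simp

lemma lifts_blowup_aux {C E : Type} [CommRing C] [Algebra k C] [Algebra.FiniteType k C]
    [CommRing E] [Algebra k E] {m : ℕ} {y : ℕ → C} (H : ALifts k m y) (w : ℕ → ℕ) (v : C →ₐ[k] E)
    (z : ℕ → E) (hz : ∀ i < m, v (y i) = z m ^ w i * z i)
    (htr : ∀ P : Polynomial C, P.eval₂ v.toRingHom (z m) = 0 → P = 0) :
    Lifts (v.range ⊔ Algebra.adjoin k (z '' {i | i < m + 1})) (m + 1) z := by
  let I : Ideal (MvPolynomial (Option (Fin m)) C) := Ideal.span (Set.range fun i : Fin m =>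
    MvPolynomial.C (y i) - MvPolynomial.X none ^ w i * MvPolynomial.X (some i))
  let U := MvPolynomial (Option (Fin m)) C ⧸ I
  let q : MvPolynomial (Option (Fin m)) C →ₐ[k] U := Ideal.Quotient.mkₐ k I
  let j : C →ₐ[k] U := q.comp (IsScalarTower.toAlgHom k C _)
  have hj : ∀ c, j c = q (MvPolynomial.C c) := fun c => rfl
  let Y : ℕ → U := fun i => q (MvPolynomial.X (if h : i < m then some ⟨i, h⟩ else none))
  have hYm : Y m = q (MvPolynomial.X none) := by simp [Y]
  have hYi : ∀ i : Fin m, Y i = q (MvPolynomial.X (some i)) := fun i => by simp [Y]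
  have hrel : ∀ i < m, j (y i) = Y m ^ w i * Y i := fun i hi => by
    rw [hYm, hYi ⟨i, hi⟩, ← map_pow, ← map_mul, hj]
    exact Ideal.Quotient.eq.mpr (Ideal.subset_span ⟨⟨i, hi⟩, rfl⟩)
  have hlift : ∀ (R : Type) [CommRing R] [Algebra k R] (ρ : C →ₐ[k] R) (ε : ℕ → R),
      (∀ i < m, ρ (y i) = ε m ^ w i * ε i) →
      ∃ ρ' : U →ₐ[k] R, (∀ c, ρ' (j c) = ρ c) ∧ ∀ i < m + 1, ρ' (Y i) = ε i := by
    intro R _ _ ρ ε h
    let g : MvPolynomial (Option (Fin m)) C →ₐ[k] R :=
      MvPolynomial.aevalTower ρ fun o => o.elim (ε m) fun i => ε i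
    have hI : I ≤ RingHom.ker g := by
      rw [Ideal.span_le]
      rintro _ ⟨i, rfl⟩
      simp [g, h i i.2]
    refine ⟨Ideal.Quotient.liftₐ I g fun a ha => hI ha, fun c => ?_, fun i hi => ?_⟩
    · exact MvPolynomial.aevalTower_C _ _ c
    · rcases (Nat.lt_succ_iff.mp hi).eq_or_lt with rfl | hi
      · rw [hYm]; exact MvPolynomial.aevalTower_X _ _ _
      · rw [hYi ⟨i, hi⟩]; exact MvPolynomial.aevalTower_X _ _ _
  have hext : ∀ (R : Type) [CommRing R] [Algebra k R] (φ ψ : U →ₐ[k] R),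
      (∀ c, φ (j c) = ψ (j c)) → (∀ i < m + 1, φ (Y i) = ψ (Y i)) → φ = ψ := by
    intro R _ _ φ ψ h1 h2
    refine Ideal.Quotient.algHom_ext k (MvPolynomial.algHom_ext' (AlgHom.ext h1) ?_)
    rintro (_ | i)
    · have := h2 m (by omega)
      rwa [hYm] at this
    · have := h2 i (by omega)
      rwa [hYi] at this
  have hU : ALifts k (m + 1) Y := by
    intro R _ _ J hJ ε φ hφ
    obtain ⟨ρ, hρ, hρ'⟩ := H R J hJ (fun i => ε m ^ w i * ε i) (φ.comp j) fun i hi => by
      rw [AlgHom.comp_apply, hrel i hi, map_mul, map_pow, hφ m (by omega), hφ i (by omega),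
        map_mul, map_pow]
    obtain ⟨ρ', h1, h2⟩ := hlift R ρ ε hρ
    refine ⟨ρ', h2, fun u => DFunLike.congr_fun (hext _ ((Ideal.Quotient.mkₐ k J).comp ρ') φ
      (fun c => ?_) fun i hi => ?_) u⟩
    · rw [AlgHom.comp_apply, h1]; exact hρ' c
    · rw [AlgHom.comp_apply, h2 i hi, hφ i hi]; rfl
  have : Algebra.FiniteType k (MvPolynomial (Option (Fin m)) C) :=
    Algebra.FiniteType.trans (S := C) inferInstance inferInstance
  have hft : Algebra.FiniteType k U :=
    Algebra.FiniteType.of_surjective q (Ideal.Quotient.mkₐ_surjective k I)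
  have hreg := (smooth_regular_of_lift (k := k) (Y m) 1 fun R _ _ J hJ ε φ hφ _ => by
    choose η hη using fun i => Ideal.Quotient.mk_surjective (φ (Y i))
    obtain ⟨ρ, h1, h2⟩ := hU R J hJ (fun i => if i = m then ε else η i) φ fun i _ => by
      split_ifs with h
      exacts [h ▸ hφ, (hη i).symm]
    exact ⟨ρ, by simpa using h1 m (by omega), h2⟩).2
  obtain ⟨π, hπ, hπ'⟩ := hlift E v z hz
  have hinj : Function.Injective π := by
    rw [injective_iff_map_eq_zero]
    intro u hu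
    have key : ∃ (n : ℕ) (P : Polynomial C), Y m ^ n * u = P.eval₂ j.toRingHom (Y m) := by
      clear hu
      obtain ⟨u, rfl⟩ := Ideal.Quotient.mkₐ_surjective k I u
      change ∃ (n : ℕ) (P : Polynomial C), Y m ^ n * q u = _
      induction u using MvPolynomial.induction_on with
      | C c => exact ⟨0, Polynomial.C c, by simp [hj]⟩
      | add a b ha hb =>
        obtain ⟨n, P, h⟩ := ha
        obtain ⟨n', P', h'⟩ := hb
        refine ⟨n + n', Polynomial.X ^ n' * P + Polynomial.X ^ n * P', ?_⟩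
        simp only [Polynomial.eval₂_add, Polynomial.eval₂_mul, Polynomial.eval₂_X_pow, ← h, ← h',
          map_add]
        ring
      | mul_X a o ha =>
        obtain ⟨n, P, h⟩ := ha
        rcases o with _ | i
        · refine ⟨n, P * Polynomial.X, ?_⟩
          rw [Polynomial.eval₂_mul, Polynomial.eval₂_X, ← h, map_mul, ← hYm, mul_assoc]
        · refine ⟨n + w i, P * Polynomial.C (y i), ?_⟩
          rw [Polynomial.eval₂_mul, Polynomial.eval₂_C, ← h, map_mul, ← hYi]
          change _ = _ * j (y i)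
          rw [hrel i i.2]
          ring
    obtain ⟨n, P, h⟩ := key
    have h1 : P.eval₂ v.toRingHom (z m) = 0 := by
      have h2 := congrArg π.toRingHom h
      rw [Polynomial.hom_eval₂, map_mul, show π.toRingHom u = 0 from hu, mul_zero,
        show π.toRingHom (Y m) = z m from hπ' m (by omega),
        show π.toRingHom.comp j.toRingHom = v.toRingHom from RingHom.ext hπ] at h2
      exact h2.symm
    rw [htr P h1, Polynomial.eval₂_zero] at h
    simpa using hreg u n h
  have hrange : π.range = v.range ⊔ Algebra.adjoin k (z '' {i | i < m + 1}) := by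
    apply le_antisymm
    · rintro _ ⟨u, rfl⟩
      obtain ⟨u, rfl⟩ := Ideal.Quotient.mkₐ_surjective k I u
      change π (q u) ∈ _
      induction u using MvPolynomial.induction_on with
      | C c => rw [← hj, hπ]; exact (le_sup_left : v.range ≤ _) ⟨c, rfl⟩
      | add a b ha hb => rw [map_add, map_add]; exact add_mem ha hb
      | mul_X a o ha =>
        rw [map_mul, map_mul]
        refine mul_mem ha ((le_sup_right : Algebra.adjoin k _ ≤ _) (Algebra.subset_adjoin ?_))
        rcases o with _ | i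
        · rw [← hYm, hπ' m (by omega)]; exact ⟨m, by simp, rfl⟩
        · rw [← hYi, hπ' i (by omega)]; exact ⟨i, by simp, rfl⟩
    · refine sup_le ?_ (Algebra.adjoin_le ?_)
      · rintro _ ⟨c, rfl⟩
        exact ⟨j c, hπ _⟩
      · rintro _ ⟨i, hi, rfl⟩
        exact ⟨Y i, hπ' i hi⟩
  rw [← hrange]
  exact ⟨Algebra.FiniteType.equiv hft (AlgEquiv.ofInjective π hinj), _,
    fun i hi => hπ' i hi, hU.of_equiv (AlgEquiv.ofInjective π hinj)⟩

lemma lifts_blowup {C : Subalgebra k (Amb L)} {m : ℕ} {lam : ℕ → Lat} (hC : C ≤ suppAlg k L m)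
    (H : Lifts C m fun i => single (lam i) 1) (w : ℕ → ℕ) :
    Lifts (C ⊔ pure k L (newLam m lam w '' {i | i < m + 1})) (m + 1)
      fun i => single (newLam m lam w i) 1 := by
  obtain ⟨_, y, hy, H⟩ := H
  have := lifts_blowup_aux H w C.val (fun i => single (newLam m lam w i) 1) (fun i hi => by
    rw [Subalgebra.coe_val, hy i hi, newLam_self, newLam_lt lam w hi, single_pow, single_mul_single]
    simp) fun P hP => eq_zero_of_eval hC P (by rwa [newLam_self] at hP)
  rwa [Subalgebra.range_val, ← Set.image_image (fun μ => single μ 1) (newLam m lam w)] at this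

variable (Ω K A) in
/-- An atlas with monomial coordinates refining the charts `C₀`. -/
def TAtlas {ι₀ : Type} (C₀ : ι₀ → Subalgebra k (Amb L)) (m : ℕ) (lam : ℕ → Lat)
    (P : Subalgebra k (Amb L) → Prop) : Prop :=
  ∃ (ι : Type) (_ : Finite ι) (C : ι → Subalgebra k (Amb L)) (f : ι → L),
    IsAtlas Ω K A m C f ∧ Span m lam ∧ ∀ j, (Lifts (C j) m fun i => single (lam i) 1) ∧
      (∃ j₀, Ext (C₀ j₀) (C j)) ∧ P (C j)

variable {ι₀ : Type} {C₀ : ι₀ → Subalgebra k (Amb L)}

lemma TAtlas.imp {m : ℕ} {lam : ℕ → Lat} {P Q : Subalgebra k (Amb L) → Prop}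
    (H : TAtlas Ω K A C₀ m lam P)
    (h : ∀ C, (∀ i < m, single (lam i) 1 ∈ C) → P C → Q C) : TAtlas Ω K A C₀ m lam Q := by
  obtain ⟨ι, _, C, f, H, hs, hC⟩ := H
  exact ⟨ι, inferInstance, C, f, H, hs, fun j =>
    ⟨(hC j).1, (hC j).2.1, h _ (fun i hi => (hC j).1.mem hi) (hC j).2.2⟩⟩

lemma sum_newLam (m : ℕ) (lam : ℕ → Lat) (w : ℕ → ℕ) (c : ℕ → ℤ) :
    ∑ i ∈ Finset.range m, c i • lam i = ∑ i ∈ Finset.range m, c i • newLam m lam w i +
      (∑ i ∈ Finset.range m, c i * w i) • ee m := by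
  rw [Finset.sum_smul, ← Finset.sum_add_distrib]
  refine Finset.sum_congr rfl fun i hi => ?_
  rw [newLam_lt lam w (Finset.mem_range.mp hi)]
  module

lemma toric_step [IsAlgClosed Ω] {m : ℕ} {lam : ℕ → Lat} {P : Subalgebra k (Amb L) → Prop}
    (hP : ∀ C C', C ≤ C' → P C → P C') (H : TAtlas Ω K A C₀ m lam P) (w : ℕ → ℕ)
    (hw : ∃ i < m, 0 < w i) : TAtlas Ω K A C₀ (m + 1) (newLam m lam w)
      fun C => P C ∧ ∃ i < m, 0 < w i ∧ single (-newLam m lam w i) 1 ∈ C := by
  obtain ⟨ι, _, C, f, H, hs, hC⟩ := H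
  let D : ι → Subalgebra k (Amb L) := fun j => C j ⊔ pure k L (newLam m lam w '' {i | i < m + 1})
  have hCD : ∀ j, C j ≤ D j := fun j => le_sup_left
  have hD : ∀ j, ∀ i < m + 1, single (newLam m lam w i) 1 ∈ D j := fun j i hi =>
    (le_sup_right : pure k L _ ≤ _) (mem_pure ⟨i, hi, rfl⟩)
  have hDle : ∀ j D', C j ≤ D' → (∀ i < m + 1, single (newLam m lam w i) 1 ∈ D') → D j ≤ D' :=
    fun j D' h1 h2 => sup_le h1 (pure_le (by rintro _ ⟨i, hi, rfl⟩; exact h2 i hi))
  have hlam : ι → ∀ i < m, InL m (lam i) := fun j i hi =>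
    H.supp j _ _ one_ne_zero ((hC j).1.mem hi)
  have hhom : ∀ j, IsHom (D j) := fun j => (H.hom j).sup isHom_pure
  let κ := {i : ℕ // i < m ∧ 0 < w i}
  have : Finite κ := Set.Finite.to_subtype ((Set.finite_lt_nat m).subset fun i hi => hi.1)
  have : Nonempty κ := by obtain ⟨i, h⟩ := hw; exact ⟨⟨i, h⟩⟩
  have hγ : ∀ j (a : κ), single (newLam m lam w a) 1 ∈ D j := fun j a =>
    hD j a (by have := a.2.1; omega)
  have hratio : ∀ i j, single 0 (f i / f j) ∈ D j := fun i j => hCD j (H.ratio i j)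
  obtain ⟨f', hf'⟩ := refine (Ω := Ω) (A := A) H.f_mem H.f_ne (m := m + 1) D hhom
    (fun j => supp_of_le (hDle j _ (((H.supp j).mono (by omega)).le (H.hom j)) fun i hi =>
      mon_mem_suppAlg (by
        rcases (Nat.lt_succ_iff.mp hi).eq_or_lt with rfl | hi
        · rw [newLam_self]; exact InL.basis (by omega)
        · rw [newLam_lt lam w hi]
          exact ((hlam j i hi).mono (by omega)).sub ((InL.basis (by omega)).nsmul _))))
    hratio
    (fun i j μ a h => by
      obtain ⟨n, hn⟩ := hDle i (satur (D j) _ (hratio i j)) ((H.hom i).le fun μ a h => by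
        obtain ⟨N, hN⟩ := H.comp i j μ a h
        exact ⟨N, by rw [single_pow, single_mul_single, smul_zero, zero_add]; exact hCD j hN⟩)
        (fun l hl => le_satur _ _ _ (hD j l hl)) h
      rw [single_pow, single_mul_single, smul_zero, zero_add] at hn
      exact ⟨n, hn⟩)
    (fun j a ha => hCD j (H.base j a ha))
    (fun j i hi => by
      rcases (Nat.lt_succ_iff.mp hi).eq_or_lt with rfl | hi
      · exact newLam_self i lam w ▸ hD j i (by omega)
      · exact hCD j (H.full j i hi))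
    (κ := fun _ => κ) (fun _ a => newLam m lam w a) (fun _ _ => 1) hγ (fun _ _ => one_mem _)
    (fun _ _ => one_ne_zero) (c := m) (by omega) (σ := -1) rfl
    (fun j a => by
      rw [newLam_lt lam w a.2.1]
      simpa [hlam j a a.2.1 m le_rfl] using a.2.2)
    (fun j μ hμ h0 => by
      obtain ⟨n, hn, u, hu, hU⟩ := fin_of_basis (H.fin j) (hμ.of_succ h0)
      exact ⟨n, hn, u, hu, hU.mono (hCD j)⟩)
    (fun O hO => by
      obtain ⟨j, θ, hθ⟩ := H.proper O hO
      have hz : ∀ i < m, θ (lam i) ∈ O := fun i hi => by simpa using hθ _ _ ((hC j).1.mem hi)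
      obtain ⟨ε, hε, hε0, h1, a, ha⟩ := exists_root O (fun a : κ => θ (lam a))
        (fun a => hz a a.2.1) (fun a => char_ne_zero θ _) (fun a => w a) fun a => a.2.2
      have hη : ε / θ (ee m) ≠ 0 := div_ne_zero hε0 (char_ne_zero θ _)
      set θ' := twist θ m _ hη with hθ'
      have h2 : ∀ μ, InL m μ → θ' μ = θ μ := fun μ hμ => by
        rw [hθ', twist_apply, hμ m le_rfl, zpow_zero, mul_one]
      have h3 : θ' (ee m) = ε := by
        rw [hθ', twist_apply, Finsupp.single_eq_same, zpow_one,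
          mul_div_cancel₀ _ (char_ne_zero θ _)]
      have h4 : ∀ i < m, θ' (newLam m lam w i) = θ (lam i) / ε ^ w i := fun i hi => by
        rw [newLam_lt lam w hi, AddChar.map_sub_eq_div, AddChar.map_nsmul_eq_pow, h3,
          h2 _ (hlam j i hi)]
      refine ⟨j, a, θ', Ctr.loc (ctr_of_le (hk := hθ.hk) (hDle j _ ((H.hom j).le fun μ b hb => ?_)
        fun i hi => ?_)) (hhom j) ?_⟩
      · rw [mon_mem_valAlg]
        by_cases hb0 : b = 0
        · simp [hb0]
        · rw [h2 μ (H.supp j μ b hb0 hb)]; exact hθ μ b hb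
      · rw [mon_mem_valAlg, map_one, one_mul]
        rcases (Nat.lt_succ_iff.mp hi).eq_or_lt with rfl | hi
        · rw [newLam_self, h3]; exact hε
        · rw [h4 i hi]
          by_cases h5 : 0 < w i
          · exact h1 ⟨i, hi, h5⟩
          · rw [show w i = 0 by omega, pow_zero, div_one]; exact hz i hi
      · rw [map_one, one_mul, h4 a a.2.1, ha, div_self (char_ne_zero θ _), inv_one]
        exact one_mem _)
  refine ⟨_, inferInstance, _, f', hf', fun μ hμ => ?_, fun x => ⟨?_, ?_, ?_, x.2, x.2.2.1,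
    x.2.2.2, by simpa using inv_mem_loc (C := D x.1) (μ := newLam m lam w x.2) (a := 1)⟩⟩
  · obtain ⟨c, hc⟩ := hs (μ - μ m • ee m) ((hμ.sub ((InL.basis (by omega)).zsmul _)).of_succ
      (by simp))
    refine ⟨fun i => if i < m then c i else μ m + ∑ i ∈ Finset.range m, c i * w i, ?_⟩
    rw [sum_newLam m lam w c] at hc
    simp only [Finset.sum_range_succ, if_neg (lt_irrefl m), newLam_self]
    rw [Finset.sum_congr rfl fun i hi => by rw [if_pos (Finset.mem_range.mp hi)], add_smul,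
      add_left_comm, ← hc]
    abel
  · exact (isAway_loc (hγ _ _) one_ne_zero).lifts
      (lifts_blowup ((H.supp _).le (H.hom _)) (hC _).1 w)
  · obtain ⟨j₀, h⟩ := (hC x.1).2.1
    exact ⟨j₀, h.trans (Ext.trans ⟨_, rfl⟩ (ext_loc _ _))⟩
  · exact hP _ _ ((hCD _).trans le_loc) (hC _).2.2

lemma toric_pairs [IsAlgClosed Ω] {m : ℕ} {lam : ℕ → Lat} {P : Subalgebra k (Amb L) → Prop}
    (hP : ∀ C C', C ≤ C' → P C → P C') (H : TAtlas Ω K A C₀ m lam P) (c : ℕ → ℤ)
    (hc : ∀ i, m ≤ i → c i = 0) (s : Finset (ℕ × ℕ))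
    (hs : ∀ x ∈ s, x.1 < m ∧ x.2 < m ∧ 0 < c x.1 ∧ c x.2 < 0) :
    ∃ m' lam', m ≤ m' ∧ ∑ i ∈ Finset.range m, c i • lam i = ∑ i ∈ Finset.range m', c i • lam' i ∧
      TAtlas Ω K A C₀ m' lam' fun C => P C ∧
        ∀ x ∈ s, single (-lam' x.1) 1 ∈ C ∨ single (-lam' x.2) 1 ∈ C := by
  classical
  induction s using Finset.induction_on with
  | empty => exact ⟨m, lam, le_rfl, rfl, H.imp fun C _ h => ⟨h, by simp⟩⟩
  | insert x s _ ih =>
    obtain ⟨m', lam', hm, hsum, H'⟩ := ih fun y hy => hs y (by simp [hy])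
    obtain ⟨h1, h2, h3, h4⟩ := hs x (by simp)
    have hne : x.1 ≠ x.2 := fun h => by rw [h] at h3; omega
    let w : ℕ → ℕ := fun i => if i = x.1 then (-c x.2).toNat else if i = x.2 then (c x.1).toNat
      else 0
    have hw1 : (w x.1 : ℤ) = -c x.2 := by simp only [w, if_pos]; omega
    have hw2 : (w x.2 : ℤ) = c x.1 := by simp only [w, if_neg hne.symm, if_pos]; omega
    have hw0 : ∀ i, i ≠ x.1 → i ≠ x.2 → w i = 0 := fun i h h' => by simp [w, h, h']
    refine ⟨m' + 1, newLam m' lam' w, by omega, ?_, (toric_step ?_ H' w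
      ⟨x.1, by omega, by omega⟩).imp ?_⟩
    · rw [hsum, sum_newLam m' lam' w, Finset.sum_range_succ, hc m' hm,
        Finset.sum_eq_add_of_mem (f := fun i => c i * w i) x.1 x.2
          (Finset.mem_range.mpr (by omega)) (Finset.mem_range.mpr (by omega)) hne
          fun i _ hi => by simp [hw0 i hi.1 hi.2], hw1, hw2]
      module
    · rintro C C' hle ⟨h, h'⟩
      exact ⟨hP _ _ hle h, fun y hy => (h' y hy).imp (fun h => hle h) fun h => hle h⟩
    · rintro C hC ⟨⟨h, h'⟩, i, -, hi, hi'⟩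
      refine ⟨h, fun y hy => ?_⟩
      rcases Finset.mem_insert.mp hy with rfl | hy
      · by_cases h5 : i = y.1
        · exact Or.inl (h5 ▸ hi')
        by_cases h6 : i = y.2
        · exact Or.inr (h6 ▸ hi')
        rw [hw0 i h5 h6] at hi
        omega
      · have key : ∀ a < m', single (-lam' a) 1 ∈ C → single (-newLam m' lam' w a) 1 ∈ C := by
          intro a ha h
          have h7 := hC m' (by omega)
          rw [newLam_self] at h7
          exact mon_congr (mon_mul h (mon_pow h7 (w a))) (by rw [newLam_lt _ _ ha]; abel) (by simp)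
        obtain ⟨h8, h9, -⟩ := hs y (by simp [hy])
        exact (h' y hy).imp (key _ (by omega)) (key _ (by omega))

lemma mon_zsum {C : Subalgebra k (Amb L)} {m : ℕ} {lam : ℕ → Lat}
    (hC : ∀ i < m, single (lam i) 1 ∈ C) (c : ℕ → ℤ)
    (h : ∀ i < m, c i < 0 → single (-lam i) 1 ∈ C) :
    single (∑ i ∈ Finset.range m, c i • lam i) 1 ∈ C := by
  refine mon_congr (mon_prod (a := fun _ => 1) _ fun i hi => ?_) rfl (by simp)
  have hi := Finset.mem_range.mp hi
  obtain ⟨n, hn | hn⟩ := (c i).eq_nat_or_neg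
  · exact mon_congr (mon_pow (hC i hi) n) (by simp [hn]) (by simp)
  · rcases n.eq_zero_or_pos with rfl | h0
    · simpa [hn] using mon_one
    · exact mon_congr (mon_pow (h i hi (by omega)) n) (by simp [hn]) (by simp)

lemma toric_one [IsAlgClosed Ω] {m : ℕ} {lam : ℕ → Lat} {P : Subalgebra k (Amb L) → Prop}
    (hP : ∀ C C', C ≤ C' → P C → P C') (H : TAtlas Ω K A C₀ m lam P) {δ : Lat} (hδ : InL m δ) :
    ∃ m' lam', m ≤ m' ∧ TAtlas Ω K A C₀ m' lam' fun C => P C ∧
      (single δ 1 ∈ C ∨ single (-δ) 1 ∈ C) := by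
  obtain ⟨c, hc⟩ : ∃ c : ℕ → ℤ, δ = ∑ i ∈ Finset.range m, c i • lam i := by
    obtain ⟨_, _, _, _, -, hs, -⟩ := H
    exact hs δ hδ
  let c' : ℕ → ℤ := fun i => if i < m then c i else 0
  have hc' : δ = ∑ i ∈ Finset.range m, c' i • lam i :=
    hc.trans (Finset.sum_congr rfl fun i hi => by simp [c', Finset.mem_range.mp hi])
  have h0 : ∀ i, m ≤ i → c' i = 0 := fun i hi => if_neg (by omega)
  obtain ⟨m', lam', hm, hsum, H'⟩ := toric_pairs hP H c' h0
    ((Finset.range m ×ˢ Finset.range m).filter fun x => 0 < c' x.1 ∧ c' x.2 < 0) fun x hx => by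
      simpa [and_assoc] using hx
  refine ⟨m', lam', hm, H'.imp fun C hC h => ⟨h.1, ?_⟩⟩
  have hlt : ∀ i, c' i ≠ 0 → i < m := fun i hi => by
    by_contra h
    exact hi (h0 i (by omega))
  by_cases h1 : ∀ i < m', c' i < 0 → single (-lam' i) 1 ∈ C
  · exact Or.inl (by rw [hc', hsum]; exact mon_zsum hC c' h1)
  · push Not at h1
    obtain ⟨b, -, hb, hb'⟩ := h1
    refine Or.inr (mon_congr (mon_zsum hC (fun i => -c' i) fun a _ ha => ?_) ?_ rfl)
    · refine (h.2 (a, b) ?_).resolve_right hb'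
      simp only [Finset.mem_filter, Finset.mem_product, Finset.mem_range]
      exact ⟨⟨hlt a (by omega), hlt b (by omega)⟩, by omega, hb⟩
    · rw [hc', hsum]; simp

/-- All monomials of degrees in `Δ` can be made comparable with `1`. -/
theorem toric_all [IsAlgClosed Ω] {m : ℕ} {lam : ℕ → Lat}
    (H : TAtlas Ω K A C₀ m lam fun _ => True) (Δ : Finset Lat) (hΔ : ∀ δ ∈ Δ, InL m δ) :
    ∃ m' lam', m ≤ m' ∧ TAtlas Ω K A C₀ m' lam' fun C =>
      ∀ δ ∈ Δ, single δ 1 ∈ C ∨ single (-δ) 1 ∈ C := by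
  classical
  induction Δ using Finset.induction_on with
  | empty => exact ⟨m, lam, le_rfl, H.imp (by simp)⟩
  | insert δ s _ ih =>
    obtain ⟨m', lam', hm, H'⟩ := ih fun y hy => hΔ y (by simp [hy])
    obtain ⟨m'', lam'', hm', H''⟩ := toric_one (fun C C' hle h y hy =>
      (h y hy).imp (fun h => hle h) fun h => hle h) H' ((hΔ δ (by simp)).mono hm)
    exact ⟨m'', lam'', hm.trans hm', H''.imp fun C _ h => by simpa using ⟨h.2, h.1⟩⟩

end Pool.Agent.MP_19ffc6_ag.Lin
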