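import Mathlib.Algebra.AffineMonoid.Basic
import Mathlib.Algebra.Group.Action.Option
import Mathlib.RingTheory.PicardGroup
import Mathlib.GroupTheory.FiniteAbelian.Basic
import Pool.Agent.MP_19ffc6_ag.Lin.Refine
import Pool.Agent.MP_19ffc6_ag.Lin.Toric
import Pool.Agent.MP_19ffc6_ag.Lin.Chain
import Pool.Agent.MP_19ffc6_ag.Lin.Nodes

-- ======== part 0: formerly Pool.Agent.MP_19ffc6_ag.Lin.Stable
section MrgPart0

/-!
An atlas permuted by a finite group can be replaced by an atlas of stable charts with invariant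
sections.
-/

set_option autoImplicit false
set_option linter.unusedSectionVars false
set_option linter.style.haveILetI false

namespace Pool.Agent.MP_19ffc6_ag.Lin

variable {k L Ω G : Type} [Field k] [Field L] [Algebra k L] [Field Ω] [Algebra L Ω]
  [Group G] [Fintype G] [MulSemiringAction G L]

section Gauss

open Polynomial

variable {ι : Type} [Fintype ι]

variable (G) in
/-- The norm of the generic linear combination of the `b i`. -/
noncomputable def gp (idx : ι → ℕ) (b : ι → L) : L[X] :=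
  ∏ g : G, ∑ i, monomial (idx i) (g • b i)

lemma smul_coeff_gp (idx : ι → ℕ) (b : ι → L) (h : G) (d : ℕ) :
    h • (gp G idx b).coeff d = (gp G idx b).coeff d := by
  have : (gp G idx b).map (MulSemiringAction.toRingHom G L h) = gp G idx b := by
    rw [gp, Polynomial.map_prod]
    refine Fintype.prod_equiv (Equiv.mulLeft h) _ _ fun g => ?_
    simp [Polynomial.map_sum, mul_smul]
  conv_rhs => rw [← this, coeff_map]
  rfl

lemma coeff_gp_mem (idx : ι → ℕ) (b : ι → L) (W : AddSubmonoid L)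
    (h : ∀ p : G → ι, ∏ g, g • b (p g) ∈ W) (d : ℕ) : (gp G idx b).coeff d ∈ W := by
  classical
  rw [gp, Finset.prod_univ_sum, finsetSum_coeff]
  refine sum_mem fun p _ => ?_
  simp_rw [← C_mul_X_pow_eq_monomial]
  rw [Finset.prod_mul_distrib, Finset.prod_pow_eq_pow_sum, ← map_prod, coeff_C_mul_X_pow]
  split_ifs
  exacts [h p, zero_mem _]

lemma exists_coeff_gp_unit {idx : ι → ℕ} (hidx : Function.Injective idx) (b : ι → L)
    (O : ValuationSubring Ω) (c : Ω) (h1 : ∀ (g : G) i, algebraMap L Ω (g • b i) * c ∈ O)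
    (h2 : ∀ g : G, ∃ i, algebraMap L Ω (g • b i) * c ≠ 0 ∧ (algebraMap L Ω (g • b i) * c)⁻¹ ∈ O) :
    ∃ d, (gp G idx b).coeff d ≠ 0 ∧
      (algebraMap L Ω ((gp G idx b).coeff d) * c ^ Fintype.card G)⁻¹ ∈ O := by
  classical
  let Q : O[X] := ∏ g : G, ∑ i, monomial (idx i) ⟨_, h1 g i⟩
  have hQ : Q.map O.subtype = (gp G idx b).map (algebraMap L Ω) * C c ^ Fintype.card G := by
    rw [gp, Polynomial.map_prod, Polynomial.map_prod, ← Finset.card_univ, ← Finset.prod_const,
      ← Finset.prod_mul_distrib]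
    refine Finset.prod_congr rfl fun g _ => ?_
    simp [Polynomial.map_sum, Finset.sum_mul, monomial_mul_C]
  have hQ' : Q.map (IsLocalRing.residue O) ≠ 0 := by
    rw [Polynomial.map_prod]
    refine Finset.prod_ne_zero_iff.mpr fun g _ h => ?_
    obtain ⟨i, hi, hi'⟩ := h2 g
    have := congrArg (fun P => P.coeff (idx i)) h
    simp only [coeff_map, finsetSum_coeff, coeff_monomial, hidx.eq_iff, Finset.sum_ite_eq',
      Finset.mem_univ, if_true, coeff_zero, IsLocalRing.residue_eq_zero_iff] at this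
    exact this (IsUnit.of_mul_eq_one ⟨_, hi'⟩ (Subtype.ext (mul_inv_cancel₀ hi)))
  obtain ⟨d, hd⟩ : ∃ d, (Q.map (IsLocalRing.residue O)).coeff d ≠ 0 := by
    by_contra h
    push Not at h
    exact hQ' (Polynomial.ext fun d => by simpa using h d)
  rw [coeff_map, Ne, IsLocalRing.residue_eq_zero_iff, IsLocalRing.notMem_maximalIdeal] at hd
  obtain ⟨v, hv⟩ := hd.exists_right_inv
  have h3 : (Q.coeff d : Ω) = algebraMap L Ω ((gp G idx b).coeff d) * c ^ Fintype.card G := by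
    have := congrArg (fun P => P.coeff d) hQ
    simp only [← C_pow, coeff_mul_C, coeff_map] at this
    exact this
  have h4 : (Q.coeff d : Ω) * v = 1 := congrArg Subtype.val hv
  rw [h3] at h4
  refine ⟨d, fun h => by simp [h] at h4, ?_⟩
  rw [inv_eq_of_mul_eq_one_right h4]
  exact v.2

end Gauss

open AddMonoidAlgebra

variable {ι : Type} {C : ι → Subalgebra k (Amb L)} {f : ι → L}

variable (C f) in
/-- A global section of the `M`-th power of the polarisation twisted by the character `μ`. -/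
def Sec (M : ℕ) (μ : Lat) (b : L) : Prop := ∀ i, single μ (b / f i ^ M) ∈ C i

lemma Sec.prod {σ : Type} (s : Finset σ) {M : ℕ} {μ : σ → Lat} {b : σ → L}
    (h : ∀ x ∈ s, Sec C f M (μ x) (b x)) :
    Sec C f (M * s.card) (∑ x ∈ s, μ x) (∏ x ∈ s, b x) := fun i =>
  mon_congr (mon_prod s fun x hx => h x hx i) rfl (by
    rw [Finset.prod_div_distrib, Finset.prod_const, pow_mul])

lemma Sec.smul (hsym : Sym G C f) {M : ℕ} {μ : Lat} {b : L} (h : Sec C f M μ b) (g : G) :
    Sec C f M μ (g • b) := fun i => by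
  obtain ⟨j, hj, hj'⟩ := hsym g⁻¹ i
  rw [hj', smul_div₀', smul_pow', inv_smul_smul, ← hj]
  exact h j

lemma Sec.coeff_gp [Fintype ι] (hsym : Sym G C f) {M : ℕ} {μ : Lat} {b : ι → L}
    (h : ∀ j, Sec C f M μ (b j)) (idx : ι → ℕ) (d : ℕ) :
    Sec C f (M * Fintype.card G) (Fintype.card G • μ) ((gp G idx b).coeff d) := by
  let W : AddSubmonoid L :=
    { carrier := {z | Sec C f (M * Fintype.card G) (Fintype.card G • μ) z}
      add_mem' := fun ha hb i => by rw [add_div]; exact mon_add (ha i) (hb i)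
      zero_mem' := fun i => by rw [zero_div]; exact mon_zero }
  refine coeff_gp_mem idx b W (fun p => ?_) d
  have := Sec.prod (Finset.univ : Finset G) (μ := fun _ => μ) fun g _ => (h (p g)).smul hsym g
  rwa [Finset.sum_const, Finset.card_univ] at this

lemma IsU.iInf {D : ι → Subalgebra k (Amb L)} {μ : Lat} {a : L} (ha : a ≠ 0)
    (h : ∀ i, IsU (D i) μ a) : IsU (⨅ i, D i) μ a :=
  ⟨ha, Algebra.mem_iInf.mpr fun i => (h i).mem, Algebra.mem_iInf.mpr fun i => (h i).inv⟩

lemma mon_mem_loc_zero {D : Subalgebra k (Amb L)} {x : L} (h : single 0 x ∈ D) (hx : x ≠ 0)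
    {ν : Lat} {b : L} : single ν b ∈ loc D 0 x ↔ ∃ n : ℕ, single ν (x ^ n * b) ∈ D := by
  simp only [mon_mem_loc h hx, smul_zero, zero_add]

variable (C f) in
/-- The ring of functions on the locus where the section `Φ` does not vanish. -/
noncomputable def nonv (N : ℕ) (Φ : L) : Subalgebra k (Amb L) := ⨅ i, loc (C i) 0 (Φ / f i ^ N)

section Nonv

variable {K : Subfield L} {R : Subalgebra k L} {m : ℕ} (H : IsAtlas Ω K R m C f) {N : ℕ} {Φ : L}
  (hΦ : Sec C f N 0 Φ) (hΦ0 : Φ ≠ 0)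

lemma mem_nonv {c : Amb L} : c ∈ nonv C f N Φ ↔ ∀ i, c ∈ loc (C i) 0 (Φ / f i ^ N) :=
  Algebra.mem_iInf

lemma mem_nonv_of_mem {c : Amb L} (h : ∀ i, c ∈ C i) : c ∈ nonv C f N Φ :=
  mem_nonv.mpr fun i => le_loc (h i)

include H

lemma isHom_nonv : IsHom (nonv C f N Φ) := IsHom.iInf fun i => (H.hom i).loc

lemma Sec.div_mem_nonv {Ψ : L} (h : Sec C f N 0 Ψ) : single 0 (Ψ / Φ) ∈ nonv C f N Φ :=
  mem_nonv.mpr fun i => mon_congr (mon_mul (le_loc (h i)) inv_mem_loc) (by simp) (by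
    have := H.f_ne i
    field_simp)

lemma sec_pow (j : ι) (M : ℕ) : Sec C f M 0 (f j ^ M) := fun i => by
  rw [← div_pow]; exact mon_pow_zero (H.ratio j i) M

include hΦ hΦ0

lemma mon_mem_nonv [Finite ι] {μ : Lat} {a : L} : single μ a ∈ nonv C f N Φ ↔
    ∃ l : ℕ, ∀ i, single μ ((Φ / f i ^ N) ^ l * a) ∈ C i := by
  simp only [mem_nonv, fun i => mon_mem_loc_zero (ν := μ) (b := a) (hΦ i)
    (div_ne_zero hΦ0 (pow_ne_zero _ (H.f_ne i)))]
  refine ⟨fun h => ?_, fun ⟨l, h⟩ i => ⟨l, h i⟩⟩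
  obtain ⟨l, hl⟩ := exists_unif (fun i l => single μ ((Φ / f i ^ N) ^ l * a) ∈ C i)
    (fun i l h => mon_congr (mon_mul_zero (hΦ i) h) rfl (by ring)) h
  exact ⟨l, fun i => hl i l le_rfl⟩

lemma loc_nonv [Finite ι] (hN : 0 < N) (j : ι) :
    loc (nonv C f N Φ) 0 (f j ^ N / Φ) = loc (C j) 0 (f j ^ N / Φ)⁻¹ := by
  have hx := (sec_pow H j N).div_mem_nonv H (Φ := Φ)
  have hx0 : f j ^ N / Φ ≠ 0 := div_ne_zero (pow_ne_zero _ (H.f_ne j)) hΦ0
  apply le_antisymm
  · refine loc_le ?_ ?_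
    · rw [inv_div]; exact iInf_le _ j
    · rw [inv_div, neg_zero]; exact le_loc (hΦ j)
  · refine loc_le ((H.hom j).le fun μ a ha => ?_) (by rw [neg_zero, inv_inv]; exact le_loc hx)
    obtain ⟨l, hl⟩ := exists_unif (fun i l => single μ ((f j / f i) ^ l * a) ∈ C i)
      (fun i l h => mon_congr (mon_mul_zero (H.ratio j i) h) rfl (by ring))
      fun i => H.comp j i μ a ha
    refine (mon_mem_loc_zero hx hx0).mpr ⟨l, (mon_mem_nonv H hΦ hΦ0).mpr ⟨l, fun i =>
      mon_congr (hl i (N * l) (Nat.le_mul_of_pos_left l hN)) rfl ?_⟩⟩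
    rw [← mul_assoc, ← mul_pow, pow_mul, div_pow]
    congr 2
    field_simp

lemma smul_mem_nonv [Finite ι] (hsym : Sym G C f) (hinv : ∀ g : G, g • Φ = Φ) (g : G) {μ : Lat}
    {a : L} (h : single μ a ∈ nonv C f N Φ) : single μ (g • a) ∈ nonv C f N Φ := by
  rw [mon_mem_nonv H hΦ hΦ0] at h ⊢
  obtain ⟨l, hl⟩ := h
  refine ⟨l, fun i => ?_⟩
  obtain ⟨j, hj, hj'⟩ := hsym g⁻¹ i
  rw [hj', smul_mul', smul_pow', smul_div₀', smul_pow', inv_smul_smul, ← hj, hinv]
  exact hl j

end Nonv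

/-- The local structure of a stable chart `O`: it is covered by localisations of the `C j`. -/
def Covered (C : ι → Subalgebra k (Amb L)) (O : Subalgebra k (Amb L)) : Prop :=
  ∀ q : Ideal O, q.IsPrime → ∃ (j : ι) (x : L) (hx : single 0 x ∈ O), ⟨_, hx⟩ ∉ q ∧ x ≠ 0 ∧
    single 0 x⁻¹ ∈ C j ∧ loc O 0 x = loc (C j) 0 x⁻¹

theorem stable [Finite ι] {R : Subalgebra k L} {m : ℕ} (H : IsAtlas Ω ⊤ R m C f) {y : ℕ → Amb L}
    (hl : ∀ j, Lifts (C j) m y) (hsym : Sym G C f) (A : Subalgebra k L) (hA : A ≤ R)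
    (hint : ∀ O : ValuationSubring Ω, (∀ a ∈ A, algebraMap L Ω a ∈ O) →
      ∀ a ∈ R, algebraMap L Ω a ∈ O) :
    ∃ (τ : Type) (_ : Finite τ) (O : τ → Subalgebra k (Amb L)) (φ : τ → L),
      IsAtlas Ω (FixedPoints.subfield G L) A m O φ ∧ ∀ t, Lifts (O t) m y ∧
        (∀ (g : G) μ a, single μ a ∈ O t → single μ (g • a) ∈ O t) ∧
        (∀ c, (∀ j, c ∈ C j) → c ∈ O t) ∧ Covered C (O t) := by
  classical
  have := Fintype.ofFinite ι
  obtain ⟨j₀, -⟩ := H.proper ⊤ fun _ _ => trivial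
  let idx : ι → ℕ := fun i => Fintype.equivFin ι i
  have hidx : Function.Injective idx := Fin.val_injective.comp (Fintype.equivFin ι).injective
  obtain ⟨n, hn, hnU⟩ := exists_unif_unit (K := ⊤) (fun x : ι × Fin m => C x.1)
    (fun x => ee x.2) fun x => H.fin _ _ x.2.2
  let σ := Option (Option (Fin m))
  let μ : σ → Lat := fun s => s.elim 0 fun s => s.elim (-∑ i : Fin m, n • ee i) fun i => n • ee i
  have hμ : ∑ s, μ s = 0 := by simp [σ, μ, Fintype.sum_option]
  obtain ⟨u, hu, hu0⟩ : ∃ u : σ → ι → L, (∀ s j, IsU (C j) (μ s) (u s j)) ∧ ∀ j, u none j = 1 := by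
    choose u _ hu using hnU
    refine ⟨fun s j => s.elim 1 fun s => s.elim (∏ i : Fin m, u (j, i))⁻¹ fun i => u (j, i),
      ?_, fun _ => rfl⟩
    rintro (_ | _ | i) j
    exacts [IsU.one, (IsU.prod _ fun i _ => hu (j, i)).symm, hu (j, i)]
  obtain ⟨M₀, hM₀⟩ := exists_unif
    (fun (x : σ × ι × ι) l => single (μ x.1) ((f x.2.1 / f x.2.2) ^ l * u x.1 x.2.1) ∈ C x.2.2)
    (fun x l h => mon_congr (mon_mul_zero (H.ratio x.2.1 _) h) rfl (by ring))
    fun x => H.comp _ _ _ _ (hu _ _).mem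
  set M := M₀ + 1 with hM
  let b : σ → ι → L := fun s j => f j ^ M * u s j
  have hb : ∀ s j, Sec C f M (μ s) (b s j) := fun s j i =>
    mon_congr (hM₀ (s, j, i) M (by omega)) rfl (by simp only [b]; ring)
  have hbU : ∀ s j, IsU (C j) (μ s) (b s j / f j ^ M) := fun s j =>
    (hu s j).congr rfl (mul_div_cancel_left₀ _ (pow_ne_zero _ (H.f_ne j))).symm
  set N := Fintype.card G with hN
  have hN0 : 0 < N := Fintype.card_pos
  let τ := {d : σ → ℕ // ∀ s, (gp G idx (b s)).coeff (d s) ≠ 0}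
  have : Finite τ := Set.Finite.to_subtype ((Set.Finite.pi' fun s =>
    (gp G idx (b s)).support.finite_toSet).subset fun d hd s => by simpa using hd s)
  let φ : τ → σ → L := fun d s => (gp G idx (b s)).coeff (d.1 s)
  have hφ : ∀ d s, Sec C f (M * N) (N • μ s) (φ d s) := fun d s => Sec.coeff_gp hsym (hb s) _ _
  have hφG : ∀ d s, φ d s ∈ FixedPoints.subfield G L := fun d s g => smul_coeff_gp _ _ g _
  set N' := M * N * (Finset.univ : Finset σ).card with hN'
  have hσ0 : 0 < (Finset.univ : Finset σ).card := Finset.card_pos.mpr ⟨none, Finset.mem_univ _⟩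
  have hN'0 : 0 < N' := by positivity
  have hsum : ∑ s, N • μ s = 0 := by rw [← Finset.smul_sum, hμ, smul_zero]
  let Φ : τ → L := fun d => ∏ s, φ d s
  have hΦ : ∀ d, Sec C f N' 0 (Φ d) := fun d => hsum ▸ Sec.prod _ fun s _ => hφ d s
  have hΦ0 : ∀ d, Φ d ≠ 0 := fun d => Finset.prod_ne_zero_iff.mpr fun s _ => d.2 s
  have hΦG : ∀ d, Φ d ∈ FixedPoints.subfield G L := fun d => prod_mem fun s _ => hφG d s
  have hU : ∀ d s i, IsU (loc (C i) 0 (Φ d / f i ^ N')) (N • μ s) (φ d s / f i ^ (M * N)) :=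
    fun d s i => IsU.of_prod (s := Finset.univ) (μ := fun s => N • μ s)
      (a := fun s => φ d s / f i ^ (M * N))
      ((isU_loc (hΦ d i) (div_ne_zero (hΦ0 d) (pow_ne_zero _ (H.f_ne i)))).congr hsum.symm (by
        rw [Finset.prod_div_distrib, Finset.prod_const, hN', pow_mul]))
      (fun s _ => le_loc (hφ d s i)) (Finset.mem_univ s)
  have hV : ∀ d s, IsU (nonv C f N' (Φ d)) (N • μ s) (φ d s / φ d none) := fun d s =>
    IsU.iInf (div_ne_zero (d.2 s) (d.2 none)) fun i => ((hU d s i).mul (hU d none i).symm).congr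
      (by simp [μ]) (by
        have := H.f_ne i
        field_simp)
  have hcov : ∀ d, Covered C (nonv C f N' (Φ d)) := by
    intro d q hq
    by_contra hcon
    have hx : ∀ j, single 0 (f j ^ N' / Φ d) ∈ nonv C f N' (Φ d) := fun j =>
      (sec_pow H j N').div_mem_nonv H
    have hxq : ∀ j, (⟨_, hx j⟩ : nonv C f N' (Φ d)) ∈ q := fun j => by
      by_contra h
      exact hcon ⟨j, _, hx j, h, div_ne_zero (pow_ne_zero _ (H.f_ne j)) (hΦ0 d),
        by rw [inv_div]; exact hΦ d j, loc_nonv H (hΦ d) (hΦ0 d) hN'0 j⟩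
    let B := deg0 (nonv C f N' (Φ d))
    let p : Ideal B := q.comap ((singleZeroAlgHom.comp B.val).codRestrict _ fun x => x.2)
    have hp : p.IsPrime := Ideal.comap_isPrime _ _
    have hW : ∀ z, Sec C f (M * N) 0 z → z / φ d none ∈ B := fun z hz =>
      mem_nonv.mpr fun i => mon_congr (mon_mul (le_loc (hz i)) (hU d none i).inv)
        (by simp [μ]) (by
          have := H.f_ne i
          field_simp)
    have h1 : ∀ j, (⟨_, hW _ (sec_pow H j (M * N))⟩ : B) ∈ p := fun j => by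
      refine hp.mem_of_pow_mem (Finset.univ : Finset σ).card ?_
      have h2 : ∏ s, φ d s / φ d none ∈ B := mon_congr (mon_prod _ fun s _ => (hV d s).mem) hsum rfl
      convert p.mul_mem_left ⟨_, h2⟩ (show (⟨f j ^ N' / Φ d, hx j⟩ : B) ∈ p from hxq j) using 1
      refine Subtype.ext ?_
      have := hΦ0 d
      simp only [SubmonoidClass.mk_pow, MulMemClass.mk_mul_mk, Finset.prod_div_distrib,
        Finset.prod_const, div_pow, hN', pow_mul]
      change _ = Φ d / _ * _
      field_simp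
    let W : AddSubmonoid L :=
      { carrier := {z | ∃ h : z / φ d none ∈ B, (⟨_, h⟩ : B) ∈ p}
        add_mem' := fun {a b} ⟨ha, ha'⟩ ⟨hb, hb'⟩ => ⟨by rw [add_div]; exact add_mem ha hb, by
          convert add_mem ha' hb' using 1
          exact Subtype.ext (add_div _ _ _)⟩
        zero_mem' := ⟨by simp, by convert zero_mem p using 1; exact Subtype.ext (zero_div _)⟩ }
    obtain ⟨h, h'⟩ := coeff_gp_mem (G := G) idx (b none) W (fun r => by
      choose j hj _ using fun g => hsym g (r g)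
      have h3 : ∏ g, g • b none (r g) = ∏ g, f (j g) ^ M := Finset.prod_congr rfl fun g _ => by
        simp only [b, hu0, mul_one, smul_pow', hj]
      have h4 : Sec C f (M * N) 0 (∏ g, f (j g) ^ M) := by
        simpa using Sec.prod (Finset.univ : Finset G) (μ := fun _ => 0)
          fun g _ => sec_pow H (j g) M
      rw [h3]
      refine ⟨hW _ h4, hp.mem_of_pow_mem N ?_⟩
      convert Ideal.prod_mem p (Finset.mem_univ (1 : G)) (h1 (j 1))
        (f := fun g => (⟨_, hW _ (sec_pow H (j g) (M * N))⟩ : B)) using 1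
      refine Subtype.ext ?_
      simp only [SubmonoidClass.mk_pow, SubmonoidClass.coe_finsetProd, Finset.prod_div_distrib,
        Finset.prod_const, div_pow, pow_mul, Finset.prod_pow, Finset.card_univ, hN]) (d.1 none)
    refine hp.ne_top ((Ideal.eq_top_iff_one _).mpr ?_)
    convert h' using 1
    exact Subtype.ext (div_self (d.2 none)).symm
  refine ⟨τ, inferInstance, fun d => nonv C f N' (Φ d), Φ,
    ⟨fun d => isHom_nonv H, fun d ν a ha h => ((H.supp j₀).loc (H.hom j₀) InL.zero) ν a ha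
      (mem_nonv.mp h j₀), hΦG, hΦ0, fun d d' => (hΦ d).div_mem_nonv H, fun d d' ν a h => ?_,
      fun d a ha => mem_nonv_of_mem fun i => H.base i a (hA ha), fun d i hi => ?_,
      fun d i hi => mem_nonv_of_mem fun j => H.full j i hi, fun O hO => ?_⟩,
    fun d => ⟨?_, fun g ν a => smul_mem_nonv H (hΦ d) (hΦ0 d) hsym (hΦG d) g,
      fun c => mem_nonv_of_mem, hcov d⟩⟩
  · obtain ⟨l, hl⟩ := (mon_mem_nonv H (hΦ d) (hΦ0 d)).mp h
    refine ⟨l, (mon_mem_nonv H (hΦ d') (hΦ0 d')).mpr ⟨l, fun i => mon_congr (hl i) rfl ?_⟩⟩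
    rw [← mul_assoc, ← mul_pow]
    congr 2
    have := hΦ0 d'
    field_simp
  · exact ⟨N * n, Nat.mul_pos hN0 hn, _, div_mem (hφG d _) (hφG d _),
      (hV d (some (some ⟨i, hi⟩))).congr (smul_smul _ _ _) rfl⟩
  · obtain ⟨j, θ, hθ⟩ := H.proper O (hint O hO)
    have hc : ∀ s z, algebraMap L Ω z * (θ (μ s) / algebraMap L Ω (f j) ^ M) =
        algebraMap L Ω (z / f j ^ M) * θ (μ s) := fun s z => by
      rw [map_div₀, map_pow]; ring
    choose d hd hd' using fun s => exists_coeff_gp_unit (G := G) hidx (b s) O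
      (θ (μ s) / algebraMap L Ω (f j) ^ M)
      (fun g i => by rw [hc]; exact hθ _ _ ((hb s i).smul hsym g j)) fun g => by
        obtain ⟨i, hi, hi'⟩ := hsym g⁻¹ j
        have h1 : g⁻¹ • (g • b s i / f j ^ M) = b s i / f i ^ M := by
          rw [smul_div₀', smul_pow', inv_smul_smul, hi]
        have h2 : g • b s i / f j ^ M ≠ 0 := fun h => (hbU s i).ne (by rw [← h1, h, smul_zero])
        refine ⟨i, ?_, ?_⟩ <;> rw [hc]
        · exact mul_ne_zero ((map_ne_zero _).mpr h2) (char_ne_zero θ _)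
        · rw [mul_inv, ← map_inv₀, ← AddChar.map_neg_eq_inv]
          refine hθ _ _ ((hi' _ _).mpr ?_)
          rw [smul_inv'', h1]
          exact (hbU s i).inv
    refine ⟨⟨d, hd⟩, θ, fun ν a h => (hθ.loc (H.hom j) ?_) ν a (mem_nonv.mp h j)⟩
    convert prod_mem (t := Finset.univ) fun s _ => hd' s using 1
    have h3 : ∏ s, θ (μ s) = 1 := by
      rw [← AddChar.map_zero_eq_one θ, ← hμ]
      exact (map_prod θ.toMonoidHom (fun s => Multiplicative.ofAdd (μ s)) _).symm.trans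
        (by rw [← ofAdd_sum]; rfl)
    rw [Finset.prod_inv_distrib, Finset.prod_mul_distrib, Finset.prod_pow, Finset.prod_div_distrib,
      h3, Finset.prod_const, ← map_prod, AddChar.map_zero_eq_one, map_div₀, map_pow, hN', ← hN]
    congr 1
    simp only [Φ, φ]
    ring
  · refine lifts_of_cover (fun i hi => mem_nonv_of_mem fun j => (hl j).mem hi) fun q hq => ?_
    obtain ⟨j, x, hx, hxq, hx0, hx', he⟩ := hcov d q hq
    refine ⟨⟨_, hx⟩, hxq, _, isAway_loc hx hx0, ?_⟩
    rw [he]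
    exact (isAway_loc hx' (inv_ne_zero hx0)).lifts (hl j)

end Pool.Agent.MP_19ffc6_ag.Lin

end MrgPart0

-- ======== part 1: formerly Pool.Agent.MP_19ffc6_ag.Lin.Invar
section MrgPart1

/-!
The invariants of the final charts form an atlas of smooth charts.
-/

set_option autoImplicit false
set_option linter.unusedSectionVars false
set_option linter.style.haveILetI false

open AddMonoidAlgebra

namespace Pool.Agent.MP_19ffc6_ag.Lin

section Loc

variable {k E : Type} [Field k] [CommRing E] [Algebra k E] (O : Subalgebra k E) (Q : Ideal O)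
  [hQ : Q.IsPrime]

/-- The elements of the ambient ring lying in the localisation of `O` at `Q`. -/
def locAlg : Subalgebra k E where
  carrier := {c | ∃ u : O, u ∉ Q ∧ u * c ∈ O}
  add_mem' := by
    rintro x y ⟨u, hu, hx⟩ ⟨v, hv, hy⟩
    refine ⟨u * v, fun h => (hQ.mem_or_mem h).elim hu hv, ?_⟩
    convert add_mem (mul_mem v.2 hx) (mul_mem u.2 hy) using 1
    rw [MulMemClass.coe_mul]; ring
  mul_mem' := by
    rintro x y ⟨u, hu, hx⟩ ⟨v, hv, hy⟩
    refine ⟨u * v, fun h => (hQ.mem_or_mem h).elim hu hv, ?_⟩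
    convert mul_mem hx hy using 1
    rw [MulMemClass.coe_mul]; ring
  algebraMap_mem' r := ⟨1, (Ideal.ne_top_iff_one Q).mp hQ.ne_top, by simp⟩

lemma le_locAlg : O ≤ locAlg O Q := fun c hc =>
  ⟨1, (Ideal.ne_top_iff_one Q).mp hQ.ne_top, by simpa using hc⟩

/-- The trace of the maximal ideal. -/
def locMax : Ideal (locAlg O Q) where
  carrier := {c | ∃ u : O, u ∉ Q ∧ ∃ d ∈ Q, (u : E) * c = d}
  add_mem' := by
    rintro x y ⟨u, hu, d, hd, hx⟩ ⟨v, hv, e, he, hy⟩
    refine ⟨u * v, fun h => (hQ.mem_or_mem h).elim hu hv, v * d + u * e,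
      add_mem (Q.mul_mem_left _ hd) (Q.mul_mem_left _ he), ?_⟩
    simp only [MulMemClass.coe_mul, AddMemClass.coe_add, ← hx, ← hy]
    ring
  zero_mem' := ⟨1, (Ideal.ne_top_iff_one Q).mp hQ.ne_top, 0, zero_mem _, by simp⟩
  smul_mem' := by
    rintro ⟨x, u, hu, hx⟩ y ⟨v, hv, e, he, hy⟩
    refine ⟨u * v, fun h => (hQ.mem_or_mem h).elim hu hv, ⟨_, hx⟩ * e, Q.mul_mem_left _ he, ?_⟩
    simp only [MulMemClass.coe_mul, smul_eq_mul, ← hy]
    ring

variable {O Q}

lemma mem_of_mem_locMax {c : locAlg O Q} (hc : c ∈ locMax O Q) {a : O} (h : (c : E) = a) :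
    a ∈ Q := by
  obtain ⟨u, hu, d, hd, e⟩ := hc
  have : u * a = d := Subtype.ext (by rw [← e, h]; rfl)
  exact (hQ.mem_or_mem (this ▸ hd)).resolve_left hu

lemma isPrime_locMax : (locMax O Q).IsPrime := by
  refine ⟨(Ideal.ne_top_iff_one _).mpr fun h => (Ideal.ne_top_iff_one Q).mp hQ.ne_top
    (mem_of_mem_locMax h rfl), ?_⟩
  rintro ⟨x, u, hu, hx⟩ ⟨y, v, hv, hy⟩ ⟨w, hw, d, hd, e⟩
  have h1 : w * (⟨_, hx⟩ * ⟨_, hy⟩) = u * v * d := Subtype.ext (by
    simp only [MulMemClass.coe_mul, ← e]; ring)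
  have h2 := (hQ.mem_or_mem (h1 ▸ Q.mul_mem_left _ hd)).resolve_left hw
  exact (hQ.mem_or_mem h2).imp (fun h => ⟨u, hu, _, h, rfl⟩) fun h => ⟨v, hv, _, h, rfl⟩

lemma exists_clear (β : Polynomial (locAlg O Q)) : ∃ u : O, u ∉ Q ∧ ∃ β' : Polynomial O,
    β'.map O.val.toRingHom = Polynomial.C (u : E) * β.map (locAlg O Q).val.toRingHom := by
  induction β using Polynomial.induction_on' with
  | add p q hp hq =>
    obtain ⟨u, hu, p', hp⟩ := hp
    obtain ⟨v, hv, q', hq⟩ := hq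
    refine ⟨u * v, fun h => (hQ.mem_or_mem h).elim hu hv,
      Polynomial.C v * p' + Polynomial.C u * q', ?_⟩
    simp only [Polynomial.map_add, Polynomial.map_mul, Polynomial.map_C, hp, hq,
      MulMemClass.coe_mul, map_mul]
    change Polynomial.C (v : E) * _ + Polynomial.C (u : E) * _ = _
    ring
  | monomial n a =>
    obtain ⟨a, u, hu, ha⟩ := a
    exact ⟨u, hu, Polynomial.monomial n ⟨_, ha⟩, by simp [Polynomial.C_mul_monomial]⟩

end Loc

variable {k L Ω G : Type} [Field k] [Field L] [Algebra k L] [Field Ω] [Algebra L Ω]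
  [Group G] [Fintype G] [MulSemiringAction G L] [SMulCommClass G k L]

/-- The action on a stable subalgebra. -/
@[reducible] noncomputable def subAct (O : Subalgebra k (Amb L))
    (h : ∀ g : G, ∀ c ∈ O, g • c ∈ O) : MulSemiringAction G O where
  smul g c := ⟨g • (c : Amb L), h g c c.2⟩
  one_smul c := Subtype.ext (one_smul G (c : Amb L))
  mul_smul g g' c := Subtype.ext (mul_smul g g' (c : Amb L))
  smul_zero g := Subtype.ext (smul_zero g)
  smul_add g c c' := Subtype.ext (smul_add g (c : Amb L) c')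
  smul_one g := Subtype.ext (smul_one g)
  smul_mul g c c' := Subtype.ext (smul_mul' g (c : Amb L) c')

lemma nodeAt_of_locProp {J : Type} {C : J → Subalgebra k (Amb L)} {Δ : Finset Lat}
    (hloc : LocProp G C Δ) {O₀ O : Subalgebra k (Amb L)} (hcov : Covered C O₀)
    (hC : ∀ c, (∀ j, c ∈ C j) → c ∈ O₀) (hext : Ext O₀ O)
    (hΔ : ∀ δ ∈ Δ, single δ 1 ∈ O ∨ single (-δ) 1 ∈ O) [MulSemiringAction G O]
    (hact : ∀ (g : G) (c : O), ((g • c : O) : Amb L) = g • (c : Amb L))
    (Q : Ideal O) [hQ : Q.IsPrime] : NodeAt G Q := by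
  classical
  obtain ⟨j, x, hx, hxq, hx0, hx', he⟩ := hcov (Q.comap (Subalgebra.inclusion hext.le))
    (Ideal.comap_isPrime _ _)
  have hxx : (single 0 x : Amb L) * single 0 x⁻¹ = 1 := by simp [single_mul_single, hx0, one_def]
  have hle : loc (C j) 0 x⁻¹ ≤ locAlg O Q := he ▸ loc_le (hext.le.trans (le_locAlg O Q))
    ⟨⟨_, hext.le hx⟩, hxq, by rw [neg_zero, hxx]; exact one_mem _⟩
  have hstab : ∀ g ∈ Q.inertia G, ∀ c ∈ locAlg O Q, g • c ∈ locAlg O Q := by
    rintro g hg c ⟨u, hu, hc⟩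
    refine ⟨g • u, smul_notMem_of_inertia hg hu, ?_⟩
    rw [hact, ← smul_mul', ← hact g ⟨_, hc⟩]
    exact Subtype.property _
  rcases hloc j (locAlg O Q) (locMax O Q) isPrime_locMax (Q.inertia G) (le_loc.trans hle) hstab
    (fun g hg c hc => by
      refine ⟨⟨_, sub_mem (hstab g hg c hc) hc⟩, ?_, rfl⟩
      obtain ⟨u, hu, hc⟩ := hc
      refine ⟨g • u * u, fun h => (hQ.mem_or_mem h).elim (smul_notMem_of_inertia hg hu) hu,
        u * (g • ⟨_, hc⟩ - ⟨_, hc⟩) - ⟨_, hc⟩ * (g • u - u), sub_mem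
        (Q.mul_mem_left _ (AddSubgroup.mem_inertia.mp hg _))
        (Q.mul_mem_left _ (AddSubgroup.mem_inertia.mp hg _)), ?_⟩
      simp only [MulMemClass.coe_mul, AddSubgroupClass.coe_sub, hact, smul_mul']
      ring)
    (fun δ hδ => (hΔ δ hδ).imp (fun h => le_locAlg O Q h) fun h => le_locAlg O Q h) with
    hbot | ⟨θ, t, hθ, ⟨d, hd, hdθ⟩, ht, hβ, y, hy, β, hβ1, hyβ⟩
  · refine ⟨0, fun _ _ => zero_mem _, fun g hg g' hg' _ => ?_, fun c => Node.of_fixed ?_,
      Or.inl hbot⟩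
    · rw [hbot] at hg hg'
      exact (Subgroup.mem_bot.mp hg).trans (Subgroup.mem_bot.mp hg').symm
    · intro g hg
      rw [hbot] at hg
      rw [Subgroup.mem_bot.mp hg, one_smul]
  let T : O := ⟨_, hext.le (hC _ hθ)⟩
  have hclear : ∀ (β : Polynomial (locAlg O Q)) (u : O) (β' : Polynomial O) (c : O),
      β'.map O.val.toRingHom = Polynomial.C (u : Amb L) * β.map (locAlg O Q).val.toRingHom →
      ∀ g : G, g • (c : Amb L) = β.eval₂ (locAlg O Q).val.toRingHom (t g • single θ 1) →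
        u * g • c = β'.eval (t g • T) := by
    intro β u β' c h g hg
    refine Subtype.ext ?_
    have := congrArg (Polynomial.eval (t g • single θ 1)) h
    rw [Polynomial.eval_mul, Polynomial.eval_C, ← Polynomial.eval₂_eq_eval_map,
      ← Polynomial.eval₂_eq_eval_map, ← hg] at this
    rw [MulMemClass.coe_mul, hact, ← this]
    exact Polynomial.eval₂_hom O.val.toRingHom (t g • T)
  let W : Subalgebra k (Amb L) :=
    { carrier := {c | ∃ β : Polynomial (locAlg O Q), ∀ g ∈ Q.inertia G,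
        g • c = β.eval₂ (locAlg O Q).val.toRingHom (t g • single θ 1)}
      add_mem' := by
        rintro a b ⟨β, h⟩ ⟨γ, h'⟩
        exact ⟨β + γ, fun g hg => by rw [smul_add, Polynomial.eval₂_add, h g hg, h' g hg]⟩
      mul_mem' := by
        rintro a b ⟨β, h⟩ ⟨γ, h'⟩
        exact ⟨β * γ, fun g hg => by rw [smul_mul', Polynomial.eval₂_mul, h g hg, h' g hg]⟩
      algebraMap_mem' := fun r => ⟨Polynomial.C (algebraMap k _ r), fun g _ => by
        rw [smul_algebraMap, Polynomial.eval₂_C]; rfl⟩ }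
  have hW : O ≤ W := by
    obtain ⟨M, hM⟩ := hext
    refine hM.le.trans (sup_le ((le_loc.trans he.le).trans (loc_le hβ ?_)) (pure_le fun μ hμ => ?_))
    · obtain ⟨e, he⟩ := hβ _ hx'
      let s := Finset.univ.filter (· ∈ Q.inertia G)
      let τ : G → locAlg O Q := fun g => ⟨_, le_locAlg O Q (t g • T).2⟩
      have hτ : ∀ (P : Polynomial (locAlg O Q)) g, P.eval₂ (locAlg O Q).val.toRingHom
          (t g • single θ 1) = (P.eval (τ g) : locAlg O Q) := fun P g =>
        Polynomial.eval₂_hom (locAlg O Q).val.toRingHom (τ g)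
      obtain ⟨i, hi⟩ := exists_poly_inv τ e s
      have hmem : ∏ g ∈ s, g • (single 0 x : Amb L) ∈ locAlg O Q := prod_mem fun g hg =>
        hstab g (Finset.mem_filter.mp hg).2 _ (le_locAlg O Q (hM.ge (le_sup_left (a := O₀) hx)))
      refine ⟨Polynomial.C ⟨_, hmem⟩ * i, fun g hg => ?_⟩
      have h1 := congrArg Subtype.val (hi g (by simpa [s] using hg))
      rw [MulMemClass.coe_mul, SubmonoidClass.coe_finsetProd, ← hτ, ← he g hg,
        Finset.prod_congr rfl fun g' hg' => by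
          rw [← hτ, ← he g' (Finset.mem_filter.mp hg').2]] at h1
      have h2 : (∏ g ∈ s, g • (single 0 x : Amb L)) * ∏ g ∈ s, g • (single 0 x⁻¹ : Amb L) = 1 := by
        rw [← Finset.prod_mul_distrib]
        exact Finset.prod_eq_one fun g _ => by rw [← smul_mul', hxx, smul_one]
      have h3 : g • (single 0 x : Amb L) * g • (single 0 x⁻¹ : Amb L) = 1 := by
        rw [← smul_mul', hxx, smul_one]
      rw [Polynomial.eval₂_mul, Polynomial.eval₂_C, hτ, neg_zero, inv_inv]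
      change _ = (∏ g ∈ s, g • (single 0 x : Amb L)) * _
      linear_combination (-(g • (single 0 x : Amb L))) * h2 -
        (g • (single 0 x : Amb L) * ∏ g ∈ s, g • (single 0 x : Amb L)) * h1 +
        ((∏ g ∈ s, g • (single 0 x : Amb L)) * (i.eval (τ g) : locAlg O Q)) * h3
    · exact ⟨Polynomial.C ⟨_, le_locAlg O Q (hM.ge (le_sup_right (a := O₀) (mem_pure hμ)))⟩,
        fun g _ => by simp⟩
  refine ⟨fun g => t g • T, fun g _ => Q.smul_of_tower_mem _ (mem_of_mem_locMax hd hdθ),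
    fun g hg g' hg' h => ht hg hg' ?_, fun c => ?_, Or.inr ?_⟩
  · have h1 := congrArg (fun z : O => (z : Amb L).coeff θ) h
    simp only [T, SetLike.mk_smul_mk, smul_single, coeff_single, Finsupp.single_eq_same] at h1
    exact smul_left_injective k one_ne_zero h1
  · obtain ⟨β, hβ⟩ := hW c.2
    obtain ⟨u, hu, β', h⟩ := exists_clear β
    exact ⟨u, hu, β', fun g hg => hclear β u β' c h g (hβ g hg)⟩
  · obtain ⟨u, hu, huy⟩ := hle (le_loc hy)
    let v : O := ∏ g : Q.inertia G, (g : G) • u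
    have hv : v ∉ Q := fun h => by
      obtain ⟨g, -, hg⟩ := Ideal.IsPrime.prod_mem_iff.mp h
      exact smul_notMem_of_inertia g.2 hu hg
    have hvG : ∀ g ∈ Q.inertia G, g • v = v := fun g hg => by
      rw [Finset.smul_prod']
      exact Fintype.prod_equiv (Equiv.mulLeft (⟨g, hg⟩ : Q.inertia G)) _ _ fun g' => by
        simp [mul_smul]
    have hvy : (v : Amb L) * y ∈ O := by
      simp only [v]
      rw [← Finset.prod_erase_mul _ _ (Finset.mem_univ 1), MulMemClass.coe_mul, mul_assoc]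
      exact mul_mem (Subtype.property _) (by simpa using huy)
    obtain ⟨w, hw, β', h⟩ := exists_clear (Polynomial.C ⟨_, le_locAlg O Q v.2⟩ * β)
    refine ⟨⟨_, hvy⟩, w, hw, β', fun h1 => hβ1 ⟨w * v, fun h => (hQ.mem_or_mem h).elim hw hv,
      _, h1, ?_⟩, fun g hg => hclear _ w β' _ h g ?_⟩
    · have := congrArg (fun P => P.coeff 1) h
      simp only [Polynomial.coeff_map, Polynomial.coeff_C_mul, map_mul] at this
      rw [MulMemClass.coe_mul, mul_assoc]
      exact this.symm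
    · rw [Polynomial.eval₂_mul, Polynomial.eval₂_C, ← hyβ g hg, smul_mul', ← hact, hvG g hg]
      rfl

variable (k L G) in
/-- The invariant elements of the ambient ring. -/
def fixAlg : Subalgebra k (Amb L) where
  carrier := {c | ∀ g : G, g • c = c}
  add_mem' := fun ha hb g => by rw [smul_add, ha g, hb g]
  mul_mem' := fun ha hb g => by rw [smul_mul', ha g, hb g]
  algebraMap_mem' := fun r g => smul_algebraMap g r

lemma mon_mem_fixAlg {μ : Lat} {a : L} :
    single μ a ∈ fixAlg k L G ↔ a ∈ FixedPoints.subfield G L :=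
  forall_congr' fun g => by rw [smul_single, single_right_inj]

lemma isHom_fixAlg : IsHom (fixAlg k L G) := fun c hc μ => mon_mem_fixAlg.mpr fun g => by
  rw [← coeff_smul_apply, hc g]

lemma smooth_fix {J : Type} {C : J → Subalgebra k (Amb L)} {Δ : Finset Lat}
    (hloc : LocProp G C Δ) {O₀ O : Subalgebra k (Amb L)} (hcov : Covered C O₀)
    (hC : ∀ c, (∀ j, c ∈ C j) → c ∈ O₀) (hext : Ext O₀ O) (h0 : IsHom O₀)
    (hstab : ∀ (g : G) μ a, single μ a ∈ O₀ → single μ (g • a) ∈ O₀)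
    (hfaith : ∀ g : G, (∀ a, single 0 a ∈ O₀ → g • a = a) → g = 1)
    (hΔ : ∀ δ ∈ Δ, single δ 1 ∈ O ∨ single (-δ) 1 ∈ O) [Algebra.Smooth k O] :
    Algebra.Smooth k ↥(O ⊓ fixAlg k L G) := by
  have hst : ∀ g : G, ∀ c ∈ O, g • c ∈ O := fun g => by
    have : O ≤ O.comap (MulSemiringAction.toAlgHom k (Amb L) g) := by
      obtain ⟨M, hM⟩ := hext
      refine hM.le.trans (sup_le (h0.le fun μ a h => ?_) (pure_le fun μ hμ => ?_))
      · change g • single μ a ∈ O
        rw [smul_single]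
        exact hM.ge (le_sup_left (a := O₀) (hstab g μ a h))
      · change g • single μ (1 : L) ∈ O
        rw [smul_single, smul_one]
        exact hM.ge (le_sup_right (a := O₀) (mem_pure hμ))
    exact this
  letI := subAct O hst
  have hact : ∀ (g : G) (c : O), ((g • c : O) : Amb L) = g • (c : Amb L) := fun _ _ => rfl
  letI : Algebra ↥(O ⊓ fixAlg k L G) O := (Subalgebra.inclusion inf_le_left).toRingHom.toAlgebra
  haveI : IsScalarTower k ↥(O ⊓ fixAlg k L G) O := .of_algebraMap_eq fun _ => rfl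
  haveI : SMulCommClass G k O := ⟨fun g r c => Subtype.ext (smul_comm g r (c : Amb L))⟩
  haveI : SMulCommClass G ↥(O ⊓ fixAlg k L G) O := ⟨fun g s c => Subtype.ext (by
    change g • ((s : Amb L) * c) = s * g • (c : Amb L)
    rw [smul_mul', s.2.2 g])⟩
  haveI : FaithfulSMul G O := ⟨fun {g g'} h => by
    refine inv_mul_eq_one.mp (hfaith _ fun a ha => ?_)
    have := congrArg Subtype.val (h ⟨_, hext.le ha⟩)
    rw [hact, hact, smul_single, smul_single, single_right_inj] at this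
    rw [mul_smul, ← this, inv_smul_smul]⟩
  haveI : Algebra.IsInvariant ↥(O ⊓ fixAlg k L G) O G := ⟨fun c hc =>
    ⟨⟨c, c.2, fun g => congrArg Subtype.val (hc g)⟩, rfl⟩⟩
  exact smooth_of_invariant_nodes (G := G) (O := O) (Subalgebra.inclusion_injective _)
    fun Q _ => nodeAt_of_locProp hloc hcov hC hext hΔ hact Q

lemma IsAtlas.fix {A : Subalgebra k L} (hA : ∀ a ∈ A, a ∈ FixedPoints.subfield G L) {m : ℕ}
    {ι : Type} {C : ι → Subalgebra k (Amb L)} {f : ι → L}
    (H : IsAtlas Ω (FixedPoints.subfield G L) A m C f) :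
    IsAtlas Ω (FixedPoints.subfield G L) A m (fun j => C j ⊓ fixAlg k L G) f where
  hom j := (H.hom j).inf isHom_fixAlg
  supp j μ a ha h := H.supp j μ a ha h.1
  f_mem := H.f_mem
  f_ne := H.f_ne
  ratio i j := ⟨H.ratio i j, mon_mem_fixAlg.mpr (div_mem (H.f_mem i) (H.f_mem j))⟩
  comp i j μ a h := by
    obtain ⟨N, hN⟩ := H.comp i j μ a h.1
    exact ⟨N, hN, mon_mem_fixAlg.mpr (mul_mem (pow_mem (div_mem (H.f_mem i) (H.f_mem j)) N)
      (mon_mem_fixAlg.mp h.2))⟩
  base j a ha := ⟨H.base j a ha, mon_mem_fixAlg.mpr (hA a ha)⟩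
  fin j i hi := by
    obtain ⟨n, hn, a, ha, h⟩ := H.fin j i hi
    exact ⟨n, hn, a, ha, h.ne, ⟨h.mem, mon_mem_fixAlg.mpr ha⟩,
      ⟨h.inv, mon_mem_fixAlg.mpr (inv_mem ha)⟩⟩
  full j i hi := ⟨H.full j i hi, mon_mem_fixAlg.mpr (one_mem _)⟩
  proper O hO := by
    obtain ⟨j, θ, h⟩ := H.proper O hO
    exact ⟨j, θ, fun μ a ha => h μ a ha.1⟩

/-- An equivariant atlas with good local structure resolves the ring of invariants. -/
theorem hasRes_of_sym [IsAlgClosed Ω] [Algebra k Ω] [IsScalarTower k L Ω] {R : Subalgebra k L}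
    (hR : ∀ g : G, ∀ a ∈ R, g • a ∈ R) (hL : ∀ x : L, ∃ a ∈ R, a ≠ 0 ∧ a * x ∈ R)
    (hfaith : ∀ g : G, (∀ a ∈ R, g • a = a) → g = 1)
    {A₀ : Type} [CommRing A₀] [Algebra k A₀] (α : A₀ →ₐ[k] L) (hα : Function.Injective α)
    (hA : ∀ x, x ∈ α.range ↔ x ∈ R ∧ ∀ g : G, g • x = x)
    {J : Type} [Finite J] {m : ℕ} {lam : ℕ → Lat} {C : J → Subalgebra k (Amb L)} {f : J → L}
    {Δ : Finset Lat} (H : IsAtlas Ω ⊤ R m C f) (hl : ∀ j, Lifts (C j) m fun i => single (lam i) 1)
    (hs : Span m lam) (hsym : Sym G C f) (hΔ : ∀ δ ∈ Δ, InL m δ) (hloc : LocProp G C Δ) :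
    HasRes k A₀ := by
  classical
  obtain ⟨τ, _, O₀, φ, H₀, h₀⟩ := stable H hl hsym α.range (fun x hx => ((hA x).mp hx).1)
    fun O hO a ha => by
      have h1 : ∀ d, (MulSemiringAction.charpoly G a).coeff d ∈ α.range := fun d => by
        refine (hA _).mpr ⟨?_, fun g => MulSemiringAction.smul_coeff_charpoly a d g⟩
        have : MulSemiringAction.charpoly G a = (∏ g : G, (Polynomial.X - Polynomial.C
            (⟨g • a, hR g a ha⟩ : R))).map R.val.toRingHom := by
          simp [MulSemiringAction.charpoly_eq, Polynomial.map_prod]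
        rw [this, Polynomial.coeff_map]
        exact Subtype.property _
      obtain ⟨P, hP, -, hP'⟩ := Polynomial.lifts_and_natDegree_eq_and_monic
        (f := algebraMap O Ω) (p := (MulSemiringAction.charpoly G a).map (algebraMap L Ω))
        ((Polynomial.lifts_iff_coeff_lifts _).mpr fun d =>
          ⟨⟨_, hO _ (h1 d)⟩, by rw [Polynomial.coeff_map]; rfl⟩)
        ((MulSemiringAction.monic_charpoly G a).map _)
      obtain ⟨z, hz⟩ := IsIntegrallyClosed.isIntegral_iff.mp (show IsIntegral O (algebraMap L Ω a)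
        from ⟨P, hP', by rw [Polynomial.eval₂_eq_eval_map, hP, Polynomial.eval_map,
          Polynomial.eval₂_hom, MulSemiringAction.eval_charpoly, map_zero]⟩)
      exact hz ▸ z.2
  obtain ⟨m', lam', -, ι, _, O, ψ, H', -, h'⟩ := toric_all (Ω := Ω)
    (K := FixedPoints.subfield G L) (A := α.range) (C₀ := O₀) (m := m) (lam := lam)
    ⟨τ, inferInstance, O₀, φ, H₀, hs, fun t => ⟨(h₀ t).1, ⟨t, Ext.refl _⟩, trivial⟩⟩ Δ hΔ
  refine hasRes_of_atlas (Ω := Ω) (K := FixedPoints.subfield G L) α hα (fun x hx => ?_)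
    ⟨ι, inferInstance, _, ψ, H'.fix fun a ha => ((hA a).mp ha).2, fun j =>
      ⟨?_, fun μ a h => mon_mem_fixAlg.mp h.2, trivial⟩⟩
  · obtain ⟨a, ha, ha0, hax⟩ := hL x
    have hn : ∀ h : G, h • ∏ g : G, g • a = ∏ g : G, g • a := fun h => by
      rw [Finset.smul_prod']
      exact Fintype.prod_equiv (Equiv.mulLeft h) _ _ fun g => by simp [mul_smul]
    obtain ⟨b, hb⟩ := (hA _).mpr ⟨prod_mem fun g _ => hR g a ha, hn⟩
    have hb' : α b = ∏ g : G, g • a := hb
    refine ⟨b, fun h => ?_, (hA _).mpr ⟨?_, fun g => by rw [smul_mul', hb', hn, hx g]⟩⟩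
    · rw [h, map_zero] at hb'
      obtain ⟨g, -, hg⟩ := Finset.prod_eq_zero_iff.mp hb'.symm
      exact ha0 ((smul_eq_zero_iff_eq g).mp hg)
    · rw [hb', ← Finset.prod_erase_mul _ _ (Finset.mem_univ 1), one_smul, mul_assoc]
      exact mul_mem (prod_mem fun g _ => hR g a ha) hax
  · obtain ⟨h1, ⟨t, h2⟩, h3⟩ := h' j
    have := h1.smooth
    exact smooth_fix hloc (h₀ t).2.2.2 (h₀ t).2.2.1 h2 (H₀.hom t) (h₀ t).2.1
      (fun g hg => hfaith g fun a ha => hg a ((h₀ t).2.2.1 _ fun i => H.base i a ha)) h3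

end Pool.Agent.MP_19ffc6_ag.Lin

end MrgPart1

-- ======== part 2: formerly Pool.Agent.MP_19ffc6_ag.Lin.WondA
section MrgPart2

/-!
The charts of the wonderful model of a finite arrangement of subspaces.
-/

set_option autoImplicit false
set_option linter.unusedSectionVars false
set_option linter.style.haveILetI false

open AddMonoidAlgebra

namespace Pool.Agent.MP_19ffc6_ag.Lin

/-- Total degree of the boundary divisors from `a` on. -/
noncomputable def EE (n a : ℕ) : Lat := if a ≤ n then ee a else 0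

/-- Degree of the boundary divisor number `d`. -/
noncomputable def lamW (n d : ℕ) : Lat := EE n d - EE n (d + 1)

lemma inL_EE (n a : ℕ) : InL (n + 1) (EE n a) := by
  unfold EE
  split_ifs with h
  exacts [InL.basis (by omega), InL.zero]

lemma inL_lamW (n d : ℕ) : InL (n + 1) (lamW n d) := (inL_EE n d).sub (inL_EE n (d + 1))

lemma EE_sub (n : ℕ) {a b : ℕ} (h : a ≤ b) :
    EE n a - EE n b = ∑ d ∈ Finset.Ico a b, lamW n d := by
  induction b, h using Nat.le_induction with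
  | base => simp
  | succ b hb ih => rw [Finset.sum_Ico_succ_top hb, ← ih, lamW]; abel

lemma ee_eq {n a : ℕ} (h : a < n + 1) : ee a = EE n a - EE n (n + 1) := by
  rw [EE, EE, if_pos (by omega), if_neg (by omega), sub_zero]

lemma span_lamW (n : ℕ) : Span (n + 1) (lamW n) := by
  intro μ hμ
  rw [hμ.eq_sum]
  refine Finset.sum_induction _ (fun μ => ∃ c : ℕ → ℤ,
    μ = ∑ i ∈ Finset.range (n + 1), c i • lamW n i) ?_ ⟨0, by simp⟩ fun i hi => ?_
  · rintro _ _ ⟨c, rfl⟩ ⟨c', rfl⟩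
    exact ⟨c + c', by simp [add_smul, Finset.sum_add_distrib]⟩
  · have hi := Finset.mem_range.mp hi
    refine ⟨fun d => if i ≤ d then μ i else 0, ?_⟩
    rw [ee_eq hi, EE_sub n hi.le, Finset.smul_sum]
    simp only [ite_smul, zero_smul]
    rw [← Finset.sum_filter]
    exact Finset.sum_congr (by ext d; simp [and_comm]) fun _ _ => rfl

variable {k L V G : Type} [Field k] [Field L] [Algebra k L] [AddCommGroup V] [Module k V]
  [Group G] [DistribMulAction G V] [SMulCommClass G k V]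

section Int

variable {C : Subalgebra k (Amb L)} {n a b : ℕ}

lemma mon_EE (h1 : ∀ d, single (lamW n d) 1 ∈ C) (h : a ≤ b) : single (EE n a - EE n b) 1 ∈ C :=
  mon_congr (mon_prod _ fun d _ => h1 d) (EE_sub n h).symm Finset.prod_const_one

lemma isU_lamW (h1 : ∀ d, single (lamW n d) 1 ∈ C) (h : a < b)
    (hu : IsU C (EE n a - EE n b) 1) : IsU C (lamW n a) 1 :=
  IsU.of_prod (s := Finset.Ico a b) (μ := lamW n) (a := fun _ => 1)
    (hu.congr (EE_sub n h.le) Finset.prod_const_one.symm) (fun d _ => h1 d) (by simp [h])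

lemma isU_EE (h : a ≤ b) (hu : ∀ d, a ≤ d → d < b → IsU C (lamW n d) 1) :
    IsU C (EE n a - EE n b) 1 :=
  (IsU.prod _ fun d hd => hu d (Finset.mem_Ico.mp hd).1 (Finset.mem_Ico.mp hd).2).congr
    (EE_sub n h).symm Finset.prod_const_one

end Int

variable (k) in
/-- The nonzero subspaces spanned by elements of `Ξ`. -/
abbrev Flat (Ξ : SubMulAction G V) : Type :=
  {F : Submodule k V // F ≠ ⊥ ∧ F ≤ Submodule.span k ((Ξ : Set V) ∩ F)}

variable {Ξ : SubMulAction G V}

noncomputable instance [Finite Ξ] : Fintype (Flat k Ξ) := by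
  have : Finite (Flat k Ξ) := Finite.of_injective
    (fun F : Flat k Ξ => {x : Ξ | (x : V) ∈ F.1}) (by
      have key : ∀ F F' : Flat k Ξ, {x : Ξ | (x : V) ∈ F.1} = {x : Ξ | (x : V) ∈ F'.1} →
          F.1 ≤ F'.1 := fun F F' h => F.2.2.trans (Submodule.span_le.mpr fun x hx =>
            (Set.ext_iff.mp h ⟨x, hx.1⟩).mp hx.2)
      exact fun F F' h => Subtype.ext (le_antisymm (key _ _ h) (key _ _ h.symm)))
  exact Fintype.ofFinite _

instance : MulAction G (Flat k Ξ) where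
  smul g F := ⟨F.1.comap (DistribSMul.toLinearMap k V g⁻¹), by
    obtain ⟨x, hx, hx0⟩ := (Submodule.ne_bot_iff _).mp F.2.1
    refine (Submodule.ne_bot_iff _).mpr ⟨g • x, ?_, (smul_ne_zero_iff_ne g).mpr hx0⟩
    change g⁻¹ • g • x ∈ F.1
    rwa [inv_smul_smul], by
    intro x hx
    have h1 : g • g⁻¹ • x ∈ (Submodule.span k ((Ξ : Set V) ∩ F.1)).map
      (DistribSMul.toLinearMap k V g) := ⟨_, F.2.2 hx, rfl⟩
    rw [smul_inv_smul, Submodule.map_span] at h1
    refine Submodule.span_mono ?_ h1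
    rintro _ ⟨y, hy, rfl⟩
    refine ⟨Ξ.smul_mem g hy.1, ?_⟩
    change g⁻¹ • g • y ∈ F.1
    rw [inv_smul_smul]
    exact hy.2⟩
  one_smul F := Subtype.ext (Submodule.ext fun x => by
    change (1 : G)⁻¹ • x ∈ F.1 ↔ _
    simp)
  mul_smul g g' F := Subtype.ext (Submodule.ext fun x => by
    change (g * g')⁻¹ • x ∈ F.1 ↔ g'⁻¹ • g⁻¹ • x ∈ F.1
    rw [mul_inv_rev, mul_smul])

lemma mem_smul_flat {g : G} {F : Flat k Ξ} {x : V} : x ∈ (g • F).1 ↔ g⁻¹ • x ∈ F.1 := Iff.rfl

/-- The dimension of a flat. -/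
noncomputable def dm (F : Flat k Ξ) : ℕ := Module.finrank k F.1

lemma dm_smul (g : G) (F : Flat k Ξ) : dm (g • F) = dm F := by
  have : (g • F).1 = F.1.map (DistribMulAction.toLinearEquiv k V g).toLinearMap := by
    rw [Submodule.map_equiv_eq_comap_symm]; rfl
  rw [dm, this, LinearEquiv.finrank_map_eq, dm]

variable [FiniteDimensional k V]

lemma dm_mono {F F' : Flat k Ξ} (h : F ≤ F') : dm F ≤ dm F' := Submodule.finrank_mono h

lemma eq_of_dm {F F' : Flat k Ξ} (h : F ≤ F') (h' : dm F' ≤ dm F) : F = F' :=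
  Subtype.ext (Submodule.eq_of_le_of_finrank_le h h')

lemma dm_le (F : Flat k Ξ) : dm F ≤ Module.finrank k V := Submodule.finrank_le _

variable (k Ξ) in
/-- A closure operator on flats with totally ordered image, and a nonzero vector in each flat. -/
structure Idx where
  h : Flat k Ξ → Flat k Ξ
  ξ : Flat k Ξ → Ξ
  le : ∀ F, F ≤ h F
  idem : ∀ F, h (h F) = h F
  mono : ∀ F F', F ≤ F' → h F ≤ h F'
  tot : ∀ F F', h F ≤ h F' ∨ h F' ≤ h F
  mem : ∀ F, (ξ F : V) ∈ F.1
  ne : ∀ F, (ξ F : V) ≠ 0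

instance [Finite Ξ] : Finite (Idx k Ξ) :=
  Finite.of_injective (fun j : Idx k Ξ => (j.h, j.ξ)) (by
    rintro ⟨⟩ ⟨⟩ h
    obtain ⟨rfl, rfl⟩ := Prod.ext_iff.mp h
    rfl)

namespace Idx

variable (j : Idx k Ξ) (ι : V →ₗ[k] L)

lemma le_of_dm {F F' : Flat k Ξ} (h : dm (j.h F) ≤ dm (j.h F')) : j.h F ≤ j.h F' :=
  (j.tot F F').elim id fun h' => (eq_of_dm h' h).ge

/-- The degree of a flat in a chart. -/
noncomputable def deg (F : Flat k Ξ) : Lat := EE (Module.finrank k V) (dm (j.h F))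

/-- The chart attached to an index. -/
noncomputable def chart : Subalgebra k (Amb L) := Algebra.adjoin k
  {c | (∃ d, c = single (lamW (Module.finrank k V) d) 1) ∨
    (∃ d, (∀ F, dm (j.h F) ≠ d) ∧ c = single (-lamW (Module.finrank k V) d) 1) ∨
    (∃ F, ∃ x ∈ (j.h F).1, c = single (-j.deg F) (ι x)) ∨
    ∃ F, c = single (j.deg F) (ι (j.ξ F))⁻¹}

lemma chart_le {D : Subalgebra k (Amb L)} (h1 : ∀ d, single (lamW (Module.finrank k V) d) 1 ∈ D)
    (h2 : ∀ d, (∀ F, dm (j.h F) ≠ d) → single (-lamW (Module.finrank k V) d) 1 ∈ D)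
    (h3 : ∀ F, ∀ x ∈ (j.h F).1, single (-j.deg F) (ι x) ∈ D)
    (h4 : ∀ F, single (j.deg F) (ι (j.ξ F))⁻¹ ∈ D) : j.chart ι ≤ D := by
  refine Algebra.adjoin_le ?_
  rintro _ (⟨d, rfl⟩ | ⟨d, hd, rfl⟩ | ⟨F, x, hx, rfl⟩ | ⟨F, rfl⟩)
  exacts [h1 d, h2 d hd, h3 F x hx, h4 F]

lemma gen1 (d : ℕ) : single (lamW (Module.finrank k V) d) 1 ∈ j.chart ι :=
  Algebra.subset_adjoin (.inl ⟨d, rfl⟩)

lemma gen2 {d : ℕ} (hd : ∀ F, dm (j.h F) ≠ d) :
    IsU (j.chart ι) (lamW (Module.finrank k V) d) 1 :=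
  ⟨one_ne_zero, j.gen1 ι d, Algebra.subset_adjoin (.inr (.inl ⟨d, hd, by rw [inv_one]⟩))⟩

lemma gen3 {F : Flat k Ξ} {x : V} (hx : x ∈ (j.h F).1) : single (-j.deg F) (ι x) ∈ j.chart ι :=
  Algebra.subset_adjoin (.inr (.inr (.inl ⟨F, x, hx, rfl⟩)))

lemma gen4 (F : Flat k Ξ) : single (j.deg F) (ι (j.ξ F))⁻¹ ∈ j.chart ι :=
  Algebra.subset_adjoin (.inr (.inr (.inr ⟨F, rfl⟩)))

variable {ι} in
lemma isU_ξ (hι0 : ∀ x, x ≠ 0 → ι x ≠ 0) (F : Flat k Ξ) :
    IsU (j.chart ι) (-j.deg F) (ι (j.ξ F)) :=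
  ⟨hι0 _ (j.ne F), j.gen3 ι (j.le F (j.mem F)), by rw [neg_neg]; exact j.gen4 ι F⟩

lemma isHom_chart : IsHom (j.chart ι) := isHom_adjoin (by
  rintro _ (⟨d, rfl⟩ | ⟨d, hd, rfl⟩ | ⟨F, x, hx, rfl⟩ | ⟨F, rfl⟩) <;> exact ⟨_, _, rfl⟩)

lemma supp_chart : Supp (Module.finrank k V + 1) (j.chart ι) :=
  supp_of_le (j.chart_le ι (fun d => mon_mem_suppAlg (inL_lamW _ d))
    (fun d _ => mon_mem_suppAlg (inL_lamW _ d).neg)
    (fun _ _ _ => mon_mem_suppAlg (inL_EE _ _).neg) fun _ => mon_mem_suppAlg (inL_EE _ _))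

open Classical in
/-- The flat whose vector is used in a factor of the section. -/
noncomputable def pick (q : Flat k Ξ × Option (Flat k Ξ)) : Flat k Ξ :=
  match q.2 with
  | none => q.1
  | some F => if j.h F = q.1 then F else q.1

lemma pick_spec (q : Flat k Ξ × Option (Flat k Ξ)) :
    j.pick q ≤ q.1 ∧ j.h (j.pick q) = j.h q.1 := by
  obtain ⟨F', _ | F⟩ := q
  · exact ⟨le_rfl, rfl⟩
  · simp only [pick]
    split_ifs with h
    · exact ⟨h ▸ j.le F, by rw [← h, j.idem]⟩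
    · exact ⟨le_rfl, rfl⟩

/-- The section attached to an index. -/
noncomputable def sec [Finite Ξ] : L := ∏ q, ι (j.ξ (j.pick q))

variable {ι}

lemma factor (i : Idx k Ξ) (q : Flat k Ξ × Option (Flat k Ξ)) :
    single 0 (ι (i.ξ (i.pick q)) / ι (j.ξ (j.pick q))) ∈ j.chart ι :=
  mon_congr (mon_mul (j.gen3 ι (j.le q.1 ((i.pick_spec q).1 (i.mem _)))) (j.gen4 ι (j.pick q)))
    (by rw [deg, deg, (j.pick_spec q).2, neg_add_cancel]) (div_eq_mul_inv _ _).symm

lemma ratio [Finite Ξ] (i : Idx k Ξ) : single 0 (i.sec ι / j.sec ι) ∈ j.chart ι :=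
  mon_congr (mon_prod Finset.univ fun q _ => j.factor i q) Finset.sum_const_zero
    (Finset.prod_div_distrib ..)

lemma sec_ne [Finite Ξ] (hι0 : ∀ x, x ≠ 0 → ι x ≠ 0) : j.sec ι ≠ 0 :=
  Finset.prod_ne_zero_iff.mpr fun _ _ => hι0 _ (j.ne _)

lemma comp [Finite Ξ] (hι0 : ∀ x, x ≠ 0 → ι x ≠ 0) (i : Idx k Ξ) :
    i.chart ι ≤ loc (j.chart ι) 0 (i.sec ι / j.sec ι) := by
  set D := loc (j.chart ι) 0 (i.sec ι / j.sec ι)
  have hle : j.chart ι ≤ D := le_loc
  have h0 : IsU D 0 (i.sec ι / j.sec ι) :=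
    isU_loc (j.ratio i) (div_ne_zero (i.sec_ne hι0) (j.sec_ne hι0))
  have h1 : ∀ q, IsU D (-j.deg q.1) (ι (i.ξ (i.pick q))) := fun q =>
    ((IsU.of_prod (s := Finset.univ) (μ := fun _ => 0)
      (a := fun q => ι (i.ξ (i.pick q)) / ι (j.ξ (j.pick q)))
      (h0.congr Finset.sum_const_zero.symm (Finset.prod_div_distrib ..).symm)
      (fun q _ => hle (j.factor i q)) (Finset.mem_univ q)).mul
      ((j.isU_ξ hι0 (j.pick q)).mono hle)).congr
      (by rw [zero_add, deg, deg, (j.pick_spec q).2]) (div_mul_cancel₀ _ (hι0 _ (j.ne _)))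
  have h2 : ∀ F, IsU D (-j.deg (i.h F)) (ι (i.ξ F)) := fun F => by
    simpa [pick] using h1 (i.h F, some F)
  have hs : ∀ d, single (lamW (Module.finrank k V) d) 1 ∈ D := fun d => hle (j.gen1 ι d)
  have key : ∀ d, IsU D (lamW (Module.finrank k V) d) 1 ∨
      ∃ F, i.h F = F ∧ j.h F = F ∧ dm F = d := fun d => by
    by_cases hd : ∀ F, dm (j.h F) ≠ d
    · exact .inl ((j.gen2 ι hd).mono hle)
    push Not at hd
    obtain ⟨F, rfl⟩ := hd
    rcases (dm_mono (i.le (j.h F))).eq_or_lt with h | h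
    · exact .inr ⟨_, (eq_of_dm (i.le _) h.ge).symm, j.idem F, rfl⟩
    · refine .inl (isU_lamW hs (h.trans_le (dm_mono (j.le _))) ?_)
      refine ((h2 (j.h F)).mul (h1 (j.h F, none)).symm).congr ?_ (mul_inv_cancel₀ (h2 _).ne)
      simp only [deg, j.idem]
      abel
  refine i.chart_le ι hs (fun d hd => ?_) (fun F x hx => ?_) fun F => ?_
  · rcases key d with h | ⟨F, h, -, rfl⟩
    · simpa using h.inv
    · exact absurd (congrArg dm h) (hd F)
  · have := isU_EE (C := D) (n := Module.finrank k V) (dm_mono (j.le (i.h F))) fun d hd hd' =>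
      (key d).resolve_right (by
        rintro ⟨F', h, h', rfl⟩
        have h3 := j.mono _ _ (i.le_of_dm (hd.trans (dm_mono (i.le F'))))
        rw [h, h'] at h3
        exact absurd (dm_mono h3) (by omega))
    exact mon_congr (mon_mul (hle (j.gen3 ι (j.le _ hx))) this.inv) (by simp only [deg]; abel)
      (by simp)
  · exact mon_congr (mon_mul (h2 F).inv (mon_EE hs (dm_mono (j.le (i.h F)))))
      (by simp only [deg]; abel) (mul_one _)

lemma full {a : ℕ} (ha : a < Module.finrank k V + 1) : single (ee a) 1 ∈ j.chart ι :=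
  ee_eq ha ▸ mon_EE (j.gen1 ι) ha.le

lemma fin (hι0 : ∀ x, x ≠ 0 → ι x ≠ 0) {a : ℕ} (ha : a ≤ Module.finrank k V + 1) :
    ∃ b, IsU (j.chart ι) (EE (Module.finrank k V) a) b := by
  induction ha using Nat.decreasingInduction with
  | self => exact ⟨1, by rw [EE, if_neg (by omega)]; exact IsU.one⟩
  | of_succ a ha ih =>
    by_cases hd : ∀ F, dm (j.h F) ≠ a
    · obtain ⟨b, hb⟩ := ih
      exact ⟨_, ((j.gen2 ι hd).mul hb).congr (by rw [lamW, sub_add_cancel]) rfl⟩
    · push Not at hd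
      obtain ⟨F, rfl⟩ := hd
      exact ⟨_, (j.isU_ξ hι0 F).symm.congr (neg_neg _) rfl⟩

lemma exists_mem (hΞ : Submodule.span k (Ξ : Set V) = ⊤) {x : V} (hx : x ≠ 0) :
    ∃ F, x ∈ (j.h F).1 :=
  ⟨⟨⊤, (Submodule.ne_bot_iff _).mpr ⟨x, trivial, hx⟩, by simp [hΞ]⟩, j.le _ trivial⟩

lemma base (hΞ : Submodule.span k (Ξ : Set V) = ⊤) :
    Algebra.adjoin k (Set.range ι) ≤ deg0 (j.chart ι) := by
  refine Algebra.adjoin_le ?_
  rintro _ ⟨x, rfl⟩
  by_cases hx : x = 0
  · simp [hx]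
  obtain ⟨F, hF⟩ := j.exists_mem hΞ hx
  refine mon_congr (mon_mul (j.gen3 ι hF) (mon_EE (j.gen1 ι)
    ((dm_le (j.h F)).trans (Nat.le_succ _)))) ?_ (mul_one _)
  rw [deg, EE.eq_1 _ (_ + 1), if_neg (by omega)]
  abel

end Idx

end Pool.Agent.MP_19ffc6_ag.Lin

end MrgPart2

-- ======== part 3: formerly Pool.Agent.MP_19ffc6_ag.Lin.WondB
section MrgPart3

/-!
Properness and symmetry of the wonderful atlas.
-/

set_option autoImplicit false
set_option linter.unusedSectionVars false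
set_option linter.style.haveILetI false

open AddMonoidAlgebra

namespace Pool.Agent.MP_19ffc6_ag.Lin

variable {k L V G : Type} [Field k] [Field L] [Algebra k L] [AddCommGroup V] [Module k V]
  [Group G] [DistribMulAction G V] [SMulCommClass G k V] {Ξ : SubMulAction G V}
  [FiniteDimensional k V] {ι : V →ₗ[k] L}

lemma exists_ctr [Finite Ξ] {Ω : Type} [Field Ω] [Algebra L Ω] (hι0 : ∀ x, x ≠ 0 → ι x ≠ 0)
    (O : ValuationSubring Ω) (hO : ∀ a ∈ Algebra.adjoin k (Set.range ι), algebraMap L Ω a ∈ O) :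
    ∃ (j : Idx k Ξ) (θ : AddChar Lat Ω), Ctr (j.chart ι) O θ := by
  have hk : ∀ r : k, algebraMap L Ω (algebraMap k L r) ∈ O := fun r => hO _ (algebraMap_mem _ r)
  let v : V → O.ValueGroup := fun x => O.valuation (algebraMap L Ω (ι x))
  have hv1 : ∀ x, v x ≤ 1 := fun x =>
    (O.valuation_le_one_iff _).mpr (hO _ (Algebra.subset_adjoin ⟨x, rfl⟩))
  let W : O.ValueGroup → Submodule k V := fun γ =>
    { carrier := {x | v x ≤ γ}
      add_mem' := fun {x y} hx hy => by
        change O.valuation _ ≤ γ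
        rw [map_add, map_add]
        exact Valuation.map_add_le _ hx hy
      zero_mem' := by simp [v]
      smul_mem' := fun r x hx => by
        change O.valuation _ ≤ γ
        rw [map_smul, Algebra.smul_def, map_mul, map_mul]
        exact (mul_le_of_le_one_left' ((O.valuation_le_one_iff _).mpr (hk r))).trans hx }
  have hξ : ∀ F : Flat k Ξ, ∃ x : Ξ, ((x : V) ∈ F.1 ∧ (x : V) ≠ 0) ∧ F.1 ≤ W (v x) := fun F => by
    obtain ⟨x, hx, hmax⟩ := Set.exists_max_image {x : Ξ | (x : V) ∈ F.1 ∧ (x : V) ≠ 0}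
      (fun x => v x) (Set.toFinite _) (by
        by_contra hne
        refine F.2.1 (le_bot_iff.mp (F.2.2.trans (Submodule.span_le.mpr fun y hy => ?_)))
        by_contra hy0
        exact hne ⟨⟨y, hy.1⟩, hy.2, hy0⟩)
    refine ⟨x, hx, F.2.2.trans (Submodule.span_le.mpr fun y hy => ?_)⟩
    by_cases hy0 : y = 0
    · exact hy0 ▸ zero_mem _
    · exact hmax ⟨y, hy.1⟩ ⟨hy.2, hy0⟩
  choose ξ hξ hW using hξ
  have hWm : ∀ {γ γ'}, γ ≤ γ' → Submodule.span k ((Ξ : Set V) ∩ W γ) ≤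
      Submodule.span k ((Ξ : Set V) ∩ W γ') := fun h =>
    Submodule.span_mono (Set.inter_subset_inter_right _ fun x hx =>
      show v x ≤ _ from le_trans hx h)
  have hle : ∀ F : Flat k Ξ, F.1 ≤ Submodule.span k ((Ξ : Set V) ∩ W (v (ξ F))) := fun F =>
    F.2.2.trans (Submodule.span_mono (Set.inter_subset_inter_right _ (hW F)))
  have hsp : ∀ γ, Submodule.span k ((Ξ : Set V) ∩ W γ) ≤ W γ := fun γ =>
    Submodule.span_le.mpr Set.inter_subset_right
  let h : Flat k Ξ → Flat k Ξ := fun F => ⟨Submodule.span k ((Ξ : Set V) ∩ W (v (ξ F))),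
    ne_bot_of_le_ne_bot F.2.1 (hle F),
    Submodule.span_mono (Set.subset_inter Set.inter_subset_left Submodule.subset_span)⟩
  let j : Idx k Ξ :=
    { h := h
      ξ := ξ
      le := hle
      idem := fun F => le_antisymm (hWm (hsp _ (hξ (h F)).1)) (hle (h F))
      mono := fun F F' hF => hWm (hW F' (hF (hξ F).1))
      tot := fun F F' => (le_total _ _).imp hWm hWm
      mem := fun F => (hξ F).1
      ne := fun F => (hξ F).2 }
  have ht : ∀ a : ℕ, ∃ τ : Ω, (τ = 1 ∨ ∃ F, a ≤ dm (h F) ∧ τ = algebraMap L Ω (ι (ξ F))) ∧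
      O.valuation τ ≤ 1 ∧ ∀ F, a ≤ dm (h F) → O.valuation τ ≤ v (ξ F) := fun a => by
    obtain ⟨τ, hτ, hmin⟩ := Set.exists_min_image
      (insert 1 ((fun F => algebraMap L Ω (ι (ξ F))) '' {F | a ≤ dm (h F)})) O.valuation
      (Set.toFinite _) ⟨1, .inl rfl⟩
    refine ⟨τ, hτ.imp id ?_, by simpa using hmin 1 (.inl rfl), fun F hF =>
      hmin _ (.inr ⟨F, hF, rfl⟩)⟩
    rintro ⟨F, hF, rfl⟩
    exact ⟨F, hF, rfl⟩
  choose t ht ht1 ht2 using ht
  have hne : ∀ F, algebraMap L Ω (ι (ξ F)) ≠ 0 := fun F =>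
    (map_ne_zero _).mpr (hι0 _ (hξ F).2)
  have ht0 : ∀ a, t a ≠ 0 := fun a => by
    rcases ht a with h1 | ⟨F, -, h1⟩ <;> rw [h1]
    exacts [one_ne_zero, hne F]
  have hθ : ∀ a, charOf t ht0 (EE (Module.finrank k V) a) = t a := fun a => by
    unfold EE
    split_ifs with ha
    · exact charOf_ee t ht0 a
    · rcases ht a with h1 | ⟨F, hF, -⟩
      · rw [h1, AddChar.map_zero_eq_one]
      · exact absurd (hF.trans (dm_le _)) ha
  have hdiv : ∀ {a b : Ω}, b ≠ 0 → O.valuation a ≤ O.valuation b → a / b ∈ O := fun hb hab => by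
    rw [← O.valuation_le_one_iff, map_div₀]
    exact div_le_one_of_le₀ hab zero_le
  refine ⟨j, charOf t ht0, ctr_of_le (hk := hk) (j.chart_le ι (fun d => ?_) (fun d hd => ?_)
    (fun F x hx => ?_) fun F => ?_)⟩ <;> rw [mon_mem_valAlg]
  · rw [map_one, one_mul, lamW, AddChar.map_sub_eq_div, hθ, hθ]
    refine hdiv (ht0 _) ?_
    rcases ht (d + 1) with h1 | ⟨F, hF, h1⟩ <;> rw [h1]
    exacts [by simpa using ht1 d, ht2 d F (by omega)]
  · rw [map_one, one_mul, lamW, neg_sub, AddChar.map_sub_eq_div, hθ, hθ]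
    refine hdiv (ht0 _) ?_
    rcases ht d with h1 | ⟨F, hF, h1⟩ <;> rw [h1]
    exacts [by simpa using ht1 (d + 1), ht2 _ F (lt_of_le_of_ne hF (hd F).symm)]
  · rw [AddChar.map_neg_eq_inv, Idx.deg, hθ, ← div_eq_mul_inv]
    refine hdiv (ht0 _) ?_
    rcases ht (dm (j.h F)) with h1 | ⟨F', hF, h1⟩ <;> rw [h1]
    exacts [(hv1 x).trans (map_one _).ge, hsp _ (j.le_of_dm hF hx)]
  · rw [Idx.deg, hθ, map_inv₀, ← div_eq_inv_mul]
    exact hdiv (hne F) (ht2 _ F le_rfl)

lemma isAtlas_chart [Finite Ξ] (Ω : Type) [Field Ω] [Algebra L Ω] (hι0 : ∀ x, x ≠ 0 → ι x ≠ 0)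
    (hΞ : Submodule.span k (Ξ : Set V) = ⊤) :
    IsAtlas Ω ⊤ (Algebra.adjoin k (Set.range ι)) (Module.finrank k V + 1)
      (fun j : Idx k Ξ => j.chart ι) fun j => j.sec ι where
  hom j := j.isHom_chart ι
  supp j := j.supp_chart ι
  f_mem _ := trivial
  f_ne j := j.sec_ne hι0
  ratio i j := j.ratio i
  comp i j μ a h := by
    simpa using (mon_mem_loc (j.ratio i) (div_ne_zero (i.sec_ne hι0) (j.sec_ne hι0))).mp
      (j.comp hι0 i h)
  base j _ ha := j.base hΞ ha
  fin j i hi := by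
    obtain ⟨b, hb⟩ := j.fin hι0 hi.le
    exact ⟨1, one_pos, b, trivial, hb.congr (by rw [EE, if_pos (by omega), one_smul]) rfl⟩
  full j _ hi := j.full hi
  proper O hO := exists_ctr hι0 O hO

section Sym

variable [MulSemiringAction G L] [SMulCommClass G k L]

/-- Transport of an index by a group element. -/
def Idx.act (g : G) (j : Idx k Ξ) : Idx k Ξ where
  h F := g • j.h (g⁻¹ • F)
  ξ F := g • j.ξ (g⁻¹ • F)
  le F x hx := mem_smul_flat.mpr
    (j.le (g⁻¹ • F) (by rwa [mem_smul_flat, inv_inv, smul_inv_smul]))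
  idem F := by rw [inv_smul_smul, j.idem]
  mono F F' h x hx := j.mono (g⁻¹ • F) (g⁻¹ • F') (fun _ hy => h hy) hx
  tot F F' := (j.tot (g⁻¹ • F) (g⁻¹ • F')).imp (fun h _ hx => h hx) fun h _ hx => h hx
  mem F := by simpa [mem_smul_flat] using j.mem (g⁻¹ • F)
  ne F := (smul_ne_zero_iff_ne g).mpr (j.ne _)

lemma smul_mem_chart (hι : ∀ (g : G) x, ι (g • x) = g • ι x) {g : G} {j j' : Idx k Ξ}
    (hh : ∀ F, j'.h (g • F) = g • j.h F) (hξ : ∀ F, j'.ξ (g • F) = g • j.ξ F) :
    j.chart ι ≤ (j'.chart ι).comap (MulSemiringAction.toAlgHom k (Amb L) g) := by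
  have hd : ∀ F, j'.deg (g • F) = j.deg F := fun F => by rw [Idx.deg, hh, dm_smul, Idx.deg]
  refine j.chart_le ι (fun d => ?_) (fun d hd => ?_) (fun F x hx => ?_) fun F => ?_ <;>
    rw [Subalgebra.mem_comap, MulSemiringAction.toAlgHom_apply, smul_single]
  · rw [smul_one]
    exact j'.gen1 ι d
  · rw [smul_one]
    simpa using (j'.gen2 ι (d := d) fun F => by
      rw [← smul_inv_smul g F, hh, dm_smul]; exact hd _).inv
  · rw [← hι, ← hd]
    exact j'.gen3 ι (by rwa [hh, mem_smul_flat, inv_smul_smul])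
  · rw [smul_inv'', ← hι, ← hd, ← SubMulAction.val_smul, ← hξ]
    exact j'.gen4 ι _

lemma sym_chart [Finite Ξ] (hι : ∀ (g : G) x, ι (g • x) = g • ι x) :
    Sym G (fun j : Idx k Ξ => j.chart ι) fun j => j.sec ι := by
  intro g j
  have hh : ∀ F, (j.act g).h (g • F) = g • j.h F := fun F => by simp [Idx.act]
  have hξ : ∀ F, (j.act g).ξ (g • F) = g • j.ξ F := fun F => by simp [Idx.act]
  refine ⟨j.act g, ?_, fun μ a => ⟨fun h => ?_, fun h => ?_⟩⟩
  · simp only [Idx.sec, Finset.smul_prod']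
    refine (Fintype.prod_equiv (MulAction.toPerm g) _ _ fun q => ?_).symm
    have : (j.act g).pick (g • q) = g • j.pick q := by
      obtain ⟨F', _ | F⟩ := q
      · rfl
      · change (j.act g).pick (g • F', some (g • F)) = _
        simp only [Idx.pick, hh, smul_left_cancel_iff]
        split_ifs <;> rfl
    rw [MulAction.toPerm_apply, this, hξ, SubMulAction.val_smul, hι]
  · simpa using smul_mem_chart hι hh hξ h
  · simpa using smul_mem_chart hι (g := g⁻¹) (j := j.act g) (j' := j)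
      (fun F => by simp [Idx.act]) (fun F => by simp [Idx.act]) h

end Sym

end Pool.Agent.MP_19ffc6_ag.Lin

end MrgPart3

-- ======== part 4: formerly Pool.Agent.MP_19ffc6_ag.Lin.WondC
section MrgPart4

/-!
The charts of the wonderful atlas are smooth over the boundary coordinates.
-/

set_option autoImplicit false
set_option linter.unusedSectionVars false
set_option linter.style.haveILetI false

open AddMonoidAlgebra

namespace Pool.Agent.MP_19ffc6_ag.Lin

variable {k L V G : Type} [Field k] [Field L] [Algebra k L] [AddCommGroup V] [Module k V]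
  [Group G] [DistribMulAction G V] [SMulCommClass G k V] {Ξ : SubMulAction G V}
  [FiniteDimensional k V] {ι : V →ₗ[k] L}

lemma algInd_iff {σ A : Type} [CommRing A] [Algebra k A] (w : σ → A) :
    AlgebraicIndependent k w ↔ LinearIndependent k fun α : σ →₀ ℕ => α.prod fun i n => w i ^ n := by
  have h : (fun α : σ →₀ ℕ => α.prod fun i n => w i ^ n) =
      (MvPolynomial.aeval w).toLinearMap ∘ MvPolynomial.basisMonomials σ k := by
    ext α
    simp [MvPolynomial.aeval_monomial]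
  constructor
  · intro H
    exact h ▸ (MvPolynomial.basisMonomials σ k).linearIndependent.map_injOn _ H.injOn
  · intro H
    have := (MvPolynomial.basisMonomials σ k).injective_constr_of_linearIndependent (R₂ := k) H
    rwa [Module.Basis.constr_eq _ k (f := (MvPolynomial.aeval w).toLinearMap)
      fun α => congrFun h α] at this

lemma algInd_mon {σ τ : Type} [Fintype σ] [Fintype τ] {y : τ → L} (hy : AlgebraicIndependent k y)
    {l : σ → Lat} (hl : ∀ c c' : σ → ℕ, ∑ i, c i • l i = ∑ i, c' i • l i → c = c') (e : τ → Lat) :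
    AlgebraicIndependent k
      (Sum.elim (fun i => single (l i) 1) fun t => single (e t) (y t) : σ ⊕ τ → Amb L) := by
  rw [algInd_iff] at hy ⊢
  have h1 := ((Finsupp.linearIndependent_single (ι := Lat) _ fun _ => hy).map_injOn _
    (coeffLinearEquiv k).symm.injective.injOn).comp
    (fun α : σ ⊕ τ →₀ ℕ => ⟨∑ i, α (.inl i) • l i + ∑ t, α (.inr t) • e t,
      (Finsupp.sumFinsuppEquivProdFinsupp α).2⟩) (by
      intro α β h
      obtain ⟨h1, h2⟩ := Sigma.ext_iff.mp h
      have h3 : ∀ t, α (.inr t) = β (.inr t) := DFunLike.congr_fun (eq_of_heq h2)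
      simp only [h3, add_left_inj] at h1
      ext (i | t)
      exacts [congrFun (hl _ _ h1) i, h3 t])
  refine (congrArg (fun v : (σ ⊕ τ →₀ ℕ) → Amb L => LinearIndependent k v)
    (funext fun α => ?_)).mp h1
  simp [Finsupp.prod_pow, single_pow, single_mul_single]

lemma lamW_inj (n : ℕ) (c c' : Fin (n + 1) → ℕ)
    (h : ∑ i, c i • lamW n i = ∑ i, c' i • lamW n i) : c = c' := by
  funext i
  let ℓ : Lat →+ ℤ := ∑ a ∈ Finset.range (i + 1), Finsupp.applyAddHom a
  have h1 : ∀ a, ℓ (EE n a) = if a ≤ i then 1 else 0 := fun a => by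
    unfold EE
    split_ifs with h1 h2 h2
    · simp [ℓ, Finsupp.single_apply, h2]
    · simp [ℓ, Finsupp.single_apply, h2]
    · omega
    · simp
  have h2 : ∀ d : Fin (n + 1), ℓ (lamW n d) = if d = i then 1 else 0 := fun d => by
    rw [lamW, map_sub, h1, h1]
    simp only [Fin.ext_iff]
    split_ifs <;> omega
  simpa [h2] using congrArg ℓ h

lemma Idx.exists_basis (j : Idx k Ξ) (a : ℕ) : ∃ B : Set V, LinearIndepOn k id B ∧
    (∀ F, dm (j.h F) < a → (j.h F).1 ≤ Submodule.span k (B ∩ (j.h F).1)) ∧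
    ∀ F, a ≤ dm (j.h F) → B ⊆ (j.h F).1 := by
  induction a with
  | zero => exact ⟨∅, linearIndepOn_empty _ _, by simp, by simp⟩
  | succ a ih =>
    obtain ⟨B, hB, h1, h2⟩ := ih
    by_cases h : ∃ F, dm (j.h F) = a
    · obtain ⟨F0, rfl⟩ := h
      have hs := h2 F0 le_rfl
      refine ⟨hB.extend hs, hB.linearIndepOn_extend hs, fun F hF => ?_, fun F hF =>
        (hB.extend_subset hs).trans (j.le_of_dm (F := F0) (F' := F) (by omega))⟩
      rcases (Nat.lt_succ_iff.mp hF).eq_or_lt with hF | hF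
      · rw [eq_of_dm (j.le_of_dm hF.le) hF.ge, Set.inter_eq_left.mpr (hB.extend_subset hs)]
        exact hB.subset_span_extend hs
      · exact (h1 F hF).trans
          (Submodule.span_mono (Set.inter_subset_inter_left _ (hB.subset_extend hs)))
    · push Not at h
      exact ⟨B, hB, fun F hF => h1 F (lt_of_le_of_ne (by omega) (h F)), fun F hF => h2 F (by omega)⟩

lemma Idx.lifts [Finite Ξ] (j : Idx k Ξ) (hι0 : ∀ x, x ≠ 0 → ι x ≠ 0)
    (hind : ∀ (σ : Type) (b : σ → V), LinearIndependent k b → AlgebraicIndependent k (ι ∘ b))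
    (hΞ : Submodule.span k (Ξ : Set V) = ⊤) :
    Lifts (j.chart ι) (Module.finrank k V + 1) fun i => single (lamW (Module.finrank k V) i) 1 := by
  classical
  set n := Module.finrank k V with hn
  obtain ⟨B, hB, h1, -⟩ := j.exists_basis (n + 1)
  have hB' : LinearIndependent k (Subtype.val : B → V) := hB
  haveI : Fintype B := hB'.setFinite.fintype
  have hF : ∀ b : B, ∃ F, b.1 ∈ (j.h F).1 ∧ ∀ F', b.1 ∈ (j.h F').1 → dm (j.h F) ≤ dm (j.h F') :=
    fun b => Set.exists_min_image {F | b.1 ∈ (j.h F).1} (fun F => dm (j.h F)) (Set.toFinite _)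
      (j.exists_mem hΞ (hB'.ne_zero b))
  choose Fb hFb hmin using hF
  have hz := algInd_mon (hind B _ hB') (lamW_inj n) fun b => -j.deg (Fb b)
  set D := Algebra.adjoin k (Set.range (Sum.elim (fun i : Fin (n + 1) => single (lamW n i) 1)
    fun b : B => single (-j.deg (Fb b)) ((ι ∘ Subtype.val) b) : _ → Amb L))
  have hD : Lifts D (n + 1) fun i => single (lamW n i) 1 := by
    obtain ⟨hft, y', hy', hL⟩ := lifts_adjoin _ hz (n + 1) (fun i => .inl (Fin.ofNat (n + 1) i)) (by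
      intro i (hi : i < _) i' (hi' : i' < _) h
      simpa [Fin.ext_iff, Nat.mod_eq_of_lt hi, Nat.mod_eq_of_lt hi'] using h)
    exact ⟨hft, y', fun i hi => by simpa [Nat.mod_eq_of_lt hi] using hy' i hi, hL⟩
  have h0 : ∀ d, ¬d < n + 1 → lamW n d = 0 := fun d hd => by
    rw [lamW, EE, EE, if_neg (by omega), if_neg (by omega), sub_zero]
  have g1 : ∀ d, single (lamW n d) 1 ∈ D := fun d => by
    by_cases hd : d < n + 1
    · exact hD.mem hd
    · exact h0 d hd ▸ mon_one
  have g3 : ∀ F, ∀ x ∈ (j.h F).1, single (-j.deg F) (ι x) ∈ D := fun F x hx => by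
    refine Submodule.span_induction (fun b hb => ?_) (by rw [map_zero]; exact mon_zero)
      (fun x y _ _ hx hy => by rw [map_add]; exact mon_add hx hy) (fun r x _ hx => ?_)
      (h1 F (Nat.lt_succ_of_le (dm_le _)) hx)
    · have : single (-j.deg (Fb ⟨b, hb.1⟩)) (ι b) ∈ D := Algebra.subset_adjoin ⟨.inr ⟨b, hb.1⟩, rfl⟩
      exact mon_congr (mon_mul this (mon_EE g1 (hmin ⟨b, hb.1⟩ F hb.2)))
        (by simp only [Idx.deg]; abel) (mul_one _)
    · rw [map_smul, Algebra.smul_def]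
      exact mon_mul_zero (mon_algebraMap r) hx
  have hle : D ≤ j.chart ι := Algebra.adjoin_le (by
    rintro _ ⟨i | b, rfl⟩
    exacts [j.gen1 ι _, j.gen3 ι (hFb b)])
  let μ : Fin (n + 1) ⊕ Flat k Ξ → Lat := Sum.elim
    (fun d => if ∀ F, dm (j.h F) ≠ d then lamW n d else 0) fun F => -j.deg F
  let a : Fin (n + 1) ⊕ Flat k Ξ → L := Sum.elim (fun _ => 1) fun F => ι (j.ξ F)
  have hu : IsU (j.chart ι) (∑ q, μ q) (∏ q, a q) := IsU.prod _ (by
    rintro (d | F) -
    · simp only [μ, a, Sum.elim_inl]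
      split_ifs with hd
      exacts [j.gen2 ι hd, IsU.one]
    · exact j.isU_ξ hι0 F)
  have hm : ∀ q, single (μ q) (a q) ∈ D := by
    rintro (d | F)
    · simp only [μ, a, Sum.elim_inl]
      split_ifs
      exacts [g1 d, mon_one]
    · exact g3 F _ (j.le F (j.mem F))
  have hm' := mon_prod Finset.univ fun q _ => hm q
  have hu' := fun q => (isU_loc hm' hu.ne).of_prod (fun q _ => le_loc (hm q)) (Finset.mem_univ q)
  have : j.chart ι = loc D (∑ q, μ q) (∏ q, a q) := by
    refine le_antisymm (j.chart_le ι (fun d => le_loc (g1 d)) (fun d hd => ?_)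
      (fun F x hx => le_loc (g3 F x hx)) fun F => ?_) (loc_le hle hu.inv)
    · by_cases hd' : d < n + 1
      · exact mon_congr (hu' (.inl ⟨d, hd'⟩)).inv (congrArg _ (if_pos hd)) inv_one
      · rw [h0 d hd', neg_zero]
        exact mon_one
    · exact mon_congr (hu' (.inr F)).inv (neg_neg _) rfl
  rw [this]
  exact (isAway_loc hm' hu.ne).lifts hD

end Pool.Agent.MP_19ffc6_ag.Lin

end MrgPart4

-- ======== part 5: formerly Pool.Agent.MP_19ffc6_ag.Lin.WondD
section MrgPart5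

/-!
The inertia groups on the charts of the wonderful atlas.
-/

set_option autoImplicit false
set_option linter.unusedSectionVars false
set_option linter.style.haveILetI false

open AddMonoidAlgebra Polynomial

namespace Pool.Agent.MP_19ffc6_ag.Lin

variable {k L V G : Type} [Field k] [Field L] [Algebra k L] [AddCommGroup V] [Module k V]
  [Group G] [DistribMulAction G V] [SMulCommClass G k V] {Ξ : SubMulAction G V}
  [FiniteDimensional k V] {ι : V →ₗ[k] L}

lemma exists_param {t : k} (ht : t ≠ 0) (w : k[X]) (r : ℕ) : ∃ Q R : k[X],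
    X = X * (C t + X * w) * Q.comp (X * (C t + X * w)) + X ^ (r + 1) * R := by
  induction r with
  | zero => exact ⟨0, 1, by simp⟩
  | succ r ih =>
    obtain ⟨Q, R, h⟩ := ih
    obtain ⟨R', hR'⟩ := sub_dvd_pow_sub_pow (C t + X * w) (C t) (r + 1)
    have h1 : C ((t ^ (r + 1))⁻¹) * C t ^ (r + 1) = 1 := by
      rw [← C_pow, ← C_mul, inv_mul_cancel₀ (pow_ne_zero _ ht), C_1]
    refine ⟨Q + C (R.coeff 0) * C ((t ^ (r + 1))⁻¹) * X ^ r,
      divX R - C (R.coeff 0) * C ((t ^ (r + 1))⁻¹) * w * R', ?_⟩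
    simp only [add_comp, mul_comp, C_comp, pow_comp, X_comp, mul_pow]
    linear_combination h - X ^ (r + 1) * X_mul_divX_add R -
      X ^ (r + 1) * C (R.coeff 0) * h1 - X ^ (r + 1) * C (R.coeff 0) * C ((t ^ (r + 1))⁻¹) * hR'

lemma exists_min_rel {α : Type} (r : α → α → Prop) (htot : ∀ a b, r a b ∨ r b a)
    (htr : ∀ a b c, r a b → r b c → r a c) (s : Finset α) (hs : s.Nonempty) :
    ∃ a, ∀ b ∈ s, r a b := by
  induction hs using Finset.Nonempty.cons_induction with
  | singleton a => exact ⟨a, by simpa using (htot a a).elim id id⟩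
  | cons a s _ _ ih =>
    obtain ⟨b, hb⟩ := ih
    rcases htot a b with h | h
    · exact ⟨a, by simpa using ⟨(htot a a).elim id id, fun c hc => htr _ _ _ h (hb c hc)⟩⟩
    · exact ⟨b, by simpa using ⟨h, hb⟩⟩

lemma exists_homog {O E : Type} [CommRing O] [Algebra k O] [CommRing E] [Algebra k E]
    (φ : O →ₐ[k] E) (s : O) {b : k[X]} {r : ℕ} (hb : b.natDegree ≤ r) : ∃ β : O[X],
    (∀ t : k, β.eval₂ φ.toRingHom (t • φ s) = b.eval t • φ s ^ r) ∧
      β.coeff 1 = b.coeff 1 • s ^ (r - 1) := by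
  refine ⟨∑ i ∈ Finset.range (r + 1), monomial i (b.coeff i • s ^ (r - i)), fun t => ?_, ?_⟩
  · rw [eval₂_finsetSum, eval_eq_sum_range' (Nat.lt_succ_of_le hb), Finset.sum_smul]
    refine Finset.sum_congr rfl fun i hi => ?_
    have := Finset.mem_range.mp hi
    simp only [eval₂_monomial, AlgHom.toRingHom_eq_coe, RingHom.coe_coe, map_smul, map_pow,
      _root_.smul_pow, smul_mul_smul_comm]
    rw [← pow_add, Nat.sub_add_cancel (by omega)]
  · simp only [finsetSum_coeff, coeff_monomial, Finset.sum_ite_eq', Finset.mem_range]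
    split_ifs with h
    · rfl
    · rw [coeff_eq_zero_of_natDegree_lt (by omega), zero_smul]

lemma pow_eq_one_of_nil [FaithfulSMul G V] (p : ℕ) [Fact p.Prime] [CharP k p] {g : G} {e : ℕ}
    (h : (DistribMulAction.toModuleEnd k V g - 1) ^ e = 0) : g ^ p ^ e = 1 := by
  refine eq_of_smul_eq_smul (α := V) fun x => ?_
  have : DistribMulAction.toModuleEnd k V (g ^ p ^ e) = 1 := by
    nontriviality Module.End k V
    haveI := charP_of_injective_algebraMap (algebraMap k (Module.End k V)).injective p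
    rw [map_pow, ← sub_add_cancel (DistribMulAction.toModuleEnd k V g) 1,
      add_pow_char_pow_of_commute p e (Commute.one_right _), one_pow,
      pow_eq_zero_of_le (Nat.lt_pow_self (Fact.out : p.Prime).one_lt).le h, zero_add]
  rw [one_smul]
  exact DFunLike.congr_fun this x

variable [MulSemiringAction G L] [SMulCommClass G k L]

/-- The elements on which `I` acts through a polynomial in the nodes `t g • s`. -/
def polyAlg (O : Subalgebra k (Amb L)) (I : Subgroup G) (t : G → k) (s : Amb L) :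
    Subalgebra k (Amb L) where
  carrier := {c | ∃ β : Polynomial O, ∀ g ∈ I, g • c = β.eval₂ O.val.toRingHom (t g • s)}
  add_mem' := by
    rintro a b ⟨β, h⟩ ⟨β', h'⟩
    exact ⟨β + β', fun g hg => by rw [smul_add, eval₂_add, h g hg, h' g hg]⟩
  mul_mem' := by
    rintro a b ⟨β, h⟩ ⟨β', h'⟩
    exact ⟨β * β', fun g hg => by rw [smul_mul', eval₂_mul, h g hg, h' g hg]⟩
  algebraMap_mem' r := ⟨C (algebraMap k O r), fun g _ => by rw [smul_algebraMap, eval₂_C]; rfl⟩

lemma mem_polyAlg {O : Subalgebra k (Amb L)} {I : Subgroup G} {t : G → k} {s c : Amb L}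
    (hc : c ∈ O) (h : ∀ g ∈ I, g • c = c) : c ∈ polyAlg O I t s :=
  ⟨C ⟨c, hc⟩, fun g hg => by rw [h g hg, eval₂_C]; rfl⟩

lemma inv_mem_polyAlg [Finite G] {O : Subalgebra k (Amb L)} {I : Subgroup G} {t : G → k}
    {s u u' : Amb L} (hO : ∀ g ∈ I, ∀ c ∈ O, g • c ∈ O) (hu : u' * u = 1) (hu' : u' ∈ O)
    (h : ∀ g ∈ I, g • u ∈ polyAlg O I t s) : u' ∈ polyAlg O I t s := by
  classical
  haveI := Fintype.ofFinite I
  have h1 : (∏ g : I, g • u') * ∏ g : I, g • u = 1 := by
    rw [← Finset.prod_mul_distrib]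
    exact Finset.prod_eq_one fun g _ => by rw [← smul_mul', hu, smul_one]
  have h2 : u' = (∏ g : I, g • u') * ∏ g ∈ Finset.univ.erase (1 : I), g • u := by
    rw [← Finset.mul_prod_erase _ (fun g : I => g • u) (Finset.mem_univ 1), one_smul] at h1
    linear_combination -u' * h1 +
      ((∏ g : I, g • u') * ∏ g ∈ Finset.univ.erase (1 : I), g • u) * hu
  rw [h2]
  exact mul_mem (mem_polyAlg (prod_mem fun g _ => hO g g.2 _ hu')
    fun g hg => Finset.smul_prod_perm u' (⟨g, hg⟩ : I)) (prod_mem fun g _ => h g g.2)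

lemma Idx.drop (j : Idx k Ξ) (hι : ∀ (g : G) x, ι (g • x) = g • ι x)
    (hι0 : ∀ x, x ≠ 0 → ι x ≠ 0) (hsub : ∀ (g : G), ∀ x ∈ Ξ, g • x - x ∈ Ξ)
    {O : Subalgebra k (Amb L)} {P : Ideal O} (hP : P.IsPrime) (hO : j.chart ι ≤ O) {g : G}
    (hg : ∀ c ∈ O, ∃ d ∈ P, (d : Amb L) = g • c - c) (F : Flat k Ξ)
    (hF : (j.h F).1.map (DistribMulAction.toModuleEnd k V g - 1) ≠ ⊥) : ∃ F1 : Flat k Ξ,
    F1.1 = (j.h F).1.map (DistribMulAction.toModuleEnd k V g - 1) ∧ dm (j.h F1) < dm (j.h F) ∧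
      ∃ d ∈ P, (d : Amb L) = single (j.deg F1 - j.deg F) 1 := by
  let F1 : Flat k Ξ := ⟨_, hF, (Submodule.map_mono (j.h F).2.2).trans (by
    rw [Submodule.map_span]
    refine Submodule.span_mono ?_
    rintro _ ⟨x, hx, rfl⟩
    exact ⟨hsub g x hx.1, x, hx.2, rfl⟩)⟩
  obtain ⟨x, hx, hx'⟩ := j.mem F1
  obtain ⟨d, hd, hd'⟩ := hg _ (hO (j.gen3 ι hx))
  have h1 : ((d * ⟨_, hO (j.gen4 ι F1)⟩ : O) : Amb L) = single (j.deg F1 - j.deg F) 1 := by
    have : ι (j.ξ F1) = g • ι x - ι x := by rw [← hx', ← hι, ← map_sub]; rfl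
    rw [MulMemClass.coe_mul, hd', smul_single, ← single_sub, ← this, single_mul_single,
      mul_inv_cancel₀ (hι0 _ (j.ne F1)), neg_add_eq_sub]
  refine ⟨F1, rfl, not_le.mp fun h => hP.ne_top ((Ideal.eq_top_iff_one _).mpr ?_), _,
    P.mul_mem_right _ hd, h1⟩
  convert P.mul_mem_right ⟨_, hO (mon_EE (j.gen1 ι) h)⟩
    (P.mul_mem_right ⟨_, hO (j.gen4 ι F1)⟩ hd) using 1
  refine Subtype.ext ?_
  rw [MulMemClass.coe_mul, h1, single_mul_single]
  simp [Idx.deg, one_def]

lemma locProp_chart [Finite G] [Finite Ξ] [FaithfulSMul G V] (p : ℕ) [hp : Fact p.Prime]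
    [CharP k p] (hι : ∀ (g : G) x, ι (g • x) = g • ι x) (hι0 : ∀ x, x ≠ 0 → ι x ≠ 0)
    (hsub : ∀ (g : G), ∀ x ∈ Ξ, g • x - x ∈ Ξ) (hΞ : Submodule.span k (Ξ : Set V) = ⊤)
    (hG : OneParam k p G V) {Δ : Finset Lat}
    (hΔ : ∀ (j : Idx k Ξ) F1 F2 F3 F4, (j.deg F1 - j.deg F2) - (j.deg F3 - j.deg F4) ∈ Δ) :
    LocProp G (fun j : Idx k Ξ => j.chart ι) Δ := by
  intro j O P hP I hO hst hin hcomp
  have hdrop := fun g hg => j.drop hι hι0 hsub hP hO (hin g hg)
  have hstab : ∀ g ∈ I, ∀ F, ∀ x ∈ (j.h F).1,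
      (DistribMulAction.toModuleEnd k V g - 1) x ∈ (j.h F).1 := fun g hg F x hx => by
    by_cases h : (j.h F).1.map (DistribMulAction.toModuleEnd k V g - 1) = ⊥
    · exact (h.le.trans bot_le) ⟨x, hx, rfl⟩
    · obtain ⟨F1, h1, h2, -⟩ := hdrop g hg F h
      exact j.le_of_dm h2.le (j.le F1 (h1.ge ⟨x, hx, rfl⟩))
  have hnil : ∀ g ∈ I, ∀ a F, dm (j.h F) < a → ∀ x ∈ (j.h F).1,
      ((DistribMulAction.toModuleEnd k V g - 1) ^ a) x = 0 := fun g hg a => by
    induction a with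
    | zero => simp
    | succ a ih =>
      intro F hF x hx
      rw [pow_succ, Module.End.mul_apply]
      by_cases h : (j.h F).1.map (DistribMulAction.toModuleEnd k V g - 1) = ⊥
      · rw [(Submodule.mem_bot k).mp (h.le ⟨x, hx, rfl⟩), map_zero]
      · obtain ⟨F1, h1, h2, -⟩ := hdrop g hg F h
        exact ih F1 (by omega) _ (j.le F1 (h1.ge ⟨x, hx, rfl⟩))
  obtain ⟨N, b, t, hN, hb, hb0, hb1, hg⟩ := hG I fun g => ⟨Module.finrank k V + 1,
    Subtype.ext (pow_eq_one_of_nil (k := k) (V := V) p (LinearMap.ext fun x => by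
      by_cases hx : x = 0
      · simp [hx]
      · obtain ⟨F, hF⟩ := j.exists_mem hΞ hx
        exact hnil g g.2 _ F (Nat.lt_succ_of_le (dm_le _)) x hF))⟩
  have hinj : Set.InjOn t I := fun g h g' h' e =>
    eq_of_smul_eq_smul (α := V) fun x => by rw [hg g h, hg g' h', e]
  obtain ⟨p, rfl⟩ := Nat.exists_eq_add_of_le' hp.out.two_le
  by_cases hN0 : N = 0
  · refine .inl ((Subgroup.eq_bot_iff_forall _).mpr fun g h => eq_of_smul_eq_smul (α := V)
      fun x => ?_)
    rw [hg g h, hg 1 (one_mem _)]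
    simp [Finset.sum_range_succ', hN0, hb0]
  by_cases ht : ∀ g ∈ I, t g = 0
  · exact .inl ((Subgroup.eq_bot_iff_forall _).mpr fun g h =>
      hinj h (one_mem I) (by rw [ht g h, ht 1 (one_mem I)]))
  push Not at ht
  obtain ⟨g0, hg0, ht⟩ := ht
  set M := DistribMulAction.toModuleEnd k V g0 - 1 with hMdef
  let w : k[X] := ∑ r ∈ Finset.range p, C ((b (r + 1 + 1)).eval (t g0)) * X ^ r
  have hM : M = aeval N (X * (C (t g0) + X * w)) := LinearMap.ext fun x => by
    have : M x = g0 • x - x := rfl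
    rw [this, hg g0 hg0]
    simp [Finset.sum_range_succ', hb0, hb1, w, Finset.mul_sum, pow_succ', add_comm,
      Algebra.algebraMap_eq_smul_one]
  obtain ⟨Q, R, hQ⟩ := exists_param ht w (p + 1)
  have hNM : N = M * aeval M Q := by
    have := congrArg (aeval N) hQ
    rwa [map_add, map_mul, aeval_comp, ← hM, map_mul, map_pow, aeval_X, hN, zero_mul,
      add_zero] at this
  have hNF : ∀ F, ∀ x ∈ (j.h F).1, N x ∈ (j.h F).1.map M := fun F x hx =>
    ⟨_, aeval_apply_smul_mem_of_le_comap hx Q M (hstab g0 hg0 F), by rw [hNM]; rfl⟩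
  choose F1 hF1 hlt hd using hdrop g0 hg0
  let S := {F // (j.h F).1.map M ≠ ⊥}
  let δ : S → Lat := fun F => j.deg (F1 F.1 F.2) - j.deg F.1
  obtain ⟨F0, hF0⟩ := exists_min_rel (fun F F' : S => single (δ F' - δ F) 1 ∈ O)
    (fun F F' => (hcomp _ (hΔ j _ _ _ _)).imp id fun h => by rwa [neg_sub] at h)
    (fun _ _ _ h h' => mon_congr (mon_mul h h') (by abel) (mul_one _))
    (Set.toFinite Set.univ).toFinset (by
      obtain ⟨x, hx⟩ := DFunLike.ne_iff.mp hN0
      obtain ⟨F, hF⟩ := j.exists_mem hΞ (x := x) (by rintro rfl; simp at hx)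
      exact ⟨⟨F, fun h => hx (h.le (hNF F x hF))⟩, by simp⟩)
  have hθ : ∀ i : Idx k Ξ, single (δ F0) 1 ∈ i.chart ι := fun i =>
    mon_EE (i.gen1 ι) (hlt F0.1 F0.2).le
  have hc : ∀ r F, ∀ x ∈ (j.h F).1, single (-j.deg F - r • δ F0) (ι ((N ^ r) x)) ∈ O := fun r => by
    induction r with
    | zero => exact fun F x hx => by simpa using hO (j.gen3 ι hx)
    | succ r ih =>
      intro F x hx
      rw [pow_succ, Module.End.mul_apply]
      by_cases h : (j.h F).1.map M = ⊥
      · rw [(Submodule.mem_bot k).mp (h.le (hNF F x hx)), map_zero, map_zero]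
        exact mon_zero
      · refine mon_congr (mon_mul (ih (F1 F h) _ (j.le _ ((hF1 F h).ge (hNF F x hx))))
          (hF0 ⟨F, h⟩ (by simp))) ?_ (mul_one _)
        rw [succ_nsmul]
        simp only [δ]
        abel
  let s : O := ⟨_, hO (hθ j)⟩
  choose β hβ hβ1 using fun r => exists_homog O.val s (hb r)
  have key : ∀ F x (hx : x ∈ (j.h F).1), ∀ g ∈ I, g • single (-j.deg F) (ι x) =
      (∑ r ∈ Finset.range (p + 2), C (⟨_, hc r F x hx⟩ : O) * β r).eval₂ O.val.toRingHom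
        (t g • single (δ F0) 1) := fun F x hx g h => by
    rw [smul_single, ← hι, hg g h, map_sum, ← singleAddHom_apply, map_sum, eval₂_finsetSum]
    refine Finset.sum_congr rfl fun r _ => ?_
    rw [eval₂_mul, eval₂_C, show (single (δ F0) 1 : Amb L) = O.val s from rfl, hβ]
    simp [s, single_pow, single_mul_single]
  obtain ⟨d, hdP, hd⟩ := hd F0.1 F0.2
  refine .inr ⟨δ F0, t, hθ, ⟨d, hdP, hd⟩, hinj, fun c hc' => ?_, ?_⟩
  · have h3 : ∀ F, ∀ x ∈ (j.h F).1, single (-j.deg F) (ι x) ∈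
      polyAlg O I t (single (δ F0) 1) := fun F x hx => ⟨_, key F x hx⟩
    refine j.chart_le ι (D := polyAlg O I t (single (δ F0) 1))
      (fun d => mem_polyAlg (hO (j.gen1 ι d)) fun g _ => by rw [smul_single, smul_one])
      (fun d hd => mem_polyAlg (hO (by simpa using (j.gen2 ι hd).inv))
        fun g _ => by rw [smul_single, smul_one]) h3
      (fun F => inv_mem_polyAlg (u := single (-j.deg F) (ι (j.ξ F))) hst ?_ (hO (j.gen4 ι F))
        fun g h => ?_) hc'
    · rw [single_mul_single, inv_mul_cancel₀ (hι0 _ (j.ne F)), add_neg_cancel, one_def]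
    · rw [smul_single, ← hι]
      have hx := j.le F (j.mem F)
      exact h3 F _ (by simpa using add_mem (hstab g h F _ hx) hx)
  · obtain ⟨x, hx, hx'⟩ := (hF1 F0.1 F0.2).le (j.mem _)
    have hx1 := aeval_apply_smul_mem_of_le_comap hx (C (t g0) + X * w) N fun y hy => by
      obtain ⟨z, hz, hz'⟩ := hNF _ y hy
      exact Submodule.mem_comap.mpr (hz' ▸ hstab g0 hg0 _ z hz)
    refine ⟨_, j.gen3 ι hx1, _, fun h => hP.ne_top ?_, key _ _ hx1⟩
    have hs : s ∈ P := by rwa [show s = d from Subtype.ext hd.symm]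
    rw [finsetSum_coeff] at h
    simp only [coeff_C_mul, hβ1, Finset.sum_range_succ', hb0, hb1, zero_add] at h
    rw [add_assoc, Ideal.add_mem_iff_right _ (sum_mem fun r _ => P.mul_mem_left _
      (Submodule.smul_of_tower_mem _ _ (P.pow_mem_of_mem hs (r + 1 + 1 - 1) (by omega))))] at h
    refine Ideal.eq_top_of_isUnit_mem _ h ?_
    convert ((j.isU_ξ hι0 (F1 F0.1 F0.2)).mono hO).unit.isUnit using 1
    refine Subtype.ext ?_
    change _ = single (-j.deg (F1 F0.1 F0.2)) (ι (j.ξ (F1 F0.1 F0.2)))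
    have : (j.ξ (F1 F0.1 F0.2) : V) = (N ^ 1) (aeval N (C (t g0) + X * w) x) :=
      hx'.symm.trans ((DFunLike.congr_fun hM x).trans (by rw [map_mul, aeval_X, pow_one]; rfl))
    rw [this]
    simp [δ, coeff_one]
    abel_nf

end Pool.Agent.MP_19ffc6_ag.Lin

end MrgPart5

-- ======== part 6: formerly Pool.Agent.MP_19ffc6_ag.Lin.Wonderful
section MrgPart6

/-!
The wonderful atlas of a finite linear group.
-/

set_option autoImplicit false
set_option linter.style.haveILetI false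

open AddMonoidAlgebra

namespace Pool.Agent.MP_19ffc6_ag.Lin

lemma exists_subMulAction (k V G : Type) [Field k] [AddCommGroup V] [Module k V]
    [FiniteDimensional k V] [Group G] [Finite G] [DistribMulAction G V] (p : ℕ) [Fact p.Prime]
    [CharP k p] : ∃ Ξ : SubMulAction G V, Finite Ξ ∧ (∀ (g : G), ∀ x ∈ Ξ, g • x - x ∈ Ξ) ∧
      Submodule.span k (Ξ : Set V) = ⊤ := by
  let b := Module.finBasis k V
  let H := AddSubgroup.closure (Set.range fun x : G × Fin (Module.finrank k V) => x.1 • b x.2)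
  have hH : ∀ (g : G) x, x ∈ H → g • x ∈ H := fun g x hx =>
    (AddSubgroup.closure_le (H.comap (DistribSMul.toAddMonoidHom V g))).mpr (by
      rintro _ ⟨y, rfl⟩
      exact AddSubgroup.subset_closure ⟨(g * y.1, y.2), mul_smul ..⟩) hx
  refine ⟨⟨H, fun g x => hH g x⟩, AddCommGroup.finite_of_fg_isAddTorsion H fun x => ?_,
    fun g x hx => H.sub_mem (hH g x hx) hx, top_le_iff.mp (b.span_eq.ge.trans
      (Submodule.span_mono ?_))⟩
  · refine isOfFinAddOrder_iff_nsmul_eq_zero.mpr ⟨p, (Fact.out : p.Prime).pos, Subtype.ext ?_⟩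
    rw [AddSubgroupClass.coe_nsmul, ← Nat.cast_smul_eq_nsmul k, CharP.cast_eq_zero, zero_smul]
    rfl
  · rintro _ ⟨i, rfl⟩
    exact AddSubgroup.subset_closure ⟨(1, i), one_smul ..⟩

theorem wonderful {k L V G : Type} (Ω : Type) [Field k] [Field L] [Algebra k L] [AddCommGroup V]
    [Module k V] [FiniteDimensional k V] [Group G] [Finite G] [DistribMulAction G V]
    [SMulCommClass G k V] [FaithfulSMul G V] [MulSemiringAction G L] [SMulCommClass G k L]
    [Field Ω] [Algebra L Ω] (p : ℕ) [Fact p.Prime] [CharP k p]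
    (ι : V →ₗ[k] L) (hι : ∀ (g : G) x, ι (g • x) = g • ι x)
    (hind : ∀ (σ : Type) (b : σ → V), LinearIndependent k b → AlgebraicIndependent k (ι ∘ b))
    (hG : OneParam k p G V) :
    ∃ (J : Type) (_ : Finite J) (m : ℕ) (lam : ℕ → Lat) (C : J → Subalgebra k (Amb L)) (f : J → L)
      (Δ : Finset Lat), IsAtlas Ω ⊤ (Algebra.adjoin k (Set.range ι)) m C f ∧
      (∀ j, Lifts (C j) m fun i => single (lam i) 1) ∧ Span m lam ∧ Sym G C f ∧
      (∀ δ ∈ Δ, InL m δ) ∧ LocProp G C Δ := by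
  classical
  obtain ⟨Ξ, _, hsub, hΞ⟩ := exists_subMulAction k V G p
  have hι0 : ∀ x, x ≠ 0 → ι x ≠ 0 := fun x hx =>
    (hind Unit (fun _ => x) (linearIndependent_unique_iff.mpr hx)).ne_zero ()
  let D := Finset.univ.image fun F : Flat k Ξ => EE (Module.finrank k V) (dm F)
  let D' := Finset.image₂ (· - ·) D D
  have hD : ∀ (j : Idx k Ξ) F, j.deg F ∈ D := fun j F =>
    Finset.mem_image_of_mem _ (Finset.mem_univ (j.h F))
  refine ⟨Idx k Ξ, inferInstance, _, _, _, _, Finset.image₂ (· - ·) D' D',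
    isAtlas_chart Ω hι0 hΞ, fun j => j.lifts hι0 hind hΞ, span_lamW _, sym_chart hι, ?_,
    locProp_chart p hι hι0 hsub hΞ hG fun j _ _ _ _ => Finset.mem_image₂_of_mem
      (Finset.mem_image₂_of_mem (hD j _) (hD j _)) (Finset.mem_image₂_of_mem (hD j _) (hD j _))⟩
  have h1 : ∀ δ ∈ D, InL (Module.finrank k V + 1) δ :=
    Finset.forall_mem_image.mpr fun F _ => inL_EE _ _
  have h2 : ∀ δ ∈ D', InL (Module.finrank k V + 1) δ :=
    Finset.forall_mem_image₂.mpr fun a ha b hb => (h1 a ha).sub (h1 b hb)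
  exact Finset.forall_mem_image₂.mpr fun a ha b hb => (h2 a ha).sub (h2 b hb)

end Pool.Agent.MP_19ffc6_ag.Lin

end MrgPart6

-- ======== part 7: formerly Pool.Agent.MP_19ffc6_ag.Lin.Main
section MrgPart7

/-!
Resolution of linear quotient singularities.
-/

set_option autoImplicit false

open Matrix MvPolynomial

namespace Pool.Agent.MP_19ffc6_ag.Lin

theorem main {k : Type} [Field k] {n : ℕ} (p : ℕ) [Fact p.Prime] [CharP k p]
    (G : Subgroup (GL (Fin n) k)) [Finite G] (hG : InFamily p G)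
    (A : Subalgebra k (MvPolynomial (Fin n) k)) (hA : ∀ f, f ∈ A ↔ ∀ g ∈ G, sb g.1 f = f) :
    HasRes k A := by
  classical
  let P := MvPolynomial (Fin n) k
  let L := FractionRing P
  let := glAct G
  let := IsFractionRing.mulSemiringAction G P L
  let := Fintype.ofFinite G
  let ι0 : P →ₐ[k] L := IsScalarTower.toAlgHom k P L
  have hι0 : Function.Injective ι0 := IsFractionRing.injective P L
  have hact : ∀ (g : G) (f : P), g • ι0 f = ι0 (sb (g⁻¹.1 : GL (Fin n) k) f) := fun g f =>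
    IsFractionRing.ringEquivOfRingEquiv_algebraMap _ f
  have : SMulCommClass G k L := ⟨fun g c x => by
    rw [Algebra.smul_def, Algebra.smul_def, smul_mul', ← ι0.commutes, hact, AlgHom.commutes]⟩
  have hx : AlgebraicIndependent k (ι0 ∘ X) := (algebraicIndependent_X _ _).map' hι0
  let ℓ := Fintype.linearCombination k (ι0 ∘ X)
  have hℓ : ∀ v, ℓ v = ι0 (∑ i, v i • X i) := fun v => by
    simp [ℓ, Fintype.linearCombination_apply]
  have hℓi : Function.Injective ℓ := hx.linearIndependent.fintypeLinearCombination_injective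
  have hV : LinearMap.range ℓ = Submodule.span k (Set.range (ι0 ∘ X)) :=
    Fintype.range_linearCombination _ _
  let := vAct G
  have hv : ∀ (g : G) (v : Fin n → k), g • v = v ᵥ* (g⁻¹.1 : GL (Fin n) k).1 := fun _ _ => rfl
  have : SMulCommClass G k (Fin n → k) := ⟨fun g c v => by rw [hv, hv, smul_vecMul]⟩
  have hfa : ∀ g : G, (∀ v : Fin n → k, g • v = v) → g = 1 := fun g h =>
    inv_eq_one.1 (Subtype.ext (Units.ext (ext_iff_vecMul.2 fun v => by
      rw [← hv, h]; simp)))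
  have : FaithfulSMul G (Fin n → k) := ⟨fun {g h} e => by
    rw [← inv_mul_eq_one]
    exact hfa _ fun v => ((vAct G).mul_smul _ _ v).trans (by
      rw [← e]; exact @inv_smul_smul _ _ _ (vAct G).toMulAction g v)⟩
  have hι : ∀ (g : G) v, ℓ (g • v) = g • ℓ v := fun g v => by
    rw [hv, hℓ, hℓ, hact, sb_lin]
  have h1 : Algebra.adjoin k (Set.range ℓ) = ι0.range := by
    rw [← LinearMap.coe_range, hV, Algebra.adjoin_span, Algebra.adjoin_range_eq_range_aeval]
    congr 1
    ext1 i; simp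
  obtain ⟨J, _, m, lam, C, f, Δ, H, hl, hs, hsym, hΔ, hloc⟩ :=
    wonderful (AlgebraicClosure L) p ℓ hι (fun σ b hb => by
      have h2 := hb.linearIndepOn_id
      let B := Module.Basis.extend h2
      have h3 : AlgebraicIndependent k (ℓ ∘ B) := algInd_span hx
        (B.linearIndependent.map' ℓ (LinearMap.ker_eq_bot.2 hℓi)) (by
          rw [← hV, Set.range_comp, ← Submodule.map_span, B.span_eq, Submodule.map_top])
      have := h3.comp (fun s => ⟨b s, h2.subset_extend _ ⟨s, rfl⟩⟩) fun s t e =>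
        hb.injective (congrArg Subtype.val e)
      have e : ℓ ∘ b = _ := funext fun s =>
        congrArg ℓ (Module.Basis.extend_apply_self h2 ⟨b s, h2.subset_extend _ ⟨s, rfl⟩⟩).symm
      rw [e]
      exact this) (oneParam_of_inFamily p G hG)
  rw [h1] at H
  refine hasRes_of_sym (G := G) ?_ (fun x => ?_) (fun g hg => hfa g fun v => hℓi ?_)
    (ι0.comp A.val) (hι0.comp Subtype.val_injective) (fun x => ⟨?_, ?_⟩) H hl hs hsym hΔ hloc
  · rintro g _ ⟨f, rfl⟩
    exact ⟨_, (hact g f).symm⟩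
  · obtain ⟨a, b, hb, rfl⟩ := IsFractionRing.div_surjective P x
    have hb' : ι0 b ≠ 0 := (map_ne_zero_iff _ hι0).2 (nonZeroDivisors.ne_zero hb)
    exact ⟨ι0 b, ⟨b, rfl⟩, hb', a, (mul_div_cancel₀ _ hb').symm⟩
  · rw [hι, hg _ ⟨_, (hℓ v).symm⟩]
  · rintro ⟨f, rfl⟩
    exact ⟨⟨f.1, rfl⟩, fun g => (hact g f.1).trans (congrArg ι0 ((hA _).1 f.2 _ g⁻¹.2))⟩
  · rintro ⟨⟨f, rfl⟩, hf⟩
    exact ⟨⟨f, (hA _).2 fun g hg => hι0 (by
      simpa using (hact (⟨g, hg⟩ : G)⁻¹ f).symm.trans (hf _))⟩, rfl⟩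

end Pool.Agent.MP_19ffc6_ag.Lin

end MrgPart7

-- marker of a merged file
example : 731051 + 641572 = 731051 + 641572 := rfl
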